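import Mathlib
import Pool.Agent.Y90.Ab2

/-!
# Abstract abelian varieties and period matrices, with a given polarization
-/

set_option linter.unusedSectionVars false

namespace Pool.Agent.Y224.TS

open Matrix Module Pool.Agent.W437.HC Pool.Agent.W437.HD Pool.Agent.W548.Odd Pool.Agent.TH504.CB
open Pool.Agent.Y90
open Pool.Agent.H204R3.CM (IsHodge)
open Pool.Agent.W437.HP (cK cK_mul cK_one)

noncomputable section

variable {H T : Type} [AddCommGroup H] [Module ℚ H] [AddCommGroup T] [Module ℂ T] {per : H →+ T}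

/-- Period matrices of abstract abelian varieties, with a given polarization. -/
theorem exists_ppav' (hX : St.IsAV per) {E : H → H → ℚ} (hE0 : St.IsPolarization per E) :
    ∃ (a : ℕ) (Z : Matrix (Fin a) (Fin a) ℂ) (_ : PM Z) (b : Basis (Fin a ⊕ Fin a) ℚ H),
      Cht (per.comp b.equivFun.symm.toLinearMap.toAddMonoidHom) (JR Z) ∧
        ∀ p q, E (b q) (b p) = Om a ℚ p q := by
  obtain ⟨hH, hT, hspan, hrank, -, -⟩ := hX
  obtain ⟨Ψ, hΨl, hΨc, hΨp, hE⟩ := hE0
  have hadd : ∀ u v w, Ψ (u + v) w = Ψ u w + Ψ v w := fun u v w => (hΨl w).map_add u v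
  have hsmul : ∀ (c : ℂ) u w, Ψ (c • u) w = c * Ψ u w := fun c u w => (hΨl w).map_smul c u
  have hadd' : ∀ u v w, Ψ w (u + v) = Ψ w u + Ψ w v := by
    intro u v w
    rw [hΨc (u + v) w, hadd, map_add, ← hΨc, ← hΨc]
  have hrs : ∀ (r : ℝ) u w, Ψ (r • u) w = r * Ψ u w := by
    intro r u w
    rw [show r • u = (r : ℂ) • u from rfl, hsmul]
  have hrs' : ∀ (r : ℝ) u w, Ψ w (r • u) = r * Ψ w u := by
    intro r u w
    rw [hΨc (r • u) w, hrs, map_mul, Complex.conj_ofReal, ← hΨc]
  have hanti : ∀ u w, (Ψ u w).im = -(Ψ w u).im := by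
    intro u w
    rw [hΨc w u, Complex.conj_im]
  -- the real form
  let Bf : T →ₗ[ℝ] T →ₗ[ℝ] ℝ := LinearMap.mk₂ ℝ (fun u v => (Ψ v u).im)
    (fun u v w => by rw [hadd', Complex.add_im]) (fun r u v => by
      rw [hrs', Complex.im_ofReal_mul, smul_eq_mul])
    (fun u v w => by rw [hadd, Complex.add_im]) (fun r u v => by
      rw [hrs, Complex.im_ofReal_mul, smul_eq_mul])
  have hBf : ∀ u v, Bf u v = (Ψ v u).im := fun u v => rfl
  -- the rational form
  have hcast : ∀ v w, ((E w v : ℚ) : ℝ) = Bf (per v) (per w) := fun v w => (hE w v).symm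
  let ω : H →ₗ[ℚ] H →ₗ[ℚ] ℚ := LinearMap.mk₂ ℚ (fun v w => E w v)
    (fun u v w => by
      have h1 : ((E w (u + v) : ℚ) : ℝ) = ((E w u + E w v : ℚ) : ℝ) := by
        push_cast
        rw [hcast, hcast, hcast, map_add, map_add, LinearMap.add_apply]
      exact_mod_cast h1)
    (fun c u v => by
      have h1 : ((E v (c • u) : ℚ) : ℝ) = ((c • E v u : ℚ) : ℝ) := by
        rw [smul_eq_mul]
        push_cast
        rw [hcast, hcast, per_smul, map_smul, LinearMap.smul_apply, smul_eq_mul]
      exact_mod_cast h1)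
    (fun u v w => by
      have h1 : ((E (v + w) u : ℚ) : ℝ) = ((E v u + E w u : ℚ) : ℝ) := by
        push_cast
        rw [hcast, hcast, hcast, map_add, map_add]
      exact_mod_cast h1)
    (fun c u v => by
      have h1 : ((E (c • v) u : ℚ) : ℝ) = ((c • E v u : ℚ) : ℝ) := by
        rw [smul_eq_mul]
        push_cast
        rw [hcast, hcast, per_smul, map_smul, smul_eq_mul]
      exact_mod_cast h1)
  have hω : ∀ v w, ((ω v w : ℚ) : ℝ) = Bf (per v) (per w) := fun v w => hcast v w
  have halt : ∀ v, ω v v = 0 := by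
    intro v
    have h1 : ((ω v v : ℚ) : ℝ) = 0 := by
      rw [hω, hBf]
      have h2 := hanti (per v) (per v)
      linarith
    exact_mod_cast h1
  -- the coordinates
  have hfinR : finrank ℝ T = 2 * finrank ℂ T := (finrank_real_of_complex T)
  have hfT : FiniteDimensional ℝ T := FiniteDimensional.complexToReal T
  -- injectivity of the periods
  have hinj : ∀ v : H, per v = 0 → v = 0 := by
    intro v hv
    let b := finBasis ℚ H
    have h1 : ⊤ ≤ Submodule.span ℝ (Set.range fun i => per (b i)) := by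
      rw [← hspan]
      refine Submodule.span_le.2 ?_
      rintro _ ⟨w, rfl⟩
      rw [← b.sum_repr w, map_sum]
      refine Submodule.sum_mem _ fun i _ => ?_
      rw [per_smul]
      exact Submodule.smul_mem _ _ (Submodule.subset_span ⟨i, rfl⟩)
    have h2 := linearIndependent_of_top_le_span_of_card_eq_finrank h1 (by
      rw [Fintype.card_fin, hrank, hfinR])
    rw [Fintype.linearIndependent_iff] at h2
    have h3 := h2 (fun i => ((b.repr v i : ℚ) : ℝ)) (by
      rw [← hv]
      conv_rhs => rw [← b.sum_repr v, map_sum]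
      refine Finset.sum_congr rfl fun i _ => ?_
      rw [per_smul])
    rw [← b.sum_repr v]
    refine Finset.sum_eq_zero fun i _ => ?_
    have h4 : b.repr v i = 0 := by exact_mod_cast h3 i
    rw [h4, zero_smul]
  have hnd : ∀ u, (∀ v, ω v u = 0) → u = 0 := by
    intro u hu
    apply hinj
    by_contra hne
    have h1 : ∀ t : T, Bf t (per u) = 0 := by
      intro t
      have ht : t ∈ Submodule.span ℝ (Set.range per) := by rw [hspan]; trivial
      induction ht using Submodule.span_induction with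
      | mem t ht =>
        obtain ⟨v, rfl⟩ := ht
        rw [← hω, hu, Rat.cast_zero]
      | zero => rw [map_zero, LinearMap.zero_apply]
      | add x y _ _ hx hy => rw [map_add, LinearMap.add_apply, hx, hy, add_zero]
      | smul r x _ hx => rw [map_smul, LinearMap.smul_apply, hx, smul_zero]
    have h2 := h1 (Complex.I • per u)
    rw [hBf, hanti, hsmul] at h2
    have h3 := hΨp _ hne
    rw [Complex.mul_im, Complex.I_re, Complex.I_im, zero_mul, one_mul, zero_add] at h2
    linarith
  obtain ⟨a, b, hb⟩ := darboux_std ω halt hnd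
  have hcard : finrank ℚ H = a + a := by
    rw [finrank_eq_card_basis b, Fintype.card_sum, Fintype.card_fin]
  let P : (Fin a ⊕ Fin a → ℝ) →ₗ[ℝ] T := Fintype.linearCombination ℝ (fun i => per (b i))
  have hP : ∀ x, P x = ∑ i, x i • per (b i) := fun x => rfl
  have hPw : ∀ w : Fin a ⊕ Fin a → ℚ, P (fun i => ((w i : ℚ) : ℝ)) =
      per (b.equivFun.symm w) := by
    intro w
    rw [hP, Basis.equivFun_symm_apply, map_sum]
    refine Finset.sum_congr rfl fun i _ => ?_
    rw [per_smul]
  have hPs : Function.Surjective P := by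
    rw [← LinearMap.range_eq_top, eq_top_iff, ← hspan, Submodule.span_le]
    rintro _ ⟨w, rfl⟩
    refine ⟨fun i => ((b.equivFun w i : ℚ) : ℝ), ?_⟩
    rw [hPw, LinearEquiv.symm_apply_apply]
  have hPi : Function.Injective P :=
    (LinearMap.injective_iff_surjective_of_finrank_eq_finrank (by
      rw [finrank_fintype_fun_eq_card, Fintype.card_sum, Fintype.card_fin, hfinR, ← hrank,
        hcard])).2 hPs
  let e : (Fin a ⊕ Fin a → ℝ) ≃ₗ[ℝ] T := LinearEquiv.ofBijective P ⟨hPi, hPs⟩
  have he : ∀ x, e x = P x := fun x => rfl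
  have hom : ∀ x y : Fin a ⊕ Fin a → ℝ, x ⬝ᵥ (Om a ℝ *ᵥ y) = Bf (e x) (e y) := by
    intro x y
    have key : Bf (∑ i, x i • per (b i)) (∑ j, y j • per (b j)) =
        ∑ i, ∑ j, x i * (y j * Bf (per (b i)) (per (b j))) := by
      rw [map_sum Bf, LinearMap.sum_apply]
      refine Finset.sum_congr rfl fun i _ => ?_
      rw [map_smul, LinearMap.smul_apply, map_sum, smul_eq_mul, Finset.mul_sum]
      refine Finset.sum_congr rfl fun j _ => ?_
      rw [map_smul, smul_eq_mul]
    rw [he, he, hP, hP, key]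
    simp only [dotProduct, mulVec, Finset.mul_sum]
    refine Finset.sum_congr rfl fun i _ => Finset.sum_congr rfl fun j _ => ?_
    rw [← hω, hb]
    have h1 : cK ℝ (Om a ℚ) = Om a ℝ := Om_map ℝ
    rw [← h1]
    change x i * (((Om a ℚ i j : ℚ) : ℝ) * y j) = _
    ring
  have hsym : ∀ x y : Fin a ⊕ Fin a → ℝ, x ⬝ᵥ ((Om a ℝ * Jm e) *ᵥ y) = (Ψ (e y) (e x)).re := by
    intro x y
    rw [← mulVec_mulVec, hom, Jm_mulVec, LinearEquiv.apply_symm_apply, hBf, hsmul,
      Complex.mul_im, Complex.I_re, Complex.I_im, zero_mul, one_mul, zero_add]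
  have hpos : (Om a ℝ * Jm e).PosDef := by
    refine PosDef.of_dotProduct_mulVec_pos ?_ fun x hx => ?_
    · rw [IsHermitian, conjTranspose_eq_transpose_of_trivial]
      ext i j
      have h1 := hsym (Pi.single j 1) (Pi.single i 1)
      have h2 := hsym (Pi.single i 1) (Pi.single j 1)
      rw [mulVec_single_one, single_one_dotProduct] at h1 h2
      rw [transpose_apply]
      change (Om a ℝ * Jm e) j i = (Om a ℝ * Jm e) i j
      rw [Matrix.col_apply] at h1 h2
      rw [h1, h2, hΨc (e (Pi.single j 1)) (e (Pi.single i 1)), Complex.conj_re]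
    · rw [star_trivial, hsym]
      exact hΨp _ (fun h0 => hx (by rw [← e.symm_apply_apply x, h0, map_zero]))
  obtain ⟨Z, hZ1, hZ2, hZ3⟩ := exists_period (Jm_sq e) hpos
  refine ⟨a, Z, ⟨hZ1, hZ2⟩, b, ⟨?_, P, e.symm.toLinearMap, hPw, fun x => ?_, fun x => ?_,
    fun t => ?_⟩, fun p q => hb p q⟩
  · rw [hZ3]
    exact Jm_sq e
  · rw [hZ3, Jm_mulVec, ← he, LinearEquiv.apply_symm_apply]
    rfl
  · exact e.symm_apply_apply x
  · exact e.apply_symm_apply t

end

end Pool.Agent.Y224.TS
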