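import Mathlib
import Pool.Agent.Y90.Bal2

/-!
# Lie algebras generated by sets of involutions
-/

set_option linter.unusedSectionVars false

namespace Pool.Agent.Y224.TS

open Matrix Module Pool.Agent.W437.HC Pool.Agent.W437.HD Pool.Agent.W548.Odd Pool.Agent.W522.U
open Pool.Agent.H204R3.SP Pool.Agent.H204R3.GP Pool.Agent.Y90

noncomputable section

section lie

variable {B : Type} [Fintype B] [DecidableEq B]

/-- The Lie algebra generated by a set of matrices. -/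
def LT (S : Set (Matrix B B ℂ)) : Submodule ℂ (Matrix B B ℂ) :=
  sInf {L | (∀ D ∈ S, D ∈ L) ∧ ∀ A ∈ L, ∀ C ∈ L, A * C - C * A ∈ L}

variable {S : Set (Matrix B B ℂ)}

theorem LT_gen {D : Matrix B B ℂ} (hD : D ∈ S) : D ∈ LT S := by
  unfold LT
  rw [Submodule.mem_sInf]
  exact fun L hL => hL.1 D hD

theorem LT_br {X Y : Matrix B B ℂ} (hX : X ∈ LT S) (hY : Y ∈ LT S) : X * Y - Y * X ∈ LT S := by
  unfold LT at *
  rw [Submodule.mem_sInf] at *
  exact fun L hL => hL.2 X (hX L hL) Y (hY L hL)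

theorem LT_le {L : Submodule ℂ (Matrix B B ℂ)} (h1 : ∀ D ∈ S, D ∈ L)
    (h2 : ∀ A ∈ L, ∀ C ∈ L, A * C - C * A ∈ L) : LT S ≤ L := sInf_le ⟨h1, h2⟩

theorem genI_LT (hS : ∀ D ∈ S, D * D = 1) : GenI (GG (LT S)) := by
  intro L h1 h2 y hy
  obtain ⟨A, hA, rfl⟩ := exists_GG hy
  have h3 : LT S ≤ L.comap (ph B).toLinearMap := by
    refine LT_le (fun D hD => ?_) (fun A hA C hC => ?_)
    · exact h1 (ph B D) (mem_GG.2 (LT_gen hD)) (by rw [← map_mul, hS D hD, map_one])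
    · change ph B (A * C - C * A) ∈ L
      rw [map_sub, map_mul, map_mul]
      exact h2 _ hA _ hC
  exact h3 hA

end lie

section gen

variable {B : Type} [Fintype B] [DecidableEq B] {L : Submodule ℂ (Matrix B B ℂ)}

theorem gz_stable (hG : GenI (GG L)) {U : Submodule ℂ (B → ℂ)} (hU : Stab L U)
    (g : Gam (GG L)) : ∀ u ∈ U, RG (GG L) g u ∈ U :=
  (stable_iff hG U).2 (stab_GG.2 hU) g

theorem gz_equiv (hG : GenI (GG L)) {U : Submodule ℂ (B → ℂ)} (hU : Stab L U)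
    (T : (B → ℂ) →ₗ[ℂ] (B → ℂ)) :
    (∀ g : Gam (GG L), ∀ u ∈ U, T (RG (GG L) g u) = RG (GG L) g (T u)) ↔
      ∀ X ∈ L, ∀ u ∈ U, T (X *ᵥ u) = X *ᵥ T u := by
  rw [equiv_iff (V' := B → ℂ) hG U (stab_GG.2 hU) T]
  exact comm_GG (V' := B → ℂ) T

theorem gz_bil (hG : GenI (GG L)) {U U' : Submodule ℂ (B → ℂ)} (hU : Stab L U)
    (hU' : Stab L U') (b : (B → ℂ) →ₗ[ℂ] (B → ℂ) →ₗ[ℂ] ℂ) :
    (∀ g : Gam (GG L), ∀ u ∈ U, ∀ v ∈ U', b (RG (GG L) g u) (RG (GG L) g v) = b u v) ↔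
      ∀ X ∈ L, ∀ u ∈ U, ∀ v ∈ U', b (X *ᵥ u) v + b u (X *ᵥ v) = 0 := by
  rw [bil_iff hG U U' (stab_GG.2 hU) (stab_GG.2 hU') b]
  constructor
  · intro h1 X hX u hu v hv
    exact h1 (ph _ X) (mem_GG.2 hX) u hu v hv
  · intro h1 y hy u hu v hv
    obtain ⟨A, hA, rfl⟩ := exists_GG hy
    exact h1 A hA u hu v hv

theorem gz_du (hG : GenI (GG L)) {U U' : Submodule ℂ (B → ℂ)} (hU : Stab L U)
    (hU' : Stab L U') : Du (RG (GG L)) 1 U U' ↔
      ∃ b : (B → ℂ) →ₗ[ℂ] (B → ℂ) →ₗ[ℂ] ℂ, (∃ u ∈ U, ∃ v ∈ U', b u v ≠ 0) ∧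
          ∀ X ∈ L, ∀ u ∈ U, ∀ v ∈ U', b (X *ᵥ u) v + b u (X *ᵥ v) = 0 := by
  constructor
  · rintro ⟨Δ, hΔ, b, h0, hb⟩
    obtain rfl := fi_top Δ hΔ
    refine ⟨b, h0, (gz_bil hG hU hU' b).1 fun g u hu v hv => ?_⟩
    rw [hb g (Subgroup.mem_top g) u hu v hv, MonoidHom.one_apply, one_mul]
  · rintro ⟨b, h0, hb⟩
    refine ⟨⊤, inferInstance, b, h0, fun g _ u hu v hv => ?_⟩
    rw [(gz_bil hG hU hU' b).2 hb g u hu v hv, MonoidHom.one_apply, one_mul]

theorem gz_proj (hG : GenI (GG L)) (hc : CRed L) : HasProj (RG (GG L)) := by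
  intro Δ hΔ U hU
  obtain rfl := fi_top Δ hΔ
  have hs : Stab L U := stab_GG.1 ((stable_iff hG U).1 fun g u hu =>
    hU g (Subgroup.mem_top g) u hu)
  obtain ⟨π, h1, h2, h3⟩ := hc U hs
  refine ⟨π, h2, h3, fun g _ v => ?_⟩
  exact (gz_equiv hG stab_top π).2 (fun X hX u _ => h1 X hX u) g v trivial

/-- Operators that commute with the matrices. -/
theorem comm_mat (T : (B → ℂ) →ₗ[ℂ] (B → ℂ)) (X : Matrix B B ℂ) :
    (∀ w, T (X *ᵥ w) = X *ᵥ T w) ↔ LinearMap.toMatrix' T * X = X * LinearMap.toMatrix' T := by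
  constructor
  · intro h
    apply Matrix.toLin'.injective
    rw [Matrix.toLin'_mul, Matrix.toLin'_mul, Matrix.toLin'_toMatrix']
    refine LinearMap.ext fun w => ?_
    exact h w
  · intro h w
    have h1 := congrArg (fun M => M *ᵥ w) h
    simp only [← mulVec_mulVec] at h1
    rw [← Matrix.toLin'_apply, Matrix.toLin'_toMatrix', ← Matrix.toLin'_apply (LinearMap.toMatrix' T),
      Matrix.toLin'_toMatrix'] at h1
    exact h1

end gen

section inv

variable {V : Type*} [AddCommGroup V] [Module ℂ V] [FiniteDimensional ℂ V]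

/-- The eigenspaces of an operator in a subspace. -/
def es (D : End ℂ V) (U : Submodule ℂ V) (c : ℂ) : Submodule ℂ V := U ⊓ LinearMap.ker (D - c • 1)

theorem mem_es {D : End ℂ V} {U : Submodule ℂ V} {c : ℂ} {v : V} :
    v ∈ es D U c ↔ v ∈ U ∧ D v = c • v := by
  unfold es
  rw [Submodule.mem_inf, LinearMap.mem_ker, LinearMap.sub_apply, LinearMap.smul_apply,
    Module.End.one_apply, sub_eq_zero]

theorem es_split {D : End ℂ V} (hD : D * D = 1) {U : Submodule ℂ V} (hU : ∀ u ∈ U, D u ∈ U) :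
    es D U 1 ⊓ es D U (-1) = ⊥ ∧ es D U 1 ⊔ es D U (-1) = U := by
  have hDD : ∀ u, D (D u) = u := fun u => by
    rw [← Module.End.mul_apply, hD, Module.End.one_apply]
  constructor
  · rw [eq_bot_iff]
    rintro v ⟨h1, h2⟩
    have e1 := (mem_es.1 h1).2
    have e2 := (mem_es.1 h2).2
    rw [e1] at e2
    rw [Submodule.mem_bot]
    have h3 : (2 : ℂ) • v = 0 := by
      calc (2 : ℂ) • v = (1 : ℂ) • v - (-1 : ℂ) • v := by module
        _ = 0 := by rw [e2, sub_self]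
    exact (smul_eq_zero.1 h3).resolve_left two_ne_zero
  · apply le_antisymm (sup_le inf_le_left inf_le_left)
    intro u hu
    have h1 : u = (1 / 2 : ℂ) • (u + D u) + (1 / 2 : ℂ) • (u - D u) := by module
    rw [h1]
    refine Submodule.add_mem_sup ?_ ?_
    · refine mem_es.2 ⟨U.smul_mem _ (U.add_mem hu (hU u hu)), ?_⟩
      rw [map_smul, map_add, hDD]
      module
    · refine mem_es.2 ⟨U.smul_mem _ (U.sub_mem hu (hU u hu)), ?_⟩
      rw [map_smul, map_sub, hDD]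
      module

theorem es_add {D : End ℂ V} (hD : D * D = 1) {U : Submodule ℂ V} (hU : ∀ u ∈ U, D u ∈ U) :
    finrank ℂ (es D U 1) + finrank ℂ (es D U (-1)) = finrank ℂ U := by
  obtain ⟨h1, h2⟩ := es_split hD hU
  have h3 := Submodule.finrank_sup_add_finrank_inf_eq (es D U 1) (es D U (-1))
  rw [h1, h2, finrank_bot] at h3
  omega

/-- The trace of an involution on the range of a projection which commutes with it. -/
theorem trace_proj {π D : End ℂ V} (hD : D * D = 1) {U : Submodule ℂ V} (h1 : ∀ v, π v ∈ U)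
    (h2 : ∀ u ∈ U, π u = u) (hc : ∀ v, π (D v) = D (π v)) :
    LinearMap.trace ℂ V (π * D) = (finrank ℂ (es D U 1) : ℂ) - finrank ℂ (es D U (-1)) := by
  have hDD : ∀ u, D (D u) = u := fun u => by
    rw [← Module.End.mul_apply, hD, Module.End.one_apply]
  have key : ∀ ε : ℂ, ε * ε = 1 → LinearMap.trace ℂ V ((1 / 2 : ℂ) • (π * (1 + ε • D))) =
      (finrank ℂ (es D U ε) : ℂ) := by
    intro ε hε
    set P : End ℂ V := (1 / 2 : ℂ) • (π * (1 + ε • D)) with hP
    have hPa : ∀ v, P v = (1 / 2 : ℂ) • (π v + ε • D (π v)) := by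
      intro v
      rw [hP, LinearMap.smul_apply, Module.End.mul_apply, LinearMap.add_apply,
        LinearMap.smul_apply, Module.End.one_apply, map_add, map_smul, hc]
    have hPm : ∀ v, P v ∈ es D U ε := by
      intro v
      have hU : D (π v) ∈ U := by rw [← hc]; exact h1 _
      rw [mem_es, hPa]
      refine ⟨U.smul_mem _ (U.add_mem (h1 v) (U.smul_mem _ hU)), ?_⟩
      rw [map_smul, map_add, map_smul, hDD]
      have : ε • π v = ε • π v := rfl
      calc (1 / 2 : ℂ) • (D (π v) + ε • π v) =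
          (1 / 2 : ℂ) • ((ε * ε) • D (π v) + ε • π v) := by rw [hε, one_smul]
        _ = ε • (1 / 2 : ℂ) • (π v + ε • D (π v)) := by module
    have hPi : ∀ v ∈ es D U ε, P v = v := by
      intro v hv
      obtain ⟨h3, h4⟩ := mem_es.1 hv
      rw [hPa, h2 v h3, h4, smul_smul, hε]
      module
    have hproj : LinearMap.IsProj (es D U ε) P := ⟨hPm, hPi⟩
    rw [hproj.trace]
  have h3 := key 1 (by norm_num)
  have h4 := key (-1) (by norm_num)
  rw [← h3, ← h4, ← map_sub]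
  congr 1
  rw [← smul_sub, ← mul_sub]
  have h5 : ((1 : End ℂ V) + (1 : ℂ) • D - (1 + (-1 : ℂ) • D)) = (2 : ℂ) • D := by module
  rw [h5, mul_smul_comm, smul_smul]
  norm_num

end inv

end

end Pool.Agent.Y224.TS
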