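import Mathlib
import Pool.Agent.Y224.TS.T1

/-!
# Comparison of two Lie algebras with the same commutant
-/

set_option linter.unusedSectionVars false

namespace Pool.Agent.Y224.TS

open Matrix Module Pool.Agent.W437.HC Pool.Agent.W437.HD Pool.Agent.W548.Odd Pool.Agent.W522.U
open Pool.Agent.H204R3.SP Pool.Agent.H204R3.GP Pool.Agent.Y90

noncomputable section

variable {G : ℕ} {Z : Matrix (Fin G) (Fin G) ℂ}
  {S : Set (Matrix (Fin G ⊕ Fin G) (Fin G ⊕ Fin G) ℂ)}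

/-- A set of symplectic involutions with the same commutant as the Lie algebra of the period matrix
and with the same traces on the commutant as the conjugates of the complex structure. -/
structure TD (Z : Matrix (Fin G) (Fin G) ℂ)
    (S : Set (Matrix (Fin G ⊕ Fin G) (Fin G ⊕ Fin G) ℂ)) : Prop where
  sq : ∀ D ∈ S, D * D = 1
  sp : ∀ D ∈ S, ∀ u v, om G (D *ᵥ u) v + om G u (D *ᵥ v) = 0
  comm : ∀ P : Matrix (Fin G ⊕ Fin G) (Fin G ⊕ Fin G) ℂ,
    (∀ D ∈ S, P * D = D * P) ↔ ∀ X ∈ LZ Z, P * X = X * P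
  tr : ∀ D ∈ S, ∃ σ : ℂ ≃+* ℂ, ∀ P : Matrix (Fin G ⊕ Fin G) (Fin G ⊕ Fin G) ℂ,
    (∀ X ∈ LZ Z, P * X = X * P) → (P * D).trace = (P * DS Z σ).trace
  ex : ∀ σ : ℂ ≃+* ℂ, ∃ D ∈ S, ∀ P : Matrix (Fin G ⊕ Fin G) (Fin G ⊕ Fin G) ℂ,
    (∀ X ∈ LZ Z, P * X = X * P) → (P * D).trace = (P * DS Z σ).trace
  cr : CRed (LT S)

theorem om_br {X Y : Matrix (Fin G ⊕ Fin G) (Fin G ⊕ Fin G) ℂ}
    (hX : ∀ u v, om G (X *ᵥ u) v + om G u (X *ᵥ v) = 0)
    (hY : ∀ u v, om G (Y *ᵥ u) v + om G u (Y *ᵥ v) = 0) (u v : Fin G ⊕ Fin G → ℂ) :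
    om G ((X * Y - Y * X) *ᵥ u) v + om G u ((X * Y - Y * X) *ᵥ v) = 0 := by
  rw [sub_mulVec, sub_mulVec, ← mulVec_mulVec, ← mulVec_mulVec, ← mulVec_mulVec, ← mulVec_mulVec,
    map_sub, map_sub, LinearMap.sub_apply]
  have e1 := hX (Y *ᵥ u) v
  have e2 := hY (X *ᵥ u) v
  have e3 := hX u (Y *ᵥ v)
  have e4 := hY u (X *ᵥ v)
  linear_combination e1 - e2 + e3 - e4

namespace TD

variable (h : TD Z S)
include h

theorem genI : GenI (GG (LT S)) := genI_LT h.sq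

theorem sp' {X : Matrix (Fin G ⊕ Fin G) (Fin G ⊕ Fin G) ℂ} (hX : X ∈ LT S)
    (u v : Fin G ⊕ Fin G → ℂ) : om G (X *ᵥ u) v + om G u (X *ᵥ v) = 0 := by
  let L : Submodule ℂ (Matrix (Fin G ⊕ Fin G) (Fin G ⊕ Fin G) ℂ) :=
    { carrier := {X | ∀ u v, om G (X *ᵥ u) v + om G u (X *ᵥ v) = 0}
      add_mem' := fun {X Y} hX hY u v => by
        have h1 := hX u v
        have h2 := hY u v
        rw [add_mulVec, add_mulVec, map_add, map_add, LinearMap.add_apply]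
        linear_combination h1 + h2
      zero_mem' := fun u v => by
        rw [zero_mulVec, zero_mulVec, map_zero, map_zero, LinearMap.zero_apply, add_zero]
      smul_mem' := fun c X hX u v => by
        have h1 := hX u v
        rw [smul_mulVec, smul_mulVec, map_smul, map_smul, LinearMap.smul_apply, ← smul_add, h1,
          smul_zero] }
  have hL : LT S ≤ L := LT_le (fun D hD => h.sp D hD) (fun A hA C hC => om_br hA hC)
  exact hL hX u v

/-- The commutant. -/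
theorem comm' (P : Matrix (Fin G ⊕ Fin G) (Fin G ⊕ Fin G) ℂ) :
    (∀ X ∈ LT S, P * X = X * P) ↔ ∀ X ∈ LZ Z, P * X = X * P := by
  rw [← h.comm]
  constructor
  · exact fun h1 D hD => h1 D (LT_gen hD)
  · intro h1
    let L : Submodule ℂ (Matrix (Fin G ⊕ Fin G) (Fin G ⊕ Fin G) ℂ) :=
      { carrier := {X | P * X = X * P}
        add_mem' := fun {X Y} hX hY => by
          change P * (X + Y) = (X + Y) * P
          rw [mul_add, add_mul, show P * X = X * P from hX, show P * Y = Y * P from hY]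
        zero_mem' := by
          change P * 0 = 0 * P
          rw [mul_zero, zero_mul]
        smul_mem' := fun c X hX => by
          change P * (c • X) = (c • X) * P
          rw [mul_smul_comm, smul_mul_assoc, show P * X = X * P from hX] }
    have hL : LT S ≤ L := by
      refine LT_le (fun D hD => h1 D hD) (fun A hA C hC => ?_)
      have hA' : P * A = A * P := hA
      have hC' : P * C = C * P := hC
      change P * (A * C - C * A) = (A * C - C * A) * P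
      rw [mul_sub, sub_mul, ← mul_assoc, hA', mul_assoc, hC', ← mul_assoc, ← mul_assoc P C A, hC',
        mul_assoc C P A, hA', ← mul_assoc]
    exact fun X hX => hL hX

theorem eqv (T : (Fin G ⊕ Fin G → ℂ) →ₗ[ℂ] (Fin G ⊕ Fin G → ℂ)) :
    (∀ X ∈ LT S, ∀ w, T (X *ᵥ w) = X *ᵥ T w) ↔ ∀ X ∈ LZ Z, ∀ w, T (X *ᵥ w) = X *ᵥ T w := by
  have h1 := h.comm' (LinearMap.toMatrix' T)
  constructor
  · intro h2 X hX
    rw [comm_mat]
    exact h1.1 (fun X hX => (comm_mat T X).1 (h2 X hX)) X hX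
  · intro h2 X hX
    rw [comm_mat]
    exact h1.2 (fun X hX => (comm_mat T X).1 (h2 X hX)) X hX

variable (hZ : PM Z)
include hZ

theorem stab {U : Submodule ℂ (Fin G ⊕ Fin G → ℂ)} : Stab (LT S) U ↔ Stab (LZ Z) U := by
  constructor
  · intro hU X hX u hu
    obtain ⟨π, h1, h2, h3⟩ := h.cr U hU
    have h4 := (h.eqv π).1 h1 X hX u
    rw [h3 u hu] at h4
    rw [← h4]
    exact h2 _
  · intro hU X hX u hu
    obtain ⟨π, h1, h2, h3⟩ := hZ.cred U hU
    have h4 := (h.eqv π).2 h1 X hX u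
    rw [h3 u hu] at h4
    rw [← h4]
    exact h2 _

theorem irS {U : Submodule ℂ (Fin G ⊕ Fin G → ℂ)} : IrS (LT S) U ↔ IrS (LZ Z) U := by
  unfold IrS
  rw [h.stab hZ]
  refine and_congr Iff.rfl (and_congr Iff.rfl (forall_congr' fun W => ?_))
  rw [h.stab hZ]

/-- Equivariant maps on a stable subspace. -/
theorem eqv_on {U : Submodule ℂ (Fin G ⊕ Fin G → ℂ)} (hU : Stab (LZ Z) U)
    (T : (Fin G ⊕ Fin G → ℂ) →ₗ[ℂ] (Fin G ⊕ Fin G → ℂ)) :
    (∀ X ∈ LT S, ∀ u ∈ U, T (X *ᵥ u) = X *ᵥ T u) ↔ ∀ X ∈ LZ Z, ∀ u ∈ U, T (X *ᵥ u) = X *ᵥ T u := by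
  obtain ⟨π, h1, h2, h3⟩ := hZ.cred U hU
  have h1' := (h.eqv π).2 h1
  have hU' := (h.stab hZ).2 hU
  have e := h.eqv (T.comp π)
  constructor
  · intro h4 X hX u hu
    have h5 := e.1 (fun X hX w => by
      rw [LinearMap.comp_apply, LinearMap.comp_apply, h1' X hX, h4 X hX _ (h2 w)]) X hX u
    rw [LinearMap.comp_apply, LinearMap.comp_apply, h3 u hu, h3 _ (hU X hX u hu)] at h5
    exact h5
  · intro h4 X hX u hu
    have h5 := e.2 (fun X hX w => by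
      rw [LinearMap.comp_apply, LinearMap.comp_apply, h1 X hX, h4 X hX _ (h2 w)]) X hX u
    rw [LinearMap.comp_apply, LinearMap.comp_apply, h3 u hu, h3 _ (hU' X hX u hu)] at h5
    exact h5

omit hZ in
/-- Invariant bilinear forms. -/
theorem bil (b : (Fin G ⊕ Fin G → ℂ) →ₗ[ℂ] (Fin G ⊕ Fin G → ℂ) →ₗ[ℂ] ℂ)
    (hsp : ∀ X ∈ LZ Z, ∀ u v, om G (X *ᵥ u) v + om G u (X *ᵥ v) = 0) :
    (∀ X ∈ LT S, ∀ u v, b (X *ᵥ u) v + b u (X *ᵥ v) = 0) ↔
      ∀ X ∈ LZ Z, ∀ u v, b (X *ᵥ u) v + b u (X *ᵥ v) = 0 := by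
  have hinj : Function.Injective (om G) := by
    rw [injective_iff_map_eq_zero]
    intro u hu
    exact om_nd u fun v => by rw [hu]; rfl
  have hsurj : Function.Surjective (om G) :=
    (LinearMap.injective_iff_surjective_of_finrank_eq_finrank
      Subspace.dual_finrank_eq.symm).1 hinj
  let e : (Fin G ⊕ Fin G → ℂ) ≃ₗ[ℂ] Dual ℂ (Fin G ⊕ Fin G → ℂ) :=
    LinearEquiv.ofBijective (om G) ⟨hinj, hsurj⟩
  let T : (Fin G ⊕ Fin G → ℂ) →ₗ[ℂ] (Fin G ⊕ Fin G → ℂ) := e.symm.toLinearMap.comp b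
  have hT : ∀ u v, om G (T u) v = b u v := by
    intro u v
    have h1 : e (T u) = b u := e.apply_symm_apply _
    exact LinearMap.congr_fun h1 v
  have key : ∀ X : Matrix (Fin G ⊕ Fin G) (Fin G ⊕ Fin G) ℂ,
      (∀ u v, om G (X *ᵥ u) v + om G u (X *ᵥ v) = 0) →
      ((∀ u v, b (X *ᵥ u) v + b u (X *ᵥ v) = 0) ↔ ∀ w, T (X *ᵥ w) = X *ᵥ T w) := by
    intro X hX
    constructor
    · intro h1 w
      rw [← sub_eq_zero]
      apply om_nd
      intro v
      have h2 := h1 w v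
      have h3 := hX (T w) v
      rw [← hT, ← hT] at h2
      rw [map_sub, LinearMap.sub_apply]
      linear_combination h2 - h3
    · intro h1 u v
      have h3 := hX (T u) v
      rw [← hT, ← hT, h1 u]
      exact h3
  have e := h.eqv T
  constructor
  · intro h1 X hX
    exact (key X (hsp X hX)).2 (e.1 (fun X hX => (key X fun u v => h.sp' hX u v).1 (h1 X hX)) X hX)
  · intro h1 X hX
    exact (key X fun u v => h.sp' hX u v).2 (e.2 (fun X hX => (key X (hsp X hX)).1 (h1 X hX)) X hX)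

/-- Invariant pairings of stable subspaces. -/
theorem bil_on {U U' : Submodule ℂ (Fin G ⊕ Fin G → ℂ)} (hU : Stab (LZ Z) U)
    (hU' : Stab (LZ Z) U') (b : (Fin G ⊕ Fin G → ℂ) →ₗ[ℂ] (Fin G ⊕ Fin G → ℂ) →ₗ[ℂ] ℂ) :
    (∀ X ∈ LT S, ∀ u ∈ U, ∀ v ∈ U', b (X *ᵥ u) v + b u (X *ᵥ v) = 0) ↔
      ∀ X ∈ LZ Z, ∀ u ∈ U, ∀ v ∈ U', b (X *ᵥ u) v + b u (X *ᵥ v) = 0 := by
  obtain ⟨π, h1, h2, h3⟩ := hZ.cred U hU
  obtain ⟨π', h1', h2', h3'⟩ := hZ.cred U' hU'
  have k1 := (h.eqv π).2 h1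
  have k1' := (h.eqv π').2 h1'
  have hV := (h.stab hZ).2 hU
  have hV' := (h.stab hZ).2 hU'
  have e := h.bil (b.compl₁₂ π π') (fun X hX => hZ.om_sp hX)
  simp only [LinearMap.compl₁₂_apply] at e
  constructor
  · intro h4 X hX u hu v hv
    have h5 := e.1 (fun X hX u v => by
      rw [k1 X hX, k1' X hX]
      exact h4 X hX _ (h2 u) _ (h2' v)) X hX u v
    rw [h3 u hu, h3' v hv, h3 _ (hU X hX u hu), h3' _ (hU' X hX v hv)] at h5
    exact h5
  · intro h4 X hX u hu v hv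
    have h5 := e.2 (fun X hX u v => by
      rw [h1 X hX, h1' X hX]
      exact h4 X hX _ (h2 u) _ (h2' v)) X hX u v
    rw [h3 u hu, h3' v hv, h3 _ (hV X hX u hu), h3' _ (hV' X hX v hv)] at h5
    exact h5

theorem du {U U' : Submodule ℂ (Fin G ⊕ Fin G → ℂ)} (hU : Stab (LZ Z) U)
    (hU' : Stab (LZ Z) U') : Du (RG (GG (LT S))) 1 U U' ↔ Du (RZ Z) 1 U U' := by
  rw [gz_du h.genI ((h.stab hZ).2 hU) ((h.stab hZ).2 hU'), rz_du hZ hU hU']
  refine exists_congr fun b => and_congr Iff.rfl ?_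
  exact h.bil_on hZ hU hU' b

theorem tw {U U' : Submodule ℂ (Fin G ⊕ Fin G → ℂ)} (hU : Stab (LZ Z) U) :
    Tw (RG (GG (LT S))) (fun _ => 1) U U' ↔ Tw (RZ Z) (fun _ => 1) U U' := by
  constructor
  · rintro ⟨Δ, hΔ, T, hT1, hT0, hT2⟩
    obtain rfl := fi_top Δ hΔ
    refine ⟨⊤, inferInstance, T, hT1, hT0, fun g _ u hu => ?_⟩
    rw [one_smul]
    refine (rz_equiv hZ hU T).2 ((h.eqv_on hZ hU T).1 ?_) g u hu
    refine (gz_equiv h.genI ((h.stab hZ).2 hU) T).1 fun g u hu => ?_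
    rw [hT2 g (Subgroup.mem_top g) u hu, one_smul]
  · rintro ⟨Δ, hΔ, T, hT1, hT0, hT2⟩
    obtain rfl := fi_top Δ hΔ
    refine ⟨⊤, inferInstance, T, hT1, hT0, fun g _ u hu => ?_⟩
    rw [one_smul]
    refine (gz_equiv h.genI ((h.stab hZ).2 hU) T).2 ((h.eqv_on hZ hU T).2 ?_) g u hu
    refine (rz_equiv hZ hU T).1 fun g u hu => ?_
    rw [hT2 g (Subgroup.mem_top g) u hu, one_smul]

end TD

end

end Pool.Agent.Y224.TS
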