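import Mathlib
import Pool.Agent.Y224.TS.T2

/-!
# Complete reducibility for sets of operators stable under conjugation
-/

set_option linter.unusedSectionVars false

namespace Pool.Agent.Y224.TS

open Matrix Module Pool.Agent.W437.HC Pool.Agent.W437.HD Pool.Agent.W548.Odd Pool.Agent.Y90

noncomputable section

variable {B : Type} [Fintype B] [DecidableEq B] {L : Submodule ℂ (Matrix B B ℂ)}

/-- A Lie algebra acts completely reducibly if the irreducible submodules span the space. -/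
theorem cred_of_span (h : ∀ C : Submodule ℂ (B → ℂ), Stab L C → (∀ T, IrS L T → T ≤ C) → C = ⊤) :
    CRed L := by
  classical
  intro M hM
  -- a maximal stable subspace that meets `M` trivially
  obtain ⟨C, hC, hCM, hCmax⟩ : ∃ C : Submodule ℂ (B → ℂ), Stab L C ∧ C ⊓ M = ⊥ ∧
      ∀ C', Stab L C' → C' ⊓ M = ⊥ → finrank ℂ C' ≤ finrank ℂ C := by
    have hb : ∀ n, (∃ C : Submodule ℂ (B → ℂ), Stab L C ∧ C ⊓ M = ⊥ ∧ finrank ℂ C = n) →
        n ≤ finrank ℂ (B → ℂ) := by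
      rintro n ⟨C, -, -, rfl⟩
      exact Submodule.finrank_le C
    have h0 : ∃ C : Submodule ℂ (B → ℂ), Stab L C ∧ C ⊓ M = ⊥ ∧ finrank ℂ C = 0 :=
      ⟨⊥, fun x _ u hu => by
        rw [Submodule.mem_bot] at hu ⊢
        rw [hu, mulVec_zero], bot_inf_eq _, finrank_bot ℂ (B → ℂ)⟩
    have h1 := Nat.findGreatest_spec (P := fun n => ∃ C : Submodule ℂ (B → ℂ), Stab L C ∧
      C ⊓ M = ⊥ ∧ finrank ℂ C = n) (Nat.zero_le (finrank ℂ (B → ℂ))) h0
    obtain ⟨C, hC, hCM, hCn⟩ := h1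
    refine ⟨C, hC, hCM, fun C' hC' hCM' => ?_⟩
    rw [hCn]
    exact Nat.le_findGreatest (hb _ ⟨C', hC', hCM', rfl⟩) ⟨C', hC', hCM', rfl⟩
  have htop : C ⊔ M = ⊤ := by
    refine h _ (hC.sup hM) fun T hT => ?_
    by_contra hcon
    have hinf := hT.disjoint (hC.sup hM) hcon
    have h1 : (C ⊔ T) ⊓ M = ⊥ := by
      rw [eq_bot_iff]
      rintro w ⟨hw1, hw2⟩
      obtain ⟨c, hc, t, ht, hct⟩ := Submodule.mem_sup.1 hw1
      have h2 : t ∈ T ⊓ (C ⊔ M) := by
        refine ⟨ht, ?_⟩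
        have h3 : t = -c + w := by rw [← hct]; abel
        rw [h3]
        exact Submodule.add_mem_sup (C.neg_mem hc) hw2
      rw [hinf, Submodule.mem_bot] at h2
      rw [h2, add_zero] at hct
      have h3 : w ∈ C ⊓ M := ⟨hct ▸ hc, hw2⟩
      rw [hCM] at h3
      exact h3
    have h2 := hCmax _ (hC.sup hT.2.1) h1
    have h3 : C = C ⊔ T := Submodule.eq_of_le_of_finrank_le le_sup_left h2
    exact hcon (le_sup_of_le_left (h3 ▸ le_sup_right))
  have hcompl : IsCompl M C := by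
    refine ⟨disjoint_iff.2 (by rw [inf_comm]; exact hCM), codisjoint_iff.2 (by
      rw [sup_comm]; exact htop)⟩
  have hPw : ∀ w ∈ M, (M.subtype.comp (M.projectionOnto C hcompl)) w = w := by
    intro w hw
    have h1 := Submodule.projectionOnto_apply_left hcompl ⟨w, hw⟩
    exact congrArg Subtype.val h1
  have hPc : ∀ c ∈ C, (M.subtype.comp (M.projectionOnto C hcompl)) c = 0 := by
    intro c hc
    rw [LinearMap.comp_apply, (Submodule.projectionOnto_apply_eq_zero_iff hcompl).2 hc,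
      map_zero]
  refine ⟨M.subtype.comp (M.projectionOnto C hcompl), fun x hx v => ?_, fun v => SetLike.coe_mem _,
    hPw⟩
  have hv : v ∈ M ⊔ C := by rw [sup_comm, htop]; trivial
  obtain ⟨w, hw, c, hc, rfl⟩ := Submodule.mem_sup.1 hv
  rw [mulVec_add, map_add, map_add, hPw w hw, hPc c hc, hPw _ (hM x hx w hw),
    hPc _ (hC x hx c hc), add_zero, add_zero]

/-- Complete reducibility from that of a group which normalizes the Lie algebra. -/
theorem cred_of_conj {ι : Type} (R : ι → End ℂ (B → ℂ)) (inv : ι → ι)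
    (h1 : ∀ g v, R (inv g) (R g v) = v) (h2 : ∀ g v, R g (R (inv g) v) = v)
    (hproj : ∀ U : Submodule ℂ (B → ℂ), (∀ g, ∀ u ∈ U, R g u ∈ U) →
      ∃ π : (B → ℂ) →ₗ[ℂ] (B → ℂ), (∀ v, π v ∈ U) ∧ (∀ u ∈ U, π u = u) ∧
        ∀ g v, π (R g v) = R g (π v))
    (hst : ∀ U : Submodule ℂ (B → ℂ), (∀ g, ∀ u ∈ U, R g u ∈ U) → Stab L U)
    (hconj : ∀ g, ∀ X ∈ L, ∃ X' ∈ L, ∀ v, R g (X *ᵥ v) = X' *ᵥ (R g v)) : CRed L := by
  have hstab : ∀ g (W : Submodule ℂ (B → ℂ)), Stab L W → Stab L (W.map (R g)) := by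
    rintro g W hW X hX _ ⟨t, ht, rfl⟩
    obtain ⟨X', hX', h3⟩ := hconj (inv g) X hX
    refine ⟨X' *ᵥ t, hW X' hX' t ht, ?_⟩
    have h4 := h3 (R g t)
    rw [h1] at h4
    rw [← h4, h2]
  have hirr : ∀ g (W : Submodule ℂ (B → ℂ)), IrS L W → IrS L (W.map (R g)) := by
    intro g W hW
    refine ⟨fun h0 => hW.1 ?_, hstab g W hW.2.1, fun W' hW' hs => ?_⟩
    · rw [eq_bot_iff]
      intro w hw
      have h3 : R g w ∈ W.map (R g) := ⟨w, hw, rfl⟩
      rw [h0, Submodule.mem_bot] at h3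
      rw [Submodule.mem_bot, ← h1 g w, h3, map_zero]
    · have h3 : W'.map (R (inv g)) ≤ W := by
        rintro _ ⟨w, hw, rfl⟩
        obtain ⟨t, ht, rfl⟩ := hW' hw
        rw [h1]
        exact ht
      rcases hW.2.2 _ h3 (hstab (inv g) W' hs) with h4 | h4
      · left
        rw [eq_bot_iff]
        intro w hw
        have h5 : R (inv g) w ∈ W'.map (R (inv g)) := ⟨w, hw, rfl⟩
        rw [h4, Submodule.mem_bot] at h5
        rw [Submodule.mem_bot, ← h2 g w, h5, map_zero]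
      · right
        apply le_antisymm hW'
        rintro _ ⟨t, ht, rfl⟩
        rw [← h4] at ht
        obtain ⟨w, hw, rfl⟩ := ht
        rw [h2]
        exact hw
  refine cred_of_span fun C hC hCT => ?_
  set M := sSup {T | IrS L T} with hM
  have hMC : M ≤ C := sSup_le fun T hT => hCT T hT
  have hMR : ∀ g, ∀ u ∈ M, R g u ∈ M := by
    intro g
    have h3 : M ≤ M.comap (R g) := by
      refine sSup_le fun T hT u hu => ?_
      have h4 : T.map (R g) ≤ M := le_sSup (hirr g T hT)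
      exact h4 ⟨u, hu, rfl⟩
    exact h3
  obtain ⟨π, hπ1, hπ2, hπ3⟩ := hproj M hMR
  have hk : LinearMap.ker π = ⊥ := by
    by_contra hne
    have h3 : Stab L (LinearMap.ker π) := hst _ fun g u hu => by
      rw [LinearMap.mem_ker] at hu ⊢
      rw [hπ3, hu, map_zero]
    obtain ⟨T, hT, hT'⟩ := exists_irS _ (LinearMap.ker π) rfl hne h3
    apply hT'.1
    rw [eq_bot_iff]
    intro t ht
    have h4 : t ∈ M := (le_sSup hT' : T ≤ M) ht
    have h5 : π t = 0 := hT ht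
    rw [hπ2 t h4] at h5
    rw [Submodule.mem_bot]
    exact h5
  rw [eq_top_iff]
  intro v _
  have h3 : v - π v ∈ LinearMap.ker π := by
    rw [LinearMap.mem_ker, map_sub, hπ2 _ (hπ1 v), sub_self]
  rw [hk, Submodule.mem_bot, sub_eq_zero] at h3
  rw [h3]
  exact hMC (hπ1 v)

/-- The Lie algebra generated by a stable set is stable. -/
theorem LT_conj {S : Set (Matrix B B ℂ)} (r : End ℂ (B → ℂ))
    (hS : ∀ D ∈ S, ∃ D' ∈ S, ∀ v, r (D *ᵥ v) = D' *ᵥ (r v)) :
    ∀ X ∈ LT S, ∃ X' ∈ LT S, ∀ v, r (X *ᵥ v) = X' *ᵥ (r v) := by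
  let C : Submodule ℂ (Matrix B B ℂ) :=
    { carrier := {X | ∃ X' ∈ LT S, ∀ v, r (X *ᵥ v) = X' *ᵥ (r v)}
      add_mem' := by
        rintro X Y ⟨X', hX', hX⟩ ⟨Y', hY', hY⟩
        refine ⟨X' + Y', Submodule.add_mem _ hX' hY', fun v => ?_⟩
        rw [add_mulVec, add_mulVec, map_add, hX, hY]
      zero_mem' := ⟨0, Submodule.zero_mem _, fun v => by rw [zero_mulVec, zero_mulVec, map_zero]⟩
      smul_mem' := by
        rintro c X ⟨X', hX', hX⟩
        refine ⟨c • X', Submodule.smul_mem _ _ hX', fun v => ?_⟩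
        rw [smul_mulVec, smul_mulVec, map_smul, hX] }
  have hC : LT S ≤ C := by
    refine LT_le (fun D hD => ?_) ?_
    · obtain ⟨D', hD', h⟩ := hS D hD
      exact ⟨D', LT_gen hD', h⟩
    · rintro X ⟨X', hX', hX⟩ Y ⟨Y', hY', hY⟩
      refine ⟨X' * Y' - Y' * X', LT_br hX' hY', fun v => ?_⟩
      rw [sub_mulVec, sub_mulVec, ← mulVec_mulVec, ← mulVec_mulVec, ← mulVec_mulVec,
        ← mulVec_mulVec, map_sub, hX, hY, hY, hX]
  exact fun X hX => hC hX

end

end Pool.Agent.Y224.TS
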