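import Mathlib
import Pool.Agent.Y224.TS.T2

/-!
# Descent for matrices that commute with given matrices
-/

set_option linter.unusedSectionVars false

namespace Pool.Agent.Y224.TS

open Matrix Module Pool.Agent.W437.HC Pool.Agent.W437.HD Pool.Agent.W548.Odd Pool.Agent.Y90

noncomputable section

section gen

variable {F Ω : Type} [Field F] [Field Ω] [Algebra F Ω] {B : Type} [Fintype B] [DecidableEq B]

theorem exists_coordF (W : Submodule F Ω) [FiniteDimensional F W] :
    ∃ (m : ℕ) (c : Fin m → Ω) (l : Fin m → (Ω →ₗ[F] F)),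
      ∀ z ∈ W, z = ∑ j, c j * algebraMap F Ω (l j z) := by
  let b := finBasis F W
  have h1 : ∀ j, ∃ l : Ω →ₗ[F] F, l.comp W.subtype = b.coord j := fun j =>
    LinearMap.exists_extend _
  choose l hl using h1
  refine ⟨finrank F W, fun j => b j, l, fun z hz => ?_⟩
  have h2 := congrArg Subtype.val (b.sum_repr ⟨z, hz⟩)
  have h3 : z = ∑ j, ((b.repr ⟨z, hz⟩ j : F) • (b j : Ω)) := by
    conv_lhs => rw [show z = ((⟨z, hz⟩ : W) : Ω) from rfl, ← h2]
    rw [AddSubmonoidClass.coe_finsetSum]
    rfl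
  conv_lhs => rw [h3]
  refine Finset.sum_congr rfl fun j _ => ?_
  have h4 : b.repr ⟨z, hz⟩ j = l j z := by
    have h5 := congrArg (fun f : W →ₗ[F] F => f ⟨z, hz⟩) (hl j)
    exact h5.symm
  rw [h4, Algebra.smul_def, mul_comm]

/-- Expansion of a matrix over the smaller field. -/
theorem mat_expand (P : Matrix B B Ω) : ∃ (m : ℕ) (c : Fin m → Ω) (l : Fin m → (Ω →ₗ[F] F)),
    P = ∑ j, c j • (P.map (l j)).map (algebraMap F Ω) := by
  let W : Submodule F Ω := Submodule.span F (Set.range fun p : B × B => P p.1 p.2)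
  have : FiniteDimensional F W := FiniteDimensional.span_of_finite F (Set.finite_range _)
  obtain ⟨m, c, l, hl⟩ := exists_coordF W
  refine ⟨m, c, l, ?_⟩
  ext i j
  rw [Matrix.sum_apply, hl (P i j) (Submodule.subset_span ⟨(i, j), rfl⟩)]
  refine Finset.sum_congr rfl fun k _ => ?_
  rw [Matrix.smul_apply, Matrix.map_apply, Matrix.map_apply, smul_eq_mul]

/-- Components of a matrix that commutes with a matrix over the smaller field. -/
theorem map_comm {P : Matrix B B Ω} {R : Matrix B B F}
    (h : P * R.map (algebraMap F Ω) = R.map (algebraMap F Ω) * P) (l : Ω →ₗ[F] F) :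
    P.map l * R = R * P.map l := by
  ext i j
  have h1 := congrArg l (congrFun (congrFun h i) j)
  rw [Matrix.mul_apply, Matrix.mul_apply, map_sum, map_sum] at h1
  rw [Matrix.mul_apply, Matrix.mul_apply]
  have e1 : ∀ k, l (P i k * R.map (algebraMap F Ω) k j) = P.map l i k * R k j := by
    intro k
    rw [Matrix.map_apply, Matrix.map_apply, mul_comm (P i k), ← Algebra.smul_def, map_smul,
      smul_eq_mul, mul_comm]
  have e2 : ∀ k, l (R.map (algebraMap F Ω) i k * P k j) = R i k * P.map l k j := by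
    intro k
    rw [Matrix.map_apply, Matrix.map_apply, ← Algebra.smul_def, map_smul, smul_eq_mul]
  rw [← Finset.sum_congr rfl fun k _ => e1 k, ← Finset.sum_congr rfl fun k _ => e2 k]
  exact h1

end gen

theorem qm_eq {B : Type} (u : Matrix B B ℚ) : u.map (algebraMap ℚ ℂ) = qm u := by
  ext i j
  simp [qm]

/-- The components of a matrix in the commutant of a stable space of matrices. -/
theorem map_commutant {B : Type} [Fintype B] [DecidableEq B] {L : Submodule ℂ (Matrix B B ℂ)}
    (hL : Gal L) {P : Matrix B B ℂ} (hP : ∀ X ∈ L, P * X = X * P) (l : ℂ →ₗ[ℚ] ℚ) :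
    ∀ X ∈ L, qm (P.map l) * X = X * qm (P.map l) := by
  refine rational_induction L hL (p := fun X => qm (P.map l) * X = X * qm (P.map l)) ?_ ?_ ?_ ?_
  · intro u hu
    have h1 := hP _ hu
    have h2 : P.map l * u = u * P.map l := by
      refine map_comm ?_ l
      rw [qm_eq]
      exact h1
    change qm (P.map l) * qm u = qm u * qm (P.map l)
    rw [← qm_mul, ← qm_mul, h2]
  · rw [mul_zero, zero_mul]
  · intro X Y hX hY
    rw [mul_add, add_mul, hX, hY]
  · intro c X hX
    rw [mul_smul_comm, smul_mul_assoc, hX]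

/-- Expansion of a matrix in the commutant. -/
theorem commutant_expand {B : Type} [Fintype B] [DecidableEq B]
    {L : Submodule ℂ (Matrix B B ℂ)} (hL : Gal L) {P : Matrix B B ℂ}
    (hP : ∀ X ∈ L, P * X = X * P) : ∃ (m : ℕ) (c : Fin m → ℂ) (Q : Fin m → Matrix B B ℚ),
      (∀ j, ∀ X ∈ L, qm (Q j) * X = X * qm (Q j)) ∧ P = ∑ j, c j • qm (Q j) := by
  obtain ⟨m, c, l, h⟩ := mat_expand (F := ℚ) P
  refine ⟨m, c, fun j => P.map (l j), fun j => map_commutant hL hP (l j), ?_⟩
  conv_lhs => rw [h]
  refine Finset.sum_congr rfl fun j _ => ?_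
  rw [qm_eq]

end

end Pool.Agent.Y224.TS
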