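import Mathlib
import Pool.Agent.Y90.Wei8
import Pool.Agent.Y224.TS.D1

/-!
# Endomorphisms and rational matrices
-/

set_option linter.unusedSectionVars false

namespace Pool.Agent.Y224.TS

open Matrix Module Pool.Agent.W437.HC Pool.Agent.W437.HD Pool.Agent.W548.Odd Pool.Agent.Y90

noncomputable section

/-- Extension of scalars from the reals. -/
def cR {B : Type} (x : B → ℝ) : B → ℂ := fun i => ((x i : ℝ) : ℂ)

/-- Extension of scalars for real matrices. -/
def mR {B : Type} (M : Matrix B B ℝ) : Matrix B B ℂ := M.map (fun x : ℝ => (x : ℂ))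

theorem cR_add {B : Type} (x y : B → ℝ) : cR (x + y) = cR x + cR y := by
  funext i
  simp [cR]

theorem cR_smul {B : Type} (r : ℝ) (x : B → ℝ) : cR (r • x) = (r : ℂ) • cR x := by
  funext i
  simp [cR]

theorem mR_mulVec {B : Type} [Fintype B] (M : Matrix B B ℝ) (x : B → ℝ) :
    mR M *ᵥ cR x = cR (M *ᵥ x) := by
  funext i
  simp [mR, cR, mulVec, dotProduct]

theorem mR_mul {B : Type} [Fintype B] (M N : Matrix B B ℝ) : mR (M * N) = mR M * mR N := by
  ext i j
  simp [mR, Matrix.mul_apply]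

theorem mR_inj {B : Type} {M N : Matrix B B ℝ} (h : mR M = mR N) : M = N := by
  ext i j
  have h1 := congrFun (congrFun h i) j
  simpa [mR] using h1

variable {B : Type} [Fintype B] [DecidableEq B] {T : Type} [AddCommGroup T] [Module ℂ T]
  {per : (B → ℚ) →+ T} {J : Matrix B B ℝ}

theorem cR_single (i : B) : cR (Pi.single i 1 : B → ℝ) = (Pi.single i 1 : B → ℂ) := by
  funext j
  unfold cR
  by_cases h : j = i
  · subst h
    rw [Pi.single_eq_same, Pi.single_eq_same, Complex.ofReal_one]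
  · rw [Pi.single_eq_of_ne h, Pi.single_eq_of_ne h, Complex.ofReal_zero]

theorem map_trace' (σ : ℂ ≃+* ℂ) (M : Matrix B B ℂ) : (M.map σ).trace = σ M.trace := by
  unfold Matrix.trace
  rw [map_sum]
  rfl

theorem DJ_eq : DJ J = (-Complex.I) • mR J := rfl

theorem mR_eq : mR J = Complex.I • DJ J := by
  rw [DJ_eq, smul_smul]
  simp

/-- The real form of a rational matrix. -/
def rq (Q : Matrix B B ℚ) : Matrix B B ℝ := Q.map (fun q : ℚ => (q : ℝ))

theorem mR_rq (Q : Matrix B B ℚ) : mR (rq Q) = qm Q := by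
  ext i j
  simp [mR, rq, qm]

theorem rq_mulVec (Q : Matrix B B ℚ) (v : B → ℚ) :
    rq Q *ᵥ (fun i => ((v i : ℚ) : ℝ)) = fun i => (((Q *ᵥ v) i : ℚ) : ℝ) := by
  funext i
  simp [rq, mulVec, dotProduct]

theorem DJ_sq (h : J * J = -1) : DJ J * DJ J = 1 := by
  rw [DJ_eq, smul_mul_smul_comm, ← mR_mul, h]
  ext i j
  by_cases hij : i = j
  · subst hij
    simp [mR]
  · simp [mR, hij]

section real

variable {P : (B → ℝ) →ₗ[ℝ] T} {I : T →ₗ[ℝ] (B → ℝ)}
  (hP : ∀ w : B → ℚ, P (fun i => ((w i : ℚ) : ℝ)) = per w)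
  (hJ : ∀ x, P (J *ᵥ x) = Complex.I • P x) (hI : ∀ x, I (P x) = x) (hI' : ∀ t, P (I t) = t)
include hP hJ hI hI'

omit hJ hI hI' in
theorem P_rq {Q : Matrix B B ℚ} {Ψ : T →ₗ[ℂ] T} (hΨ : ∀ v, Ψ (per v) = per (Q *ᵥ v))
    (x : B → ℝ) : P (rq Q *ᵥ x) = Ψ (P x) := by
  have h1 : P.comp (Matrix.toLin' (rq Q)) = (Ψ.restrictScalars ℝ).comp P := by
    refine LinearMap.pi_ext' fun i => ?_
    refine LinearMap.ext_ring ?_
    change P (Matrix.toLin' (rq Q) (Pi.single i 1)) = Ψ (P (Pi.single i 1))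
    rw [← single_castR, Matrix.toLin'_apply, rq_mulVec, hP, hP, hΨ]
  exact LinearMap.congr_fun h1 x

theorem comm_J {Q : Matrix B B ℚ} {Ψ : T →ₗ[ℂ] T} (hΨ : ∀ v, Ψ (per v) = per (Q *ᵥ v)) :
    qm Q * DJ J = DJ J * qm Q := by
  have h1 : rq Q * J = J * rq Q := by
    apply Matrix.toLin'.injective
    refine LinearMap.ext fun x => ?_
    rw [Matrix.toLin'_apply, Matrix.toLin'_apply, ← mulVec_mulVec, ← mulVec_mulVec,
      ← hI (rq Q *ᵥ (J *ᵥ x)), P_rq hP hΨ, hJ, map_smul, ← P_rq hP hΨ, ← hJ, hI]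
  rw [DJ_eq, mul_smul_comm, smul_mul_assoc, ← mR_rq, ← mR_mul, ← mR_mul, h1]

theorem exists_psi {Q : Matrix B B ℚ} (h : qm Q * DJ J = DJ J * qm Q) :
    ∃ Ψ : T →ₗ[ℂ] T, ∀ v, Ψ (per v) = per (Q *ᵥ v) := by
  have h1 : rq Q * J = J * rq Q := by
    apply mR_inj
    rw [mR_mul, mR_mul, mR_rq, mR_eq, mul_smul_comm, smul_mul_assoc, h]
  have h2 : ∀ t, I (Complex.I • t) = J *ᵥ I t := by
    intro t
    rw [← hI (J *ᵥ I t), hJ, hI']
  refine ⟨{ toFun := fun t => P (rq Q *ᵥ I t), map_add' := fun s t => ?_,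
            map_smul' := fun z t => ?_ }, fun v => ?_⟩
  · rw [map_add, mulVec_add, map_add]
  · rw [RingHom.id_apply]
    have h3 : z • t = z.re • t + z.im • (Complex.I • t) := by
      rw [smul_rot, Complex.re_add_im]
    have h4 : z • P (rq Q *ᵥ I t) = z.re • P (rq Q *ᵥ I t) +
        z.im • (Complex.I • P (rq Q *ᵥ I t)) := by
      rw [smul_rot, Complex.re_add_im]
    rw [h4, h3, map_add, map_smul, map_smul, h2, mulVec_add, mulVec_smul, mulVec_smul,
      mulVec_mulVec, h1, ← mulVec_mulVec, map_add, map_smul, map_smul, hJ]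
  · change P (rq Q *ᵥ I (per v)) = _
    rw [← hP, hI, rq_mulVec, hP]

/-- The trace of an endomorphism on the tangent space. -/
theorem trace_psi (hsq : J * J = -1) {Q : Matrix B B ℚ} {Ψ : T →ₗ[ℂ] T}
    (hΨ : ∀ v, Ψ (per v) = per (Q *ᵥ v)) :
    (qm Q * DJ J).trace = 2 * LinearMap.trace ℂ T Ψ - (qm Q).trace := by
  have hDD := DJ_sq hsq
  have : Module.Finite ℝ T := Module.Finite.of_surjective P fun t => ⟨I t, hI' t⟩
  have : Module.Finite ℂ T := Module.Finite.of_restrictScalars_finite ℝ ℂ T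
  have h2 : ∀ t, I (Complex.I • t) = J *ᵥ I t := by
    intro t
    rw [← hI (J *ᵥ I t), hJ, hI']
  let Qc : (B → ℂ) →ₗ[ℂ] T := Fintype.linearCombination ℂ (fun i => P (Pi.single i 1))
  have hQ1 : ∀ x : B → ℝ, Qc (cR x) = P x := by
    intro x
    change ∑ i, cR x i • P (Pi.single i 1) = P x
    conv_rhs => rw [pi_eq_sum_univ' x, map_sum]
    refine Finset.sum_congr rfl fun i _ => ?_
    rw [map_smul]
    rfl
  have hQ2 : Qc.comp (Matrix.toLin' (DJ J)) = Qc := by
    refine LinearMap.pi_ext' fun i => LinearMap.ext_ring ?_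
    change Qc (Matrix.toLin' (DJ J) (Pi.single i 1)) = Qc (Pi.single i 1)
    rw [← cR_single, Matrix.toLin'_apply, DJ_eq, smul_mulVec, mR_mulVec, map_smul, hQ1, hQ1, hJ,
      smul_smul]
    simp
  have hQ2' : ∀ v, Qc (DJ J *ᵥ v) = Qc v := fun v => LinearMap.congr_fun hQ2 v
  let R : T →ₗ[ℂ] (B → ℂ) :=
    { toFun := fun t => (1 / 2 : ℂ) • (cR (I t) + DJ J *ᵥ cR (I t))
      map_add' := fun s t => by
        rw [map_add, cR_add, mulVec_add]
        module
      map_smul' := fun z t => by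
        rw [RingHom.id_apply]
        have h3 : z • t = z.re • t + z.im • (Complex.I • t) := by
          rw [smul_rot, Complex.re_add_im]
        have h4 : cR (J *ᵥ I t) = Complex.I • (DJ J *ᵥ cR (I t)) := by
          rw [← mR_mulVec, mR_eq, smul_mulVec]
        rw [h3, map_add, map_smul, map_smul, h2, cR_add, cR_smul, cR_smul, h4, mulVec_add,
          mulVec_smul, mulVec_smul, mulVec_smul, mulVec_mulVec, hDD, one_mulVec]
        have h5 : z = (z.re : ℂ) + (z.im : ℂ) * Complex.I := (Complex.re_add_im z).symm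
        generalize DJ J *ᵥ cR (I t) = w
        generalize cR (I t) = u
        conv_rhs => rw [h5]
        module }
  have hR : ∀ t, R t = (1 / 2 : ℂ) • (cR (I t) + DJ J *ᵥ cR (I t)) := fun t => rfl
  have hQR : Qc.comp R = LinearMap.id := by
    refine LinearMap.ext fun t => ?_
    rw [LinearMap.comp_apply, hR, map_smul, map_add, hQ2', hQ1, hI', LinearMap.id_apply]
    module
  have hRQ : R.comp Qc = (1 / 2 : ℂ) • (LinearMap.id + Matrix.toLin' (DJ J)) := by
    refine LinearMap.pi_ext' fun i => LinearMap.ext_ring ?_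
    change R (Qc (Pi.single i 1)) = (1 / 2 : ℂ) • (Pi.single i 1 + Matrix.toLin' (DJ J) (Pi.single i 1))
    rw [← cR_single, hQ1, hR, hI]
    rfl
  have hΨc : Qc.comp (Matrix.toLin' (qm Q)) = Ψ.comp Qc := by
    refine LinearMap.pi_ext' fun i => LinearMap.ext_ring ?_
    change Qc (Matrix.toLin' (qm Q) (Pi.single i 1)) = Ψ (Qc (Pi.single i 1))
    rw [← cR_single, Matrix.toLin'_apply, ← mR_rq, mR_mulVec, hQ1, hQ1, P_rq hP hΨ]
  have h3 : LinearMap.trace ℂ _ ((Matrix.toLin' (qm Q)).comp (R.comp Qc)) =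
      LinearMap.trace ℂ T Ψ := by
    rw [← LinearMap.comp_assoc, LinearMap.trace_comp_comm', ← LinearMap.comp_assoc, hΨc,
      LinearMap.comp_assoc, hQR, LinearMap.comp_id]
  rw [hRQ, LinearMap.comp_smul, LinearMap.comp_add, LinearMap.comp_id, map_smul, map_add,
    ← Matrix.toLin'_mul, Matrix.trace_toLin'_eq, Matrix.trace_toLin'_eq, smul_eq_mul] at h3
  linear_combination 2 * h3

end real

section Z

variable {G : ℕ} {Z : Matrix (Fin G) (Fin G) ℂ} {per : (Fin G ⊕ Fin G → ℚ) →+ T}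
  (h : Cht per (JR Z))
include h

/-- Endomorphisms are the rational matrices in the commutant of the Lie algebra. -/
theorem end_iff {Q : Matrix (Fin G ⊕ Fin G) (Fin G ⊕ Fin G) ℚ} :
    (∃ Ψ : T →ₗ[ℂ] T, ∀ v, Ψ (per v) = per (Q *ᵥ v)) ↔
      ∀ X ∈ LZ Z, qm Q * X = X * qm Q := by
  obtain ⟨P, I, hP, hJ, hI, hI'⟩ := h.ex
  constructor
  · rintro ⟨Ψ, hΨ⟩
    have h1 : qm Q * DZ Z = DZ Z * qm Q := comm_J hP hJ hI hI' hΨ
    let L : Submodule ℂ (Matrix (Fin G ⊕ Fin G) (Fin G ⊕ Fin G) ℂ) :=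
      { carrier := {X | qm Q * X = X * qm Q}
        add_mem' := fun {X Y} hX hY => by
          change qm Q * (X + Y) = (X + Y) * qm Q
          rw [mul_add, add_mul, show qm Q * X = X * qm Q from hX,
            show qm Q * Y = Y * qm Q from hY]
        zero_mem' := by
          change qm Q * 0 = 0 * qm Q
          rw [mul_zero, zero_mul]
        smul_mem' := fun c X hX => by
          change qm Q * (c • X) = (c • X) * qm Q
          rw [mul_smul_comm, smul_mul_assoc, show qm Q * X = X * qm Q from hX] }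
    have hL : LZ Z ≤ L := by
      refine LZ_le (fun σ => ?_) (fun A hA C hC => ?_)
      · change qm Q * DS Z σ = DS Z σ * qm Q
        have h2 := congrArg (fun M : Matrix (Fin G ⊕ Fin G) (Fin G ⊕ Fin G) ℂ => M.map σ) h1
        beta_reduce at h2
        rw [Matrix.map_mul, Matrix.map_mul] at h2
        have h3 : (qm Q).map σ = qm Q := qm_aut Q (σ : ℂ →+* ℂ)
        rw [h3] at h2
        exact h2
      · have hA' : qm Q * A = A * qm Q := hA
        have hC' : qm Q * C = C * qm Q := hC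
        change qm Q * (A * C - C * A) = (A * C - C * A) * qm Q
        rw [mul_sub, sub_mul, ← mul_assoc, hA', mul_assoc, hC', ← mul_assoc, ← mul_assoc (qm Q) C A,
          hC', mul_assoc C (qm Q) A, hA', ← mul_assoc]
    exact fun X hX => hL hX
  · intro h1
    exact exists_psi hP hJ hI hI' (h1 _ DZ_mem)

theorem trace_DZ {Q : Matrix (Fin G ⊕ Fin G) (Fin G ⊕ Fin G) ℚ} {Ψ : T →ₗ[ℂ] T}
    (hΨ : ∀ v, Ψ (per v) = per (Q *ᵥ v)) (σ : ℂ ≃+* ℂ) :
    (qm Q * DS Z σ).trace = 2 * σ (LinearMap.trace ℂ T Ψ) - (qm Q).trace := by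
  obtain ⟨P, I, hP, hJ, hI, hI'⟩ := h.ex
  have h1 : (qm Q * DZ Z).trace = _ := trace_psi hP hJ hI hI' h.sq hΨ
  have h3 : (qm Q).map σ = qm Q := qm_aut Q (σ : ℂ →+* ℂ)
  have h2 : (qm Q * DS Z σ).trace = σ ((qm Q * DZ Z).trace) := by
    have h4 : qm Q * DS Z σ = (qm Q * DZ Z).map σ := by
      rw [Matrix.map_mul, h3]
      rfl
    rw [h4, map_trace']
  have h5 : σ ((qm Q).trace) = (qm Q).trace := by
    rw [← map_trace', h3]
  rw [h2, h1, map_sub, map_mul, h5, map_ofNat]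

end Z

end

end Pool.Agent.Y224.TS
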