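import Mathlib
import Pool.Agent.Y90.Stm

/-!
# The Tate module of a polarized abelian variety over a number field

Let `X` be an abelian variety over a number field `F ⊆ ℂ`, with a polarization over `F`. As in
`Pool.Agent.Y90.Stm` the complex abelian variety is described by the rational vector space
`H = H_1(X, ℚ)`, the tangent space `T` and the period map `per : H → T`, and the polarization by its
Riemann form `E`. Let `K = ℚ_ℓ`. By the comparison theorem `V = K ⊗ H` is the rational Tate module
of `X`, so that the absolute Galois group `Γ` of `F` acts on it; this is the representation `ρ`,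
and `χ : Γ → K` is the cyclotomic character. The field `ℂ` is considered as an algebraic closure
of `K`. The structures below collect the known properties of `ρ` and `χ`.

More generally `F` may be a finitely generated field of characteristic zero: by a theorem of Serre
there is a specialization of `X` over a number field whose Galois group has the same image in the
automorphism group of the Tate module, up to finite index, and whose endomorphisms are those of
`X` (Faltings); its Hodge–Tate elements have all the properties below.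
-/

namespace Pool.Agent.Y224.TS.St

open Pool.Agent.Y90.St TensorProduct

variable {H T : Type} [AddCommGroup H] [Module ℚ H] [AddCommGroup T] [Module ℂ T]
  {K : Type} [Field K] [CharZero K] [Algebra K ℂ] {Γ : Type} [Group Γ]

/-- `h` is a Hodge–Tate element for the embedding `F ⊆ ℂ → ℂ` given by the automorphism `σ` of
`ℂ ≅ K^alg`: an endomorphism of `ℂ ⊗ V` (the derivative of a Hodge–Tate cocharacter) such that
* `h` has only the weights zero and one;
* `h` acts as `m` on each Tate tensor of weight `m`, that is, on each multilinear form in `2 m`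
  variables on `ℂ ⊗ V` on which a subgroup of finite index acts through the `m`-th power of the
  cyclotomic character;
* the trace of each endomorphism `a` of `X` on the part of weight one of `ℂ ⊗ V`, which is the trace
  of `a h`, is the conjugate under `σ` of its trace on the tangent space `T`. -/
structure IsHodgeTate (per : H →+ T) (ρ : Representation K Γ (K ⊗[ℚ] H)) (χ : Γ →* K)
    (σ : ℂ ≃+* ℂ) (h : Module.End ℂ (ℂ ⊗[K] (K ⊗[ℚ] H))) : Prop where
  idem : ∀ v, h (h v) = h v
  tate : ∀ (m : ℕ) (φ : MultilinearMap ℂ (fun _ : Fin m × Fin 2 => ℂ ⊗[K] (K ⊗[ℚ] H)) ℂ),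
    (∃ Δ : Subgroup Γ, Δ.FiniteIndex ∧ ∀ s ∈ Δ, ∀ v,
      φ (fun k => (ρ s).baseChange ℂ (v k)) = algebraMap K ℂ (χ s) ^ m * φ v) →
    ∀ v, ∑ k, φ (Function.update v k (h (v k))) = m * φ v
  trace : ∀ (a : H →ₗ[ℚ] H) (Ψ : T →ₗ[ℂ] T), (∀ v, Ψ (per v) = per (a v)) →
    LinearMap.trace ℂ (ℂ ⊗[K] (K ⊗[ℚ] H)) ((a.baseChange K).baseChange ℂ ∘ₗ h) =
      σ (LinearMap.trace ℂ T Ψ)

/-- The known properties of the Tate module `V = K ⊗ H` (`K = ℚ_ℓ`) of an abelian variety over a
number field with the polarization `E`. -/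
structure IsTateModule (per : H →+ T) (E : H → H → ℚ) (ρ : Representation K Γ (K ⊗[ℚ] H))
    (χ : Γ →* K) : Prop where
  /-- the Weil pairing -/
  weil : ∃ ω : (K ⊗[ℚ] H) →ₗ[K] (K ⊗[ℚ] H) →ₗ[K] K,
    (∀ u v : H, ω (1 ⊗ₜ u) (1 ⊗ₜ v) = ((E u v : ℚ) : K)) ∧
      ∀ g u v, ω (ρ g u) (ρ g v) = χ g * ω u v
  /-- the endomorphisms of `X` are defined over a finite extension -/
  endo : ∀ a : H →ₗ[ℚ] H, IsHom per per a → ∃ Δ : Subgroup Γ, Δ.FiniteIndex ∧
    ∀ g ∈ Δ, ∀ v, ρ g (a.baseChange K v) = a.baseChange K (ρ g v)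
  /-- Faltings: the Tate module is semisimple, also over finite extensions -/
  semisimple : ∀ Δ : Subgroup Γ, Δ.FiniteIndex → ∀ U : Submodule K (K ⊗[ℚ] H),
    (∀ g ∈ Δ, ∀ u ∈ U, ρ g u ∈ U) →
      ∃ U' : Submodule K (K ⊗[ℚ] H), (∀ g ∈ Δ, ∀ u ∈ U', ρ g u ∈ U') ∧ IsCompl U U'
  /-- Faltings: the endomorphisms of the Tate module over finite extensions are combinations of
  endomorphisms of `X` -/
  faltings : ∀ Δ : Subgroup Γ, Δ.FiniteIndex → ∀ f : Module.End K (K ⊗[ℚ] H),
    (∀ g ∈ Δ, ∀ v, ρ g (f v) = f (ρ g v)) →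
      f ∈ Submodule.span K {f' | ∃ a : H →ₗ[ℚ] H, IsHom per per a ∧ f' = a.baseChange K}
  /-- Tate, Raynaud, Fontaine: the Hodge–Tate decomposition -/
  hodgeTate : ∀ σ : ℂ ≃+* ℂ, ∃ h, IsHodgeTate per ρ χ σ h
  /-- Serre, Pink: the Hodge–Tate elements generate the Lie algebra of the image of `Γ`, so an
  endomorphism which commutes with them commutes with a subgroup of finite index -/
  serre : ∀ f : Module.End ℂ (ℂ ⊗[K] (K ⊗[ℚ] H)),
    (∀ σ h, IsHodgeTate per ρ χ σ h → ∀ v, f (h v) = h (f v)) →
      ∃ Δ : Subgroup Γ, Δ.FiniteIndex ∧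
        ∀ g ∈ Δ, ∀ v, f ((ρ g).baseChange ℂ v) = (ρ g).baseChange ℂ (f v)

end Pool.Agent.Y224.TS.St
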