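import Mathlib
import Pool.Agent.Y224.TS.Stm
import Pool.Agent.Y224.TS.D2
import Pool.Agent.W839.OT.HTFam
import Pool.Agent.W522.U.C9

/-!
# Coordinates on the Tate module
-/

set_option linter.unusedSectionVars false

namespace Pool.Agent.Y224.TS

open Matrix Module Pool.Agent.W437.HC Pool.Agent.W437.HD Pool.Agent.W548.Odd Pool.Agent.Y90
open Pool.Agent.H204R3.SP Pool.Agent.H204R3.GP TensorProduct
open St (IsHodgeTate IsTateModule)

noncomputable section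

variable {H : Type} [AddCommGroup H] [Module ℚ H] {K : Type} [Field K] [CharZero K] [Algebra K ℂ]
  {B : Type} [Fintype B] [DecidableEq B] (b : Basis B ℚ H)

variable (K) in
/-- The basis of the Tate module. -/
def bV : Basis B K (K ⊗[ℚ] H) := Algebra.TensorProduct.basis K b

variable (K) in
/-- The basis of the extension of scalars of the Tate module. -/
def bY : Basis B ℂ (ℂ ⊗[K] (K ⊗[ℚ] H)) := Algebra.TensorProduct.basis ℂ (bV K b)

theorem bV_apply (i : B) : bV K b i = (1 : K) ⊗ₜ[ℚ] b i := Algebra.TensorProduct.basis_apply _ _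

theorem bY_apply (i : B) : bY K b i = (1 : ℂ) ⊗ₜ[K] ((1 : K) ⊗ₜ[ℚ] b i) := by
  unfold bY
  rw [Algebra.TensorProduct.basis_apply, bV_apply]

variable (K) in
/-- The coordinates. -/
def eY : (ℂ ⊗[K] (K ⊗[ℚ] H)) ≃ₗ[ℂ] (B → ℂ) := (bY K b).equivFun

/-- The matrix of an operator. -/
def mt (f : Module.End ℂ (ℂ ⊗[K] (K ⊗[ℚ] H))) : Matrix B B ℂ :=
  LinearMap.toMatrix (bY K b) (bY K b) f

theorem mt_mulVec (f : Module.End ℂ (ℂ ⊗[K] (K ⊗[ℚ] H))) (v : ℂ ⊗[K] (K ⊗[ℚ] H)) :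
    mt b f *ᵥ eY K b v = eY K b (f v) := LinearMap.toMatrix_mulVec_repr _ _ _ _

theorem mt_mul (f g : Module.End ℂ (ℂ ⊗[K] (K ⊗[ℚ] H))) : mt b (f * g) = mt b f * mt b g :=
  LinearMap.toMatrix_mul _ _ _

theorem mt_one : mt b (1 : Module.End ℂ (ℂ ⊗[K] (K ⊗[ℚ] H))) = 1 := LinearMap.toMatrix_one _

theorem mt_sub (f g : Module.End ℂ (ℂ ⊗[K] (K ⊗[ℚ] H))) : mt b (f - g) = mt b f - mt b g :=
  map_sub _ _ _

theorem mt_smul (c : ℂ) (f : Module.End ℂ (ℂ ⊗[K] (K ⊗[ℚ] H))) : mt b (c • f) = c • mt b f :=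
  map_smul _ _ _

theorem mt_inj {f g : Module.End ℂ (ℂ ⊗[K] (K ⊗[ℚ] H))} (h : mt b f = mt b g) : f = g :=
  (LinearMap.toMatrix (bY K b) (bY K b)).injective h

theorem mt_surj (M : Matrix B B ℂ) : ∃ f : Module.End ℂ (ℂ ⊗[K] (K ⊗[ℚ] H)), mt b f = M :=
  ⟨Matrix.toLin (bY K b) (bY K b) M, LinearMap.toMatrix_toLin _ _ _⟩

theorem trace_mt (f : Module.End ℂ (ℂ ⊗[K] (K ⊗[ℚ] H))) :
    (mt b f).trace = LinearMap.trace ℂ (ℂ ⊗[K] (K ⊗[ℚ] H)) f :=
  (LinearMap.trace_eq_matrix_trace ℂ (bY K b) f).symm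

/-- The matrix of an operator over the smaller field. -/
theorem mt_bc (f : Module.End K (K ⊗[ℚ] H)) :
    mt b (f.baseChange ℂ) = (LinearMap.toMatrix (bV K b) (bV K b) f).map (algebraMap K ℂ) :=
  LinearMap.toMatrix_baseChange _ _ _ _

theorem mt_bc2 (a : H →ₗ[ℚ] H) :
    mt b ((a.baseChange K).baseChange ℂ) = qm (LinearMap.toMatrix b b a) := by
  rw [mt_bc]
  have h1 : LinearMap.toMatrix (bV K b) (bV K b) (a.baseChange K) =
      (LinearMap.toMatrix b b a).map (algebraMap ℚ K) := LinearMap.toMatrix_baseChange _ _ _ _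
  rw [h1]
  ext i j
  simp [qm]

theorem trace_bc2 (a : H →ₗ[ℚ] H) (f : Module.End ℂ (ℂ ⊗[K] (K ⊗[ℚ] H))) :
    (qm (LinearMap.toMatrix b b a) * mt b f).trace =
      LinearMap.trace ℂ (ℂ ⊗[K] (K ⊗[ℚ] H)) ((a.baseChange K).baseChange ℂ ∘ₗ f) := by
  rw [← mt_bc2 (K := K) b a, ← mt_mul, trace_mt]
  rfl

theorem eY_rat (v : H) : eY K b ((1 : ℂ) ⊗ₜ[K] ((1 : K) ⊗ₜ[ℚ] v)) = cv (b.equivFun v) := by
  have h1 : ∀ w : H, (1 : ℂ) ⊗ₜ[K] ((1 : K) ⊗ₜ[ℚ] w) =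
      ∑ i, ((b.equivFun w i : ℚ) : ℂ) • bY K b i := by
    intro w
    conv_lhs => rw [← b.sum_equivFun w, tmul_sum, tmul_sum]
    refine Finset.sum_congr rfl fun i _ => ?_
    rw [bY_apply, TensorProduct.tmul_smul, ← algebraMap_smul K (b.equivFun w i) ((1 : K) ⊗ₜ[ℚ] b i),
      TensorProduct.tmul_smul, ← algebraMap_smul ℂ (algebraMap ℚ K (b.equivFun w i))]
    congr 1
    simp
  rw [h1, map_sum]
  funext j
  rw [Finset.sum_apply, Finset.sum_eq_single j]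
  · rw [map_smul, Pi.smul_apply]
    unfold eY
    rw [Basis.equivFun_self, if_pos rfl, smul_eq_mul, mul_one]
    rfl
  · intro i _ hi
    rw [map_smul, Pi.smul_apply]
    unfold eY
    rw [Basis.equivFun_self, if_neg hi, smul_zero]
  · intro h
    exact absurd (Finset.mem_univ j) h

end

end Pool.Agent.Y224.TS
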