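import Mathlib
import Pool.Agent.Y224.TS.D4

/-!
# The involutions attached to the Hodge–Tate elements
-/

set_option linter.unusedSectionVars false

namespace Pool.Agent.Y224.TS

open Matrix Module Pool.Agent.W437.HC Pool.Agent.W437.HD Pool.Agent.W548.Odd Pool.Agent.Y90
open Pool.Agent.H204R3.SP Pool.Agent.H204R3.GP TensorProduct
open St (IsHodgeTate IsTateModule)

noncomputable section

variable {H : Type} [AddCommGroup H] [Module ℚ H] {K : Type} [Field K] [CharZero K] [Algebra K ℂ]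
  {T : Type} [AddCommGroup T] [Module ℂ T] {per : H →+ T} {Γ : Type} [Group Γ]
  {ρ : Representation K Γ (K ⊗[ℚ] H)} {χ : Γ →* K}

theorem kills_iff {m : ℕ} (φ : MultilinearMap ℂ (fun _ : Fin m × Fin 2 => ℂ ⊗[K] (K ⊗[ℚ] H)) ℂ)
    (h : Module.End ℂ (ℂ ⊗[K] (K ⊗[ℚ] H))) (v : Fin m × Fin 2 → ℂ ⊗[K] (K ⊗[ℚ] H)) :
    ∑ k, φ (Function.update v k (((2 : ℂ) • h - 1) (v k))) =
      2 * (∑ k, φ (Function.update v k (h (v k))) - m * φ v) := by
  have h2 : ∀ k, φ (Function.update v k (((2 : ℂ) • h - 1) (v k))) =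
      2 * φ (Function.update v k (h (v k))) - φ v := by
    intro k
    rw [LinearMap.sub_apply, MultilinearMap.map_update_sub, LinearMap.smul_apply,
      MultilinearMap.map_update_smul, Module.End.one_apply, Function.update_eq_self, smul_eq_mul]
  rw [Finset.sum_congr rfl fun k _ => h2 k, Finset.sum_sub_distrib, ← Finset.mul_sum,
    Finset.sum_const, Finset.card_univ, Fintype.card_prod, Fintype.card_fin, Fintype.card_fin,
    nsmul_eq_mul]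
  push_cast
  ring

/-- The involution of a Hodge–Tate element kills the Tate forms. -/
theorem ht_lie {σ : ℂ ≃+* ℂ} {h : Module.End ℂ (ℂ ⊗[K] (K ⊗[ℚ] H))}
    (hh : IsHodgeTate per ρ χ σ h) : (2 : ℂ) • h - 1 ∈ lieT (bcr ρ ℂ) (bcc χ ℂ) := by
  intro m φ hφ v
  rw [kills_iff, hh.tate m φ hφ v, sub_self, mul_zero]

theorem ht_of_lie {h : Module.End ℂ (ℂ ⊗[K] (K ⊗[ℚ] H))}
    (hh : (2 : ℂ) • h - 1 ∈ lieT (bcr ρ ℂ) (bcc χ ℂ)) (m : ℕ)
    (φ : MultilinearMap ℂ (fun _ : Fin m × Fin 2 => ℂ ⊗[K] (K ⊗[ℚ] H)) ℂ)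
    (hφ : IsTate (bcr ρ ℂ) (bcc χ ℂ) m φ) (v : Fin m × Fin 2 → ℂ ⊗[K] (K ⊗[ℚ] H)) :
    ∑ k, φ (Function.update v k (h (v k))) = m * φ v := by
  have h1 := hh m φ hφ v
  rw [kills_iff] at h1
  exact sub_eq_zero.1 ((mul_eq_zero.1 h1).resolve_left two_ne_zero)

theorem ht_sq {σ : ℂ ≃+* ℂ} {h : Module.End ℂ (ℂ ⊗[K] (K ⊗[ℚ] H))}
    (hh : IsHodgeTate per ρ χ σ h) : ((2 : ℂ) • h - 1) * ((2 : ℂ) • h - 1) = 1 := by
  have h1 : h * h = h := LinearMap.ext hh.idem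
  rw [sub_mul, mul_sub, smul_mul_smul_comm, h1, mul_one, one_mul]
  module

section form

variable {G : ℕ} (b : Basis (Fin G ⊕ Fin G) ℚ H) {E : H → H → ℚ}
  (hb : ∀ p q, E (b q) (b p) = Om G ℚ p q)
  {ω : (K ⊗[ℚ] H) →ₗ[K] (K ⊗[ℚ] H) →ₗ[K] K}
  (hω : ∀ u v : H, ω (1 ⊗ₜ u) (1 ⊗ₜ v) = ((E u v : ℚ) : K))
include hb hω

/-- The Weil pairing in coordinates. -/
theorem weil_om (u v : ℂ ⊗[K] (K ⊗[ℚ] H)) :
    bcb ℂ ω u v = om G (eY K b v) (eY K b u) := by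
  have h1 : bcb ℂ ω = ((om G).flip).compl₁₂ (eY K b).toLinearMap (eY K b).toLinearMap := by
    refine (bY K b).ext fun p => (bY K b).ext fun q => ?_
    rw [bY_apply, bY_apply, bcb_one, hω, hb, ← bY_apply, ← bY_apply, LinearMap.compl₁₂_apply,
      LinearMap.flip_apply, om_apply]
    have h2 : ∀ i, (eY K b).toLinearMap (bY K b i) = Pi.single i 1 := by
      intro i
      change (bY K b).equivFun (bY K b i) = _
      funext j
      rw [Basis.equivFun_self, Pi.single_apply]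
      by_cases h : i = j
      · rw [if_pos h, if_pos h.symm]
      · rw [if_neg h, if_neg (Ne.symm h)]
    rw [h2, h2, mulVec_single_one, single_one_dotProduct, Matrix.col_apply]
    have h3 : Om G ℂ = (Om G ℚ).map (fun q : ℚ => (q : ℂ)) := (Om_map ℂ).symm
    rw [h3, Matrix.map_apply]
    simp
  rw [h1]
  rfl

theorem weil_nd (u : ℂ ⊗[K] (K ⊗[ℚ] H)) (hu : ∀ v, bcb ℂ ω u v = 0) : u = 0 := by
  rw [← LinearEquiv.map_eq_zero_iff (eY K b)]
  apply om_nd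
  intro w
  have h1 := hu ((eY K b).symm w)
  rw [weil_om b hb hω, LinearEquiv.apply_symm_apply, om_anti] at h1
  exact neg_eq_zero.1 h1

variable (hωρ : ∀ g u v, ω (ρ g u) (ρ g v) = χ g * ω u v)
include hωρ

/-- Elements of the Lie algebra commute with the commutants of the subgroups of finite index. -/
theorem lie_comm (Δ : Subgroup Γ) (hΔ : Δ.FiniteIndex) (P : Module.End ℂ (ℂ ⊗[K] (K ⊗[ℚ] H)))
    (hP : ∀ s ∈ Δ, ∀ v, P (bcr ρ ℂ s v) = bcr ρ ℂ s (P v))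
    {x : Module.End ℂ (ℂ ⊗[K] (K ⊗[ℚ] H))} (hx : x ∈ lieT (bcr ρ ℂ) (bcc χ ℂ)) : x * P = P * x := by
  have : Module.Finite ℂ (ℂ ⊗[K] (K ⊗[ℚ] H)) := Module.Finite.of_basis (bY K b)
  exact LinearMap.ext fun v => Pool.Agent.W839.OT.HTFam.comm (bcr ρ ℂ) (bcc χ ℂ) (bcb ℂ ω)
    (weil_nd b hb hω) (bcb_inv ρ χ ω hωρ) Δ hΔ P hP x hx v

/-- Elements of the Lie algebra are symplectic. -/
theorem lie_sp {x : Module.End ℂ (ℂ ⊗[K] (K ⊗[ℚ] H))} (hx : x ∈ lieT (bcr ρ ℂ) (bcc χ ℂ))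
    (u v : Fin G ⊕ Fin G → ℂ) : om G (mt b x *ᵥ u) v + om G u (mt b x *ᵥ v) = 0 := by
  obtain ⟨u', rfl⟩ := (eY K b).surjective u
  obtain ⟨v', rfl⟩ := (eY K b).surjective v
  have h1 := lieT_sp (bcr ρ ℂ) (bcc χ ℂ) (bcb ℂ ω) (bcb_inv ρ χ ω hωρ) hx v' u'
  rw [weil_om b hb hω, weil_om b hb hω] at h1
  rw [mt_mulVec, mt_mulVec]
  linear_combination h1

end form

end

end Pool.Agent.Y224.TS
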