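import Mathlib
import Pool.Agent.Y224.TS.D3
import Pool.Agent.Y224.TS.D5

/-!
# The Tate module and the Lie algebra of the period matrix
-/

set_option linter.unusedSectionVars false

namespace Pool.Agent.Y224.TS

open Matrix Module Pool.Agent.W437.HC Pool.Agent.W437.HD Pool.Agent.W548.Odd Pool.Agent.Y90
open Pool.Agent.H204R3.SP Pool.Agent.H204R3.GP TensorProduct Pool.Agent.W522.U
open St (IsHodgeTate IsTateModule)
open Pool.Agent.Y90.St (IsHom)

noncomputable section

variable {H : Type} [AddCommGroup H] [Module ℚ H] {K : Type} [Field K] [CharZero K] [Algebra K ℂ]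
  {T : Type} [AddCommGroup T] [Module ℂ T] {per : H →+ T} {Γ : Type} [Group Γ]
  {ρ : Representation K Γ (K ⊗[ℚ] H)} {χ : Γ →* K} {G : ℕ} {Z : Matrix (Fin G) (Fin G) ℂ}
  {E : H → H → ℚ} (b : Basis (Fin G ⊕ Fin G) ℚ H)

/-- The set of the matrices of the involutions attached to the Hodge–Tate elements. -/
def SH (per : H →+ T) (ρ : Representation K Γ (K ⊗[ℚ] H)) (χ : Γ →* K)
    (b : Basis (Fin G ⊕ Fin G) ℚ H) : Set (Matrix (Fin G ⊕ Fin G) (Fin G ⊕ Fin G) ℂ) :=
  {D | ∃ σ h, IsHodgeTate per ρ χ σ h ∧ D = mt b ((2 : ℂ) • h - 1)}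

variable (hC : Cht (per.comp b.equivFun.symm.toLinearMap.toAddMonoidHom) (JR Z))

include hC in
/-- Endomorphisms in coordinates. -/
theorem hom_iff (a : H →ₗ[ℚ] H) : IsHom per per a ↔
    ∀ X ∈ LZ Z, qm (LinearMap.toMatrix b b a) * X = X * qm (LinearMap.toMatrix b b a) := by
  rw [← end_iff hC]
  have h2 : ∀ v : H, LinearMap.toMatrix b b a *ᵥ b.equivFun v = b.equivFun (a v) := fun v =>
    LinearMap.toMatrix_mulVec_repr b b a v
  have h3 : ∀ w, (per.comp b.equivFun.symm.toLinearMap.toAddMonoidHom) w =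
      per (b.equivFun.symm w) := fun _ => rfl
  constructor
  · rintro ⟨Ψ, hΨ⟩
    refine ⟨Ψ, fun w => ?_⟩
    rw [h3, h3, hΨ]
    congr 1
    rw [LinearEquiv.eq_symm_apply, ← h2, LinearEquiv.apply_symm_apply]
  · rintro ⟨Ψ, hΨ⟩
    refine ⟨Ψ, fun v => ?_⟩
    have h4 := hΨ (b.equivFun v)
    rw [h3, h3, h2, LinearEquiv.symm_apply_apply, LinearEquiv.symm_apply_apply] at h4
    exact h4

include hC in
/-- The traces of the endomorphisms. -/
theorem trace_ht {σ : ℂ ≃+* ℂ} {h : Module.End ℂ (ℂ ⊗[K] (K ⊗[ℚ] H))}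
    (hh : IsHodgeTate per ρ χ σ h) {Q : Matrix (Fin G ⊕ Fin G) (Fin G ⊕ Fin G) ℚ}
    (hQ : ∀ X ∈ LZ Z, qm Q * X = X * qm Q) :
    (qm Q * mt b ((2 : ℂ) • h - 1)).trace = (qm Q * DS Z σ).trace := by
  obtain ⟨Ψ, hΨ⟩ := (end_iff hC).2 hQ
  obtain ⟨a, ha⟩ : ∃ a : H →ₗ[ℚ] H, LinearMap.toMatrix b b a = Q :=
    ⟨Matrix.toLin b b Q, LinearMap.toMatrix_toLin _ _ _⟩
  have h2 : ∀ v : H, Q *ᵥ b.equivFun v = b.equivFun (a v) := fun v => by
    rw [← ha]
    exact LinearMap.toMatrix_mulVec_repr b b a v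
  have h3 : ∀ v, Ψ (per v) = per (a v) := by
    intro v
    have h4 := hΨ (b.equivFun v)
    have h5 : ∀ w, (per.comp b.equivFun.symm.toLinearMap.toAddMonoidHom) w =
      per (b.equivFun.symm w) := fun _ => rfl
    rw [h5, h5, h2, LinearEquiv.symm_apply_apply, LinearEquiv.symm_apply_apply] at h4
    exact h4
  rw [trace_DZ hC hΨ σ, mt_sub, mt_smul, mt_one, mul_sub, mul_smul_comm, mul_one, trace_sub,
    trace_smul, smul_eq_mul, ← hh.trace a Ψ h3, ← trace_bc2 b a h, ha]

/-- Faltings: the commutants of the subgroups of finite index. -/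
theorem faltings_mat (hρ : IsTateModule per E ρ χ)
    (hC : Cht (per.comp b.equivFun.symm.toLinearMap.toAddMonoidHom) (JR Z))
    {f : Module.End ℂ (ℂ ⊗[K] (K ⊗[ℚ] H))} {Δ : Subgroup Γ} (hΔ : Δ.FiniteIndex)
    (hf : ∀ g ∈ Δ, ∀ v, f ((ρ g).baseChange ℂ v) = (ρ g).baseChange ℂ (f v)) :
    ∀ X ∈ LZ Z, mt b f * X = X * mt b f := by
  obtain ⟨m, c, l, hl⟩ := mat_expand (F := K) (mt b f)
  have key : ∀ j, ∀ X ∈ LZ Z, ((mt b f).map (l j)).map (algebraMap K ℂ) * X =
      X * ((mt b f).map (l j)).map (algebraMap K ℂ) := by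
    intro j
    obtain ⟨f', hf'⟩ : ∃ f' : Module.End K (K ⊗[ℚ] H),
        LinearMap.toMatrix (bV K b) (bV K b) f' = (mt b f).map (l j) :=
      ⟨Matrix.toLin (bV K b) (bV K b) ((mt b f).map (l j)), LinearMap.toMatrix_toLin _ _ _⟩
    have h1 : ∀ g ∈ Δ, ∀ v, ρ g (f' v) = f' (ρ g v) := by
      intro g hg
      have h2 : mt b f * (LinearMap.toMatrix (bV K b) (bV K b) (ρ g)).map (algebraMap K ℂ) =
          (LinearMap.toMatrix (bV K b) (bV K b) (ρ g)).map (algebraMap K ℂ) * mt b f := by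
        rw [← mt_bc, ← mt_mul, ← mt_mul]
        congr 1
        exact LinearMap.ext fun v => hf g hg v
      have h3 := map_comm h2 (l j)
      rw [← hf', ← LinearMap.toMatrix_mul, ← LinearMap.toMatrix_mul] at h3
      have h4 := (LinearMap.toMatrix (bV K b) (bV K b)).injective h3
      intro v
      exact (LinearMap.congr_fun h4 v).symm
    have h2 := hρ.faltings Δ hΔ f' h1
    have h3 : ∀ f'' ∈ Submodule.span K
        {f' | ∃ a : H →ₗ[ℚ] H, IsHom per per a ∧ f' = a.baseChange K},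
        ∀ X ∈ LZ Z, mt b (f''.baseChange ℂ) * X = X * mt b (f''.baseChange ℂ) := by
      intro f'' hf''
      induction hf'' using Submodule.span_induction with
      | mem f'' hf'' =>
        obtain ⟨a, ha, rfl⟩ := hf''
        rw [mt_bc2]
        exact (hom_iff b hC a).1 ha
      | zero =>
        intro X _
        have h5 : mt b ((0 : (K ⊗[ℚ] H) →ₗ[K] (K ⊗[ℚ] H)).baseChange ℂ) = 0 := by
          rw [LinearMap.baseChange_zero]
          exact map_zero _
        rw [h5, zero_mul, mul_zero]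
      | add x y _ _ hx hy =>
        intro X hX
        have h5 : mt b ((x + y).baseChange ℂ) = mt b (x.baseChange ℂ) + mt b (y.baseChange ℂ) := by
          rw [LinearMap.baseChange_add]
          exact map_add _ _ _
        rw [h5, add_mul, mul_add, hx X hX, hy X hX]
      | smul c x _ hx =>
        intro X hX
        have h5 : mt b ((c • x).baseChange ℂ) = algebraMap K ℂ c • mt b (x.baseChange ℂ) := by
          rw [LinearMap.baseChange_smul, ← mt_smul, algebraMap_smul]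
        rw [h5, smul_mul_assoc, mul_smul_comm, hx X hX]
    have h4 := h3 f' h2
    rw [mt_bc, hf'] at h4
    exact h4
  intro X hX
  rw [hl, Finset.sum_mul, Finset.mul_sum]
  refine Finset.sum_congr rfl fun j _ => ?_
  rw [smul_mul_assoc, mul_smul_comm, key j X hX]

/-- A subgroup of finite index commutes with all endomorphisms. -/
theorem exists_sub (hρ : IsTateModule per E ρ χ) [FiniteDimensional ℚ H] :
    ∃ Δ : Subgroup Γ, Δ.FiniteIndex ∧ ∀ a : H →ₗ[ℚ] H, IsHom per per a →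
      ∀ g ∈ Δ, ∀ v, ρ g (a.baseChange K v) = a.baseChange K (ρ g v) := by
  let N : Submodule ℚ (H →ₗ[ℚ] H) := Submodule.span ℚ {a | IsHom per per a}
  obtain ⟨s, hs, hs'⟩ : ∃ s : Finset (H →ₗ[ℚ] H), (∀ a ∈ s, IsHom per per a) ∧
      N = Submodule.span ℚ (s : Set (H →ₗ[ℚ] H)) := by
    obtain ⟨s, hs1, hs2⟩ := Submodule.fg_span_iff_fg_span_finset_subset
      ({a | IsHom per per a} : Set (H →ₗ[ℚ] H)) |>.1 (IsNoetherian.noetherian N)
    exact ⟨s, fun a ha => hs1 ha, hs2⟩
  have h1 : ∀ a : s, ∃ Δ : Subgroup Γ, Δ.FiniteIndex ∧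
      ∀ g ∈ Δ, ∀ v, ρ g (a.1.baseChange K v) = a.1.baseChange K (ρ g v) := fun a =>
    hρ.endo a.1 (hs a.1 a.2)
  choose D hD hD' using h1
  refine ⟨⨅ a, D a, Subgroup.finiteIndex_iInf hD, fun a ha g hg => ?_⟩
  have h2 : a ∈ Submodule.span ℚ (s : Set (H →ₗ[ℚ] H)) := by
    rw [← hs']
    exact Submodule.subset_span ha
  have hg' : ∀ a, g ∈ D a := fun a => Subgroup.mem_iInf.1 hg a
  clear ha
  induction h2 using Submodule.span_induction with
  | mem a ha => exact hD' ⟨a, ha⟩ g (hg' _)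
  | zero =>
    intro v
    rw [LinearMap.baseChange_zero, LinearMap.zero_apply, LinearMap.zero_apply, map_zero]
  | add x y _ _ hx hy =>
    intro v
    rw [LinearMap.baseChange_add, LinearMap.add_apply, LinearMap.add_apply, map_add, hx, hy]
  | smul c x _ hx =>
    intro v
    rw [LinearMap.baseChange_smul, LinearMap.smul_apply, LinearMap.smul_apply,
      ← algebraMap_smul K c, ← algebraMap_smul K c, map_smul, hx]

end

end Pool.Agent.Y224.TS
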