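import Mathlib
import Pool.Agent.Y224.TS.D6

/-!
# The involutions of the Hodge–Tate elements satisfy the conditions
-/

set_option linter.unusedSectionVars false

namespace Pool.Agent.Y224.TS

open Matrix Module Pool.Agent.W437.HC Pool.Agent.W437.HD Pool.Agent.W548.Odd Pool.Agent.Y90
open Pool.Agent.H204R3.SP Pool.Agent.H204R3.GP TensorProduct Pool.Agent.W522.U
open St (IsHodgeTate IsTateModule)
open Pool.Agent.Y90.St (IsHom)

noncomputable section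

variable {H : Type} [AddCommGroup H] [Module ℚ H] {K : Type} [Field K] [CharZero K] [Algebra K ℂ]
  {T : Type} [AddCommGroup T] [Module ℂ T] {per : H →+ T} {Γ : Type} [Group Γ]
  {ρ : Representation K Γ (K ⊗[ℚ] H)} {χ : Γ →* K} {G : ℕ} {Z : Matrix (Fin G) (Fin G) ℂ}
  {E : H → H → ℚ}

theorem bcr_inv (g : Γ) (v : ℂ ⊗[K] (K ⊗[ℚ] H)) : bcr ρ ℂ g⁻¹ (bcr ρ ℂ g v) = v :=
  rho_inv (bcr ρ ℂ) g v

theorem bcr_inv' (g : Γ) (v : ℂ ⊗[K] (K ⊗[ℚ] H)) : bcr ρ ℂ g (bcr ρ ℂ g⁻¹ v) = v :=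
  rho_inv' (bcr ρ ℂ) g v

theorem bcr_comm {g : Γ} {a : H →ₗ[ℚ] H}
    (ha : ∀ v, ρ g (a.baseChange K v) = a.baseChange K (ρ g v)) (v : ℂ ⊗[K] (K ⊗[ℚ] H)) :
    bcr ρ ℂ g ((a.baseChange K).baseChange ℂ v) = (a.baseChange K).baseChange ℂ (bcr ρ ℂ g v) := by
  have h1 : (ρ g).comp (a.baseChange K) = (a.baseChange K).comp (ρ g) := LinearMap.ext ha
  have h2 := congrArg (fun f : (K ⊗[ℚ] H) →ₗ[K] (K ⊗[ℚ] H) => f.baseChange ℂ) h1
  simp only [LinearMap.baseChange_comp] at h2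
  exact LinearMap.congr_fun h2 v

/-- Conjugates of Hodge–Tate elements. -/
theorem ht_conj [FiniteDimensional ℚ H] {σ : ℂ ≃+* ℂ} {h : Module.End ℂ (ℂ ⊗[K] (K ⊗[ℚ] H))}
    (hh : IsHodgeTate per ρ χ σ h) {g : Γ}
    (hg : ∀ a : H →ₗ[ℚ] H, IsHom per per a → ∀ v, ρ g (a.baseChange K v) =
      a.baseChange K (ρ g v)) :
    IsHodgeTate per ρ χ σ (bcr ρ ℂ g * h * bcr ρ ℂ g⁻¹) := by
  have hgi : bcr ρ ℂ g⁻¹ * bcr ρ ℂ g = 1 := LinearMap.ext fun v => bcr_inv g v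
  have hgi' : bcr ρ ℂ g * bcr ρ ℂ g⁻¹ = 1 := LinearMap.ext fun v => bcr_inv' g v
  refine ⟨fun v => ?_, ?_, ?_⟩
  · simp only [Module.End.mul_apply]
    rw [bcr_inv, hh.idem]
  · have h1 : (2 : ℂ) • (bcr ρ ℂ g * h * bcr ρ ℂ g⁻¹) - 1 =
        bcr ρ ℂ g * ((2 : ℂ) • h - 1) * bcr ρ ℂ g⁻¹ := by
      rw [mul_sub, sub_mul, mul_one, hgi', mul_smul_comm, smul_mul_assoc]
    have h2 : (2 : ℂ) • (bcr ρ ℂ g * h * bcr ρ ℂ g⁻¹) - 1 ∈ lieT (bcr ρ ℂ) (bcc χ ℂ) := by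
      rw [h1]
      exact lieT_conj _ _ g (ht_lie hh)
    exact fun m φ hφ v => ht_of_lie h2 m φ hφ v
  · intro a Ψ hΨ
    rw [← hh.trace a Ψ hΨ]
    have h3 : ∀ v, bcr ρ ℂ g ((a.baseChange K).baseChange ℂ v) =
        (a.baseChange K).baseChange ℂ (bcr ρ ℂ g v) := bcr_comm (hg a ⟨Ψ, hΨ⟩)
    have h4 : ((a.baseChange K).baseChange ℂ : Module.End ℂ (ℂ ⊗[K] (K ⊗[ℚ] H))) * bcr ρ ℂ g =
        bcr ρ ℂ g * (a.baseChange K).baseChange ℂ := LinearMap.ext fun v => (h3 v).symm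
    change LinearMap.trace ℂ _ (((a.baseChange K).baseChange ℂ :
      Module.End ℂ (ℂ ⊗[K] (K ⊗[ℚ] H))) * (bcr ρ ℂ g * h * bcr ρ ℂ g⁻¹)) =
      LinearMap.trace ℂ _ (((a.baseChange K).baseChange ℂ :
      Module.End ℂ (ℂ ⊗[K] (K ⊗[ℚ] H))) * h)
    rw [← mul_assoc, ← mul_assoc, h4, mul_assoc (bcr ρ ℂ g), LinearMap.trace_mul_comm,
      ← mul_assoc, hgi, one_mul]

variable (b : Basis (Fin G ⊕ Fin G) ℚ H) [Algebra.IsAlgebraic K ℂ]

/-- **The conditions**. -/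
theorem td_of (hb : ∀ p q, E (b q) (b p) = Om G ℚ p q)
    (hC : Cht (per.comp b.equivFun.symm.toLinearMap.toAddMonoidHom) (JR Z))
    (hρ : IsTateModule per E ρ χ) : TD Z (SH per ρ χ b) := by
  have : FiniteDimensional ℚ H := Module.Finite.of_basis b
  obtain ⟨ω, hω, hωρ⟩ := hρ.weil
  have hss : HasProj (bcr ρ ℂ) := hasProj_bcr ρ ℂ hρ.semisimple
  -- rational elements of the commutant commute with the involutions
  have hrat : ∀ Q : Matrix (Fin G ⊕ Fin G) (Fin G ⊕ Fin G) ℚ,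
      (∀ X ∈ LZ Z, qm Q * X = X * qm Q) → ∀ D ∈ SH per ρ χ b, qm Q * D = D * qm Q := by
    rintro Q hQ _ ⟨σ, h, hh, rfl⟩
    obtain ⟨a, rfl⟩ : ∃ a : H →ₗ[ℚ] H, LinearMap.toMatrix b b a = Q :=
      ⟨Matrix.toLin b b Q, LinearMap.toMatrix_toLin _ _ _⟩
    have ha := (hom_iff b hC a).2 hQ
    obtain ⟨Δ, hΔ, hΔ'⟩ := hρ.endo a ha
    have h1 := lie_comm b hb hω hωρ Δ hΔ ((a.baseChange K).baseChange ℂ)
      (fun s hs v => (bcr_comm (hΔ' s hs) v).symm) (ht_lie hh)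
    rw [← mt_bc2 (K := K) b a, ← mt_mul, ← mt_mul, h1]
  -- traces
  have htr : ∀ (σ : ℂ ≃+* ℂ) (h : Module.End ℂ (ℂ ⊗[K] (K ⊗[ℚ] H))), IsHodgeTate per ρ χ σ h →
      ∀ P : Matrix (Fin G ⊕ Fin G) (Fin G ⊕ Fin G) ℂ, (∀ X ∈ LZ Z, P * X = X * P) →
        (P * mt b ((2 : ℂ) • h - 1)).trace = (P * DS Z σ).trace := by
    intro σ h hh P hP
    obtain ⟨m, c, Q, hQ, rfl⟩ := commutant_expand gal_LZ hP
    rw [Finset.sum_mul, Finset.sum_mul, trace_sum, trace_sum]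
    refine Finset.sum_congr rfl fun j _ => ?_
    rw [smul_mul_assoc, smul_mul_assoc, trace_smul, trace_smul, trace_ht b hC hh (hQ j)]
  refine ⟨?_, ?_, ?_, ?_, ?_, ?_⟩
  · rintro _ ⟨σ, h, hh, rfl⟩
    rw [← mt_mul, ht_sq hh, mt_one]
  · rintro _ ⟨σ, h, hh, rfl⟩ u v
    exact lie_sp b hb hω hωρ (ht_lie hh) u v
  · intro P
    constructor
    · intro hP
      obtain ⟨f, rfl⟩ := mt_surj (K := K) b P
      obtain ⟨Δ, hΔ, hΔ'⟩ := hρ.serre f (fun σ h hh v => by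
        have h1 := hP _ ⟨σ, h, hh, rfl⟩
        rw [← mt_mul, ← mt_mul] at h1
        have h2 := LinearMap.congr_fun (mt_inj b h1) v
        rw [mul_sub, sub_mul, mul_one, one_mul, LinearMap.sub_apply, LinearMap.sub_apply,
          sub_left_inj, mul_smul_comm, smul_mul_assoc, LinearMap.smul_apply,
          LinearMap.smul_apply] at h2
        exact smul_right_injective _ (two_ne_zero : (2 : ℂ) ≠ 0) h2)
      exact faltings_mat b hρ hC hΔ hΔ'
    · intro hP D hD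
      obtain ⟨m, c, Q, hQ, rfl⟩ := commutant_expand gal_LZ hP
      rw [Finset.sum_mul, Finset.mul_sum]
      refine Finset.sum_congr rfl fun j _ => ?_
      rw [smul_mul_assoc, mul_smul_comm, hrat (Q j) (hQ j) D hD]
  · rintro _ ⟨σ, h, hh, rfl⟩
    exact ⟨σ, htr σ h hh⟩
  · intro σ
    obtain ⟨h, hh⟩ := hρ.hodgeTate σ
    exact ⟨_, ⟨σ, h, hh, rfl⟩, htr σ h hh⟩
  · -- complete reducibility
    obtain ⟨Δ, hΔ, hΔ'⟩ := exists_sub (K := K) (ρ := ρ) hρ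
    let R : Δ → End ℂ (Fin G ⊕ Fin G → ℂ) := fun g =>
      (eY K b).toLinearMap ∘ₗ (bcr ρ ℂ g.1) ∘ₗ (eY K b).symm.toLinearMap
    have hR : ∀ (g : Δ) (w : ℂ ⊗[K] (K ⊗[ℚ] H)), R g (eY K b w) = eY K b (bcr ρ ℂ g.1 w) := by
      intro g w
      change eY K b (bcr ρ ℂ g.1 ((eY K b).symm (eY K b w))) = _
      rw [LinearEquiv.symm_apply_apply]
    have hU : ∀ U : Submodule ℂ (Fin G ⊕ Fin G → ℂ), (∀ g, ∀ u ∈ U, R g u ∈ U) →
        ∀ s ∈ Δ, ∀ u ∈ U.comap (eY K b).toLinearMap,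
          bcr ρ ℂ s u ∈ U.comap (eY K b).toLinearMap := by
      intro U hU s hs u hu
      have h1 := hU ⟨s, hs⟩ _ hu
      change R ⟨s, hs⟩ (eY K b u) ∈ U at h1
      rw [hR] at h1
      exact h1
    refine cred_of_conj R (fun g => g⁻¹) (fun g v => ?_) (fun g v => ?_) (fun U hUR => ?_)
      (fun U hUR => ?_) (fun g => LT_conj (R g) ?_)
    · obtain ⟨w, rfl⟩ := (eY K b).surjective v
      rw [hR, hR]
      exact congrArg (eY K b) (bcr_inv g.1 w)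
    · obtain ⟨w, rfl⟩ := (eY K b).surjective v
      rw [hR, hR]
      exact congrArg (eY K b) (bcr_inv' g.1 w)
    · obtain ⟨π, h1, h2, h3⟩ := hss Δ hΔ _ (hU U hUR)
      refine ⟨(eY K b).toLinearMap ∘ₗ π ∘ₗ (eY K b).symm.toLinearMap, fun v => h1 _,
        fun u hu => ?_, fun g v => ?_⟩
      · obtain ⟨w, rfl⟩ := (eY K b).surjective u
        change eY K b (π ((eY K b).symm (eY K b w))) = _
        rw [LinearEquiv.symm_apply_apply, h2 w hu]
      · obtain ⟨w, rfl⟩ := (eY K b).surjective v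
        rw [hR]
        change eY K b (π ((eY K b).symm (eY K b (bcr ρ ℂ g.1 w)))) =
          R g (eY K b (π ((eY K b).symm (eY K b w))))
        rw [LinearEquiv.symm_apply_apply, LinearEquiv.symm_apply_apply, hR, h3 g.1 g.2]
    · obtain ⟨π, h1, h2, h3⟩ := hss Δ hΔ _ (hU U hUR)
      let C : Submodule ℂ (Matrix (Fin G ⊕ Fin G) (Fin G ⊕ Fin G) ℂ) :=
        { carrier := {X | ∀ u ∈ U, X *ᵥ u ∈ U}
          add_mem' := fun {X Y} hX hY u hu => by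
            rw [add_mulVec]
            exact U.add_mem (hX u hu) (hY u hu)
          zero_mem' := fun u _ => by
            rw [zero_mulVec]
            exact U.zero_mem
          smul_mem' := fun c X hX u hu => by
            rw [smul_mulVec]
            exact U.smul_mem _ (hX u hu) }
      have hCL : LT (SH per ρ χ b) ≤ C := by
        refine LT_le ?_ (fun A hA A' hA' u hu => ?_)
        · rintro _ ⟨σ, h, hh, rfl⟩ u hu
          obtain ⟨w, rfl⟩ := (eY K b).surjective u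
          have h4 := lie_comm b hb hω hωρ Δ hΔ π h3 (ht_lie hh)
          have h5 := LinearMap.congr_fun h4 w
          rw [Module.End.mul_apply, Module.End.mul_apply, h2 w hu] at h5
          rw [mt_mulVec, h5]
          exact h1 _
        · rw [sub_mulVec, ← mulVec_mulVec, ← mulVec_mulVec]
          exact U.sub_mem (hA _ (hA' u hu)) (hA' _ (hA u hu))
      exact fun X hX => hCL hX
    · rintro _ ⟨σ, h, hh, rfl⟩
      refine ⟨_, ⟨σ, _, ht_conj hh (g := g.1) (fun a ha v => hΔ' a ha g.1 g.2 v), rfl⟩, fun v => ?_⟩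
      obtain ⟨w, rfl⟩ := (eY K b).surjective v
      rw [mt_mulVec, hR, hR, mt_mulVec]
      congr 1
      simp only [LinearMap.sub_apply, LinearMap.smul_apply, Module.End.mul_apply,
        Module.End.one_apply, map_sub, map_smul]
      rw [bcr_inv]

end

end Pool.Agent.Y224.TS
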