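import Mathlib
import Pool.Agent.W528.Odd.Final2
import Pool.Agent.W437.HQ.Mod
import Pool.Agent.W548.Odd.Basic
import Pool.Agent.W437.HD.Crit

/-!
# Elements of rank one in Lie algebras of small rank generated by involutions
-/

set_option linter.unusedSectionVars false

namespace Pool.Agent.Y224.TS

open Module Pool.Agent.W437.HP Pool.Agent.W437.HQ
open Pool.Agent.W528.Odd (QP orth inf_orth qp_span gens exists_rank_one_odd gens_le)
open Pool.Agent.W548.Odd (IsIdl exists_repr sq_zero_of_up sq_zero_of_dn up_left up_right dn_left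
  dn_right rk rk_eq_zero rk_mul_le_left rk_mul_le_right)

noncomputable section

section partner

variable {V : Type} [AddCommGroup V] [Module ℂ V] [FiniteDimensional ℂ V]
  {G : Submodule ℂ (End ℂ V)}
  (hbr : ∀ y ∈ G, ∀ z ∈ G, y * z - z * y ∈ G)
  (hnd : ∀ y ∈ G, (∀ z ∈ G, LinearMap.trace ℂ V (y * z) = 0) → y = 0)
include hbr hnd

/-- Regularity: `e = e y e`. -/
theorem regular {e : End ℂ V} (he : e ∈ G) (he2 : e * e = 0) : ∃ y ∈ G, e * y * e = e := by
  have hidl : IsIdl G G := ⟨le_rfl, hbr⟩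
  let Q : End ℂ V →ₗ[ℂ] End ℂ V := (LinearMap.mulLeft ℂ e).comp (LinearMap.mulRight ℂ e)
  have hQ : ∀ y, Q y = e * y * e := by
    intro y
    change e * (y * e) = _
    rw [mul_assoc]
  by_contra hcon
  push Not at hcon
  have hne : e ∉ G.map Q := by
    rintro ⟨y, hy, hye⟩
    exact hcon y hy (by rw [← hQ, hye])
  obtain ⟨φ, hφ, hφ'⟩ := Submodule.exists_le_ker_of_notMem hne
  obtain ⟨z, hz, hzφ⟩ := exists_repr hnd φ
  have h1 : e * z * e = 0 := by
    apply hnd _ (hidl.quad he he2 hz)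
    intro y hy
    have h2 : φ (Q y) = 0 := hφ' ⟨y, hy, rfl⟩
    rw [hQ, hzφ _ (hidl.quad he he2 hy)] at h2
    rw [← h2, ← mul_assoc, ← mul_assoc, LinearMap.trace_mul_comm ℂ (z * e * y) e]
    simp only [mul_assoc]
  apply hφ
  rw [hzφ e he]
  have h3 : IsNilpotent (z * e) := ⟨2, by
    rw [sq, mul_assoc, ← mul_assoc e z e, h1, mul_zero]⟩
  exact (LinearMap.isNilpotent_trace_of_isNilpotent h3).eq_zero

/-- The partner of an element of degree one. -/
theorem partner {D e : End ℂ V} (hD : D ∈ G) (hD2 : D * D = 1) (he : e ∈ G) (h1 : D * e = e)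
    (h2 : e * D = -e) : ∃ f ∈ G, D * f = -f ∧ f * D = f ∧ e * f * e = e ∧ f * e * f = f := by
  have hidl : IsIdl G G := ⟨le_rfl, hbr⟩
  have he2 := sq_zero_of_up h1 h2
  obtain ⟨y, hy, hye⟩ := regular hbr hnd he he2
  obtain ⟨z, hz⟩ : ∃ z, z = (4 : ℂ)⁻¹ • ((1 - D) * y * (1 + D)) := ⟨_, rfl⟩
  have hzG : z ∈ G := by
    rw [hz]
    exact Submodule.smul_mem _ _ (hidl.dn hD hD2 hy)
  have hDz : D * z = -z := by
    rw [hz, mul_smul_comm, dn_left hD2, smul_neg]
  have hzD : z * D = z := by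
    rw [hz, smul_mul_assoc, dn_right hD2]
  have hz2 : z * z = 0 := sq_zero_of_dn hDz hzD
  have e1 : e * (1 - D) = (2 : ℂ) • e := by
    rw [mul_sub, mul_one, h2, sub_neg_eq_add, two_smul]
  have e2 : (1 + D) * e = (2 : ℂ) • e := by
    rw [add_mul, one_mul, h1, two_smul]
  have hez : e * z * e = e := by
    have e3 : e * z * e = (4 : ℂ)⁻¹ • ((e * (1 - D)) * y * ((1 + D) * e)) := by
      rw [hz, mul_smul_comm, smul_mul_assoc]
      simp only [mul_assoc]
    rw [e3, e1, e2, smul_mul_assoc, smul_mul_assoc, mul_smul_comm, hye, smul_smul, smul_smul]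
    norm_num
  refine ⟨z * e * z, hidl.quad' hzG hz2 he, ?_, ?_, ?_, ?_⟩
  · rw [← mul_assoc, ← mul_assoc, hDz, neg_mul, neg_mul]
  · rw [mul_assoc, hzD]
  · calc e * (z * e * z) * e = (e * z * e) * z * e := by noncomm_ring
    _ = e := by rw [hez, hez]
  · calc z * e * z * e * (z * e * z) = z * ((e * z * e) * z * e) * z := by noncomm_ring
    _ = z * e * z := by rw [hez, hez]

end partner

section prod

variable {V : Type} [AddCommGroup V] [Module ℂ V] [FiniteDimensional ℂ V]
  {ω : V →ₗ[ℂ] V →ₗ[ℂ] ℂ}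

theorem anti_of_alt (halt : ∀ v, ω v v = 0) (u v : V) : ω u v = -ω v u := by
  have h1 := halt (u + v)
  rw [map_add, map_add, LinearMap.add_apply, LinearMap.add_apply, halt, halt] at h1
  linear_combination h1

/-- A symplectic operator of rank two is a product of two vectors. -/
theorem exists_EE (halt : ∀ v, ω v v = 0) (hnd : ∀ u, (∀ v, ω u v = 0) → u = 0)
    {y : End ℂ V} (hy : IsSp ω y) (hr : rk y = 2) :
    ∃ a b, y = EE ω a b := by
  have hanti := anti_of_alt halt
  let bs : Basis (Fin 2) ℂ (LinearMap.range y) := finBasisOfFinrankEq ℂ _ hr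
  obtain ⟨p, hp⟩ : ∃ p : V, p = ((bs 0 : LinearMap.range y) : V) := ⟨_, rfl⟩
  obtain ⟨q, hq⟩ : ∃ q : V, q = ((bs 1 : LinearMap.range y) : V) := ⟨_, rfl⟩
  let α : V →ₗ[ℂ] ℂ := (bs.coord 0).comp y.rangeRestrict
  let β : V →ₗ[ℂ] ℂ := (bs.coord 1).comp y.rangeRestrict
  have hyu : ∀ u, y u = α u • p + β u • q := by
    intro u
    have h1 := bs.sum_repr (y.rangeRestrict u)
    rw [Fin.sum_univ_two] at h1
    have h2 := congrArg Subtype.val h1
    rw [hp, hq]
    exact h2.symm
  have hpq : ∀ c d : ℂ, c • p + d • q = 0 → c = 0 ∧ d = 0 := by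
    intro c d h
    have h1 := bs.linearIndependent
    rw [Fintype.linearIndependent_iff] at h1
    have h2 := h1 ![c, d] (by
      rw [Fin.sum_univ_two]
      apply Subtype.ext
      rw [hp, hq] at h
      exact h)
    exact ⟨h2 0, h2 1⟩
  -- dual vectors
  have hdual : ∀ f g : ℂ, ∃ v, ω p v = f ∧ ω q v = g := by
    let F : V →ₗ[ℂ] (ℂ × ℂ) := (ω p).prod (ω q)
    have hF : LinearMap.range F = ⊤ := by
      by_contra hne
      obtain ⟨l, hl0, hl⟩ := Submodule.exists_le_ker_of_lt_top _ (lt_top_iff_ne_top.2 hne)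
      apply hl0
      have h1 : ∀ v, l (ω p v, ω q v) = 0 := fun v => hl ⟨v, rfl⟩
      have h2 : ∀ c d : ℂ, l (c, d) = c * l (1, 0) + d * l (0, 1) := by
        intro c d
        have h3 : ((c, d) : ℂ × ℂ) = c • (1, 0) + d • (0, 1) := by
          ext <;> simp
        rw [h3, map_add, map_smul, map_smul, smul_eq_mul, smul_eq_mul]
      have h3 : l (1, 0) • p + l (0, 1) • q = 0 := by
        apply hnd
        intro v
        rw [map_add, map_smul, map_smul, LinearMap.add_apply, LinearMap.smul_apply,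
          LinearMap.smul_apply, smul_eq_mul, smul_eq_mul]
        have h4 := h1 v
        rw [h2] at h4
        linear_combination h4
      obtain ⟨h4, h5⟩ := hpq _ _ h3
      refine LinearMap.ext fun z => ?_
      rw [show z = (z.1, z.2) from rfl, h2, h4, h5, mul_zero, mul_zero, add_zero]
      rfl
    intro f g
    have h1 : ((f, g) : ℂ × ℂ) ∈ LinearMap.range F := by rw [hF]; trivial
    obtain ⟨v, hv⟩ := h1
    exact ⟨v, congrArg Prod.fst hv, congrArg Prod.snd hv⟩
  have hsym : ∀ u v, α u * ω p v + β u * ω q v = α v * ω p u + β v * ω q u := by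
    intro u v
    have h1 := hy u v
    rw [hyu u, hyu v, hanti u (α v • p + β v • q)] at h1
    simp only [map_add, map_smul, LinearMap.add_apply, LinearMap.smul_apply, smul_eq_mul] at h1
    linear_combination h1
  obtain ⟨v1, h1p, h1q⟩ := hdual 1 0
  obtain ⟨v2, h2p, h2q⟩ := hdual 0 1
  have hα : ∀ u, α u = α v1 * ω p u + β v1 * ω q u := by
    intro u
    have h1 := hsym u v1
    rw [h1p, h1q] at h1
    linear_combination h1
  have hβ : ∀ u, β u = α v2 * ω p u + β v2 * ω q u := by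
    intro u
    have h1 := hsym u v2
    rw [h2p, h2q] at h1
    linear_combination h1
  have hab : β v1 = α v2 := by
    have h1 := hβ v1
    rw [h1p, h1q] at h1
    linear_combination h1
  -- factorisation of the quadratic form
  obtain ⟨x0, x1, y0, y1, e1, e2, e3⟩ : ∃ x0 x1 y0 y1 : ℂ, 2 * (x0 * y0) = α v1 ∧
      x0 * y1 + x1 * y0 = β v1 ∧ 2 * (x1 * y1) = β v2 := by
    by_cases h0 : α v1 = 0
    · exact ⟨0, 1, β v1, β v2 / 2, by rw [h0]; ring, by ring, by ring⟩
    · obtain ⟨s, hs⟩ := IsAlgClosed.exists_pow_nat_eq (β v1 ^ 2 - α v1 * β v2) (n := 2) two_pos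
      refine ⟨1, (β v1 + s) / α v1, α v1 / 2, (β v1 - s) / 2, by ring, by field_simp; ring, ?_⟩
      field_simp
      linear_combination -hs
  refine ⟨x0 • p + x1 • q, y0 • p + y1 • q, LinearMap.ext fun u => ?_⟩
  have hαu : α u = 2 * (x0 * y0) * ω p u + (x0 * y1 + x1 * y0) * ω q u := by
    rw [hα u, e1, e2]
  have hβu : β u = (x0 * y1 + x1 * y0) * ω p u + 2 * (x1 * y1) * ω q u := by
    rw [hβ u, ← hab, e2, e3]
  rw [EE_apply, hyu, hαu, hβu]
  simp only [map_add, map_smul, LinearMap.add_apply, LinearMap.smul_apply, smul_eq_mul]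
  module

theorem range_EE {a b : V} (hr : rk (EE ω a b) = 2) :
    (∀ α β : ℂ, α • a + β • b = 0 → α = 0 ∧ β = 0) ∧
      a ∈ LinearMap.range (EE ω a b) ∧ b ∈ LinearMap.range (EE ω a b) := by
  have h1 : LinearMap.range (EE ω a b) ≤ Submodule.span ℂ (Set.range ![a, b]) := by
    rintro _ ⟨x, rfl⟩
    rw [EE_apply]
    refine Submodule.add_mem _ (Submodule.smul_mem _ _ (Submodule.subset_span ⟨0, rfl⟩))
      (Submodule.smul_mem _ _ (Submodule.subset_span ⟨1, rfl⟩))
  have h2 : finrank ℂ (Submodule.span ℂ (Set.range ![a, b])) ≤ 2 := by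
    have h0 := finrank_range_le_card (R := ℂ) ![a, b]
    rw [Fintype.card_fin] at h0
    exact h0
  have h3 := Submodule.finrank_mono h1
  have hr' : finrank ℂ (LinearMap.range (EE ω a b)) = 2 := hr
  have h4 : LinearMap.range (EE ω a b) = Submodule.span ℂ (Set.range ![a, b]) :=
    Submodule.eq_of_le_of_finrank_eq h1 (by omega)
  have h5 : LinearIndependent ℂ ![a, b] := by
    rw [linearIndependent_iff_card_eq_finrank_span, Set.finrank, ← h4, hr']
    rfl
  refine ⟨fun α β hab => ?_, ?_, ?_⟩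
  · exact LinearIndependent.pair_iff.1 h5 α β hab
  · rw [h4]
    exact Submodule.subset_span ⟨0, rfl⟩
  · rw [h4]
    exact Submodule.subset_span ⟨1, rfl⟩

theorem rk_EE_self (hnd : ∀ u, (∀ v, ω u v = 0) → u = 0) {x : V} (hx0 : x ≠ 0) :
    rk (EE ω x x) = 1 := by
  unfold rk
  have h3 : LinearMap.range (EE ω x x) = Submodule.span ℂ {x} := by
    apply le_antisymm
    · rintro _ ⟨y, rfl⟩
      rw [EE_apply, ← add_smul]
      exact Submodule.smul_mem _ _ (Submodule.mem_span_singleton_self x)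
    · rw [Submodule.span_singleton_le_iff_mem]
      obtain ⟨y, hy⟩ : ∃ y, ω x y ≠ 0 := by
        by_contra hcon
        push Not at hcon
        exact hx0 (hnd x hcon)
      refine ⟨(2 * ω x y)⁻¹ • y, ?_⟩
      rw [EE_apply, map_smul, smul_eq_mul, ← add_smul]
      have h4 : (2 * ω x y)⁻¹ * ω x y + (2 * ω x y)⁻¹ * ω x y = 1 := by
        field_simp
        norm_num
      rw [h4, one_smul]
  rw [h3]
  exact finrank_span_singleton hx0

end prod

end

end Pool.Agent.Y224.TS
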