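import Mathlib
import Pool.Agent.Y224.TS.R1

/-!
# Elements of rank one in Lie algebras of small rank generated by involutions: the theorem
-/

set_option linter.unusedSectionVars false

namespace Pool.Agent.Y224.TS

open Module Pool.Agent.W437.HP Pool.Agent.W437.HQ
open Pool.Agent.W528.Odd (QP orth inf_orth qp_span gens exists_rank_one_odd gens_le)
open Pool.Agent.W548.Odd (IsIdl sq_zero_of_up sq_zero_of_dn up_left up_right dn_left
  dn_right rk rk_eq_zero rk_mul_le_left rk_mul_le_right)

noncomputable section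

variable {V : Type} [AddCommGroup V] [Module ℂ V] [FiniteDimensional ℂ V]
  {ω : V →ₗ[ℂ] V →ₗ[ℂ] ℂ} {m : Submodule ℂ (End ℂ V)}

theorem isSp_of (h : ∀ y ∈ m, ∀ a b, ω (y a) b + ω a (y b) = 0) {y : End ℂ V} (hy : y ∈ m) :
    IsSp ω y := fun a b => eq_neg_of_add_eq_zero_left (h y hy a b)

/-- Eigenvectors of a symplectic involution for the same eigenvalue are orthogonal. -/
theorem eig_iso' {D : End ℂ V} (hD : ∀ a b, ω (D a) b + ω a (D b) = 0) {c : ℂ} (hc : c ≠ 0)
    {u v : V} (hu : D u = c • u) (hv : D v = c • v) : ω u v = 0 := by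
  have h1 := hD u v
  rw [hu, hv, map_smul, map_smul, LinearMap.smul_apply, smul_eq_mul] at h1
  have h2 : (2 * c) * ω u v = 0 := by linear_combination h1
  exact (mul_eq_zero.1 h2).resolve_left (mul_ne_zero two_ne_zero hc)

theorem qp_nondeg (hnd : ∀ u, (∀ v, ω u v = 0) → u = 0) (hQ : QP ω m) :
    ∀ y ∈ m, (∀ z ∈ m, LinearMap.trace ℂ V (y * z) = 0) → y = 0 := by
  intro y hy h
  have h1 : m ⊓ orth m m = ⊥ := inf_orth hnd hQ le_rfl fun x hx y hy => hQ.br x hx y hy
  have h2 : y ∈ m ⊓ orth m m := ⟨hy, hy, h⟩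
  rw [h1, Submodule.mem_bot] at h2
  exact h2

/-- If there are no elements of rank one but an element of rank two and degree one, then the
representation is reducible. -/
theorem no_rank_two (halt : ∀ v, ω v v = 0) (hnd : ∀ u, (∀ v, ω u v = 0) → u = 0)
    (hQ : QP ω m) (hone : ∀ e ∈ m, rk e ≠ 1) {D e : End ℂ V} (hDm : D ∈ m) (hD2 : D * D = 1)
    (hem : e ∈ m) (hDe : D * e = e) (heD : e * D = -e) (hre : rk e = 2) : False := by
  have hLieS : LieS ω m :=
    { alt := halt
      brk := hQ.br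
      sp := fun X hX => isSp_of hQ.sp hX
      one := by
        intro x hx
        by_contra hx0
        exact hone _ hx (rk_EE_self hnd hx0) }
  have hanti := anti_of_alt halt
  obtain ⟨f, hf, hDf, hfD, hefe, hfef⟩ := partner hQ.br (qp_nondeg hnd hQ) hDm hD2 hem hDe heD
  have hrf : rk f = 2 := by
    apply le_antisymm
    · rw [← hre, ← hfef]
      exact (rk_mul_le_left _ _).trans (rk_mul_le_right _ _)
    · rw [← hre, ← hefe]
      exact (rk_mul_le_left _ _).trans (rk_mul_le_right _ _)
  obtain ⟨v, w, hvw⟩ := exists_EE halt hnd (isSp_of hQ.sp hem) hre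
  obtain ⟨p, q, hpq⟩ := exists_EE halt hnd (isSp_of hQ.sp hf) hrf
  rw [hvw] at hre
  rw [hpq] at hrf
  obtain ⟨hli, ⟨xv, hxv⟩, ⟨xw, hxw⟩⟩ := range_EE hre
  obtain ⟨hli', ⟨xp, hxp⟩, ⟨xq, hxq⟩⟩ := range_EE hrf
  rw [← hvw] at hxv hxw
  rw [← hpq] at hxp hxq
  have hv1 : D v = (1 : ℂ) • v := by
    rw [one_smul, ← hxv, ← Module.End.mul_apply, hDe]
  have hw1 : D w = (1 : ℂ) • w := by
    rw [one_smul, ← hxw, ← Module.End.mul_apply, hDe]
  have hp1 : D p = (-1 : ℂ) • p := by
    rw [neg_one_smul, ← hxp, ← Module.End.mul_apply, hDf]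
    rfl
  have hq1 : D q = (-1 : ℂ) • q := by
    rw [neg_one_smul, ← hxq, ← Module.End.mul_apply, hDf]
    rfl
  have hVW : ω v w = 0 := eig_iso' (hQ.sp D hDm) one_ne_zero hv1 hw1
  have hPQ : ω p q = 0 := eig_iso' (hQ.sp D hDm) (neg_ne_zero.2 one_ne_zero) hp1 hq1
  have hefv : e (f v) = v := by
    conv_lhs => rw [← hxv]
    have h3 := congrArg (fun F : End ℂ V => F xv) hefe
    simp only [Module.End.mul_apply] at h3
    rw [h3, hxv]
  have hfv : f v = (-ω v q) • p + (-ω v p) • q := by
    rw [hpq, EE_apply, hanti q v, hanti p v]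
  have hep : e p = ω w p • v + ω v p • w := by rw [hvw, EE_apply]
  have heq : e q = ω w q • v + ω v q • w := by rw [hvw, EE_apply]
  have hrel := hefv
  rw [hfv, map_add, map_smul, map_smul, hep, heq] at hrel
  set a := ω v p with ha
  set b := ω v q with hb
  set c := ω w p with hc
  set d := ω w q with hd
  have h3 : (-(b * c + a * d) - 1) • v + (-(2 * (a * b))) • w = 0 := by
    have h4 : (-(b * c + a * d) - 1) • v + (-(2 * (a * b))) • w =
        (-b) • (c • v + a • w) + (-a) • (d • v + b • w) - v := by module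
    rw [h4, hrel, sub_self]
  obtain ⟨h4, h5⟩ := hli _ _ h3
  have hab : a * b = 0 := by linear_combination (-1 / 2 : ℂ) * h5
  have hefw : e (f w) = w := by
    conv_lhs => rw [← hxw]
    have h3 := congrArg (fun F : End ℂ V => F xw) hefe
    simp only [Module.End.mul_apply] at h3
    rw [h3, hxw]
  have hfw : f w = (-d) • p + (-c) • q := by
    rw [hpq, EE_apply, hanti q w, hanti p w]
  have hrel2 := hefw
  rw [hfw, map_add, map_smul, map_smul, hep, heq] at hrel2
  have h6 : (-(2 * (c * d))) • v + (-(b * c + a * d) - 1) • w = 0 := by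
    have h7 : (-(2 * (c * d))) • v + (-(b * c + a * d) - 1) • w =
        (-d) • (c • v + a • w) + (-c) • (d • v + b • w) - w := by module
    rw [h7, hrel2, sub_self]
  have hcd : c * d = 0 := by linear_combination (-1 / 2 : ℂ) * (hli _ _ h6).1
  have hXm : EE ω v w ∈ m := by rw [← hvw]; exact hem
  -- the frame
  obtain ⟨v', w', hF⟩ : ∃ v' w', Frame ω m v w v' w' := by
    by_cases ha0 : a = 0
    · have hbc : b * c = -1 := by
        rw [ha0] at h4
        linear_combination -h4
      have hb0 : b ≠ 0 := by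
        intro h8
        rw [h8, zero_mul] at hbc
        norm_num at hbc
      have hc0 : c ≠ 0 := by
        intro h8
        rw [h8, mul_zero] at hbc
        norm_num at hbc
      have hd0 : d = 0 := (mul_eq_zero.1 hcd).resolve_left hc0
      refine ⟨b⁻¹ • q, c⁻¹ • p, hVW, ?_, ?_, ?_, ?_, ?_, hXm, ?_⟩
      · rw [map_smul, map_smul, LinearMap.smul_apply, hanti q p, hPQ, neg_zero, smul_zero,
          smul_zero]
      · rw [map_smul, ← hb, smul_eq_mul, inv_mul_cancel₀ hb0]
      · rw [map_smul, ← hc, smul_eq_mul, inv_mul_cancel₀ hc0]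
      · rw [map_smul, ← ha, ha0, smul_zero]
      · rw [map_smul, ← hd, hd0, smul_zero]
      · have h9 : EE ω (b⁻¹ • q) (c⁻¹ • p) = (b⁻¹ * c⁻¹) • EE ω p q := by
          refine LinearMap.ext fun x => ?_
          rw [LinearMap.smul_apply, EE_apply, EE_apply, map_smul, map_smul, LinearMap.smul_apply,
            LinearMap.smul_apply, smul_eq_mul, smul_eq_mul]
          module
        rw [h9, ← hpq]
        exact Submodule.smul_mem _ _ hf
    · have hb0 : b = 0 := (mul_eq_zero.1 hab).resolve_left ha0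
      have had : a * d = -1 := by
        rw [hb0] at h4
        linear_combination -h4
      have hd0 : d ≠ 0 := by
        intro h8
        rw [h8, mul_zero] at had
        norm_num at had
      have hc0 : c = 0 := (mul_eq_zero.1 hcd).resolve_right hd0
      refine ⟨a⁻¹ • p, d⁻¹ • q, hVW, ?_, ?_, ?_, ?_, ?_, hXm, ?_⟩
      · rw [map_smul, map_smul, LinearMap.smul_apply, hPQ, smul_zero, smul_zero]
      · rw [map_smul, ← ha, smul_eq_mul, inv_mul_cancel₀ ha0]
      · rw [map_smul, ← hd, smul_eq_mul, inv_mul_cancel₀ hd0]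
      · rw [map_smul, ← hb, hb0, smul_zero]
      · rw [map_smul, ← hc, hc0, smul_zero]
      · have h9 : EE ω (a⁻¹ • p) (d⁻¹ • q) = (a⁻¹ * d⁻¹) • EE ω p q := by
          refine LinearMap.ext fun x => ?_
          rw [LinearMap.smul_apply, EE_apply, EE_apply, map_smul, map_smul, LinearMap.smul_apply,
            LinearMap.smul_apply, smul_eq_mul, smul_eq_mul]
          module
        rw [h9, ← hpq]
        exact Submodule.smul_mem _ _ hf
  have hv0 : v ≠ 0 := by
    rintro h8
    have h9 := hF.vv'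
    rw [h8, map_zero, LinearMap.zero_apply] at h9
    exact zero_ne_one h9
  rcases hQ.irr (NN ω m v w v' w') (fun y hy _ u hu => hF.NN_stable hLieS hy hu) with h8 | h8
  · have h9 : v ∈ NN ω m v w v' w' := v_mem_NN
    rw [h8, Submodule.mem_bot] at h9
    exact hv0 h9
  · have h9 : v' ∈ NN ω m v w v' w' := by rw [h8]; trivial
    have h10 := hF.NN_iso hLieS (v_mem_NN) h9
    rw [hF.vv'] at h10
    exact one_ne_zero h10

/-- The rank of an operator of square zero. -/
theorem two_rk_le {N : End ℂ V} (h : N * N = 0) : 2 * rk N ≤ finrank ℂ V := by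
  have h1 := LinearMap.finrank_range_add_finrank_ker N
  have h2 : LinearMap.range N ≤ LinearMap.ker N := by
    rintro _ ⟨x, rfl⟩
    rw [LinearMap.mem_ker, ← Module.End.mul_apply, h, LinearMap.zero_apply]
  have h3 := Submodule.finrank_mono h2
  unfold rk
  omega

/-- **Elements of rank one.** A Lie algebra of symplectic operators on a space of dimension at most
seven in which the elements `X` with `X ^ 2 = 1 / 4` act irreducibly contains an element of rank
one. -/
theorem exists_rank_one_small {𝔥 : Submodule ℂ (End ℂ V)} (halt : ∀ v, ω v v = 0)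
    (hnd : ∀ u, (∀ v, ω u v = 0) → u = 0) (hbr : ∀ X ∈ 𝔥, ∀ Y ∈ 𝔥, X * Y - Y * X ∈ 𝔥)
    (hsp : ∀ y ∈ 𝔥, ∀ a b, ω (y a) b + ω a (y b) = 0)
    (hirr : ∀ W : Submodule ℂ V, (∀ X ∈ 𝔥, X * X = (1 / 4 : ℂ) • 1 → ∀ u ∈ W, X u ∈ W) →
      W = ⊥ ∨ W = ⊤) (h0 : 0 < finrank ℂ V) (h7 : finrank ℂ V ≤ 7) : ∃ e ∈ 𝔥, rk e = 1 := by
  have hanti := anti_of_alt halt
  have hQ : QP ω (Submodule.span ℂ (gens 𝔥)) := qp_span hbr hsp hirr
  set m := Submodule.span ℂ (gens 𝔥) with hm
  have hm𝔥 : m ≤ 𝔥 := gens_le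
  by_contra hone
  push Not at hone
  -- an involution
  obtain ⟨X, hX, hXX⟩ : ∃ X ∈ m, X * X = (1 / 4 : ℂ) • 1 := by
    by_contra hcon
    push Not at hcon
    have h1 : ∀ W : Submodule ℂ V, W = ⊥ ∨ W = ⊤ := fun W =>
      hQ.irr W fun X hX hXX => absurd hXX (hcon X hX)
    obtain ⟨v, hv⟩ : ∃ v : V, v ≠ 0 := by
      have := Module.nontrivial_of_finrank_pos h0
      exact exists_ne 0
    have h2 : (ℂ ∙ v) = ⊤ := (h1 (ℂ ∙ v)).resolve_left (by
      rw [Submodule.span_singleton_eq_bot]
      exact hv)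
    apply hv
    apply hnd
    intro w
    have h3 : w ∈ (ℂ ∙ v) := by rw [h2]; trivial
    obtain ⟨c, rfl⟩ := Submodule.mem_span_singleton.1 h3
    rw [map_smul, halt, smul_zero]
  set D : End ℂ V := (2 : ℂ) • X with hD
  have hDm : D ∈ m := Submodule.smul_mem _ _ hX
  have hD2 : D * D = 1 := by
    rw [hD, smul_mul_smul_comm, hXX, smul_smul]
    norm_num
  -- an element of degree one
  obtain ⟨N, hN, hDN, hND, hN0⟩ : ∃ N ∈ m, D * N = N ∧ N * D = -N ∧ N ≠ 0 := by
    by_contra hcon
    push Not at hcon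
    have h1 : ∀ y ∈ m, (1 + D) * y * (1 - D) = 0 := fun y hy =>
      hcon _ ((⟨le_rfl, hQ.br⟩ : IsIdl m m).up hDm hD2 hy) (up_left hD2 y) (up_right hD2 y)
    have h2 := hQ.irr (LinearMap.ker (1 + D)) (fun y hy _ u hu => by
      rw [LinearMap.mem_ker] at hu ⊢
      have h3 : D u = -u := by
        rw [LinearMap.add_apply, Module.End.one_apply] at hu
        exact eq_neg_of_add_eq_zero_right hu
      have h4 := congrArg (fun F : End ℂ V => F u) (h1 y hy)
      simp only [Module.End.mul_apply, LinearMap.zero_apply] at h4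
      have h5 : (1 - D) u = (2 : ℂ) • u := by
        rw [LinearMap.sub_apply, Module.End.one_apply, h3, sub_neg_eq_add, two_smul]
      rw [h5, map_smul, map_smul] at h4
      exact (smul_eq_zero.1 h4).resolve_left two_ne_zero)
    have hnt : Nontrivial V := Module.nontrivial_of_finrank_pos h0
    obtain ⟨v, hv⟩ := exists_ne (0 : V)
    obtain ⟨w, hw⟩ : ∃ w, ω v w ≠ 0 := by
      by_contra hc
      push Not at hc
      exact hv (hnd v hc)
    rcases h2 with h2 | h2
    · -- `D = 1`
      have h3 : ∀ u, D u = (1 : ℂ) • u := by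
        intro u
        have h4 : u - D u ∈ LinearMap.ker (1 + D) := by
          rw [LinearMap.mem_ker, LinearMap.add_apply, Module.End.one_apply, map_sub,
            ← Module.End.mul_apply, hD2, Module.End.one_apply]
          abel
        rw [h2, Submodule.mem_bot, sub_eq_zero] at h4
        rw [one_smul]
        exact h4.symm
      exact hw (eig_iso' (hQ.sp D hDm) one_ne_zero (h3 v) (h3 w))
    · have h3 : ∀ u, D u = (-1 : ℂ) • u := by
        intro u
        have h4 : u ∈ LinearMap.ker (1 + D) := by rw [h2]; trivial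
        rw [LinearMap.mem_ker, LinearMap.add_apply, Module.End.one_apply] at h4
        rw [neg_one_smul]
        exact eq_neg_of_add_eq_zero_right h4
      exact hw (eig_iso' (hQ.sp D hDm) (neg_ne_zero.2 one_ne_zero) (h3 v) (h3 w))
  have hNN : N * N = 0 := sq_zero_of_up hDN hND
  have h1 := two_rk_le hNN
  have h2 : rk N ≠ 0 := fun h => hN0 (rk_eq_zero h)
  have h3 : rk N ≠ 1 := hone N (hm𝔥 hN)
  rcases (show rk N = 2 ∨ rk N = 3 by omega) with h4 | h4
  · exact no_rank_two halt hnd hQ (fun e he => hone e (hm𝔥 he)) hDm hD2 hN hDN hND h4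
  · obtain ⟨e, he, he1⟩ := exists_rank_one_odd halt hnd Pool.Agent.W72.OT.Bound.main hbr hsp hirr
      (hm𝔥 hN) hNN (by
        change Odd (rk N)
        rw [h4]
        decide)
    exact hone e he he1

end

end Pool.Agent.Y224.TS
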