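import Mathlib
import Pool.Agent.Y224.TS.T2
import Pool.Agent.Y224.TS.R2

/-!
# Elements of rank one in the second Lie algebra
-/

set_option linter.unusedSectionVars false

namespace Pool.Agent.Y224.TS

open Matrix Module Pool.Agent.W437.HC Pool.Agent.W437.HD Pool.Agent.W548.Odd Pool.Agent.W522.U
open Pool.Agent.H204R3.SP Pool.Agent.H204R3.GP Pool.Agent.Y90
open Pool.Agent.W437.HP (cK cK_mul cK_one)

noncomputable section

section general

variable {V : Type} [AddCommGroup V] [Module ℂ V] [FiniteDimensional ℂ V]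
  {ω : V →ₗ[ℂ] V →ₗ[ℂ] ℂ}

/-- A symplectic operator of rank one does not commute with a symplectic involution. -/
theorem up_or_dn (halt : ∀ v, ω v v = 0) (hnd : ∀ u, (∀ v, ω u v = 0) → u = 0)
    {D e : End ℂ V} (hD2 : D * D = 1) (hDsp : ∀ a b, ω (D a) b + ω a (D b) = 0)
    (hesp : ∀ a b, ω (e a) b + ω a (e b) = 0) (hr : rk e = 1) :
    (1 + D) * e * (1 - D) ≠ 0 ∨ (1 - D) * e * (1 + D) ≠ 0 := by
  by_contra hcon
  push Not at hcon
  obtain ⟨h5, h6⟩ := hcon
  have hanti := anti_of_alt halt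
  have h7 : D * e = e * D := by
    have h8 : (2 : ℂ) • (D * e - e * D) = (1 + D) * e * (1 - D) - (1 - D) * e * (1 + D) := by
      rw [two_smul]
      noncomm_ring
    rw [h5, h6, sub_zero] at h8
    exact sub_eq_zero.1 ((smul_eq_zero.1 h8).resolve_left two_ne_zero)
  obtain ⟨⟨d, hd⟩, hd0, hspan⟩ := finrank_eq_one_iff'.1 hr
  have hd0' : d ≠ 0 := fun h => hd0 (Subtype.ext h)
  have hev : ∀ v, ∃ c : ℂ, e v = c • d := by
    intro v
    obtain ⟨c, hc⟩ := hspan ⟨e v, v, rfl⟩
    exact ⟨c, (congrArg Subtype.val hc).symm⟩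
  choose φ hφ using hev
  obtain ⟨w, hw⟩ : ∃ w, ω d w ≠ 0 := by
    by_contra h
    push Not at h
    exact hd0' (hnd d h)
  obtain ⟨x, hx⟩ := hd
  have hφx : φ x • d = d := by rw [← hφ, hx]
  have hDd : D d = φ (D x) • d := by
    rw [← hφ, ← Module.End.mul_apply, ← h7, Module.End.mul_apply, hx]
  set ε := φ (D x) with hε
  have hε2 : ε * ε = 1 := by
    have h8 : D (D d) = d := by rw [← Module.End.mul_apply, hD2, Module.End.one_apply]
    rw [hDd, map_smul, hDd, smul_smul] at h8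
    have h9 : (ε * ε - 1) • d = 0 := by rw [sub_smul, h8, one_smul, sub_self]
    exact sub_eq_zero.1 ((smul_eq_zero.1 h9).resolve_right hd0')
  have hε0 : ε ≠ 0 := by
    intro h
    rw [h, mul_zero] at hε2
    exact zero_ne_one hε2
  -- `e (D w)` in two ways
  have h1 : ∀ v, φ v * ω d w = φ w * ω d v := by
    intro v
    have h2 := hesp v w
    rw [hφ, hφ, map_smul, map_smul, LinearMap.smul_apply, smul_eq_mul, smul_eq_mul,
      hanti v d] at h2
    linear_combination h2
  have hφw : φ w ≠ 0 := by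
    intro h
    have h2 := h1 x
    rw [h, zero_mul] at h2
    have h3 := (mul_eq_zero.1 h2).resolve_right hw
    rw [h3, zero_smul] at hφx
    exact hd0' hφx.symm
  have h2 := h1 (D w)
  have h3 : φ (D w) = ε * φ w := by
    have h4 : e (D w) = D (e w) := by
      rw [← Module.End.mul_apply, ← h7, Module.End.mul_apply]
    rw [hφ, hφ w, map_smul, hDd, smul_smul] at h4
    have h5 : (φ (D w) - φ w * ε) • d = 0 := by rw [sub_smul, h4, sub_self]
    have h6 := sub_eq_zero.1 ((smul_eq_zero.1 h5).resolve_right hd0')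
    rw [h6, mul_comm]
  have h4 : ω d (D w) = -(ε * ω d w) := by
    have h5 := hDsp d w
    rw [hDd, map_smul, LinearMap.smul_apply, smul_eq_mul] at h5
    linear_combination h5
  rw [h3, h4] at h2
  have h5 : (2 * ε) * (φ w * ω d w) = 0 := by linear_combination h2
  rcases mul_eq_zero.1 h5 with h6 | h6
  · exact (mul_ne_zero two_ne_zero hε0) h6
  · exact (mul_ne_zero hφw hw) h6

end general

section gen

variable {B : Type} [Fintype B] [DecidableEq B] {L : Submodule ℂ (Matrix B B ℂ)}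
  (hbr : ∀ X ∈ L, ∀ Y ∈ L, X * Y - Y * X ∈ L) {D : Matrix B B ℂ} (hDm : D ∈ L) (hD2 : D * D = 1)
include hbr hDm hD2

theorem gup_mem {y : Matrix B B ℂ} (hy : y ∈ L) : (1 / 4 : ℂ) • ((1 + D) * y * (1 - D)) ∈ L := by
  refine Submodule.smul_mem _ _ ?_
  have h1 : (1 + D) * y * (1 - D) = y + (D * y - y * D) - D * y * D := by noncomm_ring
  have h2 : D * y * D = y - (2 : ℂ)⁻¹ • (D * (D * y - y * D) - (D * y - y * D) * D) := by
    have h : D * (D * y - y * D) - (D * y - y * D) * D =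
        (D * D) * y + y * (D * D) - (2 : ℂ) • (D * y * D) := by
      rw [two_smul]
      noncomm_ring
    rw [h, hD2, one_mul, mul_one, ← two_smul ℂ, ← smul_sub, smul_smul,
      inv_mul_cancel₀ two_ne_zero, one_smul]
    abel
  rw [h1, h2]
  have h3 := hbr D hDm y hy
  exact Submodule.sub_mem _ (Submodule.add_mem _ hy h3) (Submodule.sub_mem _ hy
    (Submodule.smul_mem _ _ (hbr D hDm _ h3)))

omit hbr hDm in
theorem gup_l (y : Matrix B B ℂ) :
    D * ((1 / 4 : ℂ) • ((1 + D) * y * (1 - D))) = (1 / 4 : ℂ) • ((1 + D) * y * (1 - D)) := by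
  rw [mul_smul_comm, ← mul_assoc, ← mul_assoc, mul_add, mul_one, hD2, add_comm D]

omit hbr hDm in
theorem gup_r (y : Matrix B B ℂ) :
    ((1 / 4 : ℂ) • ((1 + D) * y * (1 - D))) * D = -((1 / 4 : ℂ) • ((1 + D) * y * (1 - D))) := by
  rw [smul_mul_assoc, mul_assoc _ (1 - D), sub_mul, one_mul, hD2, ← neg_sub 1 D, mul_neg, smul_neg]

/-- There is an element of degree one which does not vanish on an irreducible submodule. -/
theorem exists_gup {U : Submodule ℂ (B → ℂ)} (hU : IrS L U)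
    (hns : ∀ c : ℂ, ∃ u ∈ U, D *ᵥ u ≠ c • u) :
    ∃ N ∈ L, D * N = N ∧ N * D = -N ∧ ∃ u ∈ U, N *ᵥ u ≠ 0 := by
  by_contra hcon
  push Not at hcon
  have hst : Stab L (U ⊓ LinearMap.ker (mulVecLin (1 + D))) := by
    rintro y hy u ⟨hu, hu'⟩
    refine ⟨hU.2.1 y hy u hu, ?_⟩
    have h1 := hcon _ (gup_mem hbr hDm hD2 hy) (gup_l hD2 y) (gup_r hD2 y) u hu
    have hu2 : u + D *ᵥ u = 0 := by
      have := hu'
      rw [SetLike.mem_coe, LinearMap.mem_ker, mulVecLin_apply, add_mulVec, one_mulVec] at this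
      exact this
    have h2 : (1 - D) *ᵥ u = (2 : ℂ) • u := by
      rw [sub_mulVec, one_mulVec, eq_neg_of_add_eq_zero_right hu2]
      module
    rw [smul_mulVec, ← mulVec_mulVec, ← mulVec_mulVec, h2, mulVec_smul, mulVec_smul,
      smul_smul] at h1
    exact (smul_eq_zero.1 h1).resolve_left (by norm_num)
  have h2 : ∀ u, D *ᵥ (D *ᵥ u) = u := fun u => by rw [mulVec_mulVec, hD2, one_mulVec]
  rcases hU.2.2 _ inf_le_left hst with h1 | h1
  · obtain ⟨u, hu, hu'⟩ := hns 1
    apply hu'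
    rw [one_smul]
    have h3 : D *ᵥ u - u ∈ U ⊓ LinearMap.ker (mulVecLin (1 + D)) := by
      refine ⟨U.sub_mem (hU.2.1 _ hDm u hu) hu, ?_⟩
      rw [SetLike.mem_coe, LinearMap.mem_ker, mulVecLin_apply, add_mulVec, one_mulVec, mulVec_sub,
        h2]
      abel
    rw [h1, Submodule.mem_bot] at h3
    exact sub_eq_zero.1 h3
  · obtain ⟨u, hu, hu'⟩ := hns (-1)
    apply hu'
    rw [← h1] at hu
    have h3 := hu.2
    rw [SetLike.mem_coe, LinearMap.mem_ker, mulVecLin_apply, add_mulVec, one_mulVec] at h3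
    rw [neg_one_smul]
    exact eq_neg_of_add_eq_zero_right h3

omit hbr hDm hD2 in
/-- The rank on the submodule. -/
theorem two_rank_le' {U : Submodule ℂ (B → ℂ)} {N : Matrix B B ℂ} (hU : ∀ u ∈ U, N *ᵥ u ∈ U)
    (h1 : D * N = N) (h2 : N * D = -N) :
    2 * finrank ℂ (U.map (mulVecLin N)) ≤ finrank ℂ U := by
  have hNN : ∀ u, N *ᵥ (N *ᵥ u) = 0 := by
    intro u
    have h3 : N * N = -(N * N) := by
      calc N * N = N * (D * N) := by rw [h1]
        _ = -(N * N) := by rw [← mul_assoc, h2, neg_mul]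
    have h4 : (2 : ℂ) • (N * N) = 0 := by
      rw [two_smul]
      nth_rewrite 1 [h3]
      rw [neg_add_cancel]
    rw [mulVec_mulVec, (smul_eq_zero.1 h4).resolve_left two_ne_zero, zero_mulVec]
  let f : U →ₗ[ℂ] (B → ℂ) := (mulVecLin N).domRestrict U
  have h5 := LinearMap.finrank_range_add_finrank_ker f
  have h6 : LinearMap.range f = U.map (mulVecLin N) := by
    rw [LinearMap.range_domRestrict]
  have h7 : finrank ℂ (U.map (mulVecLin N)) ≤ finrank ℂ (LinearMap.ker f) := by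
    have h8 : U.map (mulVecLin N) ≤ (LinearMap.ker f).map U.subtype := by
      rintro _ ⟨u, hu, rfl⟩
      refine ⟨⟨N *ᵥ u, hU u hu⟩, ?_, rfl⟩
      exact hNN u
    refine (Submodule.finrank_mono h8).trans ?_
    exact Submodule.finrank_map_le _ _
  rw [h6] at h5
  omega

end gen

end

end Pool.Agent.Y224.TS
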