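import Mathlib
import Pool.Agent.Y224.TS.T2

/-!
# Traces of the involutions on irreducible submodules
-/

set_option linter.unusedSectionVars false

namespace Pool.Agent.Y224.TS

open Matrix Module Pool.Agent.W437.HC Pool.Agent.W437.HD Pool.Agent.W548.Odd Pool.Agent.W522.U
open Pool.Agent.H204R3.SP Pool.Agent.H204R3.GP Pool.Agent.Y90
open Pool.Agent.W437.HP (cK cK_mul cK_one)

noncomputable section

variable {G : ℕ} {Z : Matrix (Fin G) (Fin G) ℂ}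
  {S : Set (Matrix (Fin G ⊕ Fin G) (Fin G ⊕ Fin G) ℂ)}

theorem trace_mat {B : Type} [Fintype B] [DecidableEq B] (π : End ℂ (B → ℂ)) (D : Matrix B B ℂ) :
    (LinearMap.toMatrix' π * D).trace = LinearMap.trace ℂ (B → ℂ) (π * ph B D) := by
  rw [← Matrix.trace_toLin'_eq, Matrix.toLin'_mul, Matrix.toLin'_toMatrix']
  rfl

/-- The eigenspaces of the conjugates of the complex structure. -/
theorem es_DS (σ : ℂ ≃+* ℂ) (U : Submodule ℂ (Fin G ⊕ Fin G → ℂ)) {c : ℂ}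
    (hc : ∀ τ : ℂ ≃+* ℂ, τ c = c) :
    es (ph (Fin G ⊕ Fin G) (DS Z σ)) U c = cjS σ (cjS σ.symm U ⊓ eig Z c) := by
  ext v
  rw [mem_es, mem_cjS, Submodule.mem_inf, mem_cjS, mem_eig]
  have h0 : (fun i => σ.symm.symm ((fun i => σ.symm (v i)) i)) = v := by
    funext i
    simp
  rw [h0]
  refine and_congr Iff.rfl ?_
  change DS Z σ *ᵥ v = c • v ↔ _
  have h1 := map_mulVec_aut σ.symm (DS Z σ) v
  have h2 : (DS Z σ).map σ.symm = DZ Z := by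
    ext i j
    simp [DS]
  rw [h2] at h1
  rw [← h1]
  constructor
  · intro h3
    rw [h3]
    funext i
    simp [hc]
  · intro h3
    funext i
    have h4 := congrArg σ (congrFun h3 i)
    simp only [RingEquiv.apply_symm_apply, Pi.smul_apply, smul_eq_mul, map_mul, hc] at h4
    rw [h4]
    rfl

theorem fr_DS (σ : ℂ ≃+* ℂ) (U : Submodule ℂ (Fin G ⊕ Fin G → ℂ)) :
    finrank ℂ (es (ph (Fin G ⊕ Fin G) (DS Z σ)) U 1) = pd Z (cjS σ.symm U) ∧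
      finrank ℂ (es (ph (Fin G ⊕ Fin G) (DS Z σ)) U (-1)) = qd Z (cjS σ.symm U) := by
  constructor
  · rw [es_DS σ U (fun τ => map_one τ), finrank_cjS]
    rfl
  · rw [es_DS σ U (fun τ => by rw [map_neg, map_one]), finrank_cjS]
    rfl

namespace TD

variable (h : TD Z S) (hZ : PM Z)
include h hZ

/-- The dimensions of the eigenspaces of an involution and of a conjugate of the complex structure
agree if the traces agree. -/
theorem dims {D : Matrix (Fin G ⊕ Fin G) (Fin G ⊕ Fin G) ℂ} (hD : D ∈ S) {σ : ℂ ≃+* ℂ}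
    (hσ : ∀ P : Matrix (Fin G ⊕ Fin G) (Fin G ⊕ Fin G) ℂ, (∀ X ∈ LZ Z, P * X = X * P) →
      (P * D).trace = (P * DS Z σ).trace)
    {U : Submodule ℂ (Fin G ⊕ Fin G → ℂ)} (hU : Stab (LZ Z) U) :
    finrank ℂ (es (ph (Fin G ⊕ Fin G) D) U 1) = pd Z (cjS σ.symm U) ∧
      finrank ℂ (es (ph (Fin G ⊕ Fin G) D) U (-1)) = qd Z (cjS σ.symm U) := by
  obtain ⟨π, h1, h2, h3⟩ := hZ.cred U hU
  have h4 := (h.eqv π).2 h1
  have hDD : ph (Fin G ⊕ Fin G) D * ph (Fin G ⊕ Fin G) D = 1 := by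
    rw [← map_mul, h.sq D hD, map_one]
  have e1 := trace_proj hDD h2 h3 (fun v => h4 D (LT_gen hD) v)
  have e2 := trace_proj (phDS_sq hZ σ) h2 h3 (fun v => h1 _ (DS_mem σ) v)
  have e3 := hσ (LinearMap.toMatrix' π) (fun X hX => (comm_mat π X).1 (h1 X hX))
  rw [trace_mat, trace_mat, e1, e2] at e3
  have hUD : ∀ u ∈ U, ph (Fin G ⊕ Fin G) D u ∈ U := fun u hu =>
    (h.stab hZ).2 hU D (LT_gen hD) u hu
  have hUS : ∀ u ∈ U, ph (Fin G ⊕ Fin G) (DS Z σ) u ∈ U := fun u hu => hU _ (DS_mem σ) u hu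
  have e4 := es_add hDD hUD
  have e5 := es_add (phDS_sq hZ σ) hUS
  obtain ⟨e6, e7⟩ := fr_DS (Z := Z) σ U
  rw [← e6, ← e7]
  have e8 : ((finrank ℂ (es (ph (Fin G ⊕ Fin G) D) U 1) : ℤ) : ℂ) -
      ((finrank ℂ (es (ph (Fin G ⊕ Fin G) D) U (-1)) : ℤ) : ℂ) =
      ((finrank ℂ (es (ph (Fin G ⊕ Fin G) (DS Z σ)) U 1) : ℤ) : ℂ) -
      ((finrank ℂ (es (ph (Fin G ⊕ Fin G) (DS Z σ)) U (-1)) : ℤ) : ℂ) := by
    exact_mod_cast e3
  have e9 : (finrank ℂ (es (ph (Fin G ⊕ Fin G) D) U 1) : ℤ) -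
      (finrank ℂ (es (ph (Fin G ⊕ Fin G) D) U (-1)) : ℤ) =
      (finrank ℂ (es (ph (Fin G ⊕ Fin G) (DS Z σ)) U 1) : ℤ) -
      (finrank ℂ (es (ph (Fin G ⊕ Fin G) (DS Z σ)) U (-1)) : ℤ) := by
    exact_mod_cast e8
  omega

/-- The involutions do not act by scalars if the conjugates of the complex structure do not. -/
theorem nonscalar {D : Matrix (Fin G ⊕ Fin G) (Fin G ⊕ Fin G) ℂ} (hD : D ∈ S)
    {U : Submodule ℂ (Fin G ⊕ Fin G → ℂ)} (hU : Stab (LZ Z) U)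
    (hns : ∀ (σ : ℂ ≃+* ℂ) (c : ℂ), ∃ u ∈ U, DS Z σ *ᵥ u ≠ c • u) (c : ℂ) :
    ∃ u ∈ U, D *ᵥ u ≠ c • u := by
  by_contra hcon
  push Not at hcon
  obtain ⟨σ, hσ⟩ := h.tr D hD
  obtain ⟨d1, d2⟩ := h.dims hZ hD hσ hU
  obtain ⟨e6, e7⟩ := fr_DS (Z := Z) σ U
  rw [← e6] at d1
  rw [← e7] at d2
  have hUS : ∀ u ∈ U, ph (Fin G ⊕ Fin G) (DS Z σ) u ∈ U := fun u hu => hU _ (DS_mem σ) u hu
  have e5 := es_add (phDS_sq hZ σ) hUS
  obtain ⟨u0, hu0, hu0'⟩ := hns σ 0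
  have hu00 : u0 ≠ 0 := by
    rintro rfl
    apply hu0'
    rw [mulVec_zero, smul_zero]
  have hDD : D *ᵥ (D *ᵥ u0) = u0 := by rw [mulVec_mulVec, h.sq D hD, one_mulVec]
  have hc2 : c * c = 1 := by
    rw [hcon u0 hu0, mulVec_smul, hcon u0 hu0, smul_smul] at hDD
    have h1 : (c * c - 1) • u0 = 0 := by rw [sub_smul, hDD, one_smul, sub_self]
    exact sub_eq_zero.1 ((smul_eq_zero.1 h1).resolve_right hu00)
  have hc : c = 1 ∨ c = -1 := mul_self_eq_one_iff.1 hc2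
  -- all of `U` is one eigenspace
  have key : ∀ ε : ℂ, finrank ℂ (es (ph (Fin G ⊕ Fin G) (DS Z σ)) U ε) = finrank ℂ U → False := by
    intro ε hε
    have h1 : es (ph (Fin G ⊕ Fin G) (DS Z σ)) U ε = U :=
      Submodule.eq_of_le_of_finrank_eq inf_le_left hε
    obtain ⟨u, hu, hu'⟩ := hns σ ε
    apply hu'
    rw [← h1] at hu
    exact (mem_es.1 hu).2
  have hDU : es (ph (Fin G ⊕ Fin G) D) U c = U := by
    apply le_antisymm inf_le_left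
    intro u hu
    exact mem_es.2 ⟨hu, hcon u hu⟩
  rcases hc with rfl | rfl
  · rw [hDU] at d1
    exact key 1 d1.symm
  · rw [hDU] at d2
    exact key (-1) d2.symm

/-- The determinant of the element of the group attached to an involution. -/
theorem det_gt {D : Matrix (Fin G ⊕ Fin G) (Fin G ⊕ Fin G) ℂ} (hD : D ∈ S) {σ : ℂ ≃+* ℂ}
    (hσ : ∀ P : Matrix (Fin G ⊕ Fin G) (Fin G ⊕ Fin G) ℂ, (∀ X ∈ LZ Z, P * X = X * P) →
      (P * D).trace = (P * DS Z σ).trace)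
    {U : Submodule ℂ (Fin G ⊕ Fin G → ℂ)} (hU : Stab (LZ Z) U)
    (hDD : ph (Fin G ⊕ Fin G) D * ph (Fin G ⊕ Fin G) D = 1)
    (hDm : ph (Fin G ⊕ Fin G) D ∈ GG (LT S))
    (hst : ∀ u ∈ U, RG (GG (LT S)) (gt hDD hDm two) u ∈ U) :
    LinearMap.det ((RG (GG (LT S)) (gt hDD hDm two)).restrict hst) =
      (2 : ℂ) ^ Pool.Agent.Y90.tr Z (cjS σ.symm U) := by
  obtain ⟨d1, d2⟩ := h.dims hZ hD hσ hU
  have hUD : ∀ u ∈ U, ph (Fin G ⊕ Fin G) D u ∈ U := fun u hu =>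
    (h.stab hZ).2 hU D (LT_gen hD) u hu
  obtain ⟨h3, h4⟩ := es_split hDD hUD
  have h5 := det_eig h3 h4 (RG (GG (LT S)) (gt hDD hDm two)) hst 2 (2⁻¹) (fun u hu => ?_)
    (fun u hu => ?_)
  · rw [h5, d1, d2, Pool.Agent.Y90.tr, zpow_sub₀ two_ne_zero, zpow_natCast, zpow_natCast, inv_pow, div_eq_mul_inv]
  · have h6 := (mem_es.1 hu).2
    change torE (ph _ D) two u = _
    rw [torE_two, h6]
    module
  · have h6 := (mem_es.1 hu).2
    change torE (ph _ D) two u = _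
    rw [torE_two, h6]
    module

end TD

end

end Pool.Agent.Y224.TS
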