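import Mathlib
import Pool.Agent.Y224.TS.T3
import Pool.Agent.Y224.TS.T4

/-!
# Elements of rank one in the second Lie algebra: the theorem
-/

set_option linter.unusedSectionVars false

namespace Pool.Agent.Y224.TS

open Matrix Module Pool.Agent.W437.HC Pool.Agent.W437.HD Pool.Agent.W548.Odd Pool.Agent.W522.U
open Pool.Agent.H204R3.SP Pool.Agent.H204R3.GP Pool.Agent.Y90
open Pool.Agent.W437.HP (cK cK_mul cK_one)

noncomputable section

/-- The rank of a restriction. -/
theorem finrank_map_res {B : Type} [Fintype B] [DecidableEq B] {U : Submodule ℂ (B → ℂ)}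
    {Y : End ℂ U} {N : Matrix B B ℂ} (h : ∀ u : U, ((Y u : U) : B → ℂ) = N *ᵥ (u : B → ℂ)) :
    finrank ℂ (U.map (mulVecLin N)) = rk Y := by
  have h1 : U.map (mulVecLin N) = (LinearMap.range Y).map U.subtype := by
    ext v
    constructor
    · rintro ⟨u, hu, rfl⟩
      exact ⟨Y ⟨u, hu⟩, ⟨⟨u, hu⟩, rfl⟩, h ⟨u, hu⟩⟩
    · rintro ⟨_, ⟨u, rfl⟩, rfl⟩
      exact ⟨u, u.2, (h u).symm⟩
  rw [h1, Submodule.finrank_map_subtype_eq]
  rfl

/-- A nonzero degree one part of an element of rank one has rank one. -/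
theorem rk_one_of {V : Type} [AddCommGroup V] [Module ℂ V] [FiniteDimensional ℂ V]
    {a b e : End ℂ V} (h0 : a * e * b ≠ 0) (hr : rk e = 1) :
    rk ((1 / 4 : ℂ) • (a * e * b)) = 1 := by
  rw [rk_smul (by norm_num : (1 / 4 : ℂ) ≠ 0)]
  apply le_antisymm
  · rw [← hr]
    exact (rk_mul_le_left _ _).trans (rk_mul_le_right _ _)
  · rw [Nat.one_le_iff_ne_zero]
    exact fun h => h0 (rk_eq_zero h)

section restr

variable {B : Type} [Fintype B] [DecidableEq B] {L : Submodule ℂ (Matrix B B ℂ)}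

/-- The restrictions of the elements of a Lie algebra. -/
def resL (L : Submodule ℂ (Matrix B B ℂ)) (U : Submodule ℂ (B → ℂ)) : Submodule ℂ (End ℂ U) where
  carrier := {Y | ∃ X ∈ L, ∀ u : U, ((Y u : U) : B → ℂ) = X *ᵥ (u : B → ℂ)}
  add_mem' := by
    rintro Y Y' ⟨X, hX, h⟩ ⟨X', hX', h'⟩
    refine ⟨X + X', L.add_mem hX hX', fun u => ?_⟩
    rw [LinearMap.add_apply, Submodule.coe_add, h, h', add_mulVec]
  zero_mem' := ⟨0, L.zero_mem, fun u => by
    rw [LinearMap.zero_apply, Submodule.coe_zero, zero_mulVec]⟩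
  smul_mem' := by
    rintro c Y ⟨X, hX, h⟩
    refine ⟨c • X, L.smul_mem c hX, fun u => ?_⟩
    rw [LinearMap.smul_apply, Submodule.coe_smul, h, smul_mulVec]

theorem resL_br (hbr : ∀ X ∈ L, ∀ Y ∈ L, X * Y - Y * X ∈ L) (U : Submodule ℂ (B → ℂ)) :
    ∀ X ∈ resL L U, ∀ Y ∈ resL L U, X * Y - Y * X ∈ resL L U := by
  rintro Y ⟨X, hX, h⟩ Y' ⟨X', hX', h'⟩
  refine ⟨X * X' - X' * X, hbr X hX X' hX', fun u => ?_⟩
  rw [LinearMap.sub_apply, Submodule.coe_sub, Module.End.mul_apply, Module.End.mul_apply, h, h', h',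
    h, sub_mulVec, mulVec_mulVec, mulVec_mulVec]

/-- The restriction of a matrix. -/
def resM (D : Matrix B B ℂ) (U : Submodule ℂ (B → ℂ)) (hU : ∀ u ∈ U, D *ᵥ u ∈ U) : End ℂ U :=
  (mulVecLin D).restrict hU

theorem resM_coe (D : Matrix B B ℂ) (U : Submodule ℂ (B → ℂ)) (hU : ∀ u ∈ U, D *ᵥ u ∈ U) (u : U) :
    ((resM D U hU u : U) : B → ℂ) = D *ᵥ (u : B → ℂ) := rfl

end restr

variable {G : ℕ} {Z : Matrix (Fin G) (Fin G) ℂ}
  {S : Set (Matrix (Fin G ⊕ Fin G) (Fin G ⊕ Fin G) ℂ)}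

namespace TD

variable (h : TD Z S) (hZ : PM Z) (hs : SmallF Z)
include h hZ hs

/-- Irreducible submodules of dimension at least two admit elements of rank one. -/
theorem rk1 {U : Submodule ℂ (Fin G ⊕ Fin G → ℂ)} (hU : IrS (LZ Z) U) (hn : 2 ≤ finrank ℂ U) :
    ∃ D ∈ LT S, D * D = 1 ∧ ∃ N ∈ LT S, D * N = N ∧ N * D = -N ∧
      finrank ℂ (U.map (mulVecLin N)) = 1 := by
  obtain ⟨D, hD, -⟩ := h.ex (RingEquiv.refl ℂ)
  have hns := h.nonscalar hZ hD hU.2.1 ((loc hZ hs hU).1 hn).2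
  have hU' : IrS (LT S) U := (h.irS hZ).2 hU
  have hbr : ∀ X ∈ LT S, ∀ Y ∈ LT S, X * Y - Y * X ∈ LT S := fun X hX Y hY => LT_br hX hY
  have hDm : D ∈ LT S := LT_gen hD
  have hD2 := h.sq D hD
  by_cases h3 : finrank ℂ U ≤ 3
  · obtain ⟨N, hN, h1, h2, hu⟩ := exists_gup hbr hDm hD2 hU' hns
    refine ⟨D, hDm, hD2, N, hN, h1, h2, ?_⟩
    have h4 := two_rank_le' (fun u hu => hU'.2.1 N hN u hu) h1 h2
    have h5 : finrank ℂ (U.map (mulVecLin N)) ≠ 0 := by
      obtain ⟨u, hu, hu'⟩ := hu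
      intro h0
      have h1 := Submodule.finrank_eq_zero.1 h0
      have h2 : N *ᵥ u ∈ U.map (mulVecLin N) := ⟨u, hu, rfl⟩
      rw [h1, Submodule.mem_bot] at h2
      exact hu' h2
    omega
  · obtain ⟨a, Z', E, F, hfac, hPM, hsim, ha, hu⟩ := exists_fac hZ hU.1
    have ha3 := (hs a Z' E F hfac hPM hsim ha).1
    have hirr' := hfac.irr hU hu
    have hinj := hfac.inj hU hu
    have hfr := finrank_ml (F := F) hinj
    have hdvd := finrank_dvd hPM hsim hirr'
    rw [hfr] at hdvd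
    have hle : finrank ℂ U ≤ 2 * a := by
      rw [← hfr, ← finrank_V]
      exact Submodule.finrank_le _
    have hn2 : finrank ℂ U = 2 * a := by
      obtain ⟨k, hk⟩ := hdvd
      have hk1 : k < 2 := by
        by_contra hk2
        push Not at hk2
        have : finrank ℂ U * 2 ≤ finrank ℂ U * k := Nat.mul_le_mul_left _ hk2
        omega
      have hk0 : k ≠ 0 := by
        rintro rfl
        omega
      have hk2 : k = 1 := by omega
      rw [hk2] at hk
      omega
    have htop : U.map (ml F) = ⊤ := Submodule.eq_top_of_finrank_eq (by rw [hfr, hn2, finrank_V])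
    let b : (Fin G ⊕ Fin G → ℂ) →ₗ[ℂ] (Fin G ⊕ Fin G → ℂ) →ₗ[ℂ] ℂ := (om a).compl₁₂ (ml F) (ml F)
    have hb : ∀ u v, b u v = om a (ml F u) (ml F v) := fun _ _ => rfl
    have hbZ : ∀ X ∈ LZ Z, ∀ u v, b (X *ᵥ u) v + b u (X *ᵥ v) = 0 := by
      intro X hX u v
      rw [hb, hb, hfac.act hX, hfac.act hX]
      exact hPM.om_sp (hfac.comp hX).1 _ _
    have hbT : ∀ X ∈ LT S, ∀ u v, b (X *ᵥ u) v + b u (X *ᵥ v) = 0 :=
      (h.bil b (fun X hX => hZ.om_sp hX)).2 hbZ
    let ωU : U →ₗ[ℂ] U →ₗ[ℂ] ℂ := b.compl₁₂ U.subtype U.subtype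
    have hωU : ∀ u v : U, ωU u v = b u v := fun _ _ => rfl
    have halt : ∀ v, ωU v v = 0 := fun v => by rw [hωU, hb, om_self]
    have hnd : ∀ u, (∀ v, ωU u v = 0) → u = 0 := by
      intro u hu
      apply Subtype.ext
      refine hinj u u.2 (om_nd _ fun w => ?_)
      have hw : w ∈ U.map (ml F) := by rw [htop]; trivial
      obtain ⟨v, hv, rfl⟩ := hw
      exact hu ⟨v, hv⟩
    have hsp : ∀ y ∈ resL (LT S) U, ∀ x z, ωU (y x) z + ωU x (y z) = 0 := by
      rintro y ⟨X, hX, hyX⟩ x z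
      rw [hωU, hωU, hyX, hyX]
      exact hbT X hX _ _
    have hst : ∀ D ∈ S, ∀ u ∈ U, D *ᵥ u ∈ U := fun D hD u hu => hU'.2.1 D (LT_gen hD) u hu
    have hirr : ∀ W : Submodule ℂ U, (∀ X ∈ resL (LT S) U, X * X = (1 / 4 : ℂ) • 1 →
        ∀ u ∈ W, X u ∈ W) → W = ⊥ ∨ W = ⊤ := by
      intro W hW
      have hS : ∀ D ∈ S, ∀ u ∈ W.map U.subtype, D *ᵥ u ∈ W.map U.subtype := by
        rintro D hD _ ⟨u, hu, rfl⟩
        have h1 := hW ((1 / 2 : ℂ) • resM D U (hst D hD))
          ⟨(1 / 2 : ℂ) • D, Submodule.smul_mem _ _ (LT_gen hD), fun u => by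
            rw [LinearMap.smul_apply, Submodule.coe_smul, resM_coe, smul_mulVec]⟩ (by
            rw [smul_mul_smul_comm]
            have h2 : resM D U (hst D hD) * resM D U (hst D hD) = 1 := by
              refine LinearMap.ext fun u => Subtype.ext ?_
              rw [Module.End.mul_apply, resM_coe, resM_coe, mulVec_mulVec, h.sq D hD, one_mulVec]
              rfl
            rw [h2]
            norm_num) u hu
        rw [LinearMap.smul_apply] at h1
        have h2 := W.smul_mem (2 : ℂ) h1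
        rw [smul_smul] at h2
        norm_num at h2
        exact ⟨_, h2, rfl⟩
      have hL : Stab (LT S) (W.map U.subtype) := by
        let C : Submodule ℂ (Matrix (Fin G ⊕ Fin G) (Fin G ⊕ Fin G) ℂ) :=
          { carrier := {X | ∀ u ∈ W.map U.subtype, X *ᵥ u ∈ W.map U.subtype}
            add_mem' := fun {X Y} hX hY u hu => by
              rw [add_mulVec]
              exact Submodule.add_mem _ (hX u hu) (hY u hu)
            zero_mem' := fun u _ => by
              rw [zero_mulVec]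
              exact Submodule.zero_mem _
            smul_mem' := fun c X hX u hu => by
              rw [smul_mulVec]
              exact Submodule.smul_mem _ _ (hX u hu) }
        have hC : LT S ≤ C := LT_le (fun D hD => hS D hD) (fun A hA A' hA' u hu => by
          rw [sub_mulVec, ← mulVec_mulVec, ← mulVec_mulVec]
          exact Submodule.sub_mem _ (hA _ (hA' u hu)) (hA' _ (hA u hu)))
        exact fun X hX => hC hX
      rcases hU'.2.2 _ (Submodule.map_subtype_le _ _) hL with h2 | h2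
      · left
        rw [eq_bot_iff]
        intro u hu
        have h3 : (u : Fin G ⊕ Fin G → ℂ) ∈ W.map U.subtype := ⟨u, hu, rfl⟩
        rw [h2, Submodule.mem_bot] at h3
        rw [Submodule.mem_bot]
        exact Subtype.ext h3
      · right
        rw [eq_top_iff]
        intro u _
        have h3 : (u : Fin G ⊕ Fin G → ℂ) ∈ W.map U.subtype := by
          rw [h2]
          exact u.2
        obtain ⟨u', hu', huu⟩ := h3
        have h4 : u' = u := Subtype.ext huu
        rw [← h4]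
        exact hu'
    obtain ⟨e, ⟨X, hX, heX⟩, he1⟩ := exists_rank_one_small halt hnd (resL_br hbr U) hsp hirr
      (by omega) (by omega)
    have hDr : resM D U (hst D hD) * resM D U (hst D hD) = 1 := by
      refine LinearMap.ext fun u => Subtype.ext ?_
      rw [Module.End.mul_apply, resM_coe, resM_coe, mulVec_mulVec, h.sq D hD, one_mulVec]
      rfl
    rcases up_or_dn halt hnd hDr (hsp _ ⟨D, hDm, fun u => rfl⟩) (hsp e ⟨X, hX, heX⟩) he1 with
      h5 | h5
    · refine ⟨D, hDm, hD2, _, gup_mem hbr hDm hD2 hX, gup_l hD2 X, gup_r hD2 X, ?_⟩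
      rw [finrank_map_res (Y := (1 / 4 : ℂ) • ((1 + resM D U (hst D hD)) * e *
        (1 - resM D U (hst D hD)))) (fun u => ?_), rk_one_of h5 he1]
      rw [smul_mulVec, ← mulVec_mulVec, ← mulVec_mulVec]
      simp only [LinearMap.smul_apply, Module.End.mul_apply, LinearMap.add_apply,
        LinearMap.sub_apply, Module.End.one_apply, Submodule.coe_smul, Submodule.coe_add,
        Submodule.coe_sub, resM_coe, heX, add_mulVec, sub_mulVec, one_mulVec]
    · have hDm' : -D ∈ LT S := Submodule.neg_mem _ hDm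
      have hD2' : -D * -D = 1 := by rw [neg_mul_neg, hD2]
      refine ⟨-D, hDm', hD2', _, gup_mem hbr hDm' hD2' hX, gup_l hD2' X, gup_r hD2' X, ?_⟩
      rw [finrank_map_res (Y := (1 / 4 : ℂ) • ((1 - resM D U (hst D hD)) * e *
        (1 + resM D U (hst D hD)))) (fun u => ?_), rk_one_of h5 he1]
      rw [smul_mulVec, ← mulVec_mulVec, ← mulVec_mulVec, sub_neg_eq_add, ← sub_eq_add_neg]
      simp only [LinearMap.smul_apply, Module.End.mul_apply, LinearMap.add_apply,
        LinearMap.sub_apply, Module.End.one_apply, Submodule.coe_smul, Submodule.coe_add,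
        Submodule.coe_sub, resM_coe, heX, add_mulVec, sub_mulVec, one_mulVec]

/-- Unipotent elements of rank one. -/
theorem unip {U : Submodule ℂ (Fin G ⊕ Fin G → ℂ)} (hU : IrS (LZ Z) U) (hn : 2 ≤ finrank ℂ U) :
    ∃ γ : Gam (GG (LT S)), (RG (GG (LT S)) γ - 1) * (RG (GG (LT S)) γ - 1) = 0 ∧
      finrank ℂ (U.map (RG (GG (LT S)) γ - 1)) = 1 := by
  obtain ⟨D, hDm, hDD, N, hN, h1, h2, h3⟩ := h.rk1 hZ hs hU hn
  obtain ⟨γ, hγ⟩ := unip_mem (G := GG (LT S)) (D := ph _ D) (N := ph _ N)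
    (by rw [← map_mul, hDD, map_one]) (mem_GG.2 hDm) (mem_GG.2 hN)
    (by rw [← map_mul, h1]) (by rw [← map_mul, h2, map_neg])
  have h4 : RG (GG (LT S)) γ - 1 = ph _ N := by
    rw [hγ, add_sub_cancel_left]
  refine ⟨γ, ?_, ?_⟩
  · rw [h4, ← map_mul]
    have h5 : N * N = 0 := by
      have h6 : N * N = -(N * N) := by
        calc N * N = N * (D * N) := by rw [h1]
          _ = (N * D) * N := by rw [Matrix.mul_assoc]
          _ = -(N * N) := by rw [h2, Matrix.neg_mul]
      have h7 : (2 : ℂ) • (N * N) = 0 := by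
        rw [two_smul]
        nth_rewrite 1 [h6]
        rw [neg_add_cancel]
      exact (smul_eq_zero.1 h7).resolve_left two_ne_zero
    rw [h5, map_zero]
  · rw [h4]
    exact h3

end TD

end

end Pool.Agent.Y224.TS
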