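import Mathlib
import Pool.Agent.Y224.TS.T4

/-!
# The balance of the determinants, from the traces
-/

set_option linter.unusedSectionVars false

namespace Pool.Agent.Y224.TS

open Matrix Module Pool.Agent.W437.HC Pool.Agent.W437.HD Pool.Agent.W548.Odd Pool.Agent.W522.U
open Pool.Agent.H204R3.SP Pool.Agent.H204R3.GP Pool.Agent.Y90
open Pool.Agent.W437.HP (cK cK_mul cK_one)

noncomputable section

variable {G a : ℕ} {Z : Matrix (Fin G) (Fin G) ℂ} {Z' : Matrix (Fin a) (Fin a) ℂ}
  {U U' : Submodule ℂ (Fin G ⊕ Fin G → ℂ)}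

/-- The balance of the determinants. -/
theorem bal_tr (h : PM Z) (hs : SmallF Z) {s : ℕ} (W : Fin s → Submodule ℂ (Fin G ⊕ Fin G → ℂ))
    (hW : ∀ i, IrS (LZ Z) (W i)) (st : Fin s → Fin s) (hst : ∀ i, st (st i) = i)
    (hDu : ∀ i, Du (RZ Z) 1 (W i) (W (st i)))
    (hDu' : ∀ i j, Du (RZ Z) 1 (W i) (W j) → j = st i) (a : Fin s → ℤ)
    (ha : ∀ i, a (st i) = -a i)
    (htr : ∀ τ : ℂ ≃+* ℂ, ∑ i, a i * tr Z (cjS τ (W i)) = 0) :
    ∃ (A : Type) (_ : Fintype A) (mt : A ⊕ A ≃ Σ i, Fin (a i).toNat),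
      ∀ x, PrU Z (W (mt (Sum.inl x)).1) (W (mt (Sum.inr x)).1) := by
  classical
  have hch : ∀ i, ∃ (e : ℤ) (χ : (ℂ ≃+* ℂ) →* ℂ), a i ≠ 0 → CH Z (W i) e χ := by
    intro i
    by_cases h0 : a i = 0
    · exact ⟨0, 1, fun h1 => absurd h0 h1⟩
    · rcases (loc h hs (hW i)).2 with ⟨h1, -⟩ | ⟨b, Z', E, F, φ, α, d, hk⟩
      · exfalso
        have h2 := hDu' i i ((rz_du h (hW i).2.1 (hW i).2.1).2 h1)
        have h3 := ha i
        rw [← h2] at h3
        omega
      · obtain ⟨e, χ, h1⟩ := hk.exists_CH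
        exact ⟨e, χ, fun _ => h1⟩
  choose e χ hch using hch
  have hex : ∀ τ : ℂ ≃+* ℂ, ∑ i, ((a i * e i : ℤ) : ℂ) * χ i τ = 0 := by
    intro τ
    have h1 := congrArg (fun n : ℤ => (n : ℂ)) (htr τ)
    simp only [Int.cast_sum, Int.cast_mul, Int.cast_zero] at h1
    rw [← h1]
    refine Finset.sum_congr rfl fun i _ => ?_
    by_cases h0 : a i = 0
    · simp [h0]
    · rw [(hch i h0).tr_cj (hW i).2.1 τ, Int.cast_mul, mul_assoc]
  -- linear independence
  have hli : ∀ c : (ℂ ≃+* ℂ) →* ℂ, ∑ i with χ i = c, a i * e i = 0 := by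
    intro c
    have h1 := linearIndependent_iff'.1 (linearIndependent_monoidHom (ℂ ≃+* ℂ) ℂ)
      (Finset.univ.image χ) (fun c => ((∑ i with χ i = c, a i * e i : ℤ) : ℂ)) (by
        funext τ
        rw [Finset.sum_apply, Pi.zero_apply, ← hex τ,
          ← Finset.sum_fiberwise_of_maps_to (s := Finset.univ) (t := Finset.univ.image χ) (g := χ)
            (fun i _ => Finset.mem_image_of_mem χ (Finset.mem_univ i))]
        refine Finset.sum_congr rfl fun c _ => ?_
        rw [Pi.smul_apply, smul_eq_mul, Int.cast_sum, Finset.sum_mul]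
        refine Finset.sum_congr rfl fun i hi => ?_
        rw [(Finset.mem_filter.1 hi).2])
    by_cases hc : c ∈ Finset.univ.image χ
    · exact_mod_cast h1 c hc
    · refine Finset.sum_eq_zero fun i hi => absurd ?_ hc
      rw [← (Finset.mem_filter.1 hi).2]
      exact Finset.mem_image_of_mem χ (Finset.mem_univ i)
  -- the involution
  have hstc : ∀ i, a i ≠ 0 → e (st i) = -e i ∧ χ (st i) = χ i := by
    intro i h0
    have h0' : a (st i) ≠ 0 := by
      rw [ha]
      exact neg_ne_zero.2 h0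
    have h1 : ∀ τ, (e (st i) : ℂ) * χ (st i) τ = -((e i : ℂ) * χ i τ) := by
      intro τ
      rw [← (hch i h0).tr_cj (hW i).2.1 τ, ← (hch _ h0').tr_cj (hW _).2.1 τ,
        tr_st h (hW i) (hW (st i)) (hDu i) τ, Int.cast_neg]
    have h2 : e (st i) = -e i := by
      have h3 := h1 1
      rw [map_one, map_one, mul_one, mul_one] at h3
      exact_mod_cast h3
    refine ⟨h2, MonoidHom.ext fun τ => ?_⟩
    have h3 := h1 τ
    rw [h2, Int.cast_neg, neg_mul, neg_inj] at h3
    refine mul_left_cancel₀ ?_ h3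
    rcases (hch i h0).pm with h4 | h4 <;> rw [h4] <;> norm_num
  have hpos : ∀ c : (ℂ ≃+* ℂ) →* ℂ,
      ∑ i, (if χ i = c ∧ e i = 1 then (a i).toNat else 0) =
        ∑ i, (if χ i = c ∧ ¬e i = 1 then (a i).toNat else 0) := by
    intro c
    have h1 : ∑ i with χ i = c, a i * e i =
        ∑ i, (if χ i = c then ((a i).toNat : ℤ) * e i else 0) -
          ∑ i, (if χ i = c then ((-a i).toNat : ℤ) * e i else 0) := by
      rw [← Finset.sum_sub_distrib, Finset.sum_filter]
      refine Finset.sum_congr rfl fun i _ => ?_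
      by_cases hc : χ i = c
      · rw [if_pos hc, if_pos hc, if_pos hc, ← sub_mul]
        congr 1
        omega
      · rw [if_neg hc, if_neg hc, if_neg hc, sub_zero]
    have h2 : ∑ i, (if χ i = c then ((-a i).toNat : ℤ) * e i else 0) =
        -∑ i, (if χ i = c then ((a i).toNat : ℤ) * e i else 0) := by
      let stE : Equiv.Perm (Fin s) := ⟨st, st, hst, hst⟩
      rw [← Equiv.sum_comp stE, ← Finset.sum_neg_distrib]
      refine Finset.sum_congr rfl fun i _ => ?_
      change (if χ (st i) = c then ((-a (st i)).toNat : ℤ) * e (st i) else 0) = _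
      rw [ha, neg_neg]
      by_cases h0 : a i = 0
      · rw [h0]
        simp
      · rw [(hstc i h0).1, (hstc i h0).2]
        by_cases hc : χ i = c
        · rw [if_pos hc, if_pos hc]
          ring
        · rw [if_neg hc, if_neg hc, neg_zero]
    rw [hli c, h2] at h1
    have h3 : ∑ i, (if χ i = c then ((a i).toNat : ℤ) * e i else 0) = 0 := by linarith
    have h4 : ∑ i, (if χ i = c then ((a i).toNat : ℤ) * e i else 0) =
        ((∑ i, (if χ i = c ∧ e i = 1 then (a i).toNat else 0) : ℕ) : ℤ) -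
          ((∑ i, (if χ i = c ∧ ¬e i = 1 then (a i).toNat else 0) : ℕ) : ℤ) := by
      rw [Nat.cast_sum, Nat.cast_sum, ← Finset.sum_sub_distrib]
      refine Finset.sum_congr rfl fun i _ => ?_
      by_cases hc : χ i = c
      · by_cases h0 : a i = 0
        · rw [h0]
          simp
        · rcases (hch i h0).pm with h5 | h5
          · simp [hc, h5]
          · have h6 : ¬e i = 1 := by rw [h5]; decide
            rw [if_pos hc, if_neg (fun h7 => h6 h7.2), if_pos ⟨hc, h6⟩, h5]
            push_cast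
            ring
      · rw [if_neg hc, if_neg (fun h7 => hc h7.1), if_neg (fun h7 => hc h7.1)]
        simp
    rw [h3] at h4
    omega
  -- the matching
  let X := Σ i, Fin (a i).toNat
  let P := {x : X // e x.1 = 1}
  let Q := {x : X // ¬e x.1 = 1}
  have hcard : ∀ c : (ℂ ≃+* ℂ) →* ℂ, Nonempty ({x : P // χ x.1.1 = c} ≃ {x : Q // χ x.1.1 = c}) := by
    intro c
    rw [← Fintype.card_eq]
    have e1 : Fintype.card {x : P // χ x.1.1 = c} =
        ∑ i, (if χ i = c ∧ e i = 1 then (a i).toNat else 0) := by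
      rw [← card_sig (fun i => (a i).toNat) (fun i => χ i = c ∧ e i = 1), ← Fintype.card_subtype]
      exact Fintype.card_congr
        { toFun := fun x => ⟨x.1.1, x.2, x.1.2⟩
          invFun := fun x => ⟨⟨x.1, x.2.2⟩, x.2.1⟩
          left_inv := fun x => rfl
          right_inv := fun x => rfl }
    have e2 : Fintype.card {x : Q // χ x.1.1 = c} =
        ∑ i, (if χ i = c ∧ ¬e i = 1 then (a i).toNat else 0) := by
      rw [← card_sig (fun i => (a i).toNat) (fun i => χ i = c ∧ ¬e i = 1), ← Fintype.card_subtype]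
      exact Fintype.card_congr
        { toFun := fun x => ⟨x.1.1, x.2, x.1.2⟩
          invFun := fun x => ⟨⟨x.1, x.2.2⟩, x.2.1⟩
          left_inv := fun x => rfl
          right_inv := fun x => rfl }
    rw [e1, e2, hpos c]
  let ψ : P ≃ Q := Equiv.ofFiberEquiv (f := fun x : P => χ x.1.1) (g := fun x : Q => χ x.1.1)
    fun c => (hcard c).some
  have hψ : ∀ x, χ (ψ x).1.1 = χ x.1.1 := fun x =>
    Equiv.ofFiberEquiv_map (f := fun x : P => χ x.1.1) (g := fun x : Q => χ x.1.1)
      (fun c => (hcard c).some) x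
  refine ⟨P, inferInstance, ((Equiv.refl P).sumCongr ψ).trans (Equiv.sumCompl fun x : X => e x.1 = 1),
    fun x => ?_⟩
  have hne : ∀ y : X, a y.1 ≠ 0 := by
    intro y h0
    have h1 := y.2.2
    have h2 : (a y.1).toNat = 0 := by rw [h0]; rfl
    exact absurd (lt_of_lt_of_eq h1 h2) (Nat.not_lt_zero _)
  have h1 := hch _ (hne x.1)
  have h2 := hch _ (hne (ψ x).1)
  rw [x.2] at h1
  have h3 : e (ψ x).1.1 = -1 := h2.pm.resolve_left (ψ x).2
  rw [h3, hψ x] at h2
  exact ⟨χ x.1.1, h1, h2⟩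

end

end Pool.Agent.Y224.TS
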