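import Mathlib
import Pool.Agent.Y224.TS.T5
import Pool.Agent.Y224.TS.T6
import Pool.Agent.Y90.Wei8

/-!
# Forms killed by the second Lie algebra belong to the ring
-/

set_option linter.unusedSectionVars false

namespace Pool.Agent.Y224.TS

open Matrix Module Pool.Agent.W437.HC Pool.Agent.W437.HD Pool.Agent.W548.Odd Pool.Agent.W522.U
open Pool.Agent.H204R3.SP Pool.Agent.H204R3.GP Pool.Agent.Y90
open Pool.Agent.W437.HP (cK cK_mul cK_one)

noncomputable section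

section act

variable {B : Type} [Fintype B] [DecidableEq B] {κ : Type} [Fintype κ] [DecidableEq κ]

/-- The matrices that kill a form. -/
def killL (φ : MultilinearMap ℂ (fun _ : κ => B → ℂ) ℂ) : Submodule ℂ (Matrix B B ℂ) where
  carrier := {X | act X (CF φ) = 0}
  add_mem' := fun {X Y} hX hY => by
    change act (X + Y) _ = 0
    rw [act_add_left, show act X (CF φ) = 0 from hX, show act Y (CF φ) = 0 from hY, add_zero]
  zero_mem' := act_zero_left _
  smul_mem' := fun c X hX => by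
    change act (c • X) _ = 0
    rw [act_smul_left, show act X (CF φ) = 0 from hX, smul_zero]

theorem kills_LT {S : Set (Matrix B B ℂ)} {φ : MultilinearMap ℂ (fun _ : κ => B → ℂ) ℂ}
    (hφ : ∀ D ∈ S, Kills (ph B D) φ) {X : Matrix B B ℂ} (hX : X ∈ LT S) : Kills (ph B X) φ := by
  have h1 : LT S ≤ killL φ := LT_le (fun D hD => act_of_kills (hφ D hD))
    (fun A hA C hC => act_bracket hA hC)
  exact kills_of_act (h1 hX)

end act

variable {G : ℕ} {Z : Matrix (Fin G) (Fin G) ℂ}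
  {S : Set (Matrix (Fin G ⊕ Fin G) (Fin G ⊕ Fin G) ℂ)}

namespace TD

variable (h : TD Z S) (hZ : PM Z)
include h hZ

theorem si {U : Submodule ℂ (Fin G ⊕ Fin G → ℂ)} :
    W522.U.SI (RG (GG (LT S))) U ↔ IrS (LZ Z) U := by
  rw [si_iff h.genI, h.irS hZ]

/-- There are no self-dual lines. -/
theorem line {U : Submodule ℂ (Fin G ⊕ Fin G → ℂ)} (hU : IrS (LZ Z) U)
    (hn : finrank ℂ U = 1) : ¬Du (RG (GG (LT S))) 1 U U := by
  rw [h.du hZ hU.2.1 hU.2.1]
  exact rz_line hZ hU hn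

/-- There are no twists. -/
theorem twist {U U' : Submodule ℂ (Fin G ⊕ Fin G → ℂ)} (hU : IrS (LZ Z) U)
    (hns : ∀ (σ : ℂ ≃+* ℂ) (c : ℂ), ∃ u ∈ U, DS Z σ *ᵥ u ≠ c • u)
    (ψ : Gam (GG (LT S)) → ℂ) (hT : Tw (RG (GG (LT S))) ψ U U') :
    Tw (RG (GG (LT S))) (fun _ => 1) U U' := by
  obtain ⟨Δ, hΔ, T, hT1, hT0, hT2⟩ := hT
  obtain rfl := fi_top Δ hΔ
  have hSI := (h.si hZ).2 hU
  have hU' : IrS (LT S) U := (h.irS hZ).2 hU
  have hinj := tw_inj hSI hΔ hT0 hT2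
  have hD : ∀ D ∈ S, ∀ u ∈ U, T (D *ᵥ u) = D *ᵥ T u := by
    intro D hDS
    have hDD : ph (Fin G ⊕ Fin G) D * ph (Fin G ⊕ Fin G) D = 1 := by
      rw [← map_mul, h.sq D hDS, map_one]
    have hDm : ph (Fin G ⊕ Fin G) D ∈ GG (LT S) := mem_GG.2 (LT_gen hDS)
    have h1 : ∀ u ∈ U, T (torE (ph _ D) two u) =
        ψ (gt hDD hDm two) • torE (ph _ D) two (T u) := fun u hu =>
      hT2 (gt hDD hDm two) (Subgroup.mem_top _) u hu
    have h2 : ψ (gt hDD hDm two) ≠ 0 := tw_ne hSI hΔ hT0 hT2 (Subgroup.mem_top _)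
      (gz_stable h.genI hU'.2.1 (gt hDD hDm two))
    exact twist_free hinj hDD (hU'.2.1 _ (LT_gen hDS)) (fun c => h.nonscalar hZ hDS hU.2.1 hns c)
      _ h1 h2
  let C : Submodule ℂ (Matrix (Fin G ⊕ Fin G) (Fin G ⊕ Fin G) ℂ) :=
    { carrier := {X | ∀ u ∈ U, X *ᵥ u ∈ U ∧ T (X *ᵥ u) = X *ᵥ T u}
      add_mem' := by
        intro X Y hX hY u hu
        obtain ⟨x1, x2⟩ := hX u hu
        obtain ⟨y1, y2⟩ := hY u hu
        rw [add_mulVec, add_mulVec, map_add, x2, y2]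
        exact ⟨U.add_mem x1 y1, rfl⟩
      zero_mem' := by
        intro u hu
        rw [zero_mulVec, zero_mulVec, map_zero]
        exact ⟨U.zero_mem, rfl⟩
      smul_mem' := by
        intro c X hX u hu
        obtain ⟨x1, x2⟩ := hX u hu
        rw [smul_mulVec, smul_mulVec, map_smul, x2]
        exact ⟨U.smul_mem c x1, rfl⟩ }
  have hC : LT S ≤ C := by
    refine LT_le (fun D hDS u hu => ⟨hU'.2.1 _ (LT_gen hDS) u hu, hD D hDS u hu⟩)
      (fun A hA B hB u hu => ?_)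
    obtain ⟨a1, a2⟩ := hA u hu
    obtain ⟨b1, b2⟩ := hB u hu
    obtain ⟨c1, c2⟩ := hA _ b1
    obtain ⟨d1, d2⟩ := hB _ a1
    rw [sub_mulVec, sub_mulVec, ← mulVec_mulVec, ← mulVec_mulVec, ← mulVec_mulVec,
      ← mulVec_mulVec, map_sub, c2, d2, a2, b2]
    exact ⟨U.sub_mem c1 d1, rfl⟩
  refine ⟨⊤, inferInstance, T, hT1, hT0, fun g _ u hu => ?_⟩
  rw [one_smul]
  exact (gz_equiv h.genI hU'.2.1 T).2 (fun X hX u hu => (hC hX u hu).2) g u hu

/-- The traces from the determinants. -/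
theorem tr_of_det {s : ℕ} (W : Fin s → Submodule ℂ (Fin G ⊕ Fin G → ℂ))
    (hW : ∀ i, IrS (LZ Z) (W i)) (a : Fin s → ℤ)
    (hdet : ∀ (g : Gam (GG (LT S))) (hg : ∀ i, ∀ u ∈ W i, RG (GG (LT S)) g u ∈ W i),
      ∃ M : ℕ, M ≠ 0 ∧ (∏ i, LinearMap.det ((RG (GG (LT S)) g).restrict (hg i)) ^ a i) ^ M = 1)
    (τ : ℂ ≃+* ℂ) : ∑ i, a i * Pool.Agent.Y90.tr Z (cjS τ (W i)) = 0 := by
  obtain ⟨D, hDS, hσ⟩ := h.ex τ.symm
  have hDD : ph (Fin G ⊕ Fin G) D * ph (Fin G ⊕ Fin G) D = 1 := by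
    rw [← map_mul, h.sq D hDS, map_one]
  have hDm : ph (Fin G ⊕ Fin G) D ∈ GG (LT S) := mem_GG.2 (LT_gen hDS)
  have hg : ∀ i, ∀ u ∈ W i, RG (GG (LT S)) (gt hDD hDm two) u ∈ W i := fun i =>
    gz_stable h.genI ((h.stab hZ).2 (hW i).2.1) _
  obtain ⟨M, hM, hM'⟩ := hdet (gt hDD hDm two) hg
  have h1 : ∀ i, LinearMap.det ((RG (GG (LT S)) (gt hDD hDm two)).restrict (hg i)) ^ a i =
      (2 : ℂ) ^ (a i * Pool.Agent.Y90.tr Z (cjS τ (W i))) := by
    intro i
    rw [h.det_gt hZ hDS hσ (hW i).2.1 hDD hDm (hg i), ← _root_.zpow_mul, mul_comm]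
    rfl
  have h2 : ∀ (t : Finset (Fin s)),
      ∏ i ∈ t, (2 : ℂ) ^ (a i * Pool.Agent.Y90.tr Z (cjS τ (W i))) =
      (2 : ℂ) ^ ∑ i ∈ t, a i * Pool.Agent.Y90.tr Z (cjS τ (W i)) := by
    intro t
    induction t using Finset.induction_on with
    | empty => simp
    | insert i t hi ih => rw [Finset.prod_insert hi, Finset.sum_insert hi, ih,
        zpow_add₀ two_ne_zero]
  rw [Finset.prod_congr rfl fun i _ => h1 i, h2, ← zpow_natCast, ← _root_.zpow_mul] at hM'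
  have h3 : ((2 : ℝ) ^ ((∑ i, a i * Pool.Agent.Y90.tr Z (cjS τ (W i))) * (M : ℤ)) : ℝ) =
      (2 : ℝ) ^ (0 : ℤ) := by
    rw [zpow_zero]
    have h9 := congrArg (fun z : ℂ => ‖z‖) hM'
    simp only [norm_zpow, norm_one, Complex.norm_ofNat] at h9
    exact h9
  have h4 := zpow_right_injective₀ (by norm_num : (0 : ℝ) < 2) (by norm_num) h3
  exact (mul_eq_zero.1 h4).resolve_right (by exact_mod_cast hM)

theorem om' (g : Gam (GG (LT S))) (u v : Fin G ⊕ Fin G → ℂ) :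
    om G (RG (GG (LT S)) g u) (RG (GG (LT S)) g v) =
      (1 : Gam (GG (LT S)) →* ℂ) g * om G u v := by
  rw [MonoidHom.one_apply, one_mul]
  exact (gz_bil h.genI stab_top stab_top (om G)).2 (fun X hX u _ v _ => h.sp' hX u v) g u trivial v
    trivial

variable (hs : SmallF Z)
include hs

/-- Invariant forms. -/
theorem inv_mem {m : ℕ}
    (φ : MultilinearMap ℂ (fun _ : Fin m × Fin 2 => Fin G ⊕ Fin G → ℂ) ℂ)
    (hφ : ∀ (g : Gam (GG (LT S))) v, φ (fun k => RG (GG (LT S)) g (v k)) = φ v) :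
    φ ∈ NZ hZ (Fin m × Fin 2) := by
  have hSI : ∀ {U}, W522.U.SI (RG (GG (LT S))) U ↔ IrS (LZ Z) U := fun {U} => h.si hZ
  have hp := gz_proj h.genI h.cr
  obtain ⟨s, W, hW, hWW, hall⟩ := exists_reps hp
  obtain ⟨st, hst, hDu, hDu'⟩ := exists_st (χ := 1) hp (om G) om_nd (h.om' hZ) W hW hWW hall
  refine forms_mem (χ := 1) (fun Δ hΔ => fi_top Δ hΔ) (om G) om_nd (h.om' hZ) ?_ ?_ ?_ hp
    W hW hWW hall st hst hDu hDu' (NZ hZ) (clo_NZ hZ) ?_
    (fun i i' => PrU Z (W i) (W i')) ?_ ?_ φ ?_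
  · intro U hU hn
    exact h.unip hZ hs (hSI.1 hU) hn
  · intro U hU hn
    exact h.line hZ (hSI.1 hU) hn
  · intro U U' hU hU' hn _ ψ hT
    exact h.twist hZ (hSI.1 hU) ((loc hZ hs (hSI.1 hU)).1 hn).2 ψ hT
  · intro b hb
    refine pair_mem hZ b fun g u v => ?_
    rw [MonoidHom.one_apply, one_mul]
    refine (rz_bil hZ stab_top stab_top b).2 (fun X hX u _ v _ => ?_) g u trivial v trivial
    refine (h.bil b (fun X hX => hZ.om_sp hX)).1 (fun X hX u v => ?_) X hX u v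
    exact (gz_bil h.genI stab_top stab_top b).1 (fun g u _ v _ => by
      rw [hb, MonoidHom.one_apply, one_mul]) X hX u trivial v trivial
  · intro i i' hpr ι ι' _ _ _ _ f f' q q' hq hq' ψ hψ
    have key : ∀ (U : Submodule ℂ (Fin G ⊕ Fin G → ℂ)) (q : (Fin G ⊕ Fin G → ℂ) →ₗ[ℂ] U),
        (∀ g x, (q (RG (GG (LT S)) g x) : Fin G ⊕ Fin G → ℂ) = RG (GG (LT S)) g (q x)) →
        ∀ g x, (q (RZ Z g x) : Fin G ⊕ Fin G → ℂ) = RZ Z g (q x) := by
      intro U q hq g x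
      have h1 := (gz_equiv h.genI stab_top (U.subtype.comp q)).1 (fun g u _ => hq g u)
      have h2 := (h.eqv (U.subtype.comp q)).1 fun X hX w => h1 X hX w trivial
      exact (rz_equiv hZ stab_top (U.subtype.comp q)).2 (fun X hX u _ => h2 X hX u) g x trivial
    exact det_mem hZ hpr ι ι' f f' q q' (fun y => key _ _ (hq y)) (fun y => key _ _ (hq' y)) ψ hψ
  · intro a ha hag
    exact bal_tr hZ hs W (fun i => hSI.1 (hW i)) st hst
      (fun i => (h.du hZ (hSI.1 (hW i)).2.1 (hSI.1 (hW _)).2.1).1 (hDu i))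
      (fun i j hd => hDu' i j ((h.du hZ (hSI.1 (hW i)).2.1 (hSI.1 (hW _)).2.1).2 hd)) a ha
      (h.tr_of_det hZ W (fun i => hSI.1 (hW i)) a hag)
  · refine ⟨⊤, inferInstance, fun g _ v => ?_⟩
    rw [MonoidHom.one_apply, one_pow, one_mul]
    exact hφ g v

/-- The alternations of the forms killed by the involutions belong to the ring. -/
theorem ring {κ : Type} [Fintype κ] [DecidableEq κ]
    (φ : MultilinearMap ℂ (fun _ : κ => Fin G ⊕ Fin G → ℂ) ℂ)
    (hφ : ∀ D ∈ S, Kills (ph (Fin G ⊕ Fin G) D) φ) : altQ φ ∈ RC (AVZ hZ) κ := by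
  classical
  have hinv : ∀ (g : Gam (GG (LT S))) v, φ (fun k => RG (GG (LT S)) g (v k)) = φ v := by
    intro g v
    refine inv_gam φ (fun D hD _ => ?_) g v
    obtain ⟨X, hX, rfl⟩ := exists_GG hD
    exact kills_LT hφ hX
  rcases Nat.even_or_odd (Fintype.card κ) with he | ho
  · obtain ⟨m, hm⟩ := he
    have e : κ ≃ Fin m × Fin 2 := Fintype.equivOfCardEq (by
      rw [Fintype.card_prod, Fintype.card_fin, Fintype.card_fin, hm]
      ring)
    have h1 := h.inv_mem hZ hs (φ.domDomCongr e) (fun g v => by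
      rw [MultilinearMap.domDomCongr_apply, MultilinearMap.domDomCongr_apply]
      exact hinv g _)
    have h2 : φ ∈ NZ hZ κ := (clo_NZ hZ).reindex e.symm h1 φ fun v => by
      rw [MultilinearMap.domDomCongr_apply]
      congr 1
      funext k
      simp
    exact h2 _ _
  · have h0 : φ = 0 := by
      refine MultilinearMap.ext fun v => ?_
      obtain ⟨D, hDS, -⟩ := h.ex (RingEquiv.refl ℂ)
      have hDD : ph (Fin G ⊕ Fin G) D * ph (Fin G ⊕ Fin G) D = 1 := by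
        rw [← map_mul, h.sq D hDS, map_one]
      have hDm : ph (Fin G ⊕ Fin G) D ∈ GG (LT S) := mem_GG.2 (LT_gen hDS)
      have h1 := hinv (gt hDD hDm (-1)) v
      have h2 : (fun k => RG (GG (LT S)) (gt hDD hDm (-1)) (v k)) = fun k => (-1 : ℂ) • v k := by
        funext k
        change torE (ph _ D) (-1) (v k) = _
        rw [torE_apply]
        simp only [Units.val_neg, Units.val_one, inv_neg, inv_one]
        module
      rw [h2, MultilinearMap.map_smul_univ, Finset.prod_const, Finset.card_univ,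
        Odd.neg_one_pow ho, neg_one_smul] at h1
      have h3 : φ v = 0 := by linear_combination (-1 / 2 : ℂ) * h1
      rw [h3]
      rfl
    have h1 : φ ∈ NZ hZ κ := by
      rw [h0]
      exact Submodule.zero_mem _
    exact h1 _ _

end TD

end

end Pool.Agent.Y224.TS
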