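import Mathlib
import Pool.Agent.Y90.Ab3
import Pool.Agent.Y224.TS.D0
import Pool.Agent.Y224.TS.D7
import Pool.Agent.Y224.TS.T8

/-!
# Tate classes
-/

set_option linter.unusedSectionVars false

namespace Pool.Agent.Y224.TS

open Matrix Module Pool.Agent.W437.HC Pool.Agent.W437.HD Pool.Agent.W548.Odd Pool.Agent.Y90
open Pool.Agent.H204R3.SP Pool.Agent.H204R3.GP TensorProduct
open St (IsHodgeTate IsTateModule)
open Pool.Agent.W437.HP (cK cK_mul cK_one)

noncomputable section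

variable {H : Type} [AddCommGroup H] [Module ℚ H] {K : Type} [Field K] [CharZero K] [Algebra K ℂ]
  {T : Type} [AddCommGroup T] [Module ℂ T] {per : H →+ T} {Γ : Type} [Group Γ]
  {ρ : Representation K Γ (K ⊗[ℚ] H)} {χ : Γ →* K} {G : ℕ} {Z : Matrix (Fin G) (Fin G) ℂ}
  {E : H → H → ℚ}

section coord

variable (b : Basis (Fin G ⊕ Fin G) ℚ H) {m : ℕ}
  (φ : MultilinearMap K (fun _ : Fin m × Fin 2 => K ⊗[ℚ] H) K)

/-- The form over the complex numbers, in coordinates. -/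
def FC : MultilinearMap ℂ (fun _ : Fin m × Fin 2 => Fin G ⊕ Fin G → ℂ) ℂ :=
  (bcm (Ω := ℂ) (bV K b) φ).compLinearMap (fun _ => (eY K b).symm.toLinearMap)

theorem FC_e (w : Fin m × Fin 2 → ℂ ⊗[K] (K ⊗[ℚ] H)) :
    FC b φ (fun k => eY K b (w k)) = bcm (Ω := ℂ) (bV K b) φ w := by
  unfold FC
  rw [MultilinearMap.compLinearMap_apply]
  congr 1
  funext k
  exact (eY K b).symm_apply_apply (w k)

theorem FC_rat (v : Fin m × Fin 2 → Fin G ⊕ Fin G → ℚ) :
    FC b φ (fun k => cv (v k)) =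
      algebraMap K ℂ (φ (fun k => (1 : K) ⊗ₜ[ℚ] b.equivFun.symm (v k))) := by
  have h1 : ∀ k, Pool.Agent.Y90.cv (v k) = eY K b ((1 : ℂ) ⊗ₜ[K] ((1 : K) ⊗ₜ[ℚ] b.equivFun.symm (v k))) := by
    intro k
    rw [eY_rat, LinearEquiv.apply_symm_apply]
  simp only [h1]
  rw [FC_e, bcm_one]

/-- Tate forms are killed by the involutions. -/
theorem FC_kills (hφ : IsTate ρ χ m φ) :
    ∀ D ∈ SH per ρ χ b, Kills (ph (Fin G ⊕ Fin G) D) (FC b φ) := by
  rintro _ ⟨σ, h, hh, rfl⟩ v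
  obtain ⟨w, rfl⟩ : ∃ w : Fin m × Fin 2 → ℂ ⊗[K] (K ⊗[ℚ] H), v = fun k => eY K b (w k) :=
    ⟨fun k => (eY K b).symm (v k), by
      funext k
      exact ((eY K b).apply_symm_apply (v k)).symm⟩
  have h1 := ht_lie hh m _ (bcm_tate (Ω := ℂ) (bV K b) ρ χ φ hφ) w
  rw [← h1]
  refine Finset.sum_congr rfl fun k _ => ?_
  rw [← FC_e]
  congr 1
  funext l
  by_cases hl : l = k
  · subst hl
    rw [Function.update_self, Function.update_self]
    exact mt_mulVec b _ (w l)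
  · rw [Function.update_of_ne hl, Function.update_of_ne hl]

theorem FC_alt (halt : ∀ (σ : Equiv.Perm (Fin m × Fin 2)) v,
      φ (fun k => v (σ k)) = ((Equiv.Perm.sign σ : ℤ) : K) * φ v)
    (v : Fin m × Fin 2 → Fin G ⊕ Fin G → ℚ) :
    altQ (FC b φ) v = (Fintype.card (Equiv.Perm (Fin m × Fin 2)) : ℂ) *
      algebraMap K ℂ (φ (fun k => (1 : K) ⊗ₜ[ℚ] b.equivFun.symm (v k))) := by
  unfold altQ
  have h1 : ∀ σ : Equiv.Perm (Fin m × Fin 2), ((Equiv.Perm.sign σ : ℤ) : ℂ) *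
      FC b φ (fun k => cv (v (σ k))) =
        algebraMap K ℂ (φ (fun k => (1 : K) ⊗ₜ[ℚ] b.equivFun.symm (v k))) := by
    intro σ
    rw [FC_rat b φ (fun k => v (σ k)),
      halt σ (fun k => (1 : K) ⊗ₜ[ℚ] b.equivFun.symm (v k)), map_mul, map_intCast, ← mul_assoc,
      ← Int.cast_mul, ← Units.val_mul, Int.units_mul_self, Units.val_one, Int.cast_one, one_mul]
  rw [Finset.sum_congr rfl fun σ _ => h1 σ, Finset.sum_const, nsmul_eq_mul, Finset.card_univ]

end coord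

/-- **Tate classes** of abelian varieties with small simple factors. -/
theorem tate_ring [Algebra.IsAlgebraic K ℂ] (hX : Pool.Agent.Y90.St.IsAV per)
    (hs : Pool.Agent.Y90.St.SmallSimple per) (hE : Pool.Agent.Y90.St.IsPolarization per E)
    (hρ : IsTateModule per E ρ χ) {κ : Type} [Finite κ] {m : ℕ} (hκ : Nat.card κ = 2 * m)
    (φ : (K ⊗[ℚ] H) [⋀^κ]→ₗ[K] K)
    (hφ : ∃ Δ : Subgroup Γ, Δ.FiniteIndex ∧ ∀ g ∈ Δ, ∀ v : κ → K ⊗[ℚ] H,
      φ (fun k => ρ g (v k)) = χ g ^ m * φ v) :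
    ∃ (n : ℕ) (c : Fin n → K) (f : Fin n → (H [⋀^κ]→ₗ[ℚ] ℚ)),
      (∀ j, Pool.Agent.Y90.St.WeilRing per κ (f j)) ∧
        ∀ v : κ → H, φ (fun k => (1 : K) ⊗ₜ[ℚ] v k) = ∑ j, c j * ((f j v : ℚ) : K) := by
  classical
  obtain ⟨a, Z, hZ, b, hC, hb⟩ := exists_ppav' hX hE
  have hsf : SmallF Z := smallF_of b.equivFun hC hs
  have hTD : TD Z (SH per ρ χ b) := td_of b hb hC hρ
  obtain ⟨Ψ₂, h₂⟩ := hC.hom hZ.cht (R := 1) (by rw [cK_one, Matrix.one_mul, Matrix.mul_one])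
  have e₂ : ∀ v, Ψ₂ (per v) = perOne Z (b.equivFun v) := fun v => by
    have h3 := h₂ (b.equivFun v)
    have h4 : (per.comp b.equivFun.symm.toLinearMap.toAddMonoidHom) (b.equivFun v) = per v := by
      change per (b.equivFun.symm (b.equivFun v)) = per v
      rw [LinearEquiv.symm_apply_apply]
    rwa [h4, one_mulVec] at h3
  -- the form in the standard variables
  let _ : Fintype κ := Fintype.ofFinite κ
  have e : κ ≃ Fin m × Fin 2 := Fintype.equivOfCardEq (by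
    rw [← Nat.card_eq_fintype_card, hκ, Fintype.card_prod, Fintype.card_fin, Fintype.card_fin,
      mul_comm])
  let φ' : MultilinearMap K (fun _ : Fin m × Fin 2 => K ⊗[ℚ] H) K :=
    φ.toMultilinearMap.domDomCongr e
  have hφ' : ∀ v, φ' v = φ (fun k => v (e k)) := fun v => rfl
  have hT : IsTate ρ χ m φ' := by
    obtain ⟨Δ, hΔ, h⟩ := hφ
    refine ⟨Δ, hΔ, fun s hs v => ?_⟩
    rw [hφ', hφ']
    exact h s hs (fun k => v (e k))
  have halt : ∀ (σ : Equiv.Perm (Fin m × Fin 2)) v,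
      φ' (fun k => v (σ k)) = ((Equiv.Perm.sign σ : ℤ) : K) * φ' v := by
    intro σ v
    have h1 : φ' (fun k => v (σ k)) = (φ.domDomCongr e) (v ∘ σ) := rfl
    have h2 : φ' v = (φ.domDomCongr e) v := rfl
    rw [h1, h2, AlternatingMap.map_perm, Units.smul_def, zsmul_eq_mul]
  have h1 := hTD.ring hZ hsf (FC b φ') (FC_kills b φ' hT)
  have h2 : (fun v : Fin m × Fin 2 → (AVZ hZ).H =>
      algebraMap K ℂ (φ' (fun k => (1 : K) ⊗ₜ[ℚ] b.equivFun.symm (v k)))) ∈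
        RC (AVZ hZ) (Fin m × Fin 2) := by
    have h3 : (fun v : Fin m × Fin 2 → (AVZ hZ).H =>
        algebraMap K ℂ (φ' (fun k => (1 : K) ⊗ₜ[ℚ] b.equivFun.symm (v k)))) =
        (Fintype.card (Equiv.Perm (Fin m × Fin 2)) : ℂ)⁻¹ • altQ (FC b φ') := by
      funext v
      rw [Pi.smul_apply, smul_eq_mul]
      have h4 := FC_alt b φ' halt v
      rw [h4, ← mul_assoc, inv_mul_cancel₀, one_mul]
      exact_mod_cast Fintype.card_ne_zero
    rw [h3]
    exact Submodule.smul_mem _ _ h1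
  -- descent
  let S : Set ((Fin m × Fin 2 → (AVZ hZ).H) → K) :=
    {s | ∃ r, WeilRing (AVZ hZ) (Fin m × Fin 2) r ∧ s = fun v => ((r v : ℚ) : K)}
  have h3 : (fun v : Fin m × Fin 2 → (AVZ hZ).H =>
      φ' (fun k => (1 : K) ⊗ₜ[ℚ] b.equivFun.symm (v k))) ∈ Submodule.span K S := by
    refine span_descent_k (Ω := ℂ) S _ ?_
    refine Submodule.span_mono ?_ h2
    rintro g ⟨r, hr, rfl⟩
    refine ⟨_, ⟨r, hr, rfl⟩, ?_⟩
    funext v
    rw [map_ratCast]
  obtain ⟨n, c, s, hs'⟩ := Submodule.mem_span_set'.1 h3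
  choose r hr hr' using fun j => (s j).2
  refine ⟨n, c, fun j => (((r j).compLinearMap b.equivFun.toLinearMap)).domDomCongr e.symm,
    fun j => ?_, fun v => ?_⟩
  · exact St.WeilRing.reindex e.symm _ ((hr j).toSt (per := per) b.equivFun.toLinearMap Ψ₂ e₂)
  · have h4 := congrFun hs' (fun k => b.equivFun (v (e.symm k)))
    beta_reduce at h4
    rw [hφ'] at h4
    have h5 : (fun k => (1 : K) ⊗ₜ[ℚ] b.equivFun.symm (b.equivFun (v (e.symm (e k))))) =
        fun k => (1 : K) ⊗ₜ[ℚ] v k := by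
      funext k
      rw [LinearEquiv.symm_apply_apply, Equiv.symm_apply_apply]
    rw [h5] at h4
    rw [← h4, Finset.sum_apply]
    refine Finset.sum_congr rfl fun j _ => ?_
    rw [Pi.smul_apply, smul_eq_mul, hr' j]
    rfl

end

end Pool.Agent.Y224.TS
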