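import Mathlib
import Pool.Agent.Y224.TS.T8
import Pool.Agent.Y224.TS.T9
import Pool.Agent.Y90.NAb

/-!
# Forms killed by the second Lie algebra belong to the system
-/

set_option linter.unusedSectionVars false

namespace Pool.Agent.Y224.TS

open Matrix Module Pool.Agent.W437.HC Pool.Agent.W437.HD Pool.Agent.W548.Odd Pool.Agent.W522.U
open Pool.Agent.H204R3.SP Pool.Agent.H204R3.GP Pool.Agent.Y90
open Pool.Agent.W437.HP (cK cK_mul cK_one)

noncomputable section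

variable {G : ℕ} {Z : Matrix (Fin G) (Fin G) ℂ} {m : ℕ}
  {S : Set (Matrix (Fin G ⊕ Fin G) (Fin G ⊕ Fin G) ℂ)}

/-- The traces of a balanced family. -/
theorem sum_of_tr (hZ : PM Z) {s : ℕ} (W : Fin s → Submodule ℂ (Fin G ⊕ Fin G → ℂ))
    (hW : ∀ i, IrS (LZ Z) (W i)) (st : Fin s → Fin s) (hst : ∀ i, st (st i) = i)
    (hDu : ∀ i, Du (RZ Z) 1 (W i) (W (st i))) (a : Fin s → ℤ) (ha : ∀ i, a (st i) = -a i)
    (τ : ℂ ≃+* ℂ) (htr : ∑ i, a i * Pool.Agent.Y90.tr Z (cjS τ (W i)) = 0) :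
    ∑ q : (Σ i, Fin (a i).toNat), (Pool.Agent.Y90.tr Z (cjS τ (W q.1)) : ℂ) = 0 := by
  have h2 : ∑ i, ((-a i).toNat : ℤ) * Pool.Agent.Y90.tr Z (cjS τ (W i)) =
      -∑ i, ((a i).toNat : ℤ) * Pool.Agent.Y90.tr Z (cjS τ (W i)) := by
    let stE : Equiv.Perm (Fin s) := ⟨st, st, hst, hst⟩
    rw [← Equiv.sum_comp stE, ← Finset.sum_neg_distrib]
    refine Finset.sum_congr rfl fun i _ => ?_
    change ((-a (st i)).toNat : ℤ) * Pool.Agent.Y90.tr Z (cjS τ (W (st i))) = _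
    rw [ha, neg_neg, tr_st hZ (hW i) (hW (st i)) (hDu i) τ]
    ring
  have h1 : ∑ i, a i * Pool.Agent.Y90.tr Z (cjS τ (W i)) =
      ∑ i, ((a i).toNat : ℤ) * Pool.Agent.Y90.tr Z (cjS τ (W i)) -
        ∑ i, ((-a i).toNat : ℤ) * Pool.Agent.Y90.tr Z (cjS τ (W i)) := by
    rw [← Finset.sum_sub_distrib]
    refine Finset.sum_congr rfl fun i _ => ?_
    rw [← sub_mul]
    congr 1
    omega
  rw [htr, h2] at h1
  have h3 : ∑ i, ((a i).toNat : ℤ) * Pool.Agent.Y90.tr Z (cjS τ (W i)) = 0 := by linarith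
  have h4 : ∑ q : (Σ i, Fin (a i).toNat), (Pool.Agent.Y90.tr Z (cjS τ (W q.1)) : ℂ) =
      ((∑ i, ((a i).toNat : ℤ) * Pool.Agent.Y90.tr Z (cjS τ (W i)) : ℤ) : ℂ) := by
    rw [Fintype.sum_sigma, Int.cast_sum]
    refine Finset.sum_congr rfl fun i _ => ?_
    change ∑ _y : Fin (a i).toNat, (Pool.Agent.Y90.tr Z (cjS τ (W i)) : ℂ) = _
    rw [Finset.sum_const, Finset.card_univ, Fintype.card_fin, nsmul_eq_mul]
    push_cast
    rfl
  rw [h4, h3, Int.cast_zero]

namespace TD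

variable (h : TD Z S) (hZ : PM Z)
include h hZ

/-- Equivariant maps for the two groups. -/
theorem eqv_key (U : Submodule ℂ (Fin G ⊕ Fin G → ℂ)) (q : (Fin G ⊕ Fin G → ℂ) →ₗ[ℂ] U)
    (hq : ∀ g x, (q (RG (GG (LT S)) g x) : Fin G ⊕ Fin G → ℂ) = RG (GG (LT S)) g (q x)) :
    ∀ g x, (q (RZ Z g x) : Fin G ⊕ Fin G → ℂ) = RZ Z g (q x) := by
  intro g x
  have h1 := (gz_equiv h.genI stab_top (U.subtype.comp q)).1 (fun g u _ => hq g u)
  have h2 := (h.eqv (U.subtype.comp q)).1 fun X hX w => h1 X hX w trivial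
  exact (rz_equiv hZ stab_top (U.subtype.comp q)).2 (fun X hX u _ => h2 X hX u) g x trivial

/-- Invariant forms. -/
theorem inv_mem3 (hm : 1 ≤ m) (hs : SmallFm m Z) {n : ℕ}
    (φ : MultilinearMap ℂ (fun _ : Fin n × Fin 2 => Fin G ⊕ Fin G → ℂ) ℂ)
    (hφ : ∀ (g : Gam (GG (LT S))) v, φ (fun k => RG (GG (LT S)) g (v k)) = φ v) :
    φ ∈ NG m (perOne Z) (Fin n × Fin 2) := by
  have hSI : ∀ {U}, W522.U.SI (RG (GG (LT S))) U ↔ IrS (LZ Z) U := fun {U} => h.si hZ
  have hp := gz_proj h.genI h.cr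
  obtain ⟨s, W, hW, hWW, hall⟩ := exists_reps hp
  obtain ⟨st, hst, hDu, hDu'⟩ := exists_st (χ := 1) hp (om G) om_nd (h.om' hZ) W hW hWW hall
  refine forms_mem3 (χ := 1) (fun Δ hΔ => fi_top Δ hΔ) (om G) om_nd (h.om' hZ) ?_ ?_ ?_ hp
    W hW hWW hall st hst hDu hDu' (NG m (perOne Z)) (clo_NG hZ.isAV) ?_ ?_ φ ?_
  · intro U hU hn
    exact h.unip_of hZ (h.rk1' hZ (fun a Z' E F h1 h2 h3 h4 => (hs a Z' E F h1 h2 h3 h4).1)
      (hSI.1 hU) hn ((loc2 hZ hs (hSI.1 hU)).1 hn).2)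
  · intro U hU hn
    exact h.line hZ (hSI.1 hU) hn
  · intro U U' hU hU' hn _ ψ hT
    exact h.twist hZ (hSI.1 hU) ((loc2 hZ hs (hSI.1 hU)).1 hn).2 ψ hT
  · intro b hb
    refine bil_memG hZ b fun g u v => ?_
    rw [MonoidHom.one_apply, one_mul]
    refine (rz_bil hZ stab_top stab_top b).2 (fun X hX u _ v _ => ?_) g u trivial v trivial
    refine (h.bil b (fun X hX => hZ.om_sp hX)).1 (fun X hX u v => ?_) X hX u v
    exact (gz_bil h.genI stab_top stab_top b).1 (fun g u _ v _ => by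
      rw [hb, MonoidHom.one_apply, one_mul]) X hX u trivial v trivial
  · intro a ha hag ι _ _ f Q hQ ψ hψ
    have hI : ∀ i, IrS (LZ Z) (W i) := fun i => hSI.1 (hW i)
    have hDuZ : ∀ i, Du (RZ Z) 1 (W i) (W (st i)) := fun i =>
      (h.du hZ (hI i).2.1 (hI _).2.1).1 (hDu i)
    refine reduceG hZ hm (fun q : (Σ i, Fin (a i).toNat) => W q.1) (fun q => hI q.1) (fun q => ?_)
      (fun σ => sum_of_tr hZ W hI st hst hDuZ a ha σ.symm
        (h.tr_of_det hZ W hI a hag σ.symm)) ι f Q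
      (fun q y => h.eqv_key hZ _ _ (hQ q y)) ψ hψ
    rcases (loc2 hZ hs (hI q.1)).2 with ⟨h1, -⟩ | h1
    · exfalso
      have h2 := hDu' q.1 q.1 ((h.du hZ (hI q.1).2.1 (hI q.1).2.1).2
        ((rz_du hZ (hI q.1).2.1 (hI q.1).2.1).2 h1))
      have h3 := ha q.1
      rw [← h2] at h3
      have h4 : a q.1 = 0 := by omega
      have h5 := q.2.2
      have h6 : (a q.1).toNat = 0 := by rw [h4]; rfl
      exact absurd (lt_of_lt_of_eq h5 h6) (Nat.not_lt_zero _)
    · exact h1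
  · refine ⟨⊤, inferInstance, fun g _ v => ?_⟩
    rw [MonoidHom.one_apply, one_pow, one_mul]
    exact hφ g v

/-- The alternations of the forms killed by the involutions belong to the system. -/
theorem ring3 (hm : 1 ≤ m) (hs : SmallFm m Z) {κ : Type} [Fintype κ] [DecidableEq κ]
    (φ : MultilinearMap ℂ (fun _ : κ => Fin G ⊕ Fin G → ℂ) ℂ)
    (hφ : ∀ D ∈ S, Kills (ph (Fin G ⊕ Fin G) D) φ) : altQ φ ∈ RG' m (perOne Z) κ := by
  classical
  have hinv : ∀ (g : Gam (GG (LT S))) v, φ (fun k => RG (GG (LT S)) g (v k)) = φ v := by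
    intro g v
    refine inv_gam φ (fun D hD _ => ?_) g v
    obtain ⟨X, hX, rfl⟩ := exists_GG hD
    exact kills_LT hφ hX
  rcases Nat.even_or_odd (Fintype.card κ) with he | ho
  · obtain ⟨n, hn⟩ := he
    have e : κ ≃ Fin n × Fin 2 := Fintype.equivOfCardEq (by
      rw [Fintype.card_prod, Fintype.card_fin, Fintype.card_fin, hn]
      ring)
    have h1 := h.inv_mem3 hZ hm hs (φ.domDomCongr e) (fun g v => by
      rw [MultilinearMap.domDomCongr_apply, MultilinearMap.domDomCongr_apply]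
      exact hinv g _)
    have h2 : φ ∈ NG m (perOne Z) κ := (clo_NG hZ.isAV).reindex e.symm h1 φ fun v => by
      rw [MultilinearMap.domDomCongr_apply]
      congr 1
      funext k
      simp
    exact h2 _ _
  · have h0 : φ = 0 := by
      refine MultilinearMap.ext fun v => ?_
      obtain ⟨D, hDS, -⟩ := h.ex (RingEquiv.refl ℂ)
      have hDD : ph (Fin G ⊕ Fin G) D * ph (Fin G ⊕ Fin G) D = 1 := by
        rw [← map_mul, h.sq D hDS, map_one]
      have hDm : ph (Fin G ⊕ Fin G) D ∈ GG (LT S) := mem_GG.2 (LT_gen hDS)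
      have h1 := hinv (gt hDD hDm (-1)) v
      have h2 : (fun k => RG (GG (LT S)) (gt hDD hDm (-1)) (v k)) = fun k => (-1 : ℂ) • v k := by
        funext k
        change torE (ph _ D) (-1) (v k) = _
        rw [torE_apply]
        simp only [Units.val_neg, Units.val_one, inv_neg, inv_one]
        module
      rw [h2, MultilinearMap.map_smul_univ, Finset.prod_const, Finset.card_univ,
        Odd.neg_one_pow ho, neg_one_smul] at h1
      have h3 : φ v = 0 := by linear_combination (-1 / 2 : ℂ) * h1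
      rw [h3]
      rfl
    have h1 : φ ∈ NG m (perOne Z) κ := by
      rw [h0]
      exact Submodule.zero_mem _
    exact h1 _ _

end TD

end

end Pool.Agent.Y224.TS
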