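import Mathlib
import Pool.Agent.Y224.TS.D8
import Pool.Agent.Y224.TS.T10

/-!
# Tate classes on abelian varieties whose simple factors have dimension at most three
-/

set_option linter.unusedSectionVars false

namespace Pool.Agent.Y224.TS

open Matrix Module Pool.Agent.W437.HC Pool.Agent.W437.HD Pool.Agent.W548.Odd Pool.Agent.Y90
open Pool.Agent.H204R3.SP Pool.Agent.H204R3.GP TensorProduct
open St (IsHodgeTate IsTateModule)
open Pool.Agent.W437.HP (cK cK_mul cK_one)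

noncomputable section

variable {H : Type} [AddCommGroup H] [Module ℚ H] {K : Type} [Field K] [CharZero K] [Algebra K ℂ]
  {T : Type} [AddCommGroup T] [Module ℂ T] {per : H →+ T} {Γ : Type} [Group Γ]
  {ρ : Representation K Γ (K ⊗[ℚ] H)} {χ : Γ →* K} {E : H → H → ℚ}

/-- Tate classes in degrees given by `Fin n × Fin 2`, from a statement on the involutions. -/
theorem tate_descent [Algebra.IsAlgebraic K ℂ] {G : ℕ}
    (b : Basis (Fin G ⊕ Fin G) ℚ H)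
    (P : ∀ (κ : Type), ((Fin G ⊕ Fin G → ℚ) [⋀^κ]→ₗ[ℚ] ℚ) → Prop)
    (hP : ∀ (n : ℕ) (φ : MultilinearMap ℂ (fun _ : Fin n × Fin 2 => Fin G ⊕ Fin G → ℂ) ℂ),
      (∀ D ∈ SH per ρ χ b, Kills (ph (Fin G ⊕ Fin G) D) φ) →
        altQ φ ∈ Submodule.span ℂ {g : (Fin n × Fin 2 → Fin G ⊕ Fin G → ℚ) → ℂ |
          ∃ r, P (Fin n × Fin 2) r ∧ g = fun v => ((r v : ℚ) : ℂ)})
    {κ : Type} [Finite κ] {n : ℕ} (hκ : Nat.card κ = 2 * n) (φ : (K ⊗[ℚ] H) [⋀^κ]→ₗ[K] K)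
    (hφ : ∃ Δ : Subgroup Γ, Δ.FiniteIndex ∧ ∀ g ∈ Δ, ∀ v : κ → K ⊗[ℚ] H,
      φ (fun k => ρ g (v k)) = χ g ^ n * φ v) :
    ∃ (e : κ ≃ Fin n × Fin 2) (N : ℕ) (c : Fin N → K)
      (r : Fin N → ((Fin G ⊕ Fin G → ℚ) [⋀^(Fin n × Fin 2)]→ₗ[ℚ] ℚ)),
      (∀ j, P (Fin n × Fin 2) (r j)) ∧
        ∀ v : κ → H, φ (fun k => (1 : K) ⊗ₜ[ℚ] v k) =
          ∑ j, c j * ((r j (fun k => b.equivFun (v (e.symm k))) : ℚ) : K) := by
  classical
  let _ : Fintype κ := Fintype.ofFinite κ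
  have e : κ ≃ Fin n × Fin 2 := Fintype.equivOfCardEq (by
    rw [← Nat.card_eq_fintype_card, hκ, Fintype.card_prod, Fintype.card_fin, Fintype.card_fin,
      mul_comm])
  let φ' : MultilinearMap K (fun _ : Fin n × Fin 2 => K ⊗[ℚ] H) K :=
    φ.toMultilinearMap.domDomCongr e
  have hφ' : ∀ v, φ' v = φ (fun k => v (e k)) := fun v => rfl
  have hT : IsTate ρ χ n φ' := by
    obtain ⟨Δ, hΔ, h⟩ := hφ
    refine ⟨Δ, hΔ, fun s hs v => ?_⟩
    rw [hφ', hφ']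
    exact h s hs (fun k => v (e k))
  have halt : ∀ (σ : Equiv.Perm (Fin n × Fin 2)) v,
      φ' (fun k => v (σ k)) = ((Equiv.Perm.sign σ : ℤ) : K) * φ' v := by
    intro σ v
    have h1 : φ' (fun k => v (σ k)) = (φ.domDomCongr e) (v ∘ σ) := rfl
    have h2 : φ' v = (φ.domDomCongr e) v := rfl
    rw [h1, h2, AlternatingMap.map_perm, Units.smul_def, zsmul_eq_mul]
  have h1 := hP n (FC b φ') (FC_kills b φ' hT)
  have h2 : (fun v : Fin n × Fin 2 → (Fin G ⊕ Fin G → ℚ) =>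
      algebraMap K ℂ (φ' (fun k => (1 : K) ⊗ₜ[ℚ] b.equivFun.symm (v k)))) ∈
        Submodule.span ℂ {g : (Fin n × Fin 2 → Fin G ⊕ Fin G → ℚ) → ℂ |
          ∃ r, P (Fin n × Fin 2) r ∧ g = fun v => ((r v : ℚ) : ℂ)} := by
    have h3 : (fun v : Fin n × Fin 2 → (Fin G ⊕ Fin G → ℚ) =>
        algebraMap K ℂ (φ' (fun k => (1 : K) ⊗ₜ[ℚ] b.equivFun.symm (v k)))) =
        (Fintype.card (Equiv.Perm (Fin n × Fin 2)) : ℂ)⁻¹ • altQ (FC b φ') := by
      funext v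
      rw [Pi.smul_apply, smul_eq_mul]
      have h4 := FC_alt b φ' halt v
      rw [h4, ← mul_assoc, inv_mul_cancel₀, one_mul]
      exact_mod_cast Fintype.card_ne_zero
    rw [h3]
    exact Submodule.smul_mem _ _ h1
  -- descent
  let S : Set ((Fin n × Fin 2 → (Fin G ⊕ Fin G → ℚ)) → K) :=
    {s | ∃ r, P (Fin n × Fin 2) r ∧ s = fun v => ((r v : ℚ) : K)}
  have h3 : (fun v : Fin n × Fin 2 → (Fin G ⊕ Fin G → ℚ) =>
      φ' (fun k => (1 : K) ⊗ₜ[ℚ] b.equivFun.symm (v k))) ∈ Submodule.span K S := by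
    refine span_descent_k (Ω := ℂ) S _ ?_
    refine Submodule.span_mono ?_ h2
    rintro g ⟨r, hr, rfl⟩
    refine ⟨_, ⟨r, hr, rfl⟩, ?_⟩
    funext v
    rw [map_ratCast]
  obtain ⟨N, c, s, hs'⟩ := Submodule.mem_span_set'.1 h3
  choose r hr hr' using fun j => (s j).2
  refine ⟨e, N, c, r, hr, fun v => ?_⟩
  have h4 := congrFun hs' (fun k => b.equivFun (v (e.symm k)))
  beta_reduce at h4
  rw [hφ'] at h4
  have h5 : (fun k => (1 : K) ⊗ₜ[ℚ] b.equivFun.symm (b.equivFun (v (e.symm (e k))))) =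
      fun k => (1 : K) ⊗ₜ[ℚ] v k := by
    funext k
    rw [LinearEquiv.symm_apply_apply, Equiv.symm_apply_apply]
  rw [h5] at h4
  rw [← h4, Finset.sum_apply]
  refine Finset.sum_congr rfl fun j _ => ?_
  rw [Pi.smul_apply, smul_eq_mul, hr' j]

/-- **Tate classes** of abelian varieties whose simple factors have dimension at most three. -/
theorem tate_generated [Algebra.IsAlgebraic K ℂ] {m : ℕ} (hm : 1 ≤ m)
    (hX : Pool.Agent.Y90.St.IsAV per) (hs : Pool.Agent.Y90.St.SmallSimpleCM m per)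
    (hE : Pool.Agent.Y90.St.IsPolarization per E) (hρ : IsTateModule per E ρ χ) {κ : Type}
    [Finite κ] {n : ℕ} (hκ : Nat.card κ = 2 * n) (φ : (K ⊗[ℚ] H) [⋀^κ]→ₗ[K] K)
    (hφ : ∃ Δ : Subgroup Γ, Δ.FiniteIndex ∧ ∀ g ∈ Δ, ∀ v : κ → K ⊗[ℚ] H,
      φ (fun k => ρ g (v k)) = χ g ^ n * φ v) :
    ∃ (N : ℕ) (c : Fin N → K) (f : Fin N → (H [⋀^κ]→ₗ[ℚ] ℚ)),
      (∀ j, Pool.Agent.Y90.St.Generated m per κ (f j)) ∧
        ∀ v : κ → H, φ (fun k => (1 : K) ⊗ₜ[ℚ] v k) = ∑ j, c j * ((f j v : ℚ) : K) := by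
  classical
  obtain ⟨a, Z, hZ, b, hC, hb⟩ := exists_ppav' hX hE
  have hsf : SmallFm m Z := smallFm_of b.equivFun hC hs
  have hTD : TD Z (SH per ρ χ b) := td_of b hb hC hρ
  obtain ⟨Ψ₂, h₂⟩ := hC.hom hZ.cht (R := 1) (by rw [cK_one, Matrix.one_mul, Matrix.mul_one])
  have e₂ : ∀ v, Ψ₂ (per v) = perOne Z (b.equivFun v) := fun v => by
    have h3 := h₂ (b.equivFun v)
    have h4 : (per.comp b.equivFun.symm.toLinearMap.toAddMonoidHom) (b.equivFun v) = per v := by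
      change per (b.equivFun.symm (b.equivFun v)) = per v
      rw [LinearEquiv.symm_apply_apply]
    rwa [h4, one_mulVec] at h3
  obtain ⟨e, N, c, r, hr, h⟩ := tate_descent b
    (fun κ r => Pool.Agent.Y90.St.Generated m (perOne Z) κ r)
    (fun n φ hφ => by
      have h1 := hTD.ring3 hZ hm hsf φ hφ
      unfold RG' at h1
      refine Submodule.span_mono ?_ h1
      rintro g ⟨r, hr, rfl⟩
      exact ⟨r, hr, rfl⟩) hκ φ hφ
  refine ⟨N, c, fun j => ((r j).compLinearMap b.equivFun.toLinearMap).domDomCongr e.symm,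
    fun j => ?_, fun v => ?_⟩
  · exact Pool.Agent.Y90.St.Generated.reindex e.symm _
      (Pool.Agent.Y90.St.Generated.pull hX _ (hr j) b.equivFun.toLinearMap ⟨Ψ₂, e₂⟩)
  · rw [h v]
    rfl

end

end Pool.Agent.Y224.TS
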