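import Mathlib
import Pool.Agent.Y4.P.Det2

/-!
# The products of determinants belong to the ring if the sums of the traces vanish

The argument of `Pool.Agent.Y4.P.Det2` (by helper4), with the determinants replaced by the traces of
the conjugates of the complex structure.
-/

set_option linter.unusedSectionVars false

namespace Pool.Agent.Y224.TS

open Matrix Module Pool.Agent.Y90 Pool.Agent.W437.HC Pool.Agent.W437.HD
  Pool.Agent.TH504.CB Pool.Agent.W522.U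
open Pool.Agent.W548.Odd hiding cv
open Pool.Agent.H204R3.CM (IsHodge)
open Pool.Agent.H204R3.SP (bil2 IsTate)
open Pool.Agent.H204R3.GP (HasProj)
open Pool.Agent.W437.HP (cK cK_mul cK_one)
open Pool.Agent.Y4.P

noncomputable section

/-- The full products of determinants belong to the ring. -/
theorem det_tr (hWl : JWeil) (hFd : JField) (hId : JIdem) (hTr : JTrace) {G : ℕ}
    {Z : Matrix (Fin G) (Fin G) ℂ} (h : PM Z) {s : ℕ}
    (W : Fin s → Submodule ℂ (Fin G ⊕ Fin G → ℂ)) (hW : ∀ i, IrS (LZ Z) (W i))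
    (a : Fin s → ℤ) (hPD : ∀ i, a i ≠ 0 → PD (LZ Z) (W i))
    (hsum : ∀ τ : ℂ ≃+* ℂ, ∑ x : (Σ i, Fin (a i).toNat),
      Pool.Agent.Y90.tr Z (cjS τ (W x.1)) = 0)
    (ι : Fin s → Type) [∀ i, Fintype (ι i)] [∀ i, DecidableEq (ι i)]
    (f : ∀ i, Basis (ι i) ℂ (W i))
    (q : ∀ x : (Σ i, Fin (a i).toNat), ι x.1 → (Fin G ⊕ Fin G → ℂ) →ₗ[ℂ] W x.1)
    (hqX : ∀ x y, ∀ X ∈ LZ Z, ∀ v, (q x y (X *ᵥ v) : Fin G ⊕ Fin G → ℂ) =
      X *ᵥ (q x y v : Fin G ⊕ Fin G → ℂ))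
    (ψ : MultilinearMap ℂ (fun _ : (Σ x : (Σ i, Fin (a i).toNat), ι x.1) =>
      Fin G ⊕ Fin G → ℂ) ℂ)
    (hψ : ∀ v, ψ v = ∏ x : (Σ i, Fin (a i).toNat), (f x.1).det (fun y => q x y (v ⟨x, y⟩))) :
    ψ ∈ NZ Z (Σ x : (Σ i, Fin (a i).toNat), ι x.1) := by
  classical
  have hne : ∀ x : (Σ i, Fin (a i).toNat), a x.1 ≠ 0 := by
    intro x h0
    have h1 := x.2.2
    have h2 : (a x.1).toNat = 0 := by rw [h0]; rfl
    exact absurd (lt_of_lt_of_eq h1 h2) (Nat.not_lt_zero _)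
  choose ε T e1 e2 e3 e4 e5 e6 e7 using fun x : (Σ i, Fin (a i).toNat) => hPD x.1 (hne x)
  obtain ⟨K, hK1, hK2, hK3⟩ := exists_K hFd ε e3 e4
  choose d P Q hPQ hQP using fun x => exists_PQ hId (K := K) (ε x) (e1 x) (hK3 x)
  have hQP' : ∀ x, cx (Q x) * cx (P x) = 1 := fun x => by rw [← cx_mul, hQP, cx_one]
  have hPQ' : ∀ x, cx (P x) * cx (Q x) = ε x := fun x => by rw [← cx_mul, hPQ]
  have hT7 : ∀ x v, v ∈ (W x.1).map (T x) ↔ (cx (P x) * cx (Q x)) *ᵥ v = v := fun x v => by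
    rw [hPQ']
    exact e7 x v
  -- the coordinates
  let A : ∀ x : (Σ i, Fin (a i).toNat), W x.1 ≃ₗ[ℂ] (Fin (d x) → ℂ) := fun x =>
    eqU (hQP' x) (e6 x) (hT7 x)
  have hA : ∀ x (u : W x.1), A x u = cx (Q x) *ᵥ T x u := fun x u => rfl
  have hPA : ∀ x (u : W x.1), cx (P x) *ᵥ A x u = T x u := fun x u =>
    P_eqU (hQP' x) (e6 x) (hT7 x) u
  have hcard : ∀ x : (Σ i, Fin (a i).toNat), Fintype.card (ι x.1) = Fintype.card (Fin (d x)) := by
    intro x
    rw [← finrank_eq_card_basis (f x.1), (A x).finrank_eq, finrank_fintype_fun_eq_card]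
  let eι : ∀ x : (Σ i, Fin (a i).toNat), ι x.1 ≃ Fin (d x) := fun x =>
    Fintype.equivOfCardEq (hcard x)
  choose c hc0 hc using fun x => det_coord (f x.1) (A x) (eι x)
  -- the matrices of the equivariant maps
  let R : ∀ k : (Σ x, Fin (d x)), Matrix (Fin (d k.1)) (Fin G ⊕ Fin G) ℂ := fun k =>
    LinearMap.toMatrix' ((A k.1).toLinearMap.comp (q k.1 ((eι k.1).symm k.2)))
  have hRv : ∀ k v, R k *ᵥ v = A k.1 (q k.1 ((eι k.1).symm k.2) v) := by
    intro k v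
    change LinearMap.toMatrix' _ *ᵥ v = _
    rw [← Matrix.toLin'_apply, Matrix.toLin'_toMatrix']
    rfl
  have hR : ∀ k, ∀ X ∈ LZ Z, R k * X = (cx (Q k.1) * X * cx (P k.1)) * R k := by
    intro k X hX
    apply Matrix.toLin'.injective
    refine LinearMap.ext fun v => ?_
    rw [Matrix.toLin'_apply, Matrix.toLin'_apply, ← mulVec_mulVec, ← mulVec_mulVec, hRv, hRv,
      ← mulVec_mulVec, ← mulVec_mulVec, hPA, hA, hqX _ _ X hX, e5 k.1 X hX _ (SetLike.coe_mem _)]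
  -- the traces
  have htr : ∀ X ∈ LZ Z, ∑ x, Matrix.trace (X * cx (P x * Q x)) = 0 := by
    have h1 := trace_all (Z := Z) ε e2 (fun σ => by
      have h2 : ∀ x, Matrix.trace (DS Z σ * ε x) = ((Pool.Agent.Y90.tr Z (cjS σ.symm (W x.1)) : ℤ) : ℂ) :=
        fun x => hTr G Z h (W x.1) (hW x.1) (ε x) (T x) (e1 x) (e2 x) (e5 x) (e6 x) (e7 x) σ
      rw [Finset.sum_congr rfl fun x _ => h2 x, ← Int.cast_sum,
        hsum σ.symm, Int.cast_zero])
    intro X hX
    rw [← h1 X hX]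
    refine Finset.sum_congr rfl fun x _ => ?_
    rw [hPQ]
  -- reindexing
  let E : (Σ x : (Σ i, Fin (a i).toNat), ι x.1) ≃ (Σ x, Fin (d x)) := Equiv.sigmaCongrRight eι
  have hmem := @hWl G Z h K hK1 hK2 (Σ i, Fin (a i).toNat) inferInstance inferInstance d P Q hQP
    (fun x X hX => by rw [hPQ]; exact e2 x X hX) htr R hR ((∏ x, c x) • ψ.domDomCongr E)
    (fun v => by
      rw [_root_.smul_apply, MultilinearMap.domDomCongr_apply, hψ, smul_eq_mul,
        ← Finset.prod_mul_distrib]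
      refine Finset.prod_congr rfl fun x _ => ?_
      have h1 := hc x (fun y => q x y (v ⟨x, eι x y⟩))
      have h2 : (fun y => q x y (v (E ⟨x, y⟩))) = fun y => q x y (v ⟨x, eι x y⟩) := rfl
      rw [h2, ← h1]
      congr 1
      ext y j
      rw [Matrix.of_apply, Matrix.of_apply, hRv, Equiv.apply_symm_apply])
  have hc' : (∏ x, c x) ≠ 0 := Finset.prod_ne_zero_iff.2 fun x _ => hc0 x
  have h1 := Submodule.smul_mem _ (∏ x, c x)⁻¹ hmem
  rw [smul_smul, inv_mul_cancel₀ hc', one_smul] at h1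
  refine (clo_NZ Z).reindex E.symm h1 ψ fun v => ?_
  rw [MultilinearMap.domDomCongr_apply]
  congr 1
  funext p
  rw [Equiv.symm_apply_apply]

end

end Pool.Agent.Y224.TS
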