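import Mathlib
import Pool.Agent.Y90.Bal1
import Pool.Agent.Y4.Aut
import Pool.Agent.Y4.P.Cls4
import Pool.Agent.Y4.P.Tra
import Pool.Agent.Y4.P.Tan
import Pool.Agent.Y261.P.Spec
import Pool.Agent.Y79.S4.Two

/-!
# Multiplicities of the irreducible submodules

Definitions and lemmas of project P (files `Jobs4`, `Twi`, `Cls5` and `Asm4` of `Pool.Agent.Y4.P`, by
helper4), without the elements of rank one.
-/

set_option linter.unusedSectionVars false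

namespace Pool.Agent.Y224.TS.PQ

open Matrix Module Pool.Agent.Y90 Pool.Agent.W437.HC Pool.Agent.W437.HD
  Pool.Agent.TH504.CB Pool.Agent.W522.U
open Pool.Agent.W548.Odd hiding cv
open Pool.Agent.Y4.P (MaxM EigM RealOddM TwoTwoM HasPr PD ClassZ JTransfer JTransfer2 JClass JSpec
  JSympG2 JCop2 JTwoTwo2)

noncomputable section

/-- All automorphisms of `ℂ` commute with the complex conjugation on the eigenvalues. -/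
def CMM {g : ℕ} (φ : Matrix (Fin g ⊕ Fin g) (Fin g ⊕ Fin g) ℚ) : Prop :=
  ∀ z ∈ (minpoly ℚ φ).aroots ℂ, ∀ σ : ℂ ≃+* ℂ, cc (σ z) = σ (cc z)

/-- A maximal commutative subfield which is CM or totally real, with coprime multiplicities at some
place. -/
def CopM4 {g : ℕ} (Z : Matrix (Fin g) (Fin g) ℂ) : Prop :=
  ∃ φ, MaxM Z φ ∧ CMM φ ∧
    ∃ z ∈ (minpoly ℚ φ).aroots ℂ, Nat.Coprime (pd Z (EigM φ z)) (qd Z (EigM φ z))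

/-- Two simple factors are not related by twists. -/
def SepM {g₁ g₂ : ℕ} (Z₁ : Matrix (Fin g₁) (Fin g₁) ℂ) (Z₂ : Matrix (Fin g₂) (Fin g₂) ℂ)
    (φ₁ : Matrix (Fin g₁ ⊕ Fin g₁) (Fin g₁ ⊕ Fin g₁) ℚ)
    (φ₂ : Matrix (Fin g₂ ⊕ Fin g₂) (Fin g₂ ⊕ Fin g₂) ℚ) : Prop :=
  ∀ z₁ ∈ (minpoly ℚ φ₁).aroots ℂ, ∀ z₂ ∈ (minpoly ℚ φ₂).aroots ℂ, ∀ n : ℕ, 2 ≤ n →
    pd Z₁ (EigM φ₁ z₁) + qd Z₁ (EigM φ₁ z₁) = n → pd Z₂ (EigM φ₂ z₂) + qd Z₂ (EigM φ₂ z₂) = n →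
    (∀ σ : ℂ ≃+* ℂ, pd Z₁ (EigM φ₁ (σ z₁)) = pd Z₂ (EigM φ₂ (σ z₂)) ∨
      ((pd Z₁ (EigM φ₁ (σ z₁)) = 0 ∨ pd Z₁ (EigM φ₁ (σ z₁)) = n) ∧
        (pd Z₂ (EigM φ₂ (σ z₂)) = 0 ∨ pd Z₂ (EigM φ₂ (σ z₂)) = n))) →
    (∀ σ : ℂ ≃+* ℂ, pd Z₁ (EigM φ₁ (σ z₁)) = pd Z₂ (EigM φ₂ (σ z₂))) ∨
      (n = 2 ∧ ∀ σ : ℂ ≃+* ℂ, pd Z₁ (EigM φ₁ (σ z₁)) + pd Z₂ (EigM φ₂ (σ z₂)) = 2)

/-- The automorphisms of `ℂ` act transitively on the roots of an irreducible polynomial. -/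
theorem exists_aut_root {p : Polynomial ℚ} (hp : Irreducible p) {z w : ℂ} (hz : z ∈ p.aroots ℂ)
    (hw : w ∈ p.aroots ℂ) : ∃ σ : ℂ ≃+* ℂ, σ z = w := by
  have hF : Fact (Irreducible p) := ⟨hp⟩
  have hfd : FiniteDimensional ℚ (AdjoinRoot p) :=
    Module.Finite.of_basis (AdjoinRoot.powerBasis hp.ne_zero).basis
  have hnf : NumberField (AdjoinRoot p) := { to_charZero := inferInstance, to_finiteDimensional := hfd }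
  have hz' : p.eval₂ (algebraMap ℚ ℂ) z = 0 := by
    rw [Polynomial.mem_aroots, Polynomial.aeval_def] at hz
    exact hz.2
  have hw' : p.eval₂ (algebraMap ℚ ℂ) w = 0 := by
    rw [Polynomial.mem_aroots, Polynomial.aeval_def] at hw
    exact hw.2
  obtain ⟨σ, hσ⟩ := Pool.Agent.Y4.exists_aut_emb (AdjoinRoot.lift (algebraMap ℚ ℂ) z hz')
    (AdjoinRoot.lift (algebraMap ℚ ℂ) w hw')
  refine ⟨σ, ?_⟩
  have h1 := congrArg (fun f : AdjoinRoot p →+* ℂ => f (AdjoinRoot.root p)) hσ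
  simp only [RingHom.comp_apply, AdjoinRoot.lift_root] at h1
  exact h1

section one

variable {g : ℕ} {Z : Matrix (Fin g) (Fin g) ℂ} {U : Submodule ℂ (Fin g ⊕ Fin g → ℂ)}

/-- No conjugate of the complex structure is a scalar. -/
def NS (Z : Matrix (Fin g) (Fin g) ℂ) (U : Submodule ℂ (Fin g ⊕ Fin g → ℂ)) : Prop :=
  ∀ σ : ℂ ≃+* ℂ, pd Z (cjS σ U) ≠ 0 ∧ qd Z (cjS σ U) ≠ 0

/-- The multiplicities are those of an endomorphism. -/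
def ME (Z : Matrix (Fin g) (Fin g) ℂ) (U : Submodule ℂ (Fin g ⊕ Fin g → ℂ)) : Prop :=
  ∃ φ, MaxM Z φ ∧ CMM φ ∧ ∃ z ∈ (minpoly ℚ φ).aroots ℂ, ∀ σ : ℂ ≃+* ℂ,
    pd Z (cjS σ U) = pd Z (EigM φ (σ z)) ∧ qd Z (cjS σ U) = qd Z (EigM φ (σ z))

theorem cjS_refl (U : Submodule ℂ (Fin g ⊕ Fin g → ℂ)) : cjS (RingEquiv.refl ℂ) U = U := by
  ext v
  rfl

/-- The eigenspaces of the complex structure on a submodule one of which vanishes. -/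
theorem act_of_pd (h : PM Z) (hU : Stab (LZ Z) U) :
    (pd Z U = 0 → ∀ u ∈ U, DZ Z *ᵥ u = (-1 : ℂ) • u) ∧
      (qd Z U = 0 → ∀ u ∈ U, DZ Z *ᵥ u = (1 : ℂ) • u) := by
  have h1 := (split_eig h hU).2
  constructor
  · intro h0 u hu
    unfold pd at h0
    rw [Submodule.finrank_eq_zero] at h0
    rw [h0, bot_sup_eq] at h1
    have h2 : u ∈ U ⊓ eig Z (-1) := by
      rw [h1]
      exact hu
    exact mem_eig.1 h2.2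
  · intro h0 u hu
    unfold qd at h0
    rw [Submodule.finrank_eq_zero] at h0
    rw [h0, sup_bot_eq] at h1
    have h2 : u ∈ U ⊓ eig Z 1 := by
      rw [h1]
      exact hu
    exact mem_eig.1 h2.2

theorem ns_of_nonscalar (h : PM Z) (hU : IrS (LZ Z) U)
    (hd : ∀ (σ : ℂ ≃+* ℂ) (c : ℂ), ∃ u ∈ U, DS Z σ *ᵥ u ≠ c • u) : NS Z U := by
  have key : ∀ (σ : ℂ ≃+* ℂ) (c : ℂ), ¬∀ u ∈ cjS σ U, DZ Z *ᵥ u = c • u := by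
    intro σ c hc
    obtain ⟨u, hu, hne⟩ := hd σ.symm (σ.symm c)
    apply hne
    have h1 := hc _ (cj_mem_cjS (σ := σ) hu)
    have h2 : (fun i => σ.symm ((DZ Z *ᵥ fun i => σ (u i)) i)) =
        fun i => σ.symm ((c • fun i => σ (u i)) i) := by rw [h1]
    rw [map_mulVec_aut σ.symm] at h2
    have h3 : (fun i => σ.symm (σ (u i))) = u := by
      funext i
      simp
    rw [h3] at h2
    have h4 : (DZ Z).map σ.symm = DS Z σ.symm := rfl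
    rw [h4] at h2
    rw [h2]
    funext i
    simp
  intro σ
  have hF := hU.cj gal_LZ σ
  have h1 := act_of_pd h hF.2.1
  exact ⟨fun h0 => key σ _ (h1.1 h0), fun h0 => key σ _ (h1.2 h0)⟩

/-- The eigenvalue on an isomorphic submodule: the multiplicities of a conjugate. -/
theorem pd_of_comm {T : (Fin g ⊕ Fin g → ℂ) →ₗ[ℂ] (Fin g ⊕ Fin g → ℂ)} (hU : Stab (LZ Z) U)
    (hi : ∀ u ∈ U, T u = 0 → u = 0) {σ : ℂ ≃+* ℂ}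
    (hT : ∀ u ∈ U, T (DS Z σ *ᵥ u) = DS Z σ *ᵥ T u) :
    pd Z (cjS σ.symm (U.map T)) = pd Z (cjS σ.symm U) := by
  have key : ∀ W : Submodule ℂ (Fin g ⊕ Fin g → ℂ), pd Z (cjS σ.symm W) =
      finrank ℂ ↥(W ⊓ cjS σ (eig Z 1)) := by
    intro W
    unfold pd
    rw [← finrank_cjS σ.symm (W ⊓ cjS σ (eig Z 1)), cjS_inf, cjS_symm]
  have hmem : ∀ v : Fin g ⊕ Fin g → ℂ, v ∈ cjS σ (eig Z 1) ↔ DS Z σ *ᵥ v = v := by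
    intro v
    constructor
    · intro hv
      rw [mem_cj_eig (map_one σ) hv, one_smul]
    · intro hv
      rw [mem_cjS, mem_eig, one_smul]
      have h1 : (fun i => σ.symm ((DS Z σ *ᵥ v) i)) = fun i => σ.symm (v i) := by rw [hv]
      rw [map_mulVec_aut σ.symm] at h1
      have h3 : (DS Z σ).map σ.symm = DZ Z := by
        ext i j
        simp [DS]
      rw [h3] at h1
      exact h1
  rw [key, key, ← finrank_map_of_inj (U := U ⊓ cjS σ (eig Z 1)) (T := T) (fun u hu => hi u hu.1)]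
  suffices h9 : U.map T ⊓ cjS σ (eig Z 1) = (U ⊓ cjS σ (eig Z 1)).map T by rw [h9]
  ext v
  constructor
  · rintro ⟨⟨u, hu, rfl⟩, hv'⟩
    refine ⟨u, ⟨hu, ?_⟩, rfl⟩
    rw [SetLike.mem_coe, hmem] at hv' ⊢
    rw [← sub_eq_zero]
    refine hi _ (U.sub_mem (hU _ (DS_mem σ) u hu) hu) ?_
    rw [map_sub, hT u hu, hv', sub_self]
  · rintro ⟨u, ⟨hu, hu'⟩, rfl⟩
    refine ⟨⟨u, hu, rfl⟩, ?_⟩
    rw [SetLike.mem_coe, hmem] at hu' ⊢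
    rw [← hT u hu, hu']

/-- Multiplicities of conjugates of isomorphic submodules. -/
theorem pd_cj_map {T : (Fin g ⊕ Fin g → ℂ) →ₗ[ℂ] (Fin g ⊕ Fin g → ℂ)}
    (hT : ∀ X ∈ LZ Z, ∀ v, T (X *ᵥ v) = X *ᵥ T v) (hi : ∀ u ∈ U, T u = 0 → u = 0)
    (hU : Stab (LZ Z) U) (σ : ℂ ≃+* ℂ) : pd Z (cjS σ (U.map T)) = pd Z (cjS σ U) :=
  pd_of_comm (σ := σ.symm) hU hi fun u _ => hT _ (DS_mem _) u

theorem stab_map {T : (Fin g ⊕ Fin g → ℂ) →ₗ[ℂ] (Fin g ⊕ Fin g → ℂ)}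
    (hT : ∀ X ∈ LZ Z, ∀ v, T (X *ᵥ v) = X *ᵥ T v) (hU : Stab (LZ Z) U) :
    Stab (LZ Z) (U.map T) := by
  rintro X hX _ ⟨u, hu, rfl⟩
  exact ⟨X *ᵥ u, hU X hX u hu, hT X hX u⟩

theorem stab_cj (hU : Stab (LZ Z) U) (σ : ℂ ≃+* ℂ) : Stab (LZ Z) (cjS σ U) := by
  intro X hX v hv
  rw [mem_cjS] at hv ⊢
  rw [map_mulVec_aut σ.symm]
  exact hU _ (gal_LZ σ.symm X hX) _ hv

theorem qd_cj_map (h : PM Z) {T : (Fin g ⊕ Fin g → ℂ) →ₗ[ℂ] (Fin g ⊕ Fin g → ℂ)}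
    (hT : ∀ X ∈ LZ Z, ∀ v, T (X *ᵥ v) = X *ᵥ T v) (hi : ∀ u ∈ U, T u = 0 → u = 0)
    (hU : Stab (LZ Z) U) (σ : ℂ ≃+* ℂ) : qd Z (cjS σ (U.map T)) = qd Z (cjS σ U) := by
  have h1 := pd_add_qd h (stab_cj (stab_map hT hU) σ)
  have h2 := pd_add_qd h (stab_cj hU σ)
  rw [finrank_cjS, finrank_map_of_inj hi] at h1
  rw [finrank_cjS] at h2
  have h3 := pd_cj_map hT hi hU σ
  omega

end one

section two

variable {G : ℕ} {Z : Matrix (Fin G) (Fin G) ℂ} {U U' : Submodule ℂ (Fin G ⊕ Fin G → ℂ)}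

/-- The separation property. -/
def SepP (Z : Matrix (Fin G) (Fin G) ℂ) (U U' : Submodule ℂ (Fin G ⊕ Fin G → ℂ)) : Prop :=
  finrank ℂ U' = finrank ℂ U → (∀ σ : ℂ ≃+* ℂ, pd Z (cjS σ U) = pd Z (cjS σ U') ∨
    ((pd Z (cjS σ U) = 0 ∨ qd Z (cjS σ U) = 0) ∧ (pd Z (cjS σ U') = 0 ∨ qd Z (cjS σ U') = 0))) →
    (∀ σ : ℂ ≃+* ℂ, pd Z (cjS σ U) = pd Z (cjS σ U')) ∨
      (finrank ℂ U = 2 ∧ ∀ σ : ℂ ≃+* ℂ, pd Z (cjS σ U) + pd Z (cjS σ U') = 2)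

/-- The multiplicities are those of an endomorphism of a simple factor. -/
def MF (Z : Matrix (Fin G) (Fin G) ℂ) (U : Submodule ℂ (Fin G ⊕ Fin G → ℂ)) : Prop :=
  ∃ (a : ℕ) (Z' : Matrix (Fin a) (Fin a) ℂ) (E : Matrix (Fin G ⊕ Fin G) (Fin a ⊕ Fin a) ℚ)
    (F : Matrix (Fin a ⊕ Fin a) (Fin G ⊕ Fin G) ℚ), Fac Z Z' E F ∧ PM Z' ∧ IsSimpleAV Z' ∧
    0 < a ∧ ∃ φ, MaxM Z' φ ∧ CMM φ ∧ ∃ z ∈ (minpoly ℚ φ).aroots ℂ, ∀ σ : ℂ ≃+* ℂ,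
      pd Z (cjS σ U) = pd Z' (EigM φ (σ z)) ∧ qd Z (cjS σ U) = qd Z' (EigM φ (σ z))

section fac

variable {a : ℕ} {Z' : Matrix (Fin a) (Fin a) ℂ} {E : Matrix (Fin G ⊕ Fin G) (Fin a ⊕ Fin a) ℚ}
  {F : Matrix (Fin a ⊕ Fin a) (Fin G ⊕ Fin G) ℚ}

theorem pd_fac (hf : Fac Z Z' E F) (hi : ∀ u ∈ U, ml F u = 0 → u = 0) (hU : Stab (LZ Z) U) :
    pd Z' (U.map (ml F)) = pd Z U ∧ qd Z' (U.map (ml F)) = qd Z U := by
  have key : ∀ c : ℂ, finrank ℂ ((U ⊓ eig Z c).map (ml F)) =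
      finrank ℂ (U ⊓ eig Z c : Submodule ℂ (Fin G ⊕ Fin G → ℂ)) := fun c =>
    finrank_ml (U := U ⊓ eig Z c) fun u hu => hi u hu.1
  unfold pd qd
  rw [← hf.eig_map hi hU, ← hf.eig_map hi hU, key, key]
  exact ⟨rfl, rfl⟩

theorem pd_fac_cj (hf : Fac Z Z' E F) (hi : ∀ u ∈ U, ml F u = 0 → u = 0) (hU : Stab (LZ Z) U)
    (σ : ℂ ≃+* ℂ) : pd Z' (cjS σ (U.map (ml F))) = pd Z (cjS σ U) ∧
      qd Z' (cjS σ (U.map (ml F))) = qd Z (cjS σ U) := by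
  rw [cjS_ml]
  exact pd_fac hf (inj_cj hi σ) (stab_cj hU σ)

end fac

/-- The simple factors are not related by twists. -/
def SepF (Z : Matrix (Fin G) (Fin G) ℂ) : Prop :=
  ∀ (a₁ a₂ : ℕ) (Z₁ : Matrix (Fin a₁) (Fin a₁) ℂ) (Z₂ : Matrix (Fin a₂) (Fin a₂) ℂ)
    (E₁ : Matrix (Fin G ⊕ Fin G) (Fin a₁ ⊕ Fin a₁) ℚ)
    (F₁ : Matrix (Fin a₁ ⊕ Fin a₁) (Fin G ⊕ Fin G) ℚ)
    (E₂ : Matrix (Fin G ⊕ Fin G) (Fin a₂ ⊕ Fin a₂) ℚ)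
    (F₂ : Matrix (Fin a₂ ⊕ Fin a₂) (Fin G ⊕ Fin G) ℚ), Fac Z Z₁ E₁ F₁ → Fac Z Z₂ E₂ F₂ →
    PM Z₁ → PM Z₂ → IsSimpleAV Z₁ → IsSimpleAV Z₂ → 0 < a₁ → 0 < a₂ →
    ∀ φ₁ φ₂, MaxM Z₁ φ₁ → MaxM Z₂ φ₂ → CMM φ₁ → CMM φ₂ → SepM Z₁ Z₂ φ₁ φ₂

/-- The separation property. -/
theorem sepP_of (h : PM Z) (hg : SepF Z) {U U' : Submodule ℂ (Fin G ⊕ Fin G → ℂ)}
    (hU : IrS (LZ Z) U) (hU' : IrS (LZ Z) U') (hn : 2 ≤ finrank ℂ U)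
    (h1 : NS Z U ∨ MF Z U) (h2 : NS Z U' ∨ MF Z U') : SepP Z U U' := by
  intro hfr hyp
  rcases h1 with h1 | ⟨a₁, Z₁, E₁, F₁, hf₁, p₁, s₁, b₁, φ₁, m₁, c₁, z₁, r₁, d₁⟩
  · left
    intro σ
    rcases hyp σ with h3 | ⟨h3, -⟩
    · exact h3
    · exfalso
      rcases h3 with h3 | h3
      · exact (h1 σ).1 h3
      · exact (h1 σ).2 h3
  rcases h2 with h2 | ⟨a₂, Z₂, E₂, F₂, hf₂, p₂, s₂, b₂, φ₂, m₂, c₂, z₂, r₂, d₂⟩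
  · left
    intro σ
    rcases hyp σ with h3 | ⟨-, h3⟩
    · exact h3
    · exfalso
      rcases h3 with h3 | h3
      · exact (h2 σ).1 h3
      · exact (h2 σ).2 h3
  have hsum : ∀ σ : ℂ ≃+* ℂ, pd Z (cjS σ U) + qd Z (cjS σ U) = finrank ℂ U := by
    intro σ
    rw [pd_add_qd h (stab_cj hU.2.1 σ), finrank_cjS]
  have hsum' : ∀ σ : ℂ ≃+* ℂ, pd Z (cjS σ U') + qd Z (cjS σ U') = finrank ℂ U := by
    intro σ
    rw [pd_add_qd h (stab_cj hU'.2.1 σ), finrank_cjS, hfr]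
  have key := hg a₁ a₂ Z₁ Z₂ E₁ F₁ E₂ F₂ hf₁ hf₂ p₁ p₂ s₁ s₂ b₁ b₂ φ₁ φ₂ m₁ m₂ c₁ c₂ z₁ r₁ z₂ r₂
    (finrank ℂ U) hn
  have e₁ := d₁ (RingEquiv.refl ℂ)
  have e₂ := d₂ (RingEquiv.refl ℂ)
  rw [RingEquiv.refl_apply] at e₁ e₂
  specialize key (by rw [← e₁.1, ← e₁.2]; exact hsum _) (by rw [← e₂.1, ← e₂.2]; exact hsum' _)
    (fun σ => ?_)
  · rw [← (d₁ σ).1, ← (d₂ σ).1]
    have h3 := hsum σ
    have h4 := hsum' σ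
    rcases hyp σ with h5 | ⟨h5, h6⟩
    · exact Or.inl h5
    · right
      constructor <;> omega
  · rcases key with key | ⟨k1, k2⟩
    · left
      intro σ
      rw [(d₁ σ).1, (d₂ σ).1]
      exact key σ
    · right
      refine ⟨k1, fun σ => ?_⟩
      rw [(d₁ σ).1, (d₂ σ).1]
      exact k2 σ

/-- The conclusions of the classification. -/
def ClassT {g : ℕ} (Z : Matrix (Fin g) (Fin g) ℂ) : Prop :=
  ∀ U, IrS (LZ Z) U → (2 ≤ finrank ℂ U → NS Z U ∨ ME Z U) ∧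
    ((SDu Z U ∧ 2 ≤ finrank ℂ U) ∨ PD (LZ Z) U)

theorem classT_of (h : PM Z) (hc : ClassZ Z) : ClassT Z := by
  intro U hU
  obtain ⟨c1, c2⟩ := hc U hU
  exact ⟨fun hn => Or.inl (ns_of_nonscalar h hU (c1 hn).2), c2⟩

/-- The classification: coprime multiplicities at some place. -/
theorem class_copT (h : PM Z) (hs : IsSimpleAV Z) (hg : 0 < G) (hc : CopM4 Z) : ClassT Z := by
  obtain ⟨φ, hφ, hcm, -⟩ := hc
  obtain ⟨s1, s2, s3⟩ := Pool.Agent.Y261.P.jspec G Z h hs hg φ hφ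
  intro U hU
  obtain ⟨z, hz, T, hT, hi, hm⟩ := s2 U hU
  refine ⟨fun _ => Or.inr ⟨φ, hφ, hcm, z, hz, fun σ => ⟨?_, ?_⟩⟩,
    Or.inr (Pool.Agent.Y4.P.pd_of_map hT hi (by rw [hm]; exact s3 hcm z hz))⟩
  · rw [← pd_cj_map hT hi hU.2.1, hm, Pool.Agent.Y4.P.cjS_eigM]
  · rw [← qd_cj_map h hT hi hU.2.1, hm, Pool.Agent.Y4.P.cjS_eigM]

/-- The classification of the irreducible submodules. -/
theorem locT (hT : JTransfer) (hT2 : JTransfer2) (h : PM Z)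
    (hg : ∀ (a : ℕ) (Z' : Matrix (Fin a) (Fin a) ℂ) (E : Matrix (Fin G ⊕ Fin G) (Fin a ⊕ Fin a) ℚ)
      (F : Matrix (Fin a ⊕ Fin a) (Fin G ⊕ Fin G) ℚ), Fac Z Z' E F → PM Z' → IsSimpleAV Z' →
      0 < a → ClassT Z')
    (hU : IrS (LZ Z) U) : (2 ≤ finrank ℂ U → NS Z U ∨ MF Z U) ∧
      ((SDu Z U ∧ 2 ≤ finrank ℂ U) ∨ PD (LZ Z) U) := by
  obtain ⟨a, Z', E, F, hf, h', hs, ha, h0⟩ := exists_fac h hU.1
  have hi := hf.inj hU h0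
  have hU' := hf.irr hU h0
  have hfr := finrank_ml hi
  obtain ⟨-, -, -, t4⟩ := hT G a Z Z' E F hf h h' U hU hi
  obtain ⟨c1, c2⟩ := hg a Z' E F hf h' hs ha (U.map (ml F)) hU'
  rw [hfr] at c1 c2
  refine ⟨fun hn => ?_, ?_⟩
  · rcases c1 hn with h2 | ⟨φ, hφ, hcm, z, hz, hpq⟩
    · left
      intro τ
      have h3 := pd_fac_cj hf hi hU.2.1 τ
      rw [← h3.1, ← h3.2]
      exact h2 τ
    · right
      refine ⟨a, Z', E, F, hf, h', hs, ha, φ, hφ, hcm, z, hz, fun τ => ?_⟩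
      have h3 := pd_fac_cj hf hi hU.2.1 τ
      rw [← h3.1, ← h3.2]
      exact hpq τ
  · rcases c2 with ⟨h1, h2⟩ | h1
    · exact Or.inl ⟨t4 h1, h2⟩
    · exact Or.inr (hT2 G a Z Z' E F hf h h' U hU hi h1)

end two

end

end Pool.Agent.Y224.TS.PQ
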