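import Mathlib
import Pool.Agent.Y224.TS.T8
import Pool.Agent.Y224.TS.V1
import Pool.Agent.Y4.T.B2

/-!
# Twists for the second Lie algebra

The argument of `Pool.Agent.Y4.P.Twi` (by helper4) for the Lie algebra generated by a set of
involutions.
-/

set_option linter.unusedSectionVars false

namespace Pool.Agent.Y224.TS

open Matrix Module Pool.Agent.W437.HC Pool.Agent.W437.HD Pool.Agent.W548.Odd Pool.Agent.W522.U
open Pool.Agent.H204R3.SP Pool.Agent.H204R3.GP Pool.Agent.Y90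
open Pool.Agent.W437.HP (cK cK_mul cK_one)
open PQ (SepP)

noncomputable section

variable {G : ℕ} {Z : Matrix (Fin G) (Fin G) ℂ}
  {S : Set (Matrix (Fin G ⊕ Fin G) (Fin G ⊕ Fin G) ℂ)}
  {U U' : Submodule ℂ (Fin G ⊕ Fin G → ℂ)}

namespace TD

variable (h : TD Z S) (hZ : PM Z)
include h hZ

/-- An involution which is a scalar on a submodule. -/
theorem scalar_cases (hU : IrS (LZ Z) U) {D : Matrix (Fin G ⊕ Fin G) (Fin G ⊕ Fin G) ℂ}
    (hD : D ∈ S) {σ : ℂ ≃+* ℂ}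
    (hσ : ∀ P : Matrix (Fin G ⊕ Fin G) (Fin G ⊕ Fin G) ℂ,
      (∀ X ∈ LZ Z, P * X = X * P) → (P * D).trace = (P * DS Z σ).trace) {c : ℂ}
    (hc : ∀ u ∈ U, D *ᵥ u = c • u) :
    (c = 1 ∧ pd Z (cjS σ.symm U) = finrank ℂ U ∧ qd Z (cjS σ.symm U) = 0) ∨
      (c = -1 ∧ pd Z (cjS σ.symm U) = 0 ∧ qd Z (cjS σ.symm U) = finrank ℂ U) := by
  obtain ⟨v, hv, hv0⟩ := Submodule.exists_mem_ne_zero_of_ne_bot hU.1
  have hc1 : c = 1 ∨ c = -1 := by
    have h2 : D *ᵥ (D *ᵥ v) = v := by rw [mulVec_mulVec, h.sq D hD, one_mulVec]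
    rw [hc v hv, mulVec_smul, hc v hv, smul_smul] at h2
    have h3 : (c * c - 1) • v = 0 := by rw [sub_smul, h2, one_smul, sub_self]
    have h4 := (smul_eq_zero.1 h3).resolve_right hv0
    have h5 : (c - 1) * (c + 1) = 0 := by linear_combination h4
    rcases mul_eq_zero.1 h5 with h6 | h6
    · exact Or.inl (sub_eq_zero.1 h6)
    · exact Or.inr (eq_neg_of_add_eq_zero_left h6)
  obtain ⟨d1, d2⟩ := h.dims hZ hD hσ hU.2.1
  have htop : es (ph (Fin G ⊕ Fin G) D) U c = U := by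
    apply le_antisymm inf_le_left
    intro u hu
    exact mem_es.2 ⟨hu, hc u hu⟩
  have hbot : ∀ e : ℂ, e ≠ c → es (ph (Fin G ⊕ Fin G) D) U e = ⊥ := by
    intro e he
    rw [eq_bot_iff]
    intro x hx
    obtain ⟨h1, h2⟩ := mem_es.1 hx
    have h3 : e • x = c • x := by
      rw [← hc x h1]
      exact h2.symm
    have h4 : (e - c) • x = 0 := by rw [sub_smul, h3, sub_self]
    rw [Submodule.mem_bot]
    exact (smul_eq_zero.1 h4).resolve_left (sub_ne_zero.2 he)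
  rcases hc1 with rfl | rfl
  · left
    rw [htop] at d1
    rw [hbot (-1) (by norm_num), finrank_bot] at d2
    exact ⟨rfl, d1.symm, d2.symm⟩
  · right
    rw [htop] at d2
    rw [hbot 1 (by norm_num), finrank_bot] at d1
    exact ⟨rfl, d1.symm, d2.symm⟩

/-- The multiplicities of isomorphic submodules. -/
theorem pd_of_comm {T : (Fin G ⊕ Fin G → ℂ) →ₗ[ℂ] (Fin G ⊕ Fin G → ℂ)} (hU : Stab (LZ Z) U)
    (hU' : Stab (LZ Z) U') {D : Matrix (Fin G ⊕ Fin G) (Fin G ⊕ Fin G) ℂ}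
    (hD : D ∈ S) {σ : ℂ ≃+* ℂ}
    (hσ : ∀ P : Matrix (Fin G ⊕ Fin G) (Fin G ⊕ Fin G) ℂ,
      (∀ X ∈ LZ Z, P * X = X * P) → (P * D).trace = (P * DS Z σ).trace)
    (hi : ∀ u ∈ U, T u = 0 → u = 0) (hm : U.map T = U')
    (hT : ∀ u ∈ U, T (D *ᵥ u) = D *ᵥ T u) :
    pd Z (cjS σ.symm U') = pd Z (cjS σ.symm U) := by
  rw [← (h.dims hZ hD hσ hU).1, ← (h.dims hZ hD hσ hU').1]
  have hDU : ∀ u ∈ U, D *ᵥ u ∈ U := fun u hu => (h.stab hZ).2 hU D (LT_gen hD) u hu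
  have h9 : es (ph (Fin G ⊕ Fin G) D) U' 1 = (es (ph (Fin G ⊕ Fin G) D) U 1).map T := by
    rw [← hm]
    ext v
    constructor
    · intro hv
      obtain ⟨⟨u, hu, rfl⟩, hv'⟩ := mem_es.1 hv
      refine ⟨u, mem_es.2 ⟨hu, ?_⟩, rfl⟩
      change D *ᵥ u = (1 : ℂ) • u
      have hv'' : D *ᵥ T u = (1 : ℂ) • T u := hv'
      rw [← sub_eq_zero]
      refine hi _ (U.sub_mem (hDU u hu) (U.smul_mem _ hu)) ?_
      rw [map_sub, hT u hu, hv'', map_smul, sub_self]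
    · rintro ⟨u, hu, rfl⟩
      obtain ⟨h1, h2⟩ := mem_es.1 hu
      refine mem_es.2 ⟨⟨u, h1, rfl⟩, ?_⟩
      have h2' : D *ᵥ u = (1 : ℂ) • u := h2
      change D *ᵥ T u = (1 : ℂ) • T u
      rw [← hT u h1, h2', map_smul]
  rw [h9]
  exact (finrank_map_of_inj (U := es (ph (Fin G ⊕ Fin G) D) U 1) (T := T)
    fun u hu => hi u (mem_es.1 hu).1)

/-- Twisted homomorphisms and the involutions. -/
theorem tw_split (hU : IrS (LZ Z) U) (hU' : IrS (LZ Z) U')
    (ψ : Gam (GG (LT S)) → ℂ) (hT : Tw (RG (GG (LT S))) ψ U U') :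
    ∃ T : (Fin G ⊕ Fin G → ℂ) →ₗ[ℂ] (Fin G ⊕ Fin G → ℂ), (∀ u ∈ U, T u ∈ U') ∧
      (∃ u ∈ U, T u ≠ 0) ∧ (∀ u ∈ U, T u = 0 → u = 0) ∧ U.map T = U' ∧
      ∀ D ∈ S, (∀ u ∈ U, T (D *ᵥ u) = D *ᵥ T u) ∨
        ∃ c c' : ℂ, (∀ u ∈ U, D *ᵥ u = c • u) ∧ ∀ u ∈ U', D *ᵥ u = c' • u := by
  obtain ⟨Δ, hΔ, T, hT1, hT0, hT2⟩ := hT
  obtain rfl := fi_top Δ hΔ
  have hSI := (h.si hZ).2 hU
  have hUT : IrS (LT S) U := (h.irS hZ).2 hU
  have hUT' : IrS (LT S) U' := (h.irS hZ).2 hU'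
  have hinj := tw_inj hSI hΔ hT0 hT2
  have hst : Stab (LT S) (U.map T) := by
    refine stab_GG.1 ((stable_iff h.genI _).1 fun g => ?_)
    rintro _ ⟨u, hu, rfl⟩
    have h1 := hT2 g (Subgroup.mem_top _) u hu
    have h2 : ψ g ≠ 0 := tw_ne hSI hΔ hT0 hT2 (Subgroup.mem_top _) (gz_stable h.genI hUT.2.1 g)
    refine ⟨(ψ g)⁻¹ • RG (GG (LT S)) g u, U.smul_mem _ (gz_stable h.genI hUT.2.1 g u hu), ?_⟩
    rw [map_smul, h1, smul_smul, inv_mul_cancel₀ h2, one_smul]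
  have hmap : U.map T = U' := by
    have h1 : U.map T ≤ U' := by
      rintro _ ⟨u, hu, rfl⟩
      exact hT1 u hu
    rcases hUT'.2.2 _ h1 hst with h2 | h2
    · exfalso
      obtain ⟨u, hu, hu0⟩ := hT0
      apply hu0
      have h3 : T u ∈ U.map T := ⟨u, hu, rfl⟩
      rw [h2] at h3
      exact (Submodule.mem_bot ℂ).1 h3
    · exact h2
  refine ⟨T, hT1, hT0, hinj, hmap, fun D hDS => ?_⟩
  have hDD : ph (Fin G ⊕ Fin G) D * ph (Fin G ⊕ Fin G) D = 1 := by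
    rw [← map_mul, h.sq D hDS, map_one]
  have hDm : ph (Fin G ⊕ Fin G) D ∈ GG (LT S) := mem_GG.2 (LT_gen hDS)
  have h1 : ∀ u ∈ U, T (torE (ph _ D) two u) =
      ψ (gt hDD hDm two) • torE (ph _ D) two (T u) := fun u hu =>
    hT2 (gt hDD hDm two) (Subgroup.mem_top _) u hu
  have h2 : ψ (gt hDD hDm two) ≠ 0 := tw_ne hSI hΔ hT0 hT2 (Subgroup.mem_top _)
    (gz_stable h.genI hUT.2.1 (gt hDD hDm two))
  by_cases hns : ∀ c : ℂ, ∃ u ∈ U, D *ᵥ u ≠ c • u
  · exact Or.inl (twist_free hinj hDD (hUT.2.1 _ (LT_gen hDS)) hns _ h1 h2)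
  · right
    push Not at hns
    obtain ⟨c, hc⟩ := hns
    have h3 : ∀ u ∈ U, ((5 / 4 + 3 / 4 * c) • T u : Fin G ⊕ Fin G → ℂ) =
        ψ (gt hDD hDm two) • ((5 / 4 : ℂ) • T u + (3 / 4 : ℂ) • D *ᵥ T u) := by
      intro u hu
      have h4 := h1 u hu
      rw [torE_two, torE_two, ph_apply', ph_apply', hc u hu, map_add, map_smul, map_smul,
        map_smul, smul_smul, ← add_smul] at h4
      exact h4
    refine ⟨c, (4 / 3) * ((ψ (gt hDD hDm two))⁻¹ * (5 / 4 + 3 / 4 * c) - 5 / 4), hc, ?_⟩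
    intro v hv
    rw [← hmap] at hv
    obtain ⟨u, hu, rfl⟩ := hv
    have h4 := h3 u hu
    have h5 : (ψ (gt hDD hDm two))⁻¹ • ((5 / 4 + 3 / 4 * c) • T u) =
        (5 / 4 : ℂ) • T u + (3 / 4 : ℂ) • D *ᵥ T u := by
      rw [h4, smul_smul, inv_mul_cancel₀ h2, one_smul]
    have h6 : D *ᵥ T u = (4 / 3 : ℂ) • ((ψ (gt hDD hDm two))⁻¹ • ((5 / 4 + 3 / 4 * c) • T u) -
        (5 / 4 : ℂ) • T u) := by
      rw [h5]
      module
    rw [h6]
    module

/-- Twists of submodules with the same multiplicities are trivial. -/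
theorem tw_one (hU : IrS (LZ Z) U) (hU' : IrS (LZ Z) U')
    (hpd : ∀ σ : ℂ ≃+* ℂ, pd Z (cjS σ U) = pd Z (cjS σ U'))
    {T : (Fin G ⊕ Fin G → ℂ) →ₗ[ℂ] (Fin G ⊕ Fin G → ℂ)} (hT1 : ∀ u ∈ U, T u ∈ U')
    (hT0 : ∃ u ∈ U, T u ≠ 0) (hfr : finrank ℂ U' = finrank ℂ U)
    (hdich : ∀ D ∈ S, (∀ u ∈ U, T (D *ᵥ u) = D *ᵥ T u) ∨
      ∃ c c' : ℂ, (∀ u ∈ U, D *ᵥ u = c • u) ∧ ∀ u ∈ U', D *ᵥ u = c' • u) :
    Tw (RG (GG (LT S))) (fun _ => 1) U U' := by
  have hUT : IrS (LT S) U := (h.irS hZ).2 hU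
  have hpos : 0 < finrank ℂ U := by
    rw [Nat.pos_iff_ne_zero, ne_eq, Submodule.finrank_eq_zero]
    exact hU.1
  have hD : ∀ D ∈ S, ∀ u ∈ U, T (D *ᵥ u) = D *ᵥ T u := by
    intro D hDS
    rcases hdich D hDS with h1 | ⟨c, c', h1, h2⟩
    · exact h1
    · obtain ⟨σ, hσ⟩ := h.tr D hDS
      have h3 := h.scalar_cases hZ hU hDS hσ h1
      have h4 := h.scalar_cases hZ hU' hDS hσ h2
      have h5 := hpd σ.symm
      have h6 : c = c' := by
        rcases h3 with ⟨rfl, h7, h8⟩ | ⟨rfl, h7, h8⟩ <;>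
          rcases h4 with ⟨rfl, h9, h10⟩ | ⟨rfl, h9, h10⟩
        · rfl
        · omega
        · omega
        · rfl
      intro u hu
      rw [h1 u hu, map_smul, h2 _ (hT1 u hu), h6]
  let C : Submodule ℂ (Matrix (Fin G ⊕ Fin G) (Fin G ⊕ Fin G) ℂ) :=
    { carrier := {X | ∀ u ∈ U, X *ᵥ u ∈ U ∧ T (X *ᵥ u) = X *ᵥ T u}
      add_mem' := by
        intro X Y hX hY u hu
        obtain ⟨x1, x2⟩ := hX u hu
        obtain ⟨y1, y2⟩ := hY u hu
        rw [add_mulVec, add_mulVec, map_add, x2, y2]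
        exact ⟨U.add_mem x1 y1, rfl⟩
      zero_mem' := by
        intro u hu
        rw [zero_mulVec, zero_mulVec, map_zero]
        exact ⟨U.zero_mem, rfl⟩
      smul_mem' := by
        intro c X hX u hu
        obtain ⟨x1, x2⟩ := hX u hu
        rw [smul_mulVec, smul_mulVec, map_smul, x2]
        exact ⟨U.smul_mem c x1, rfl⟩ }
  have hC : LT S ≤ C := by
    refine LT_le (fun D hDS u hu => ⟨hUT.2.1 _ (LT_gen hDS) u hu, hD D hDS u hu⟩)
      (fun A hA B hB u hu => ?_)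
    obtain ⟨a1, a2⟩ := hA u hu
    obtain ⟨b1, b2⟩ := hB u hu
    obtain ⟨c1, c2⟩ := hA _ b1
    obtain ⟨d1, d2⟩ := hB _ a1
    rw [sub_mulVec, sub_mulVec, ← mulVec_mulVec, ← mulVec_mulVec, ← mulVec_mulVec,
      ← mulVec_mulVec, map_sub, c2, d2, a2, b2]
    exact ⟨U.sub_mem c1 d1, rfl⟩
  refine ⟨⊤, inferInstance, T, hT1, hT0, fun g _ u hu => ?_⟩
  rw [one_smul]
  exact (gz_equiv h.genI hUT.2.1 T).2 (fun X hX u hu => (hC hX u hu).2) g u hu

/-- Twists of submodules of dimension two with complementary multiplicities are dualities. -/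
theorem tw_du (hU : IrS (LZ Z) U) (hU' : IrS (LZ Z) U') (hn : finrank ℂ U = 2)
    (hpd : ∀ σ : ℂ ≃+* ℂ, pd Z (cjS σ U) + pd Z (cjS σ U') = 2)
    {T : (Fin G ⊕ Fin G → ℂ) →ₗ[ℂ] (Fin G ⊕ Fin G → ℂ)} (hT1 : ∀ u ∈ U, T u ∈ U')
    (hinj : ∀ u ∈ U, T u = 0 → u = 0) (hmap : U.map T = U') (hfr : finrank ℂ U' = finrank ℂ U)
    (hdich : ∀ D ∈ S, (∀ u ∈ U, T (D *ᵥ u) = D *ᵥ T u) ∨
      ∃ c c' : ℂ, (∀ u ∈ U, D *ᵥ u = c • u) ∧ ∀ u ∈ U', D *ᵥ u = c' • u) :
    Du (RG (GG (LT S))) 1 U U' := by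
  have hUT : IrS (LT S) U := (h.irS hZ).2 hU
  have hUT' : IrS (LT S) U' := (h.irS hZ).2 hU'
  obtain ⟨p, hp⟩ := exists_pr U'
  have hn' : finrank ℂ U' = 2 := hfr.trans hn
  let f := finBasisOfFinrankEq ℂ U' hn'
  let b : (Fin G ⊕ Fin G → ℂ) →ₗ[ℂ] (Fin G ⊕ Fin G → ℂ) →ₗ[ℂ] ℂ :=
    (Pool.Agent.Y4.T.dt f).compl₁₂ (p.comp T) p
  have hb : ∀ u v, b u v = Pool.Agent.Y4.T.dt f (p (T u)) (p v) := fun u v => rfl
  have hpu : ∀ v (hv : v ∈ U'), p v = ⟨v, hv⟩ := fun v hv => hp ⟨v, hv⟩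
  rw [gz_du h.genI hUT.2.1 hUT'.2.1]
  refine ⟨b, ?_, ?_⟩
  · obtain ⟨u, hu, hu0⟩ := Submodule.exists_mem_ne_zero_of_ne_bot hU.1
    have h1 : p (T u) ≠ 0 := by
      rw [hpu _ (hT1 u hu)]
      intro h2
      exact hu0 (hinj u hu (congrArg Subtype.val h2))
    have h2 : Pool.Agent.Y4.T.dt f (p (T u)) ≠ 0 := fun h3 =>
      h1 (Pool.Agent.Y4.T.dt_inj f (h3.trans (map_zero _).symm))
    obtain ⟨w, hw⟩ : ∃ w, Pool.Agent.Y4.T.dt f (p (T u)) w ≠ 0 := by
      by_contra hcon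
      push Not at hcon
      exact h2 (LinearMap.ext hcon)
    refine ⟨u, hu, w, w.2, ?_⟩
    rw [hb, hp]
    exact hw
  let C : Submodule ℂ (Matrix (Fin G ⊕ Fin G) (Fin G ⊕ Fin G) ℂ) :=
    { carrier := {X | (∀ u ∈ U, X *ᵥ u ∈ U) ∧ (∀ u ∈ U', X *ᵥ u ∈ U') ∧
        ∀ u ∈ U, ∀ v ∈ U', b (X *ᵥ u) v + b u (X *ᵥ v) = 0}
      add_mem' := by
        rintro X Y ⟨x1, x2, x3⟩ ⟨y1, y2, y3⟩
        refine ⟨fun u hu => ?_, fun u hu => ?_, fun u hu v hv => ?_⟩
        · rw [add_mulVec]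
          exact U.add_mem (x1 u hu) (y1 u hu)
        · rw [add_mulVec]
          exact U'.add_mem (x2 u hu) (y2 u hu)
        · rw [add_mulVec, add_mulVec, map_add, map_add, LinearMap.add_apply]
          linear_combination x3 u hu v hv + y3 u hu v hv
      zero_mem' := by
        refine ⟨fun u hu => ?_, fun u hu => ?_, fun u hu v hv => ?_⟩
        · rw [zero_mulVec]
          exact U.zero_mem
        · rw [zero_mulVec]
          exact U'.zero_mem
        · rw [zero_mulVec, zero_mulVec, map_zero, map_zero, LinearMap.zero_apply, add_zero]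
      smul_mem' := by
        rintro c X ⟨x1, x2, x3⟩
        refine ⟨fun u hu => ?_, fun u hu => ?_, fun u hu v hv => ?_⟩
        · rw [smul_mulVec]
          exact U.smul_mem c (x1 u hu)
        · rw [smul_mulVec]
          exact U'.smul_mem c (x2 u hu)
        · rw [smul_mulVec, smul_mulVec, map_smul, map_smul, LinearMap.smul_apply, smul_eq_mul,
            smul_eq_mul]
          linear_combination c * x3 u hu v hv }
  have hC : LT S ≤ C := by
    refine LT_le (fun D hDS => ⟨hUT.2.1 _ (LT_gen hDS), hUT'.2.1 _ (LT_gen hDS),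
      fun u hu v hv => ?_⟩) (fun A hA B hB => ?_)
    · obtain ⟨σ, hσ⟩ := h.tr D hDS
      rcases hdich D hDS with h1 | ⟨c, c', h1, h2⟩
      · -- the trace vanishes
        let X : Module.End ℂ U' := (mulVecLin D).restrict (p := U') (q := U')
          (hUT'.2.1 _ (LT_gen hDS))
        have hX : ∀ w : U', ((X w : U') : Fin G ⊕ Fin G → ℂ) = D *ᵥ w := fun w => rfl
        have hpX : ∀ w : U', p (D *ᵥ (w : Fin G ⊕ Fin G → ℂ)) = X w := fun w => by
          rw [← hX, hp]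
        have key : ∀ c : ℂ, es (ph (Fin G ⊕ Fin G) D) U' c ≠ ⊥ →
            ∃ w : U', w ≠ 0 ∧ X w = c • w := by
          intro c hne
          obtain ⟨x, hx, hx0⟩ := Submodule.exists_mem_ne_zero_of_ne_bot hne
          obtain ⟨h3, h4⟩ := mem_es.1 hx
          refine ⟨⟨x, h3⟩, fun h0 => hx0 (congrArg Subtype.val h0), Subtype.ext ?_⟩
          rw [hX]
          exact h4
        have hpU : pd Z (cjS σ.symm U') = pd Z (cjS σ.symm U) :=
          h.pd_of_comm hZ hU.2.1 hU'.2.1 hDS hσ hinj hmap h1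
        have h5 := hpd σ.symm
        obtain ⟨d1, d2⟩ := h.dims hZ hDS hσ hU'.2.1
        have h6 := pd_add_qd hZ (hU'.cj gal_LZ σ.symm).2.1
        rw [finrank_cjS, hn'] at h6
        obtain ⟨x, hx0, hx⟩ := key 1 (fun h0 => by
          rw [h0, finrank_bot] at d1
          omega)
        obtain ⟨y, hy0, hy⟩ := key (-1) (fun h0 => by
          rw [h0, finrank_bot] at d2
          omega)
        have hxy : Pool.Agent.Y4.T.dt f x y ≠ 0 := by
          intro h0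
          have h7 : Pool.Agent.Y4.T.dt f y x = 0 := by
            have h8 : Pool.Agent.Y4.T.dt f y x = -Pool.Agent.Y4.T.dt f x y := by
              rw [Pool.Agent.Y4.T.dt_apply, Pool.Agent.Y4.T.dt_apply]
              ring
            rw [h8, h0, neg_zero]
          obtain ⟨c, hc⟩ := Pool.Agent.Y4.T.dt_of_ker f hx0 h7
          have h8 : y = c • x := by
            apply Pool.Agent.Y4.T.dt_inj f
            rw [map_smul, hc]
          have h9 : X y = y := by rw [h8, map_smul, hx, one_smul]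
          rw [hy] at h9
          have h10 : (2 : ℂ) • y = 0 := by
            have h11 : (2 : ℂ) • y = y - (-1 : ℂ) • y := by module
            rw [h11, h9, sub_self]
          exact hy0 ((smul_eq_zero.1 h10).resolve_left two_ne_zero)
        have htr : LinearMap.trace ℂ U' X = 0 := by
          have h7 := Pool.Agent.Y4.T.dt_tr f X x y
          rw [hx, hy, map_smul, map_smul, LinearMap.smul_apply, smul_eq_mul, smul_eq_mul] at h7
          have h8 : LinearMap.trace ℂ U' X * Pool.Agent.Y4.T.dt f x y = 0 := by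
            linear_combination -h7
          exact (mul_eq_zero.1 h8).resolve_right hxy
        rw [hb, hb, h1 u hu]
        have h7 : p (D *ᵥ T u) = X (p (T u)) := by
          rw [hpu _ (hT1 u hu)]
          exact hpX ⟨T u, hT1 u hu⟩
        have h8 : p (D *ᵥ v) = X (p v) := by
          rw [hpu _ hv]
          exact hpX ⟨v, hv⟩
        rw [h7, h8, Pool.Agent.Y4.T.dt_tr, htr, zero_mul]
      · have h3 := h.scalar_cases hZ hU hDS hσ h1
        have h4 := h.scalar_cases hZ hU' hDS hσ h2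
        have h5 := hpd σ.symm
        rw [hn] at h3
        rw [hn'] at h4
        have h6 : c + c' = 0 := by
          rcases h3 with ⟨rfl, h7, h8⟩ | ⟨rfl, h7, h8⟩ <;>
            rcases h4 with ⟨rfl, h9, h10⟩ | ⟨rfl, h9, h10⟩
          · omega
          · norm_num
          · norm_num
          · omega
        rw [h1 u hu, h2 v hv, map_smul, map_smul, LinearMap.smul_apply, smul_eq_mul, smul_eq_mul]
        linear_combination h6 * b u v
    · obtain ⟨a1, a2, a3⟩ := hA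
      obtain ⟨b1, b2, b3⟩ := hB
      refine ⟨fun u hu => ?_, fun u hu => ?_, fun u hu v hv => ?_⟩
      · rw [sub_mulVec, ← mulVec_mulVec, ← mulVec_mulVec]
        exact U.sub_mem (a1 _ (b1 u hu)) (b1 _ (a1 u hu))
      · rw [sub_mulVec, ← mulVec_mulVec, ← mulVec_mulVec]
        exact U'.sub_mem (a2 _ (b2 u hu)) (b2 _ (a2 u hu))
      · rw [sub_mulVec, sub_mulVec, ← mulVec_mulVec, ← mulVec_mulVec, ← mulVec_mulVec,
          ← mulVec_mulVec, map_sub, map_sub, LinearMap.sub_apply]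
        have e1 := a3 _ (b1 u hu) v hv
        have e2 := b3 _ (a1 u hu) v hv
        have e3 := a3 u hu _ (b2 v hv)
        have e4 := b3 u hu _ (a2 v hv)
        linear_combination e1 - e2 + e3 - e4
  exact fun X hX => (hC hX).2.2

/-- The twists are trivial or dualities in dimension two, if the separation property holds. -/
theorem twist_sep (hU : IrS (LZ Z) U) (hU' : IrS (LZ Z) U') (hsep : SepP Z U U')
    (ψ : Gam (GG (LT S)) → ℂ) (hT : Tw (RG (GG (LT S))) ψ U U') :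
    Tw (RG (GG (LT S))) (fun _ => 1) U U' ∨
      (finrank ℂ U = 2 ∧ Du (RG (GG (LT S))) 1 U U') := by
  obtain ⟨T, hT1, hT0, hinj, hmap, hdich⟩ := h.tw_split hZ hU hU' ψ hT
  have hfr : finrank ℂ U' = finrank ℂ U := by rw [← hmap, finrank_map_of_inj hinj]
  rcases hsep hfr (fun σ => by
    obtain ⟨D, hDS, hσ⟩ := h.ex σ.symm
    rcases hdich D hDS with h1 | ⟨c, c', h1, h2⟩
    · left
      exact (h.pd_of_comm hZ hU.2.1 hU'.2.1 hDS hσ hinj hmap h1).symm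
    · right
      have h3 := h.scalar_cases hZ hU hDS hσ h1
      have h4 := h.scalar_cases hZ hU' hDS hσ h2
      change (pd Z (cjS σ U) = 0 ∨ qd Z (cjS σ U) = 0) ∧
        (pd Z (cjS σ U') = 0 ∨ qd Z (cjS σ U') = 0)
      constructor
      · rcases h3 with ⟨-, -, h5⟩ | ⟨-, h5, -⟩
        · exact Or.inr h5
        · exact Or.inl h5
      · rcases h4 with ⟨-, -, h5⟩ | ⟨-, h5, -⟩
        · exact Or.inr h5
        · exact Or.inl h5) with h1 | ⟨h1, h2⟩
  · exact Or.inl (h.tw_one hZ hU hU' h1 hT1 hT0 hfr hdich)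
  · exact Or.inr ⟨h1, h.tw_du hZ hU hU' h1 h2 hT1 hinj hmap hfr hdich⟩

end TD

end

end Pool.Agent.Y224.TS
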