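import Mathlib
import Pool.Agent.Y4.G.Cas
import Pool.Agent.W516.Cartan
import Pool.Agent.W548.Odd.Basic

/-!
# Irreducible Lie algebras with an element which has two eigenvalues

Without positivity: the trace form, Schur's lemma for the eigenspaces, Casimir elements.
-/

set_option linter.unusedSectionVars false

namespace Pool.Agent.Y224.TS.Cop

open Module Pool.Agent.W548.Odd
open Pool.Agent.Y4.G (exists_dual finrank_eq_one_of finrank_le_of_maps trace_idemOp)

noncomputable section

variable {V : Type} [AddCommGroup V] [Module ℂ V] [FiniteDimensional ℂ V]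

/-- Eigenvectors in the range. -/
theorem exists_eig_range {N e : End ℂ V} (he : e ≠ 0)
    (h : ∀ v ∈ LinearMap.range e, N v ∈ LinearMap.range e) :
    ∃ (μ : ℂ) (v : V), v ∈ LinearMap.range e ∧ v ≠ 0 ∧ N v = μ • v := by
  have hU : LinearMap.range e ≠ ⊥ := by
    intro h1
    exact he (LinearMap.range_eq_bot.1 h1)
  have hnt : Nontrivial (LinearMap.range e) := Submodule.nontrivial_iff_ne_bot.2 hU
  let f : LinearMap.range e →ₗ[ℂ] LinearMap.range e := N.restrict h
  obtain ⟨μ, hμ⟩ := Module.End.exists_eigenvalue f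
  obtain ⟨v, hv⟩ := hμ.exists_hasEigenvector
  refine ⟨μ, v, v.2, fun h0 => hv.2 (Subtype.ext h0), ?_⟩
  have h1 := hv.apply_eq_smul
  exact congrArg Subtype.val h1

/-- A product has smaller rank if a vector in the range of the second factor is killed. -/
theorem rk_mul_lt {N e : End ℂ V} {v : V} (hv : v ∈ LinearMap.range e) (hv0 : v ≠ 0)
    (h : N v = 0) : rk (N * e) < rk e := by
  let f : LinearMap.range e →ₗ[ℂ] V := N.domRestrict (LinearMap.range e)
  have h1 : LinearMap.range (N * e) = LinearMap.range f := by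
    ext x
    constructor
    · rintro ⟨y, rfl⟩
      exact ⟨⟨e y, ⟨y, rfl⟩⟩, rfl⟩
    · rintro ⟨⟨_, y, rfl⟩, rfl⟩
      exact ⟨y, rfl⟩
  have h2 := LinearMap.finrank_range_add_finrank_ker f
  have h3 : 0 < finrank ℂ (LinearMap.ker f) := by
    have hmem : (⟨v, hv⟩ : LinearMap.range e) ∈ LinearMap.ker f := by
      rw [LinearMap.mem_ker]
      exact h
    by_contra h0
    have h3 : finrank ℂ (LinearMap.ker f) = 0 := by omega
    rw [Submodule.finrank_eq_zero] at h3
    rw [h3, Submodule.mem_bot] at hmem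
    exact hv0 (congrArg Subtype.val hmem)
  unfold rk
  rw [h1]
  omega

/-- An irreducible Lie algebra of operators which contains the difference of two complementary
projections. -/
structure Two (G : Submodule ℂ (End ℂ V)) (P Q : End ℂ V) : Prop where
  br : ∀ X ∈ G, ∀ Y ∈ G, X * Y - Y * X ∈ G
  PP : P * P = P
  QQ : Q * Q = Q
  PQ : P * Q = 0
  QP : Q * P = 0
  sum : P + Q = 1
  D : P - Q ∈ G
  irr : ∀ U : Submodule ℂ V, (∀ X ∈ G, ∀ u ∈ U, X u ∈ U) → U = ⊥ ∨ U = ⊤

/-- The positive part of the Lie algebra. -/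
def pos (G : Submodule ℂ (End ℂ V)) (P Q : End ℂ V) : Submodule ℂ (End ℂ V) where
  carrier := {x | x ∈ G ∧ P * x = x ∧ x * Q = x}
  zero_mem' := ⟨Submodule.zero_mem _, mul_zero _, zero_mul _⟩
  add_mem' := fun {x y} hx hy => ⟨Submodule.add_mem _ hx.1 hy.1,
    by rw [mul_add, hx.2.1, hy.2.1], by rw [add_mul, hx.2.2, hy.2.2]⟩
  smul_mem' := fun r x hx => ⟨Submodule.smul_mem _ _ hx.1,
    by rw [mul_smul_comm, hx.2.1], by rw [smul_mul_assoc, hx.2.2]⟩

/-- The trace form. -/
def trF (V : Type) [AddCommGroup V] [Module ℂ V] [FiniteDimensional ℂ V] :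
    End ℂ V →ₗ[ℂ] End ℂ V →ₗ[ℂ] ℂ :=
  LinearMap.mk₂ ℂ (fun X Y => LinearMap.trace ℂ V (X * Y))
    (fun X X' Y => by rw [add_mul, map_add])
    (fun c X Y => by rw [smul_mul_assoc, map_smul])
    (fun X Y Y' => by rw [mul_add, map_add])
    (fun c X Y => by rw [mul_smul_comm, map_smul])

theorem trF_apply (X Y : End ℂ V) : trF V X Y = LinearMap.trace ℂ V (X * Y) := rfl

/-- The Casimir element commutes. -/
theorem casimir_comm {n : ℕ} (x y : Fin n → End ℂ V) (z : End ℂ V)
    (hx : ∀ i, z * x i - x i * z = ∑ j, LinearMap.trace ℂ V ((z * x i - x i * z) * y j) • x j)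
    (hy : ∀ i, z * y i - y i * z =
      ∑ j, LinearMap.trace ℂ V (x j * (z * y i - y i * z)) • y j) :
    (∑ i, x i * y i) * z = z * ∑ i, x i * y i ∧ (∑ i, y i * x i) * z = z * ∑ i, y i * x i := by
  have hcoef : ∀ i j, LinearMap.trace ℂ V ((z * x i - x i * z) * y j) +
      LinearMap.trace ℂ V (x i * (z * y j - y j * z)) = 0 := by
    intro i j
    rw [← map_add]
    have h4 : (z * x i - x i * z) * y j + x i * (z * y j - y j * z) =
        z * (x i * y j) - (x i * y j) * z := by noncomm_ring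
    rw [h4, map_sub, LinearMap.trace_mul_comm, sub_self]
  constructor
  · symm
    rw [← sub_eq_zero, Finset.mul_sum, Finset.sum_mul, ← Finset.sum_sub_distrib]
    have e1 : ∀ i, z * (x i * y i) - x i * y i * z =
        (z * x i - x i * z) * y i + x i * (z * y i - y i * z) := fun i => by noncomm_ring
    have e2 : ∀ i, (z * x i - x i * z) * y i =
        ∑ j, LinearMap.trace ℂ V ((z * x i - x i * z) * y j) • (x j * y i) := by
      intro i
      nth_rewrite 1 [hx i]
      rw [Finset.sum_mul]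
      exact Finset.sum_congr rfl fun j _ => by rw [smul_mul_assoc]
    have e3 : ∀ i, x i * (z * y i - y i * z) =
        ∑ j, LinearMap.trace ℂ V (x j * (z * y i - y i * z)) • (x i * y j) := by
      intro i
      nth_rewrite 1 [hy i]
      rw [Finset.mul_sum]
      exact Finset.sum_congr rfl fun j _ => by rw [mul_smul_comm]
    rw [Finset.sum_congr rfl fun i _ => e1 i, Finset.sum_add_distrib,
      Finset.sum_congr rfl fun i _ => e2 i, Finset.sum_congr rfl fun i _ => e3 i,
      Finset.sum_comm (f := fun i j =>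
        LinearMap.trace ℂ V (x j * (z * y i - y i * z)) • (x i * y j)),
      ← Finset.sum_add_distrib]
    refine Finset.sum_eq_zero fun i _ => ?_
    rw [← Finset.sum_add_distrib]
    refine Finset.sum_eq_zero fun j _ => ?_
    rw [← add_smul, hcoef, zero_smul]
  · symm
    rw [← sub_eq_zero, Finset.mul_sum, Finset.sum_mul, ← Finset.sum_sub_distrib]
    have e1 : ∀ i, z * (y i * x i) - y i * x i * z =
        y i * (z * x i - x i * z) + (z * y i - y i * z) * x i := fun i => by noncomm_ring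
    have e2 : ∀ i, y i * (z * x i - x i * z) =
        ∑ j, LinearMap.trace ℂ V ((z * x i - x i * z) * y j) • (y i * x j) := by
      intro i
      nth_rewrite 1 [hx i]
      rw [Finset.mul_sum]
      exact Finset.sum_congr rfl fun j _ => by rw [mul_smul_comm]
    have e3 : ∀ i, (z * y i - y i * z) * x i =
        ∑ j, LinearMap.trace ℂ V (x j * (z * y i - y i * z)) • (y j * x i) := by
      intro i
      nth_rewrite 1 [hy i]
      rw [Finset.sum_mul]
      exact Finset.sum_congr rfl fun j _ => by rw [smul_mul_assoc]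
    rw [Finset.sum_congr rfl fun i _ => e1 i, Finset.sum_add_distrib,
      Finset.sum_congr rfl fun i _ => e2 i, Finset.sum_congr rfl fun i _ => e3 i,
      Finset.sum_comm (f := fun i j =>
        LinearMap.trace ℂ V ((z * x i - x i * z) * y j) • (y i * x j)),
      ← Finset.sum_add_distrib]
    refine Finset.sum_eq_zero fun i _ => ?_
    rw [← Finset.sum_add_distrib]
    refine Finset.sum_eq_zero fun j _ => ?_
    rw [← add_smul, hcoef, zero_smul]

namespace Two

variable {G : Submodule ℂ (End ℂ V)} {P Q : End ℂ V} (H : Two G P Q)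
include H

theorem symm : Two G Q P where
  br := H.br
  PP := H.QQ
  QQ := H.PP
  PQ := H.QP
  QP := H.PQ
  sum := by rw [add_comm]; exact H.sum
  D := by
    have h := Submodule.neg_mem _ H.D
    rwa [neg_sub] at h
  irr := H.irr

theorem grP {X : End ℂ V} (hX : X ∈ G) : P * X * Q ∈ G := by
  have hQ : Q = 1 - P := by rw [← H.sum, add_sub_cancel_left]
  have h1 := H.br _ H.D _ hX
  have h2 := H.br _ H.D _ h1
  have h3 : (P - Q) * ((P - Q) * X - X * (P - Q)) - ((P - Q) * X - X * (P - Q)) * (P - Q) +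
      (2 : ℂ) • ((P - Q) * X - X * (P - Q)) = (8 : ℂ) • (P * X * Q) := by
    have e1 : (P - Q) * X - X * (P - Q) = (2 : ℂ) • (P * X - X * P) := by
      rw [hQ, two_smul]
      noncomm_ring
    have e2 : P * (P * X - X * P) = P * X - P * X * P := by
      rw [mul_sub, ← mul_assoc, H.PP, mul_assoc]
    have e3 : (P * X - X * P) * P = P * X * P - X * P := by
      rw [sub_mul, mul_assoc X, H.PP]
    have e4 : (P - Q) * (P * X - X * P) - (P * X - X * P) * (P - Q) =
        (2 : ℂ) • (P * (P * X - X * P) - (P * X - X * P) * P) := by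
      rw [hQ, two_smul]
      noncomm_ring
    rw [e1, mul_smul_comm, smul_mul_assoc, ← smul_sub, e4, e2, e3, hQ, mul_sub, mul_one]
    module
  have h4 := Submodule.smul_mem _ (8 : ℂ)⁻¹
    (Submodule.add_mem _ h2 (Submodule.smul_mem _ (2 : ℂ) h1))
  rw [h3, smul_smul, inv_mul_cancel₀ (by norm_num), one_smul] at h4
  exact h4

theorem grQ {X : End ℂ V} (hX : X ∈ G) : Q * X * P ∈ G := H.symm.grP hX

theorem split (X : End ℂ V) : X = P * X * Q + Q * X * P + (P * X * P + Q * X * Q) := by
  calc X = (P + Q) * X * (P + Q) := by rw [H.sum, one_mul, mul_one]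
    _ = _ := by noncomm_ring

theorem gr0 {X : End ℂ V} (hX : X ∈ G) : P * X * P + Q * X * Q ∈ G := by
  have h1 := H.split X
  have h2 : P * X * P + Q * X * Q = X - (P * X * Q + Q * X * P) := by
    nth_rewrite 3 [h1]
    abel
  rw [h2]
  exact Submodule.sub_mem _ hX (Submodule.add_mem _ (H.grP hX) (H.grQ hX))

theorem gr0_comm (X : End ℂ V) :
    P * (P * X * P + Q * X * Q) = (P * X * P + Q * X * Q) * P := by
  have h1 : P * (P * X * P + Q * X * Q) = (P * P) * X * P + (P * Q) * X * Q := by noncomm_ring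
  have h2 : (P * X * P + Q * X * Q) * P = P * X * (P * P) + Q * X * (Q * P) := by noncomm_ring
  rw [h1, h2, H.PP, H.PQ, H.QP]
  simp

theorem semi : Pool.Agent.W516.KC.Semi G := by
  intro U hU
  rcases H.irr U hU with h1 | h1
  · exact ⟨⊤, fun _ _ _ _ => trivial, by rw [h1]; exact isCompl_bot_top⟩
  · exact ⟨⊥, fun X _ u hu => by
      rw [Submodule.mem_bot] at hu ⊢
      rw [hu, map_zero], by rw [h1]; exact isCompl_top_bot⟩

/-- The trace form is nondegenerate between the positive and the negative part. -/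
theorem nondeg {x : End ℂ V} (hx : x ∈ pos G P Q)
    (h : ∀ y ∈ pos G Q P, LinearMap.trace ℂ V (x * y) = 0) : x = 0 := by
  have h1 := Pool.Agent.W516.KC.central_of_trace G H.semi H.br hx.1 (fun Y hY => by
    have h2 : LinearMap.trace ℂ V (x * Y) = LinearMap.trace ℂ V (x * (Q * Y * P)) := by
      have e1 : x * (Q * Y * P) = (x * Q) * Y * P := by noncomm_ring
      rw [e1, hx.2.2, LinearMap.trace_mul_comm ℂ (x * Y) P, ← mul_assoc, hx.2.1]
    rw [h2]
    refine h _ ⟨H.grQ hY, ?_, ?_⟩
    · rw [← mul_assoc, ← mul_assoc, H.QQ]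
    · rw [mul_assoc _ P P, H.PP]) _ H.D
  have h2 : (P - Q) * x = x := by
    have e1 : Q * x = 0 := by rw [← hx.2.1, ← mul_assoc, H.QP, zero_mul]
    rw [sub_mul, hx.2.1, e1, sub_zero]
  have h3 : x * (P - Q) = -x := by
    have e1 : x * P = 0 := by rw [← hx.2.2, mul_assoc, H.QP, mul_zero]
    rw [mul_sub, hx.2.2, e1, zero_sub]
  rw [h2, h3] at h1
  have h4 : (2 : ℂ) • x = 0 := by
    rw [two_smul]
    nth_rewrite 1 [h1]
    exact neg_add_cancel _
  exact (smul_eq_zero.1 h4).resolve_left two_ne_zero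

/-- **Schur's lemma** for the positive part. -/
theorem schur {c : End ℂ V} (h1 : P * c = c) (h2 : c * P = c)
    (hc : ∀ z ∈ G, P * z = z * P → c * z = z * c) : ∃ κ : ℂ, c = κ • P := by
  by_cases hP0 : P = 0
  · refine ⟨0, ?_⟩
    rw [← h1, hP0, zero_mul, smul_zero]
  obtain ⟨μ, v, ⟨v', hv'⟩, hv0, hcv⟩ := exists_eig_range (N := c) hP0 (by
    intro v _
    refine ⟨c v, ?_⟩
    rw [← Module.End.mul_apply, h1])
  have hPv : P v = v := by rw [← hv', ← Module.End.mul_apply, H.PP]
  let U0 : Submodule ℂ V :=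
    { carrier := {u | P u = u ∧ c u = μ • u}
      zero_mem' := ⟨map_zero _, by rw [map_zero, smul_zero]⟩
      add_mem' := fun {x y} hx hy => ⟨by rw [map_add, hx.1, hy.1],
        by rw [map_add, hx.2, hy.2, smul_add]⟩
      smul_mem' := fun r x hx => ⟨by rw [map_smul, hx.1],
        by rw [map_smul, hx.2, smul_comm]⟩ }
  have hU0 : ∀ u, u ∈ U0 ↔ P u = u ∧ c u = μ • u := fun _ => Iff.rfl
  let U1 : Submodule ℂ V :=
    Submodule.span ℂ {w | ∃ y ∈ G, ∃ u ∈ U0, Q * y = y ∧ y * P = y ∧ w = y u}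
  have hU1Q : ∀ w ∈ U1, Q w = w := by
    intro w hw
    induction hw using Submodule.span_induction with
    | mem w hw =>
      obtain ⟨y, _, u, _, hy, _, rfl⟩ := hw
      rw [← Module.End.mul_apply, hy]
    | zero => exact map_zero _
    | add x y _ _ hx hy => rw [map_add, hx, hy]
    | smul r x _ hx => rw [map_smul, hx]
  -- elements of degree zero
  have hz0 : ∀ z ∈ G, P * z = z * P → ∀ u ∈ U0, z u ∈ U0 := by
    intro z hz hzP u hu
    obtain ⟨h3, h4⟩ := (hU0 u).1 hu
    refine (hU0 _).2 ⟨?_, ?_⟩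
    · rw [← Module.End.mul_apply, hzP, Module.End.mul_apply, h3]
    · rw [← Module.End.mul_apply, hc z hz hzP, Module.End.mul_apply, h4, map_smul]
  have hQP0 : ∀ u ∈ U0, Q u = 0 := by
    intro u hu
    obtain ⟨h3, _⟩ := (hU0 u).1 hu
    rw [← h3, ← Module.End.mul_apply, H.QP, LinearMap.zero_apply]
  have hstab : ∀ X ∈ G, ∀ u ∈ U0 ⊔ U1, X u ∈ U0 ⊔ U1 := by
    intro X hX
    have hle : U0 ⊔ U1 ≤ (U0 ⊔ U1).comap X := by
      refine sup_le ?_ ?_
      · intro u hu
        rw [Submodule.mem_comap, H.split X, LinearMap.add_apply, LinearMap.add_apply]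
        refine Submodule.add_mem _ (Submodule.add_mem _ ?_ ?_) ?_
        · rw [Module.End.mul_apply, hQP0 u hu, map_zero]
          exact Submodule.zero_mem _
        · refine Submodule.mem_sup_right (Submodule.subset_span ⟨_, H.grQ hX, u, hu, ?_, ?_, rfl⟩)
          · rw [← mul_assoc, ← mul_assoc, H.QQ]
          · rw [mul_assoc _ P P, H.PP]
        · exact Submodule.mem_sup_left (hz0 _ (H.gr0 hX) (H.gr0_comm X) u hu)
      · refine Submodule.span_le.2 ?_
        rintro _ ⟨y, hy, u, hu, hy1, hy2, rfl⟩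
        change X (y u) ∈ U0 ⊔ U1
        have hPy : P * y = 0 := by rw [← hy1, ← mul_assoc, H.PQ, zero_mul]
        have hyQ : y * Q = 0 := by rw [← hy2, mul_assoc, H.PQ, mul_zero]
        rw [H.split X, LinearMap.add_apply, LinearMap.add_apply]
        refine Submodule.add_mem _ (Submodule.add_mem _ ?_ ?_) ?_
        · -- the positive part
          refine Submodule.mem_sup_left ?_
          obtain ⟨x, hx⟩ : ∃ x, x = P * X * Q := ⟨_, rfl⟩
          have hxG : x ∈ G := by rw [hx]; exact H.grP hX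
          have hPx : P * x = x := by rw [hx, ← mul_assoc, ← mul_assoc, H.PP]
          have hxP : x * P = 0 := by rw [hx, mul_assoc _ Q P, H.QP, mul_zero]
          have hxu : x u = 0 := by
            rw [← ((hU0 u).1 hu).1, ← Module.End.mul_apply, hxP, LinearMap.zero_apply]
          rw [← hx]
          have h3 : x (y u) = (x * y - y * x) u := by
            rw [LinearMap.sub_apply, Module.End.mul_apply, Module.End.mul_apply, hxu, map_zero,
              sub_zero]
          rw [h3]
          refine hz0 _ (H.br _ hxG _ hy) ?_ u hu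
          have e1 : P * (x * y - y * x) = (P * x) * y - (P * y) * x := by noncomm_ring
          have e2 : (x * y - y * x) * P = x * (y * P) - y * (x * P) := by noncomm_ring
          rw [e1, e2, hPx, hPy, hy2, hxP, zero_mul, mul_zero]
        · rw [← Module.End.mul_apply, mul_assoc, hPy, mul_zero, LinearMap.zero_apply]
          exact Submodule.zero_mem _
        · refine Submodule.mem_sup_right ?_
          obtain ⟨z, hz⟩ : ∃ z, z = P * X * P + Q * X * Q := ⟨_, rfl⟩
          have hzG : z ∈ G := by rw [hz]; exact H.gr0 hX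
          have hzP : P * z = z * P := by rw [hz]; exact H.gr0_comm X
          have hzQ : Q * z = z * Q := by
            have hQ : Q = 1 - P := by rw [← H.sum, add_sub_cancel_left]
            rw [hQ, sub_mul, mul_sub, one_mul, mul_one, hzP]
          rw [← hz]
          have h3 : z (y u) = (z * y - y * z) u + y (z u) := by
            rw [LinearMap.sub_apply, Module.End.mul_apply, Module.End.mul_apply]
            abel
          rw [h3]
          refine Submodule.add_mem _ ?_ ?_
          · refine Submodule.subset_span ⟨_, H.br _ hzG _ hy, u, hu, ?_, ?_, rfl⟩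
            · rw [mul_sub, ← mul_assoc, ← mul_assoc, hzQ, hy1, mul_assoc, hy1]
            · rw [sub_mul, mul_assoc z, hy2, mul_assoc y, ← hzP, ← mul_assoc, hy2]
          · exact Submodule.subset_span ⟨_, hy, _, hz0 _ hzG hzP u hu, hy1, hy2, rfl⟩
    intro u hu
    exact hle hu
  have hvU : v ∈ U0 := (hU0 v).2 ⟨hPv, hcv⟩
  refine ⟨μ, ?_⟩
  rcases H.irr (U0 ⊔ U1) hstab with h3 | h3
  · exfalso
    have h4 : v ∈ U0 ⊔ U1 := Submodule.mem_sup_left hvU
    rw [h3, Submodule.mem_bot] at h4
    exact hv0 h4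
  · refine LinearMap.ext fun w => ?_
    have h6 : P w ∈ U0 ⊔ U1 := by rw [h3]; trivial
    obtain ⟨u0, hu0, u1, hu1, h6⟩ := Submodule.mem_sup.1 h6
    have h7 : P u1 = 0 := by
      rw [← hU1Q u1 hu1, ← Module.End.mul_apply, H.PQ, LinearMap.zero_apply]
    have h8 : P w = u0 := by
      have h9 := congrArg (fun z => P z) h6
      beta_reduce at h9
      rw [map_add, h7, add_zero, ((hU0 _).1 hu0).1, ← Module.End.mul_apply, H.PP] at h9
      exact h9.symm
    rw [← h2, Module.End.mul_apply, h8, ((hU0 _).1 hu0).2, LinearMap.smul_apply, h8]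

theorem br_pos {x z : End ℂ V} (hx : x ∈ pos G P Q) (hz : z ∈ G) (hzP : P * z = z * P)
    (hzQ : Q * z = z * Q) : z * x - x * z ∈ pos G P Q := by
  refine ⟨H.br _ hz _ hx.1, ?_, ?_⟩
  · rw [mul_sub, ← mul_assoc, hzP, mul_assoc, hx.2.1, ← mul_assoc P, hx.2.1]
  · rw [sub_mul, mul_assoc, hx.2.2, mul_assoc x, ← hzQ, ← mul_assoc, hx.2.2]

theorem comm_Q {z : End ℂ V} (hzP : P * z = z * P) : Q * z = z * Q := by
  have hQ : Q = 1 - P := by rw [← H.sum, add_sub_cancel_left]
  rw [hQ, sub_mul, mul_sub, one_mul, mul_one, hzP]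

/-- The Casimir elements. -/
theorem casimir : ∃ (n : ℕ) (b' : Basis (Fin n) ℂ (pos G P Q)) (x y : Fin n → End ℂ V)
    (κ κ' : ℂ), (∀ i, ((b' i : pos G P Q) : End ℂ V) = x i) ∧
      (∀ i, ∀ z : pos G P Q, LinearMap.trace ℂ V ((z : End ℂ V) * y i) = b'.repr z i) ∧
      ∑ i, x i * y i = κ • P ∧ ∑ i, y i * x i = κ' • Q := by
  obtain ⟨n, b', y, hy, hyb, hz⟩ := exists_dual (trF V) (pos G P Q) (pos G Q P)
    (fun x hx h => H.nondeg hx h) (fun x hx h => H.symm.nondeg hx fun y hy => by
      rw [LinearMap.trace_mul_comm]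
      exact h y hy)
  obtain ⟨x, hx⟩ : ∃ x : Fin n → End ℂ V, ∀ i, ((b' i : pos G P Q) : End ℂ V) = x i :=
    ⟨_, fun _ => rfl⟩
  have hxm : ∀ i, x i ∈ pos G P Q := fun i => by rw [← hx]; exact (b' i).2
  -- the coefficients
  have hx1 : ∀ w ∈ pos G P Q, w = ∑ j, LinearMap.trace ℂ V (w * y j) • x j := by
    intro w hw
    have h4 := congrArg Subtype.val (b'.sum_repr ⟨w, hw⟩)
    refine h4.symm.trans ?_
    rw [Submodule.coe_sum]
    refine Finset.sum_congr rfl fun j _ => ?_
    have h5 : LinearMap.trace ℂ V (w * y j) = b'.repr ⟨w, hw⟩ j := hyb j ⟨w, hw⟩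
    rw [h5, ← hx]
    rfl
  have hy1 : ∀ w ∈ pos G Q P, w = ∑ j, LinearMap.trace ℂ V (x j * w) • y j := by
    intro w hw
    refine (hz w hw).trans ?_
    exact Finset.sum_congr rfl fun j _ => by rw [trF_apply, hx]
  have hcomm : ∀ z ∈ G, P * z = z * P → (∑ i, x i * y i) * z = z * ∑ i, x i * y i ∧
      (∑ i, y i * x i) * z = z * ∑ i, y i * x i := by
    intro z hzG hzP
    have hzQ := H.comm_Q hzP
    exact casimir_comm x y z (fun i => hx1 _ (H.br_pos (hxm i) hzG hzP hzQ))
      (fun i => hy1 _ (H.symm.br_pos (hy i) hzG hzQ hzP))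
  obtain ⟨κ, hκ⟩ := H.schur (c := ∑ i, x i * y i)
    (by
      rw [Finset.mul_sum]
      exact Finset.sum_congr rfl fun i _ => by rw [← mul_assoc, (hxm i).2.1])
    (by
      rw [Finset.sum_mul]
      exact Finset.sum_congr rfl fun i _ => by rw [mul_assoc, (hy i).2.2])
    (fun z hz hzP => (hcomm z hz hzP).1)
  obtain ⟨κ', hκ'⟩ := H.symm.schur (c := ∑ i, y i * x i)
    (by
      rw [Finset.mul_sum]
      exact Finset.sum_congr rfl fun i _ => by rw [← mul_assoc, (hy i).2.1])
    (by
      rw [Finset.sum_mul]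
      exact Finset.sum_congr rfl fun i _ => by rw [mul_assoc, (hxm i).2.2])
    (fun z hz hzQ => (hcomm z hz (H.symm.comm_Q hzQ)).2)
  refine ⟨n, b', x, y, κ, κ', hx, fun i z => ?_, hκ, hκ'⟩
  rw [← hyb i z, trF_apply]

/-- The positive part is a triple system. -/
theorem tri {x y z : End ℂ V} (hx : x ∈ pos G P Q) (hy : y ∈ pos G Q P) (hz : z ∈ pos G P Q) :
    x * y * z + z * y * x ∈ pos G P Q := by
  have h1 : x * z = 0 := by rw [← hx.2.2, ← hz.2.1, mul_assoc, ← mul_assoc Q, H.QP, zero_mul,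
    mul_zero]
  have h2 : z * x = 0 := by rw [← hz.2.2, ← hx.2.1, mul_assoc, ← mul_assoc Q, H.QP, zero_mul,
    mul_zero]
  have h3 := H.br _ (H.br _ hx.1 _ hy.1) _ hz.1
  have h4 : (x * y - y * x) * z - z * (x * y - y * x) = x * y * z + z * y * x -
      y * (x * z) - (z * x) * y := by noncomm_ring
  rw [h4, h1, h2, mul_zero, zero_mul, sub_zero, sub_zero] at h3
  refine ⟨h3, ?_, ?_⟩
  · rw [mul_add, ← mul_assoc, ← mul_assoc, hx.2.1, ← mul_assoc, ← mul_assoc, hz.2.1]
  · rw [add_mul, mul_assoc _ z, hz.2.2, mul_assoc _ x, hx.2.2]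

/-- The trace identity. -/
theorem cas {a b : ℕ} (trP : LinearMap.trace ℂ V P = a) (trQ : LinearMap.trace ℂ V Q = b)
    (p q : End ℂ V) (T : pos G P Q →ₗ[ℂ] pos G P Q) (hp : P * p = p) (hq : q * Q = q)
    (hT : ∀ x : pos G P Q, ((T x : pos G P Q) : End ℂ V) = p * x + x * q) :
    (a * b : ℂ) * LinearMap.trace ℂ (pos G P Q) T = (finrank ℂ (pos G P Q) : ℂ) *
      (b * LinearMap.trace ℂ V p + a * LinearMap.trace ℂ V q) := by
  obtain ⟨n, b', x, y, κ, κ', hx, hy, hκ, hκ'⟩ := H.casimir
  have h1 : LinearMap.trace ℂ (pos G P Q) T =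
      ∑ i, LinearMap.trace ℂ V ((p * x i + x i * q) * y i) := by
    rw [LinearMap.trace_eq_matrix_trace ℂ b', Matrix.trace]
    refine Finset.sum_congr rfl fun i _ => ?_
    rw [Matrix.diag_apply, LinearMap.toMatrix_apply, ← hy, hT, hx]
  have h2 : ∑ i, LinearMap.trace ℂ V ((p * x i + x i * q) * y i) =
      κ * LinearMap.trace ℂ V p + κ' * LinearMap.trace ℂ V q := by
    have h3 : ∀ i, LinearMap.trace ℂ V ((p * x i + x i * q) * y i) =
        LinearMap.trace ℂ V (p * (x i * y i)) + LinearMap.trace ℂ V (q * (y i * x i)) := by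
      intro i
      rw [add_mul, map_add, mul_assoc, mul_assoc, LinearMap.trace_mul_comm ℂ (x i), mul_assoc]
    rw [Finset.sum_congr rfl fun i _ => h3 i, Finset.sum_add_distrib, ← map_sum, ← map_sum,
      ← Finset.mul_sum, ← Finset.mul_sum, hκ, hκ', mul_smul_comm, mul_smul_comm, map_smul,
      map_smul, LinearMap.trace_mul_comm ℂ p, hp, hq, smul_eq_mul, smul_eq_mul]
  have hn : ∑ i, LinearMap.trace ℂ V (x i * y i) = (n : ℂ) := by
    have h3 : ∀ i, LinearMap.trace ℂ V (x i * y i) = 1 := by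
      intro i
      have h4 := hy i (b' i)
      rw [hx] at h4
      rw [h4, Basis.repr_self, Finsupp.single_eq_same]
    rw [Finset.sum_congr rfl fun i _ => h3 i]
    simp
  have h3 : κ * a = n := by
    rw [← hn, ← map_sum, hκ, map_smul, trP, smul_eq_mul]
  have h4 : κ' * b = n := by
    have h5 : ∑ i, LinearMap.trace ℂ V (x i * y i) = LinearMap.trace ℂ V (∑ i, y i * x i) := by
      rw [map_sum]
      exact Finset.sum_congr rfl fun i _ => LinearMap.trace_mul_comm ℂ _ _
    rw [← hn, h5, hκ', map_smul, trQ, smul_eq_mul]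
  have h5 : finrank ℂ (pos G P Q) = n := by
    rw [finrank_eq_card_basis b', Fintype.card_fin]
  rw [h1, h2, h5]
  linear_combination (b * LinearMap.trace ℂ V p) * h3 + (a * LinearMap.trace ℂ V q) * h4

end Two

end

end Pool.Agent.Y224.TS.Cop
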