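import Mathlib
import Pool.Agent.Y224.TS.C1

/-!
# Elements of rank one if the multiplicities are coprime

An irreducible Lie algebra of operators which contains an involution with eigenvalues of coprime
multiplicities contains an element of rank one and degree one. Positivity is not used.
-/

set_option linter.unusedSectionVars false

namespace Pool.Agent.Y224.TS.Cop

open Module Pool.Agent.W548.Odd
open Pool.Agent.Y4.G (exists_dual finrank_eq_one_of finrank_le_of_maps trace_idemOp)

noncomputable section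

variable {V : Type} [AddCommGroup V] [Module ℂ V] [FiniteDimensional ℂ V]

theorem arith {a b d m k : ℕ} (hcop : Nat.Coprime a b) (hm : 1 ≤ m)
    (hk : k + 2 * m ≤ a + b) (h : a * b * (2 + k) = d * (b * m + a * m)) : m = 1 := by
  have h1 : d * (b * m + a * m) = d * m * (a + b) := by ring
  rw [h1] at h
  have hab : Nat.Coprime (a + b) (a * b) := by
    refine Nat.Coprime.mul_right ?_ ?_
    · rw [Nat.coprime_self_add_left]
      exact hcop.symm
    · rw [Nat.coprime_add_self_left]
      exact hcop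
  have h2 : (a + b) ∣ a * b * (2 + k) := ⟨d * m, by rw [h]; ring⟩
  have h3 : (a + b) ∣ (2 + k) := hab.dvd_of_dvd_mul_left h2
  have h4 : a + b ≤ 2 + k := Nat.le_of_dvd (by omega) h3
  omega

namespace Two

variable {G : Submodule ℂ (End ℂ V)} {P Q : End ℂ V} (H : Two G P Q)
include H

/-- **The key lemma**. -/
theorem exists_rk_one {a b : ℕ} (trP : LinearMap.trace ℂ V P = a)
    (trQ : LinearMap.trace ℂ V Q = b) (hne : pos G P Q ≠ ⊥) (hcop : Nat.Coprime a b) :
    ∃ x ∈ pos G P Q, rk x = 1 := by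
  obtain ⟨x, ⟨hx, hx0⟩, hmin⟩ : ∃ x, (x ∈ pos G P Q ∧ x ≠ 0) ∧
      ∀ y, (y ∈ pos G P Q ∧ y ≠ 0) → rk x ≤ rk y := by
    obtain ⟨x, hx, hx0⟩ := (Submodule.ne_bot_iff _).1 hne
    have hne : {y : End ℂ V | y ∈ pos G P Q ∧ y ≠ 0}.Nonempty := ⟨x, hx, hx0⟩
    obtain ⟨e, he, hmin⟩ := WellFounded.has_min (measure (fun y : End ℂ V => rk y)).wf _ hne
    exact ⟨e, he, fun y hy => not_lt.1 (hmin y hy)⟩
  have hz : ∀ y ∈ pos G P Q, rk y < rk x → y = 0 := by
    intro y hy hlt
    by_contra h0
    exact absurd (hmin y ⟨hy, h0⟩) (not_le.2 hlt)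
  obtain ⟨y0, hy0, htr0⟩ : ∃ y ∈ pos G Q P, LinearMap.trace ℂ V (x * y) ≠ 0 := by
    by_contra hcon
    push Not at hcon
    exact hx0 (H.nondeg hx hcon)
  -- the eigenvalue
  obtain ⟨t, v, hv, hv0, hev⟩ := exists_eig_range (N := x * y0) hx0 (by
    intro v _
    exact ⟨y0 v, rfl⟩)
  have hxyx : x * y0 * x = t • x := by
    have h1 : (x * y0 - t • 1) * x = x * y0 * x - t • x := by
      rw [sub_mul, smul_mul_assoc, one_mul]
    have h2 : x * y0 * x - t • x ∈ pos G P Q := by
      refine Submodule.sub_mem _ ?_ (Submodule.smul_mem _ _ hx)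
      have h4 := Submodule.smul_mem (pos G P Q) (2 : ℂ)⁻¹ (H.tri hx hy0 hx)
      rw [← two_smul ℂ, smul_smul, inv_mul_cancel₀ two_ne_zero, one_smul] at h4
      exact h4
    have h4 := hz _ h2 (by
      rw [← h1]
      refine rk_mul_lt hv hv0 ?_
      rw [LinearMap.sub_apply, hev, LinearMap.smul_apply, Module.End.one_apply, sub_self])
    exact sub_eq_zero.1 h4
  have ht0 : t ≠ 0 := by
    rintro rfl
    rw [zero_smul] at hxyx
    apply htr0
    have h1 : IsNilpotent (x * y0) := ⟨2, by rw [pow_two, ← mul_assoc, hxyx, zero_mul]⟩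
    exact (LinearMap.isNilpotent_trace_of_isNilpotent h1).eq_zero
  obtain ⟨y1, hy1e⟩ : ∃ y1, y1 = t⁻¹ • y0 := ⟨_, rfl⟩
  have hy1 : y1 ∈ pos G Q P := by
    rw [hy1e]
    exact Submodule.smul_mem _ _ hy0
  have hxy1 : x * y1 * x = x := by
    rw [hy1e, mul_smul_comm, smul_mul_assoc, hxyx, smul_smul, inv_mul_cancel₀ ht0, one_smul]
  obtain ⟨y, hye⟩ : ∃ y, y = y1 * x * y1 := ⟨_, rfl⟩
  have hy : y ∈ pos G Q P := by
    have h4 := Submodule.smul_mem (pos G Q P) (2 : ℂ)⁻¹ (H.symm.tri hy1 hx hy1)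
    rw [← two_smul ℂ, smul_smul, inv_mul_cancel₀ two_ne_zero, one_smul] at h4
    rw [hye]
    exact h4
  have hxyx' : x * y * x = x := by
    calc x * y * x = (x * y1 * x) * y1 * x := by rw [hye]; noncomm_ring
      _ = x := by rw [hxy1, hxy1]
  have hyxy : y * x * y = y := by
    calc y * x * y = y1 * ((x * y1 * x) * y1 * x) * y1 := by rw [hye]; noncomm_ring
      _ = y := by rw [hxy1, hxy1, hye]
  obtain ⟨p, hp⟩ : ∃ p, p = x * y := ⟨_, rfl⟩
  obtain ⟨q, hq⟩ : ∃ q, q = y * x := ⟨_, rfl⟩
  have hpx : p * x = x := by rw [hp, hxyx']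
  have hxq : x * q = x := by rw [hq, ← mul_assoc, hxyx']
  have hqy : q * y = y := by rw [hq, hyxy]
  have hyp : y * p = y := by rw [hp, ← mul_assoc, hyxy]
  have hpp : p * p = p := by
    nth_rewrite 2 [hp]
    rw [← mul_assoc, hpx, ← hp]
  have hqq : q * q = q := by
    nth_rewrite 2 [hq]
    rw [← mul_assoc, hqy, ← hq]
  have hone : ∀ z ∈ pos G P Q, p * z * q = z → ∃ c : ℂ, z = c • x := by
    intro z hz' hpz
    have hpz' : p * z = z := by rw [← hpz, ← mul_assoc, ← mul_assoc, hpp]
    have hzq : z * q = z := by rw [← hpz, mul_assoc _ q q, hqq]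
    obtain ⟨μ, w, hw, hw0, hew⟩ := exists_eig_range (N := z * y) hx0 (by
      intro v _
      have h1 : x * (y * (z * y)) = z * y := by rw [← mul_assoc, ← hp, ← mul_assoc, hpz']
      exact ⟨(y * (z * y)) v, by rw [← Module.End.mul_apply, h1]⟩)
    have h5 : (z * y - μ • 1) * x = z - μ • x := by
      rw [sub_mul, smul_mul_assoc, one_mul, mul_assoc, ← hq, hzq]
    have h6 := hz _ (Submodule.sub_mem _ hz' (Submodule.smul_mem _ μ hx)) (by
      rw [← h5]
      refine rk_mul_lt hw hw0 ?_
      rw [LinearMap.sub_apply, hew, LinearMap.smul_apply, Module.End.one_apply, sub_self])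
    exact ⟨μ, sub_eq_zero.1 h6⟩
  have hPp : P * p = p := by rw [hp, ← mul_assoc, hx.2.1]
  have hpP : p * P = p := by rw [hp, mul_assoc, hy.2.2]
  have hqQ : q * Q = q := by rw [hq, mul_assoc, hx.2.2]
  have hQq : Q * q = q := by rw [hq, ← mul_assoc, hy.2.1]
  -- the operators
  have hTmem : ∀ z ∈ pos G P Q, p * z + z * q ∈ pos G P Q := by
    intro z hz'
    have h1 := H.tri hx hy hz'
    rwa [← hp, mul_assoc z, ← hq] at h1
  have h2mem : ∀ z ∈ pos G P Q, p * z * q ∈ pos G P Q := by
    intro z hz'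
    have h1 := Submodule.smul_mem (pos G P Q) (2 : ℂ)⁻¹
      (Submodule.sub_mem _ (hTmem _ (hTmem z hz')) (hTmem z hz'))
    have h2 : p * (p * z + z * q) + (p * z + z * q) * q - (p * z + z * q) =
        (2 : ℂ) • (p * z * q) := by
      have h3 : p * (p * z + z * q) + (p * z + z * q) * q - (p * z + z * q) =
          (p * p) * z + p * z * q + (p * z * q + z * (q * q)) - (p * z + z * q) := by noncomm_ring
      rw [h3, hpp, hqq, two_smul]
      abel
    rwa [h2, smul_smul, inv_mul_cancel₀ two_ne_zero, one_smul] at h1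
  obtain ⟨T, hT⟩ : ∃ T : pos G P Q →ₗ[ℂ] pos G P Q,
      ∀ z : pos G P Q, ((T z : pos G P Q) : End ℂ V) = p * z + z * q :=
    ⟨{ toFun := fun z => ⟨p * z + z * q, hTmem z z.2⟩
       map_add' := fun z z' => Subtype.ext (by
        change p * ((z : End ℂ V) + z') + (z + z') * q = (p * z + z * q) + (p * z' + z' * q)
        noncomm_ring)
       map_smul' := fun c z => Subtype.ext (by
        change p * (c • (z : End ℂ V)) + (c • (z : End ℂ V)) * q = c • (p * z + z * q)
        rw [mul_smul_comm, smul_mul_assoc, smul_add]) }, fun _ => rfl⟩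
  obtain ⟨π2, hπ2⟩ : ∃ T : pos G P Q →ₗ[ℂ] pos G P Q,
      ∀ z : pos G P Q, ((T z : pos G P Q) : End ℂ V) = p * z * q :=
    ⟨{ toFun := fun z => ⟨p * z * q, h2mem z z.2⟩
       map_add' := fun z z' => Subtype.ext (by
        change p * ((z : End ℂ V) + z') * q = p * z * q + p * z' * q
        noncomm_ring)
       map_smul' := fun c z => Subtype.ext (by
        change p * (c • (z : End ℂ V)) * q = c • (p * z * q)
        rw [mul_smul_comm, smul_mul_assoc]) }, fun _ => rfl⟩
  obtain ⟨π1, hπ1e⟩ : ∃ π1, π1 = T - (2 : ℂ) • π2 := ⟨_, rfl⟩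
  have hπ1 : ∀ z : pos G P Q, ((π1 z : pos G P Q) : End ℂ V) =
      p * z + z * q - (2 : ℂ) • (p * z * q) := by
    intro z
    rw [hπ1e, ← hT, ← hπ2]
    rfl
  have hTeq : T = (2 : ℂ) • π2 + π1 := by
    rw [hπ1e]
    abel
  have hid2 : ∀ z, π2 (π2 z) = π2 z := by
    intro z
    apply Subtype.ext
    rw [hπ2, hπ2]
    calc p * (p * z * q) * q = (p * p) * z * (q * q) := by noncomm_ring
      _ = _ := by rw [hpp, hqq]
  have hx1 : ∀ z : pos G P Q, p * ((π1 z : pos G P Q) : End ℂ V) * q = 0 := by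
    intro z
    rw [hπ1]
    have h3 : p * (p * z + z * q - (2 : ℂ) • (p * z * q)) * q =
        (p * p) * z * q + p * z * (q * q) - (2 : ℂ) • ((p * p) * z * (q * q)) := by
      rw [mul_sub, sub_mul, mul_smul_comm, smul_mul_assoc]
      noncomm_ring
    rw [h3, hpp, hqq, two_smul]
    abel
  have hid1 : ∀ z, π1 (π1 z) = π1 z := by
    intro z
    apply Subtype.ext
    rw [hπ1 (π1 z), hx1, smul_zero, sub_zero, hπ1]
    have h3 : p * (p * z + z * q - (2 : ℂ) • (p * z * q)) +
        (p * z + z * q - (2 : ℂ) • (p * z * q)) * q =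
        (p * p) * z + p * z * q - (2 : ℂ) • ((p * p) * z * q) +
        (p * z * q + z * (q * q) - (2 : ℂ) • (p * z * (q * q))) := by
      rw [mul_sub, sub_mul, mul_smul_comm, smul_mul_assoc]
      noncomm_ring
    rw [h3, hpp, hqq, two_smul]
    abel
  have hW1 : ∀ z : pos G P Q, z ∈ LinearMap.range π1 → p * (z : End ℂ V) * q = 0 ∧
      p * (z : End ℂ V) + z * q = z := by
    rintro _ ⟨z, rfl⟩
    refine ⟨hx1 z, ?_⟩
    have h3 := congrArg Subtype.val (hid1 z)
    rw [hπ1 (π1 z), hx1, smul_zero, sub_zero] at h3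
    exact h3
  -- the dimensions
  have htr2 : finrank ℂ (LinearMap.range π2) = 1 := by
    refine finrank_eq_one_of _ (e := (⟨x, hx⟩ : pos G P Q)) ⟨⟨x, hx⟩, Subtype.ext (by
      rw [hπ2]
      change p * x * q = x
      rw [hpx, hxq])⟩ (fun h0 => hx0 (congrArg Subtype.val h0)) ?_
    rintro _ ⟨z, rfl⟩
    obtain ⟨c, hc⟩ := hone _ (π2 z).2 (by
      have h3 := congrArg Subtype.val (hid2 z)
      rw [hπ2 (π2 z)] at h3
      exact h3)
    exact ⟨c, Subtype.ext hc⟩
  obtain ⟨k, hk⟩ : ∃ k, k = finrank ℂ (LinearMap.range π1) := ⟨_, rfl⟩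
  obtain ⟨m, hm⟩ : ∃ m, m = rk p := ⟨_, rfl⟩
  have htrT : LinearMap.trace ℂ (pos G P Q) T = 2 + k := by
    rw [hTeq, map_add, map_smul, trace_idemOp hid2, trace_idemOp hid1, htr2, ← hk, smul_eq_mul]
    push_cast
    ring
  have htrp : LinearMap.trace ℂ V p = m := by
    rw [hm]
    exact trace_idemOp fun v => by rw [← Module.End.mul_apply, hpp]
  have htrq : LinearMap.trace ℂ V q = m := by
    rw [← htrp, hq, hp, LinearMap.trace_mul_comm]
  have hm1 : 1 ≤ m := by
    rw [Nat.one_le_iff_ne_zero]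
    rintro rfl
    apply hx0
    rw [← hpx, rk_eq_zero hm.symm, zero_mul]
  -- the bound
  have hbound : k + 2 * m ≤ a + b := by
    obtain ⟨u, hu⟩ : ∃ u, x u ≠ 0 := by
      by_contra hcon
      push Not at hcon
      exact hx0 (LinearMap.ext hcon)
    obtain ⟨v, hv⟩ : ∃ v, v = q u := ⟨_, rfl⟩
    have hqv : q v = v := by rw [hv, ← Module.End.mul_apply, hqq]
    have hev : x v ≠ 0 := by rw [hv, ← Module.End.mul_apply, hxq]; exact hu
    obtain ⟨w0, hw0⟩ : ∃ w0 : Dual ℂ V, w0 (x v) ≠ 0 := by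
      by_contra hcon
      push Not at hcon
      exact hev ((Module.forall_dual_apply_eq_zero_iff ℂ (x v)).1 hcon)
    obtain ⟨w, hw⟩ : ∃ w : Dual ℂ V, w = w0 ∘ₗ p := ⟨_, rfl⟩
    have hwp : w ∘ₗ p = w := by
      refine LinearMap.ext fun u => ?_
      rw [hw, LinearMap.comp_apply, LinearMap.comp_apply, LinearMap.comp_apply,
        ← Module.End.mul_apply, hpp]
    have hwxv : w (x v) ≠ 0 := by
      rw [hw, LinearMap.comp_apply, ← Module.End.mul_apply, hpx]
      exact hw0
    have hPp2 : (P - p) * (P - p) = P - p := by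
      rw [sub_mul, mul_sub, mul_sub, H.PP, hpp, hPp, hpP]
      abel
    have hQq2 : (Q - q) * (Q - q) = Q - q := by
      rw [sub_mul, mul_sub, mul_sub, H.QQ, hqq, hQq, hqQ]
      abel
    obtain ⟨a', ha'⟩ : ∃ a', a' = rk (P - p) := ⟨_, rfl⟩
    obtain ⟨b', hb'⟩ : ∃ b', b' = rk (Q - q) := ⟨_, rfl⟩
    have ha2 : a' + m = a := by
      have h1 : LinearMap.trace ℂ V (P - p) = (rk (P - p) : ℂ) :=
        trace_idemOp fun v => by rw [← Module.End.mul_apply, hPp2]
      rw [← ha', map_sub, trP, htrp, sub_eq_iff_eq_add] at h1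
      exact_mod_cast h1.symm
    have hb2 : b' + m = b := by
      have h1 : LinearMap.trace ℂ V (Q - q) = (rk (Q - q) : ℂ) :=
        trace_idemOp fun v => by rw [← Module.End.mul_apply, hQq2]
      rw [← hb', map_sub, trQ, htrq, sub_eq_iff_eq_add] at h1
      exact_mod_cast h1.symm
    let f : pos G P Q →ₗ[ℂ] V :=
      { toFun := fun z => (z : End ℂ V) v
        map_add' := fun z z' => rfl
        map_smul' := fun c z => rfl }
    let g : pos G P Q →ₗ[ℂ] Dual ℂ V :=
      { toFun := fun z => w ∘ₗ (z : End ℂ V)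
        map_add' := fun z z' => LinearMap.ext fun u => by
          change w (((z : End ℂ V) + (z' : End ℂ V)) u) = w ((z : End ℂ V) u) + w ((z' : End ℂ V) u)
          rw [LinearMap.add_apply, map_add]
        map_smul' := fun c z => LinearMap.ext fun u => by
          change w ((c • (z : End ℂ V)) u) = c • w ((z : End ℂ V) u)
          rw [LinearMap.smul_apply, map_smul] }
    have h1 := finrank_le_of_maps (LinearMap.range π1) f g
      (LinearMap.range (P - p)) (LinearMap.range (Q - q).dualMap) ?_ ?_ ?_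
    · rw [← hk, LinearMap.finrank_range_dualMap_eq_finrank_range] at h1
      have h2 : k ≤ a' + b' := by rw [ha', hb']; exact h1
      omega
    · intro z hz'
      obtain ⟨h1, h2⟩ := hW1 z hz'
      refine ⟨(z : End ℂ V) v, ?_⟩
      have h5 : p ((z : End ℂ V) v) = 0 := by
        rw [← hqv, ← Module.End.mul_apply, ← Module.End.mul_apply, h1, LinearMap.zero_apply]
      rw [LinearMap.sub_apply, h5, sub_zero, ← Module.End.mul_apply, z.2.2.1]
      rfl
    · intro z hz'
      obtain ⟨h1, h2⟩ := hW1 z hz'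
      refine ⟨w ∘ₗ (z : End ℂ V), ?_⟩
      refine LinearMap.ext fun u => ?_
      change w ((z : End ℂ V) ((Q - q) u)) = w ((z : End ℂ V) u)
      have h5 : w (((z : End ℂ V) * q) u) = 0 := by
        rw [← hwp, LinearMap.comp_apply, ← Module.End.mul_apply, ← mul_assoc, h1,
          LinearMap.zero_apply, map_zero]
      rw [LinearMap.sub_apply, map_sub, ← Module.End.mul_apply, ← Module.End.mul_apply, map_sub, h5,
        sub_zero, z.2.2.2]
    · intro z hz' hf hg
      obtain ⟨h1, h2⟩ := hW1 z hz'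
      obtain ⟨X, hX⟩ : ∃ X, X = (z : End ℂ V) := ⟨_, rfl⟩
      have hXW : X ∈ pos G P Q := by rw [hX]; exact z.2
      have hxv : X v = 0 := by
        rw [hX]
        exact hf
      have hxw : ∀ u, w (X u) = 0 := by
        intro u
        rw [hX]
        exact congrArg (fun φ : Dual ℂ V => φ u) hg
      rw [← hX] at h1 h2
      apply Subtype.ext
      rw [← hX]
      refine H.nondeg hXW fun Y hY => ?_
      -- the component of degree one
      obtain ⟨Y1, hY1⟩ : ∃ Y1, Y1 = q * Y + Y * p - (2 : ℂ) • (q * Y * p) := ⟨_, rfl⟩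
      have hY1m : Y1 ∈ pos G Q P := by
        have e1 : q * Y + Y * p ∈ pos G Q P := by
          have h3 := H.symm.tri hy hx hY
          rwa [← hq, mul_assoc Y, ← hp] at h3
        have e2 : ∀ z ∈ pos G Q P, q * z + z * p ∈ pos G Q P := by
          intro z hz
          have h3 := H.symm.tri hy hx hz
          rwa [← hq, mul_assoc z, ← hp] at h3
        have e3 : q * Y * p ∈ pos G Q P := by
          have h3 := Submodule.smul_mem (pos G Q P) (2 : ℂ)⁻¹
            (Submodule.sub_mem _ (e2 _ e1) e1)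
          have h4 : q * (q * Y + Y * p) + (q * Y + Y * p) * p - (q * Y + Y * p) =
              (2 : ℂ) • (q * Y * p) := by
            have h5 : q * (q * Y + Y * p) + (q * Y + Y * p) * p - (q * Y + Y * p) =
                (q * q) * Y + q * Y * p + (q * Y * p + Y * (p * p)) - (q * Y + Y * p) := by
              noncomm_ring
            rw [h5, hpp, hqq, two_smul]
            abel
          rwa [h4, smul_smul, inv_mul_cancel₀ two_ne_zero, one_smul] at h3
        rw [hY1]
        exact Submodule.sub_mem _ e1 (Submodule.smul_mem _ _ e3)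
      have hqYp : q * Y1 * p = 0 := by
        have e1 : q * Y1 * p = (q * q) * Y * p + q * Y * (p * p) -
            (2 : ℂ) • ((q * q) * Y * (p * p)) := by
          rw [hY1, mul_sub, sub_mul, mul_smul_comm, smul_mul_assoc]
          noncomm_ring
        rw [e1, hpp, hqq, two_smul]
        abel
      have h7 : X * Y1 * x = p * (X * Y1 * x) := by
        nth_rewrite 1 [← h2]
        have h8 : (p * X + X * q) * Y1 * x = p * (X * Y1 * x) + X * ((q * Y1 * p) * x) := by
          have e0 : (q * Y1 * p) * x = q * Y1 * x := by rw [mul_assoc, hpx]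
          rw [e0]
          noncomm_ring
        rw [h8, hqYp, zero_mul, mul_zero, add_zero]
      have h8 : x * Y1 * X = x * Y1 * X * q := by
        have h9 : x * Y1 * (p * X + X * q) = x * ((q * Y1 * p) * X) + x * Y1 * X * q := by
          have e0 : x * ((q * Y1 * p) * X) = x * Y1 * (p * X) := by
            have e00 : x * ((q * Y1 * p) * X) = (x * q) * Y1 * (p * X) := by noncomm_ring
            rw [e00, hxq]
          rw [e0]
          noncomm_ring
        rw [h2, hqYp, zero_mul, mul_zero, zero_add] at h9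
        exact h9
      obtain ⟨s, hs⟩ : ∃ s, s = X * Y1 * x + x * Y1 * X := ⟨_, rfl⟩
      have hsW : s ∈ pos G P Q := by
        rw [hs]
        exact H.tri hXW hY1m hx
      have hpsq : p * s * q = s := by
        rw [hs]
        have h9 : p * (X * Y1 * x + x * Y1 * X) * q =
            p * (X * Y1 * x) * q + (p * x) * Y1 * X * q := by noncomm_ring
        rw [h9, ← h7, hpx, ← h8, mul_assoc _ x q, hxq]
      obtain ⟨c, hc⟩ := hone s hsW hpsq
      have hsv : w (s v) = 0 := by
        rw [hs, LinearMap.add_apply, map_add, mul_assoc, Module.End.mul_apply, hxw, zero_add,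
          Module.End.mul_apply, hxv, map_zero, map_zero]
      have hc0 : c = 0 := by
        rw [hc, LinearMap.smul_apply, map_smul, smul_eq_mul] at hsv
        exact (mul_eq_zero.1 hsv).resolve_right hwxv
      have hs0 : s = 0 := by rw [hc, hc0, zero_smul]
      have htr : LinearMap.trace ℂ V (s * y) = LinearMap.trace ℂ V (X * Y1) := by
        rw [hs, add_mul, map_add]
        have e1 : LinearMap.trace ℂ V (X * Y1 * x * y) = LinearMap.trace ℂ V (p * X * Y1) := by
          rw [mul_assoc (X * Y1), ← hp, LinearMap.trace_mul_comm, mul_assoc]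
        have e2 : LinearMap.trace ℂ V (x * Y1 * X * y) = LinearMap.trace ℂ V (X * q * Y1) := by
          have e3 : x * Y1 * X * y = x * (Y1 * X * y) := by noncomm_ring
          rw [e3, LinearMap.trace_mul_comm]
          have e4 : Y1 * X * y * x = Y1 * (X * q) := by rw [hq]; noncomm_ring
          rw [e4, LinearMap.trace_mul_comm]
        rw [e1, e2, ← map_add, ← add_mul, h2]
      have htr2 : LinearMap.trace ℂ V (X * Y1) = LinearMap.trace ℂ V (X * Y) := by
        have e1 : X * Y1 = X * q * Y + X * Y * p - (2 : ℂ) • (X * q * Y * p) := by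
          rw [hY1, mul_sub, mul_smul_comm]
          noncomm_ring
        have e2 : LinearMap.trace ℂ V (X * Y * p) = LinearMap.trace ℂ V (p * X * Y) := by
          rw [LinearMap.trace_mul_comm, mul_assoc]
        have e3 : LinearMap.trace ℂ V (X * q * Y * p) = 0 := by
          rw [LinearMap.trace_mul_comm, ← mul_assoc, ← mul_assoc, h1, zero_mul, map_zero]
        rw [e1, map_sub, map_add, map_smul, e2, e3, smul_zero, sub_zero, ← map_add, ← add_mul,
          add_comm (X * q), h2]
      rw [← htr2, ← htr, hs0, zero_mul, map_zero]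
  have hcas := H.cas trP trQ p q T hPp hqQ hT
  rw [htrT, htrp, htrq] at hcas
  have hnat : a * b * (2 + k) = finrank ℂ (pos G P Q) * (b * m + a * m) := by exact_mod_cast hcas
  have hmm := arith hcop hm1 hbound hnat
  refine ⟨x, hx, ?_⟩
  have h1 : rk x ≤ rk p := by
    nth_rewrite 1 [← hpx]
    exact rk_mul_le_left _ _
  have h2 : rk x ≠ 0 := fun h0 => hx0 (rk_eq_zero h0)
  omega

end Two

/-- **Irreducible Lie algebras with an involution with eigenvalues of coprime multiplicities**
contain an element of rank one and degree one. -/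
theorem rk_one {G : Submodule ℂ (End ℂ V)} (hbr : ∀ X ∈ G, ∀ Y ∈ G, X * Y - Y * X ∈ G)
    (hirr : ∀ U : Submodule ℂ V, (∀ X ∈ G, ∀ u ∈ U, X u ∈ U) → U = ⊥ ∨ U = ⊤)
    {D : End ℂ V} (hD : D ∈ G) (hD2 : D * D = 1) {a b : ℕ}
    (ha : finrank ℂ (LinearMap.range (1 + D)) = a) (hb : finrank ℂ (LinearMap.range (1 - D)) = b)
    (h0a : 0 < a) (h0b : 0 < b) (hcop : Nat.Coprime a b) :
    ∃ N ∈ G, D * N = N ∧ N * D = -N ∧ rk N = 1 := by
  obtain ⟨P, hP⟩ : ∃ P, P = (1 / 2 : ℂ) • (1 + D) := ⟨_, rfl⟩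
  obtain ⟨Q, hQ⟩ : ∃ Q, Q = (1 / 2 : ℂ) • (1 - D) := ⟨_, rfl⟩
  have e1 : (1 + D) * (1 + D) = (2 : ℂ) • (1 + D) := by
    have h1 : (1 + D) * (1 + D) = 1 + D + D + D * D := by noncomm_ring
    rw [h1, hD2]
    module
  have e2 : (1 - D) * (1 - D) = (2 : ℂ) • (1 - D) := by
    have h1 : (1 - D) * (1 - D) = 1 - D - D + D * D := by noncomm_ring
    rw [h1, hD2]
    module
  have e3 : (1 + D) * (1 - D) = 0 := by
    have h1 : (1 + D) * (1 - D) = 1 - D * D := by noncomm_ring
    rw [h1, hD2, sub_self]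
  have e4 : (1 - D) * (1 + D) = 0 := by
    have h1 : (1 - D) * (1 + D) = 1 - D * D := by noncomm_ring
    rw [h1, hD2, sub_self]
  have hPP : P * P = P := by
    rw [hP, smul_mul_smul_comm, e1, smul_smul]
    norm_num
  have hQQ : Q * Q = Q := by
    rw [hQ, smul_mul_smul_comm, e2, smul_smul]
    norm_num
  have hDPQ : P - Q = D := by
    rw [hP, hQ]
    module
  have H : Two G P Q :=
    { br := hbr
      PP := hPP
      QQ := hQQ
      PQ := by rw [hP, hQ, smul_mul_smul_comm, e3, smul_zero]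
      QP := by rw [hP, hQ, smul_mul_smul_comm, e4, smul_zero]
      sum := by
        rw [hP, hQ]
        module
      D := by rw [hDPQ]; exact hD
      irr := hirr }
  have trP : LinearMap.trace ℂ V P = a := by
    have h1 : LinearMap.trace ℂ V P = (rk P : ℂ) :=
      trace_idemOp fun v => by rw [← Module.End.mul_apply, hPP]
    have h2 : rk P = a := by
      rw [hP, rk_smul (by norm_num : (1 / 2 : ℂ) ≠ 0)]
      exact ha
    rw [h1, h2]
  have trQ : LinearMap.trace ℂ V Q = b := by
    have h1 : LinearMap.trace ℂ V Q = (rk Q : ℂ) :=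
      trace_idemOp fun v => by rw [← Module.End.mul_apply, hQQ]
    have h2 : rk Q = b := by
      rw [hQ, rk_smul (by norm_num : (1 / 2 : ℂ) ≠ 0)]
      exact hb
    rw [h1, h2]
  have hne : pos G P Q ≠ ⊥ := by
    intro h0
    have h1 : ∀ X ∈ G, P * X * Q = 0 := by
      intro X hX
      have h2 : P * X * Q ∈ pos G P Q := ⟨H.grP hX, by rw [← mul_assoc, ← mul_assoc, H.PP],
        by rw [mul_assoc _ Q Q, H.QQ]⟩
      rwa [h0, Submodule.mem_bot] at h2
    rcases H.irr (LinearMap.range Q) (by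
      rintro X hX _ ⟨u, rfl⟩
      refine ⟨X (Q u), ?_⟩
      have h3 : P (X (Q u)) = 0 := by
        have h4 := congrArg (fun f : End ℂ V => f u) (h1 X hX)
        exact h4
      have h4 : P (X (Q u)) + Q (X (Q u)) = X (Q u) := by
        rw [← LinearMap.add_apply, H.sum, Module.End.one_apply]
      rwa [h3, zero_add] at h4) with h2 | h2
    · have h3 : rk Q = 0 := by
        unfold rk
        rw [h2, finrank_bot]
      have h4 : LinearMap.trace ℂ V Q = 0 := by rw [rk_eq_zero h3, map_zero]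
      rw [trQ] at h4
      have h5 : b = 0 := by exact_mod_cast h4
      omega
    · have h3 : P = 0 := by
        refine LinearMap.ext fun v => ?_
        have h4 : v ∈ LinearMap.range Q := by rw [h2]; trivial
        obtain ⟨u, rfl⟩ := h4
        rw [← Module.End.mul_apply, H.PQ, LinearMap.zero_apply, LinearMap.zero_apply]
      rw [h3, map_zero] at trP
      have h5 : a = 0 := by exact_mod_cast trP.symm
      omega
  obtain ⟨x, hx, hr⟩ := H.exists_rk_one trP trQ hne hcop
  refine ⟨x, hx.1, ?_, ?_, hr⟩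
  · have h1 : Q * x = 0 := by rw [← hx.2.1, ← mul_assoc, H.QP, zero_mul]
    rw [← hDPQ, sub_mul, hx.2.1, h1, sub_zero]
  · have h1 : x * P = 0 := by rw [← hx.2.2, mul_assoc, H.QP, mul_zero]
    rw [← hDPQ, mul_sub, hx.2.2, h1, zero_sub]

end

end Pool.Agent.Y224.TS.Cop
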