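import Mathlib
import Pool.Agent.Y224.TS.T5

/-!
# Irreducible submodules with two eigenspaces of dimension two, without elements of rank one

The arguments of `Pool.Agent.Y79.S4.Struct` (by helper79) for a Lie algebra of matrices which
contains an involution.
-/

set_option linter.unusedSectionVars false

namespace Pool.Agent.Y224.TS

open Matrix Module Pool.Agent.Y90 Pool.Agent.W437.HC Pool.Agent.W437.HD Pool.Agent.W548.Odd

noncomputable section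

variable {B : Type} [Fintype B] [DecidableEq B] {L : Submodule ℂ (Matrix B B ℂ)}
  {D : Matrix B B ℂ}

/-- The eigenspaces of a matrix. -/
def meig (D : Matrix B B ℂ) (c : ℂ) : Submodule ℂ (B → ℂ) where
  carrier := {v | D *ᵥ v = c • v}
  add_mem' := by
    intro a b ha hb
    change D *ᵥ (a + b) = c • (a + b)
    rw [mulVec_add, ha, hb, smul_add]
  zero_mem' := by
    change D *ᵥ 0 = c • 0
    rw [mulVec_zero, smul_zero]
  smul_mem' := by
    intro a v hv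
    change D *ᵥ (a • v) = c • a • v
    rw [mulVec_smul, hv, smul_comm]

theorem mem_meig {c : ℂ} {v : B → ℂ} : v ∈ meig D c ↔ D *ᵥ v = c • v := Iff.rfl

theorem meig_inf (c d : ℂ) (hcd : c ≠ d) : meig D c ⊓ meig D d = ⊥ := by
  rw [eq_bot_iff]
  rintro v ⟨h1, h2⟩
  have h3 : c • v = d • v := by rw [← mem_meig.1 h1, ← mem_meig.1 h2]
  rw [← sub_eq_zero, ← sub_smul, smul_eq_zero, sub_eq_zero] at h3
  exact h3.resolve_left hcd

theorem meig_add (hD2 : D * D = 1) {W : Submodule ℂ (B → ℂ)} (hW : ∀ u ∈ W, D *ᵥ u ∈ W) :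
    finrank ℂ (W ⊓ meig D 1 : Submodule ℂ (B → ℂ)) +
      finrank ℂ (W ⊓ meig D (-1) : Submodule ℂ (B → ℂ)) = finrank ℂ W := by
  have hDD : ∀ u, D *ᵥ (D *ᵥ u) = u := fun u => by rw [mulVec_mulVec, hD2, one_mulVec]
  refine finrank_split ?_ ?_
  · rw [eq_bot_iff, ← meig_inf (D := D) 1 (-1) (by norm_num)]
    exact le_inf (inf_le_left.trans inf_le_right) (inf_le_right.trans inf_le_right)
  · apply le_antisymm (sup_le inf_le_left inf_le_left)
    intro u hu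
    have h1 : u = (1 / 2 : ℂ) • (u + D *ᵥ u) + (1 / 2 : ℂ) • (u - D *ᵥ u) := by module
    rw [h1]
    refine Submodule.add_mem_sup ⟨W.smul_mem _ (W.add_mem hu (hW u hu)), ?_⟩
      ⟨W.smul_mem _ (W.sub_mem hu (hW u hu)), ?_⟩
    · rw [SetLike.mem_coe, mem_meig, mulVec_smul, mulVec_add, hDD]
      module
    · rw [SetLike.mem_coe, mem_meig, mulVec_smul, mulVec_sub, hDD]
      module

theorem neg_sq' (hD2 : D * D = 1) : -D * -D = 1 := by rw [neg_mul_neg, hD2]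

theorem gdn_mem (hbr : ∀ X ∈ L, ∀ Y ∈ L, X * Y - Y * X ∈ L) (hDm : D ∈ L) (hD2 : D * D = 1)
    {y : Matrix B B ℂ} (hy : y ∈ L) : (1 / 4 : ℂ) • ((1 - D) * y * (1 + D)) ∈ L := by
  have h := gup_mem hbr (L.neg_mem hDm) (neg_sq' hD2) hy
  rwa [← sub_eq_add_neg, sub_neg_eq_add] at h

theorem gdn_l (hD2 : D * D = 1) (y : Matrix B B ℂ) :
    D * ((1 / 4 : ℂ) • ((1 - D) * y * (1 + D))) = -((1 / 4 : ℂ) • ((1 - D) * y * (1 + D))) := by
  have h := gup_l (neg_sq' hD2) y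
  rw [← sub_eq_add_neg, sub_neg_eq_add, neg_mul] at h
  rw [← h, neg_neg, h]

theorem gdn_r (hD2 : D * D = 1) (y : Matrix B B ℂ) :
    ((1 / 4 : ℂ) • ((1 - D) * y * (1 + D))) * D = (1 / 4 : ℂ) • ((1 - D) * y * (1 + D)) := by
  have h := gup_r (neg_sq' hD2) y
  rw [← sub_eq_add_neg, sub_neg_eq_add, mul_neg] at h
  exact neg_injective h

/-- Elements of rank one for an involution. -/
def RkD (L : Submodule ℂ (Matrix B B ℂ)) (D : Matrix B B ℂ) (W : Submodule ℂ (B → ℂ)) : Prop :=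
  ∃ N ∈ L, D * N = N ∧ N * D = -N ∧ finrank ℂ (W.map (mulVecLin N)) = 1

/-- Elements of degree one. -/
structure Up (L : Submodule ℂ (Matrix B B ℂ)) (D : Matrix B B ℂ) (N : Matrix B B ℂ) :
    Prop where
  mem : N ∈ L
  l : D * N = N
  r : N * D = -N

theorem Up.kill {N : Matrix B B ℂ} (h : Up L D N)
    {u : B → ℂ} (hu : u ∈ meig D 1) : N *ᵥ u = 0 := by
  have h1 : N *ᵥ u = -(N *ᵥ u) := by
    calc N *ᵥ u = N *ᵥ (D *ᵥ u) := by rw [mem_meig.1 hu, one_smul]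
      _ = -(N *ᵥ u) := by rw [mulVec_mulVec, h.r, neg_mulVec]
  have h2 : (2 : ℂ) • (N *ᵥ u) = 0 := by
    rw [two_smul]
    nth_rewrite 1 [h1]
    exact neg_add_cancel _
  exact (smul_eq_zero.1 h2).resolve_left two_ne_zero

theorem Up.im {N : Matrix B B ℂ} (h : Up L D N)
    (u : B → ℂ) : N *ᵥ u ∈ meig D 1 := by
  rw [mem_meig, mulVec_mulVec, h.l, one_smul]

theorem Up.sub_smul {N N' : Matrix B B ℂ} (h : Up L D N)
    (h' : Up L D N') (c : ℂ) : Up L D (N' - c • N) := by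
  refine ⟨Submodule.sub_mem _ h'.mem (Submodule.smul_mem _ c h.mem), ?_, ?_⟩
  · rw [mul_sub, mul_smul_comm, h.l, h'.l]
  · rw [sub_mul, smul_mul_assoc, h.r, h'.r, smul_neg]
    abel

theorem half (hbr : ∀ X ∈ L, ∀ Y ∈ L, X * Y - Y * X ∈ L) (hDm : D ∈ L) (hD2 : D * D = 1) {W : Submodule ℂ (B → ℂ)} (hW : Stab (L) W)
    {v : B → ℂ} (hv : v ∈ W) :
    ∃ a ∈ W ⊓ meig D 1, ∃ b ∈ W ⊓ meig D (-1), v = a + b := by
  have h2 : D *ᵥ (D *ᵥ v) = v := by rw [mulVec_mulVec, hD2, one_mulVec]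
  have h3 := hW _ hDm v hv
  refine ⟨(1 / 2 : ℂ) • (v + D *ᵥ v), ⟨W.smul_mem _ (W.add_mem hv h3), ?_⟩,
    (1 / 2 : ℂ) • (v - D *ᵥ v), ⟨W.smul_mem _ (W.sub_mem hv h3), ?_⟩, by module⟩
  · rw [SetLike.mem_coe, mem_meig, mulVec_smul, mulVec_add, h2]
    module
  · rw [SetLike.mem_coe, mem_meig, mulVec_smul, mulVec_sub, h2]
    module

/-- There is an element of degree one which does not vanish on the submodule. -/
theorem exists_up' (hbr : ∀ X ∈ L, ∀ Y ∈ L, X * Y - Y * X ∈ L) (hDm : D ∈ L) (hD2 : D * D = 1) {U : Submodule ℂ (B → ℂ)} (hU : IrS (L) U)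
    (hp : finrank ℂ (U ⊓ meig D 1 : Submodule ℂ (B → ℂ)) ≠ 0) (hq : finrank ℂ (U ⊓ meig D (-1) : Submodule ℂ (B → ℂ)) ≠ 0) :
    ∃ N, Up L D N ∧ ∃ u ∈ U, N *ᵥ u ≠ 0 := by
  by_contra hcon
  push Not at hcon
  have hst : Stab (L) (U ⊓ meig D (-1)) := by
    rintro y hy u ⟨hu, hu'⟩
    refine ⟨hU.2.1 y hy u hu, ?_⟩
    have h1 := hcon _ ⟨gup_mem hbr hDm hD2 hy, gup_l hD2 y, gup_r hD2 y⟩ u hu
    have hu2 : D *ᵥ u = (-1 : ℂ) • u := hu'
    have h2 : (1 - D) *ᵥ u = (2 : ℂ) • u := by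
      rw [sub_mulVec, one_mulVec, hu2]
      module
    rw [smul_mulVec, ← mulVec_mulVec, ← mulVec_mulVec, h2, mulVec_smul, mulVec_smul, smul_smul,
      add_mulVec, one_mulVec] at h1
    have h3 := (smul_eq_zero.1 h1).resolve_left (by norm_num)
    rw [SetLike.mem_coe, mem_meig, neg_one_smul]
    exact eq_neg_of_add_eq_zero_right h3
  rcases hU.2.2 _ inf_le_left hst with h1 | h1
  · apply hq
    rw [h1, finrank_bot]
  · apply hp
    have h2 : U ⊓ meig D 1 = ⊥ := by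
      rw [eq_bot_iff, ← meig_inf (D := D) 1 (-1) (by norm_num)]
      rintro x ⟨hx, hx'⟩
      rw [← h1] at hx
      exact ⟨hx', hx.2⟩
    rw [h2, finrank_bot]

/-- An element of degree one which is singular vanishes. -/
theorem Up.zero {W : Submodule ℂ (B → ℂ)}
    (hr : ¬RkD L D W) (hd : finrank ℂ W = 4) (hp : finrank ℂ (W ⊓ meig D 1 : Submodule ℂ (B → ℂ)) = 2)
    {N : Matrix B B ℂ} (hN : Up L D N) {u : B → ℂ}
    (hu : u ∈ W) (hu1 : u ∈ meig D (-1)) (hu0 : u ≠ 0) (hNu : N *ᵥ u = 0) :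
    ∀ v ∈ W, N *ᵥ v = 0 := by
  let f : W →ₗ[ℂ] (B → ℂ) := (mulVecLin N).domRestrict W
  have h5 := LinearMap.finrank_range_add_finrank_ker f
  have h6 : LinearMap.range f = W.map (mulVecLin N) := by
    rw [LinearMap.range_domRestrict]
  have h7 : (W ⊓ meig D 1) ⊔ Submodule.span ℂ {u} ≤ (LinearMap.ker f).map W.subtype := by
    refine sup_le ?_ ?_
    · rintro x ⟨hx, hx'⟩
      exact ⟨⟨x, hx⟩, hN.kill hx', rfl⟩
    · rw [Submodule.span_singleton_le_iff_mem]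
      exact ⟨⟨u, hu⟩, hNu, rfl⟩
  have h8 := (Submodule.finrank_mono h7).trans (Submodule.finrank_map_le _ _)
  have h9 : (W ⊓ meig D 1) ⊓ Submodule.span ℂ {u} = ⊥ := by
    rw [eq_bot_iff, ← meig_inf (D := D) 1 (-1) (by norm_num)]
    rintro x ⟨hx, hx'⟩
    refine ⟨hx.2, ?_⟩
    have h10 : Submodule.span ℂ {u} ≤ meig D (-1) := by
      rw [Submodule.span_singleton_le_iff_mem]
      exact hu1
    exact h10 hx'
  have h11 := finrank_split h9 rfl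
  rw [finrank_span_singleton hu0] at h11
  have h12 : finrank ℂ (W ⊓ meig D 1 : Submodule ℂ (B → ℂ)) = 2 := hp
  rw [h12] at h11
  rw [h6] at h5
  have h13 : finrank ℂ (W.map (mulVecLin N)) ≠ 1 := by
    intro h14
    exact hr ⟨N, hN.mem, hN.l, hN.r, h14⟩
  have h14 : finrank ℂ (W.map (mulVecLin N)) = 0 := by omega
  intro v hv
  have h15 := Submodule.finrank_eq_zero.1 h14
  have h16 : N *ᵥ v ∈ W.map (mulVecLin N) := ⟨v, hv, rfl⟩
  rwa [h15, Submodule.mem_bot] at h16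

/-- Description of the submodule. -/
structure Fr (L : Submodule ℂ (Matrix B B ℂ)) (D : Matrix B B ℂ) (W : Submodule ℂ (B → ℂ))
    (N : Matrix B B ℂ) (e₁ e₂ f₁ f₂ : B → ℂ) : Prop where
  up : Up L D N
  me₁ : e₁ ∈ W
  me₂ : e₂ ∈ W
  mf₁ : f₁ ∈ W
  mf₂ : f₂ ∈ W
  de₁ : D *ᵥ e₁ = -e₁
  de₂ : D *ᵥ e₂ = -e₂
  df₁ : D *ᵥ f₁ = f₁
  df₂ : D *ᵥ f₂ = f₂
  ne₁ : N *ᵥ e₁ = f₁
  ne₂ : N *ᵥ e₂ = f₂
  nf₁ : N *ᵥ f₁ = 0
  nf₂ : N *ᵥ f₂ = 0
  gen : ∀ w ∈ W, ∃ x y z t : ℂ, w = x • e₁ + y • e₂ + z • f₁ + t • f₂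
  ind : ∀ x y z t : ℂ, x • e₁ + y • e₂ + z • f₁ + t • f₂ = 0 → x = 0 ∧ y = 0 ∧ z = 0 ∧ t = 0
  act : ∀ X ∈ L, ∃ p q r s a b c : ℂ,
    X *ᵥ e₁ = p • e₁ + r • e₂ + a • f₁ ∧ X *ᵥ e₂ = q • e₁ + s • e₂ + a • f₂ ∧
    X *ᵥ f₁ = b • e₁ + (p + c) • f₁ + r • f₂ ∧ X *ᵥ f₂ = b • e₂ + q • f₁ + (s + c) • f₂

theorem exists_Fr (hbr : ∀ X ∈ L, ∀ Y ∈ L, X * Y - Y * X ∈ L) (hDm : D ∈ L) (hD2 : D * D = 1) {W : Submodule ℂ (B → ℂ)} (hW : IrS (L) W)
    (hr : ¬RkD L D W) (hd : finrank ℂ W = 4) (hp : finrank ℂ (W ⊓ meig D 1 : Submodule ℂ (B → ℂ)) = 2) :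
    ∃ N e₁ e₂ f₁ f₂, Fr L D W N e₁ e₂ f₁ f₂ := by
  have hq : finrank ℂ (W ⊓ meig D (-1) : Submodule ℂ (B → ℂ)) = 2 := by
    have := meig_add hD2 (hW.2.1 D hDm)
    omega
  obtain ⟨N, hN, u₀, hu₀, hNu₀⟩ := exists_up' hbr hDm hD2 hW (by omega) (by omega)
  -- injectivity
  have hinj : ∀ u ∈ W ⊓ meig D (-1), N *ᵥ u = 0 → u = 0 := by
    rintro u ⟨hu, hu'⟩ hNu
    by_contra hu1
    exact hNu₀ (Up.zero hr hd hp hN hu hu' hu1 hNu u₀ hu₀)
  have hq' : finrank ℂ (W ⊓ meig D (-1) : Submodule ℂ (B → ℂ)) = 2 := hq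
  have hp' : finrank ℂ (W ⊓ meig D 1 : Submodule ℂ (B → ℂ)) = 2 := hp
  -- the map between the eigenspaces
  let φ : ∀ M : Matrix B B ℂ, Up L D M →
      ((W ⊓ meig D (-1) : Submodule ℂ (B → ℂ)) →ₗ[ℂ]
        (W ⊓ meig D 1 : Submodule ℂ (B → ℂ))) := fun M hM =>
    ((mulVecLin M).domRestrict (W ⊓ meig D (-1))).codRestrict (W ⊓ meig D 1)
      (fun u => ⟨hW.2.1 M hM.mem u u.2.1, hM.im u⟩)
  have hφ : ∀ M (hM : Up L D M) u, ((φ M hM u : _) : B → ℂ) = M *ᵥ u := fun M hM u => rfl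
  have hφi : Function.Injective (φ N hN) := by
    rw [injective_iff_map_eq_zero]
    intro u hu
    apply Subtype.ext
    refine hinj u u.2 ?_
    rw [← hφ N hN, hu]
    rfl
  let E := LinearEquiv.ofInjectiveOfFinrankEq (φ N hN) hφi (by rw [hq', hp'])
  have hE : ∀ u, E u = φ N hN u := fun u => rfl
  have : Nontrivial (W ⊓ meig D (-1) : Submodule ℂ (B → ℂ)) := by
    apply Module.nontrivial_of_finrank_pos (R := ℂ)
    rw [hq']
    norm_num
  -- proportionality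
  have hprop : ∀ M, Up L D M → ∃ c : ℂ, ∀ w ∈ W, M *ᵥ w = c • (N *ᵥ w) := by
    intro M hM
    obtain ⟨c, hc⟩ := Module.End.exists_eigenvalue
      (E.symm.toLinearMap ∘ₗ φ M hM : Module.End ℂ _)
    obtain ⟨u, hu⟩ := hc.exists_hasEigenvector
    have h1 := hu.apply_eq_smul
    have h2 : φ M hM u = c • φ N hN u := by
      have h3 : E (E.symm (φ M hM u)) = E (c • u) := congrArg E h1
      rw [LinearEquiv.apply_symm_apply, map_smul, hE] at h3
      exact h3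
    have h3 : M *ᵥ (u : B → ℂ) = c • (N *ᵥ (u : B → ℂ)) := by
      have := congrArg Subtype.val h2
      exact this
    refine ⟨c, fun w hw => ?_⟩
    have h4 := Up.zero hr hd hp (hN.sub_smul hM c) u.2.1 u.2.2
      (fun h0 => hu.2 (Subtype.ext h0)) (by
        rw [sub_mulVec, smul_mulVec, h3, sub_self]) w hw
    rw [sub_mulVec, smul_mulVec] at h4
    exact sub_eq_zero.1 h4
  let bas : Basis (Fin 2) ℂ (W ⊓ meig D (-1) : Submodule ℂ (B → ℂ)) :=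
    finBasisOfFinrankEq ℂ _ hq'
  set e₁ : B → ℂ := (bas 0).1 with he₁
  set e₂ : B → ℂ := (bas 1).1 with he₂
  have hme₁ : e₁ ∈ W ⊓ meig D (-1) := (bas 0).2
  have hme₂ : e₂ ∈ W ⊓ meig D (-1) := (bas 1).2
  have hgenm : ∀ w ∈ W ⊓ meig D (-1), ∃ x y : ℂ, w = x • e₁ + y • e₂ := by
    intro w hw
    refine ⟨bas.repr ⟨w, hw⟩ 0, bas.repr ⟨w, hw⟩ 1, ?_⟩
    have h1 := bas.sum_repr ⟨w, hw⟩
    rw [Fin.sum_univ_two] at h1
    exact (congrArg Subtype.val h1).symm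
  have hindm : ∀ x y : ℂ, x • e₁ + y • e₂ = 0 → x = 0 ∧ y = 0 := by
    intro x y hxy
    have h1 := bas.linearIndependent
    rw [Fintype.linearIndependent_iff] at h1
    have h2 := h1 ![x, y] (by
      rw [Fin.sum_univ_two]
      apply Subtype.ext
      exact hxy)
    exact ⟨h2 0, h2 1⟩
  have hgenp : ∀ w ∈ W ⊓ meig D 1, ∃ x y : ℂ, w = x • (N *ᵥ e₁) + y • (N *ᵥ e₂) := by
    intro w hw
    obtain ⟨x, y, hxy⟩ := hgenm (E.symm ⟨w, hw⟩) (E.symm ⟨w, hw⟩).2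
    refine ⟨x, y, ?_⟩
    rw [← mulVec_smul, ← mulVec_smul, ← mulVec_add, ← hxy]
    have h1 : φ N hN (E.symm ⟨w, hw⟩) = ⟨w, hw⟩ := E.apply_symm_apply _
    exact (congrArg Subtype.val h1).symm
  have hde₁ : D *ᵥ e₁ = -e₁ := by rw [mem_meig.1 hme₁.2, neg_one_smul]
  have hde₂ : D *ᵥ e₂ = -e₂ := by rw [mem_meig.1 hme₂.2, neg_one_smul]
  have hdm : ∀ u ∈ W ⊓ meig D (-1), D *ᵥ u = -u := by
    intro u hu
    rw [mem_meig.1 hu.2, neg_one_smul]
  have hdp : ∀ v, D *ᵥ (N *ᵥ v) = N *ᵥ v := by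
    intro v
    rw [mulVec_mulVec, hN.l]
  have hDDv : ∀ v : B → ℂ, D *ᵥ (D *ᵥ v) = v := fun v => by
    rw [mulVec_mulVec, hD2, one_mulVec]
  refine ⟨N, e₁, e₂, N *ᵥ e₁, N *ᵥ e₂, hN, hme₁.1, hme₂.1, hW.2.1 N hN.mem _ hme₁.1,
    hW.2.1 N hN.mem _ hme₂.1, hde₁, hde₂, hdp _, hdp _, rfl, rfl, hN.kill (hN.im _),
    hN.kill (hN.im _), ?_, ?_, ?_⟩
  · intro w hw
    obtain ⟨a, ha, b, hb, rfl⟩ := half hbr hDm hD2 hW.2.1 hw
    obtain ⟨x, y, rfl⟩ := hgenm b hb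
    obtain ⟨z, t, rfl⟩ := hgenp a ha
    exact ⟨x, y, z, t, by abel⟩
  · intro x y z t h0
    have h1 := congrArg (fun v => D *ᵥ v) h0
    simp only [mulVec_add, mulVec_smul, hde₁, hde₂, hdp, mulVec_zero] at h1
    have h2 : x • e₁ + y • e₂ = 0 := by
      have h3 : (2 : ℂ) • (x • e₁ + y • e₂) =
          (x • e₁ + y • e₂ + z • (N *ᵥ e₁) + t • (N *ᵥ e₂)) -
          (x • (-e₁) + y • (-e₂) + z • (N *ᵥ e₁) + t • (N *ᵥ e₂)) := by module
      rw [h0, h1, sub_self] at h3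
      exact (smul_eq_zero.1 h3).resolve_left two_ne_zero
    have h4 : N *ᵥ (z • e₁ + t • e₂) = 0 := by
      rw [mulVec_add, mulVec_smul, mulVec_smul]
      rw [h2, zero_add] at h0
      exact h0
    have h5 := hinj _ ((W ⊓ meig D (-1)).add_mem (Submodule.smul_mem _ z hme₁)
      (Submodule.smul_mem _ t hme₂)) h4
    exact ⟨(hindm _ _ h2).1, (hindm _ _ h2).2, (hindm _ _ h5).1, (hindm _ _ h5).2⟩
  · intro X hX
    set P := (1 / 4 : ℂ) • ((1 + D) * X * (1 - D)) with hP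
    set Q := (1 / 4 : ℂ) • ((1 - D) * X * (1 + D)) with hQ
    set Y := X - P - Q with hY
    have hPup : Up L D P := ⟨gup_mem hbr hDm hD2 hX, gup_l hD2 X, gup_r hD2 X⟩
    have hQm : Q ∈ L := gdn_mem hbr hDm hD2 hX
    have hQl : D * Q = -Q := gdn_l hD2 X
    have hQr : Q * D = Q := gdn_r hD2 X
    have hYm : Y ∈ L := Submodule.sub_mem _ (Submodule.sub_mem _ hX hPup.mem) hQm
    have hYD : D * Y = Y * D := by
      rw [hY, mul_sub, mul_sub, sub_mul, sub_mul, hPup.l, hPup.r, hQl, hQr, hP, hQ]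
      have h1 : D * X - X * D = (1 / 2 : ℂ) • ((1 + D) * X * (1 - D))
          - (1 / 2 : ℂ) • ((1 - D) * X * (1 + D)) := by
        have h2 : (1 + D) * X * (1 - D) - (1 - D) * X * (1 + D)
            = (2 : ℂ) • (D * X - X * D) := by
          rw [two_smul]
          noncomm_ring
        rw [← smul_sub, h2, smul_smul]
        norm_num
      have h3 : D * X = X * D + ((1 / 2 : ℂ) • ((1 + D) * X * (1 - D))
          - (1 / 2 : ℂ) • ((1 - D) * X * (1 + D))) := by rw [← h1]; abel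
      rw [h3]
      module
    have hXe : X = Y + P + Q := by rw [hY]; abel
    obtain ⟨a, ha⟩ := hprop P hPup
    -- the bracket of `Y` and `N`
    have hYN : Up L D (Y * N - N * Y) := by
      refine ⟨hbr _ hYm _ hN.mem, ?_, ?_⟩
      · rw [mul_sub, ← mul_assoc, hYD, mul_assoc, hN.l, ← mul_assoc, hN.l]
      · rw [sub_mul, mul_assoc, hN.r, mul_assoc, ← hYD, ← mul_assoc, hN.r]
        noncomm_ring
    obtain ⟨c, hc⟩ := hprop _ hYN
    -- the triple product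
    have hNQN : Up L D (N * Q * N) := by
      have hNN : N * N = 0 := by
        have h3 : N * N = -(N * N) := by
          calc N * N = N * (D * N) := by rw [hN.l]
            _ = -(N * N) := by rw [← mul_assoc, hN.r, neg_mul]
        have h4 : (2 : ℂ) • (N * N) = 0 := by
          rw [two_smul]
          nth_rewrite 1 [h3]
          rw [neg_add_cancel]
        exact (smul_eq_zero.1 h4).resolve_left two_ne_zero
      refine ⟨?_, ?_, ?_⟩
      · have h1 := hbr _ (hbr _ hN.mem _ hQm) _ hN.mem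
        have h2 : (N * Q - Q * N) * N - N * (N * Q - Q * N) = (2 : ℂ) • (N * Q * N) := by
          have h3 : (N * Q - Q * N) * N - N * (N * Q - Q * N) =
              (2 : ℂ) • (N * Q * N) - (Q * (N * N) + (N * N) * Q) := by
            rw [two_smul]
            noncomm_ring
          rw [h3, hNN, mul_zero, zero_mul, add_zero, sub_zero]
        rw [h2] at h1
        have h3 := Submodule.smul_mem _ (1 / 2 : ℂ) h1
        rw [smul_smul] at h3
        norm_num at h3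
        exact h3
      · rw [← mul_assoc, ← mul_assoc, hN.l]
      · rw [mul_assoc, hN.r, mul_neg]
    obtain ⟨b, hb⟩ := hprop _ hNQN
    have hQdn : ∀ v ∈ W, Q *ᵥ v ∈ W ⊓ meig D (-1) := by
      intro v hv
      refine ⟨hW.2.1 Q hQm v hv, ?_⟩
      rw [SetLike.mem_coe, mem_meig, mulVec_mulVec, hQl, neg_mulVec, neg_one_smul]
    have hQe : ∀ u ∈ W ⊓ meig D (-1), Q *ᵥ u = 0 := by
      intro u hu
      have h1 : Q *ᵥ u = -(Q *ᵥ u) := by
        calc Q *ᵥ u = (Q * D) *ᵥ u := by rw [hQr]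
          _ = -(Q *ᵥ u) := by rw [← mulVec_mulVec, hdm u hu, mulVec_neg]
      have h2 : (2 : ℂ) • (Q *ᵥ u) = 0 := by
        rw [two_smul]
        nth_rewrite 1 [h1]
        exact neg_add_cancel _
      exact (smul_eq_zero.1 h2).resolve_left two_ne_zero
    have hQf : ∀ u ∈ W ⊓ meig D (-1), Q *ᵥ (N *ᵥ u) = b • u := by
      intro u hu
      have h1 := hb u hu.1
      have h2 : N *ᵥ (Q *ᵥ (N *ᵥ u) - b • u) = 0 := by
        rw [mulVec_sub, mulVec_smul, mulVec_mulVec, mulVec_mulVec, h1, sub_self]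
      exact sub_eq_zero.1 (hinj _ (Submodule.sub_mem _
        (hQdn _ (hW.2.1 N hN.mem u hu.1)) (Submodule.smul_mem _ b hu)) h2)
    have hYe : ∀ u ∈ W ⊓ meig D (-1), Y *ᵥ u ∈ W ⊓ meig D (-1) := by
      intro u hu
      refine ⟨hW.2.1 Y hYm u hu.1, ?_⟩
      rw [SetLike.mem_coe, mem_meig, mulVec_mulVec, hYD, ← mulVec_mulVec, hdm u hu, mulVec_neg,
        neg_one_smul]
    have hYf : ∀ u ∈ W ⊓ meig D (-1), Y *ᵥ (N *ᵥ u) = N *ᵥ (Y *ᵥ u) + c • (N *ᵥ u) := by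
      intro u hu
      have h1 := hc u hu.1
      rw [sub_mulVec, ← mulVec_mulVec, ← mulVec_mulVec] at h1
      rw [← h1]
      abel
    obtain ⟨p, r, hpr⟩ := hgenm _ (hYe e₁ hme₁)
    obtain ⟨q, s, hqs⟩ := hgenm _ (hYe e₂ hme₂)
    have hPf : ∀ v, P *ᵥ (N *ᵥ v) = 0 := fun v => hPup.kill (hN.im v)
    refine ⟨p, q, r, s, a, b, c, ?_, ?_, ?_, ?_⟩
    · rw [hXe, add_mulVec, add_mulVec, hpr, ha _ hme₁.1, hQe _ hme₁, add_zero]
    · rw [hXe, add_mulVec, add_mulVec, hqs, ha _ hme₂.1, hQe _ hme₂, add_zero]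
    · rw [hXe, add_mulVec, add_mulVec, hYf _ hme₁, hpr, hPf, hQf _ hme₁, mulVec_add, mulVec_smul,
        mulVec_smul]
      module
    · rw [hXe, add_mulVec, add_mulVec, hYf _ hme₂, hqs, hPf, hQf _ hme₂, mulVec_add, mulVec_smul,
        mulVec_smul]
      module

end

end Pool.Agent.Y224.TS
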