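import Mathlib
import Pool.Agent.Y224.TS.T11

/-!
# Elements of rank one in dimension four, for submodules which are not self-dual

The argument of `Pool.Agent.Y79.S4.Two` (by helper79) for the Lie algebra generated by a set of
involutions.
-/

set_option linter.unusedSectionVars false

namespace Pool.Agent.Y224.TS

open Matrix Module Pool.Agent.Y90 Pool.Agent.W437.HC Pool.Agent.W437.HD Pool.Agent.W548.Odd

noncomputable section

variable {G : ℕ} {Z : Matrix (Fin G) (Fin G) ℂ}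
  {S : Set (Matrix (Fin G ⊕ Fin G) (Fin G ⊕ Fin G) ℂ)}

theorem TD.twotwo (h : TD Z S) (hZ : PM Z) {W : Submodule ℂ (Fin G ⊕ Fin G → ℂ)}
    (hW : IrS (LZ Z) W) (hd : finrank ℂ W = 4)
    (hns₀ : ∀ (σ : ℂ ≃+* ℂ) (c : ℂ), ∃ u ∈ W, DS Z σ *ᵥ u ≠ c • u) (hn : ¬SDu Z W)
    {D : Matrix (Fin G ⊕ Fin G) (Fin G ⊕ Fin G) ℂ} (hDS : D ∈ S)
    (hp : finrank ℂ (W ⊓ meig D 1 : Submodule ℂ (Fin G ⊕ Fin G → ℂ)) = 2) :
    RkD (LT S) D W := by
  by_contra hr
  have hW' : IrS (LT S) W := (h.irS hZ).2 hW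
  obtain ⟨N, e₁, e₂, f₁, f₂, F⟩ := exists_Fr (fun X hX Y hY => LT_br hX hY) (LT_gen hDS)
    (h.sq D hDS) hW' hr hd hp
  -- coordinates
  let T : (Fin 4 → ℂ) →ₗ[ℂ] (Fin G ⊕ Fin G → ℂ) :=
    (LinearMap.proj 0).smulRight e₁ + (LinearMap.proj 1).smulRight e₂ +
      (LinearMap.proj 2).smulRight f₁ + (LinearMap.proj 3).smulRight f₂
  have hT : ∀ x, T x = x 0 • e₁ + x 1 • e₂ + x 2 • f₁ + x 3 • f₂ := fun x => rfl
  have hTk : LinearMap.ker T = ⊥ := by
    rw [LinearMap.ker_eq_bot']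
    intro x hx
    rw [hT] at hx
    obtain ⟨h0, h1, h2, h3⟩ := F.ind _ _ _ _ hx
    funext i
    fin_cases i
    · exact h0
    · exact h1
    · exact h2
    · exact h3
  obtain ⟨GI, hGI⟩ := T.exists_leftInverse_of_injective hTk
  have hGT : ∀ x, GI (T x) = x := fun x => congrArg (fun f => f x) hGI
  have hTW : ∀ w ∈ W, ∃ x, w = T x := by
    intro w hw
    obtain ⟨a, b, c, d, rfl⟩ := F.gen w hw
    exact ⟨![a, b, c, d], rfl⟩
  have hTm : ∀ x, T x ∈ W := by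
    intro x
    rw [hT]
    exact W.add_mem (W.add_mem (W.add_mem (W.smul_mem _ F.me₁) (W.smul_mem _ F.me₂))
      (W.smul_mem _ F.mf₁)) (W.smul_mem _ F.mf₂)
  obtain ⟨b, hb⟩ : ∃ b : (Fin G ⊕ Fin G → ℂ) →ₗ[ℂ] (Fin G ⊕ Fin G → ℂ) →ₗ[ℂ] ℂ,
      ∀ x y, b (T x) (T y) = x 2 * y 1 - x 3 * y 0 - x 0 * y 3 + x 1 * y 2 := by
    let x0 : (Fin G ⊕ Fin G → ℂ) →ₗ[ℂ] ℂ := (LinearMap.proj 0).comp GI
    let x1 : (Fin G ⊕ Fin G → ℂ) →ₗ[ℂ] ℂ := (LinearMap.proj 1).comp GI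
    let x2 : (Fin G ⊕ Fin G → ℂ) →ₗ[ℂ] ℂ := (LinearMap.proj 2).comp GI
    let x3 : (Fin G ⊕ Fin G → ℂ) →ₗ[ℂ] ℂ := (LinearMap.proj 3).comp GI
    refine ⟨x2.smulRight x1 - x3.smulRight x0 - x0.smulRight x3 + x1.smulRight x2,
      fun x y => ?_⟩
    have h1 : (x2.smulRight x1 - x3.smulRight x0 - x0.smulRight x3 + x1.smulRight x2 :
      (Fin G ⊕ Fin G → ℂ) →ₗ[ℂ] (Fin G ⊕ Fin G → ℂ) →ₗ[ℂ] ℂ) (T x) (T y) =
      GI (T x) 2 * GI (T y) 1 - GI (T x) 3 * GI (T y) 0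
      - GI (T x) 0 * GI (T y) 3 + GI (T x) 1 * GI (T y) 2 := rfl
    rw [h1, hGT, hGT]
  -- semi-invariance
  have hsemi : ∀ X ∈ LT S, ∃ l : ℂ, ∀ u ∈ W, ∀ v ∈ W, b (X *ᵥ u) v + b u (X *ᵥ v) = l * b u v := by
    intro X hX
    obtain ⟨p, q, r, s, a, β, c, h1, h2, h3, h4⟩ := F.act X hX
    have hXT : ∀ x, X *ᵥ T x = T ![p * x 0 + q * x 1 + β * x 2, r * x 0 + s * x 1 + β * x 3,
        a * x 0 + (p + c) * x 2 + q * x 3, a * x 1 + r * x 2 + (s + c) * x 3] := by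
      intro x
      rw [hT, hT]
      simp only [mulVec_add, mulVec_smul, h1, h2, h3, h4, Matrix.cons_val_zero,
        Matrix.cons_val_one, Matrix.cons_val]
      module
    refine ⟨p + s + c, fun u hu v hv => ?_⟩
    obtain ⟨x, rfl⟩ := hTW u hu
    obtain ⟨y, rfl⟩ := hTW v hv
    rw [hXT, hXT, hb, hb, hb]
    simp only [Matrix.cons_val_zero, Matrix.cons_val_one, Matrix.cons_val]
    ring
  have hnd : ∀ u ∈ W, (∀ v ∈ W, b u v = 0) → u = 0 := by
    intro u hu hcon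
    obtain ⟨x, rfl⟩ := hTW u hu
    have h0 := hcon _ (hTm ![1, 0, 0, 0])
    have h1 := hcon _ (hTm ![0, 1, 0, 0])
    have h2 := hcon _ (hTm ![0, 0, 1, 0])
    have h3 := hcon _ (hTm ![0, 0, 0, 1])
    rw [hb] at h0 h1 h2 h3
    simp at h0 h1 h2 h3
    have h4 : x = 0 := by
      funext i
      fin_cases i
      · exact h3
      · exact h2
      · exact h1
      · exact h0
    rw [h4, map_zero]
  apply hn
  refine ⟨b, ?_, ?_⟩
  · by_contra hcon
    push Not at hcon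
    exact hW.1 ((Submodule.eq_bot_iff _).2 fun u hu => hnd u hu (hcon u hu))
  · have hD : ∀ E ∈ S, ∀ u ∈ W, ∀ v ∈ W, b (E *ᵥ u) v + b u (E *ᵥ v) = 0 := by
      intro E hE
      obtain ⟨l, hl⟩ := hsemi _ (LT_gen hE)
      have hDD : ∀ u, E *ᵥ (E *ᵥ u) = u := fun u => by
        rw [mulVec_mulVec, h.sq E hE, one_mulVec]
      have hDW : ∀ u ∈ W, E *ᵥ u ∈ W := hW'.2.1 _ (LT_gen hE)
      by_cases hl0 : l = 0
      · intro u hu v hv
        rw [hl u hu v hv, hl0, zero_mul]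
      · exfalso
        obtain ⟨u, hu, hne⟩ := h.nonscalar hZ hE hW.2.1 hns₀ (l / 2)
        apply hne
        refine sub_eq_zero.1 (hnd _ (W.sub_mem (hDW u hu) (W.smul_mem _ hu)) fun v hv => ?_)
        have h1 := hl u hu v hv
        have h2 := hl _ (hDW u hu) v hv
        have h3 := hl u hu _ (hDW v hv)
        rw [hDD] at h2 h3
        have h4 : l * (b (E *ᵥ u) v - b u (E *ᵥ v)) = 0 := by
          linear_combination h3 - h2
        have h5 := (mul_eq_zero.1 h4).resolve_left hl0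
        rw [map_sub, map_smul, LinearMap.sub_apply, LinearMap.smul_apply, smul_eq_mul]
        linear_combination h1 / 2 + h5 / 2
    let C : Submodule ℂ (Matrix (Fin G ⊕ Fin G) (Fin G ⊕ Fin G) ℂ) :=
      { carrier := {y | (∀ u ∈ W, y *ᵥ u ∈ W) ∧
          ∀ u ∈ W, ∀ v ∈ W, b (y *ᵥ u) v + b u (y *ᵥ v) = 0}
        add_mem' := fun {x y} hx hy => ⟨fun u hu => by
            rw [add_mulVec]
            exact W.add_mem (hx.1 u hu) (hy.1 u hu), fun u hu v hv => by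
          have h1 := hx.2 u hu v hv
          have h2 := hy.2 u hu v hv
          rw [add_mulVec, add_mulVec, map_add, map_add, LinearMap.add_apply]
          linear_combination h1 + h2⟩
        zero_mem' := ⟨fun u _ => by rw [zero_mulVec]; exact W.zero_mem, fun u _ v _ => by
          rw [zero_mulVec, zero_mulVec, map_zero, map_zero, LinearMap.zero_apply, add_zero]⟩
        smul_mem' := fun c y hy => ⟨fun u hu => by
            rw [smul_mulVec]
            exact W.smul_mem c (hy.1 u hu), fun u hu v hv => by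
          have h1 := hy.2 u hu v hv
          rw [smul_mulVec, smul_mulVec, map_smul, map_smul, LinearMap.smul_apply, ← smul_add, h1,
            smul_zero]⟩ }
    have hC : LT S ≤ C := by
      refine LT_le (fun E hE => ⟨hW'.2.1 _ (LT_gen hE), hD E hE⟩) (fun y hy z hz => ⟨fun u hu => ?_,
        fun u hu v hv => ?_⟩)
      · rw [sub_mulVec, ← mulVec_mulVec, ← mulVec_mulVec]
        exact W.sub_mem (hy.1 _ (hz.1 u hu)) (hz.1 _ (hy.1 u hu))
      · have e1 := hy.2 _ (hz.1 u hu) v hv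
        have e2 := hz.2 _ (hy.1 u hu) v hv
        have e3 := hy.2 u hu _ (hz.1 v hv)
        have e4 := hz.2 u hu _ (hy.1 v hv)
        rw [sub_mulVec, sub_mulVec, map_sub, map_sub, LinearMap.sub_apply, ← mulVec_mulVec,
          ← mulVec_mulVec, ← mulVec_mulVec, ← mulVec_mulVec]
        linear_combination e1 - e2 + e3 - e4
    exact (h.bil_on hZ hW.2.1 hW.2.1 b).1 fun X hX => (hC hX).2

end

end Pool.Agent.Y224.TS
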