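import Mathlib
import Pool.Agent.Y224.TS.T12
import Pool.Agent.Y224.TS.C2
import Pool.Agent.Y265.P.Abs
import Pool.Agent.Y126.JP.Setup

/-!
# Elements of rank one in the second Lie algebra: symplectic submodules and coprime multiplicities
-/

set_option linter.unusedSectionVars false

namespace Pool.Agent.Y224.TS

open Matrix Module Pool.Agent.W437.HC Pool.Agent.W437.HD Pool.Agent.W548.Odd Pool.Agent.W522.U
open Pool.Agent.H204R3.SP Pool.Agent.H204R3.GP Pool.Agent.Y90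
open Pool.Agent.W437.HP (cK cK_mul cK_one)

noncomputable section

variable {G : ℕ} {Z : Matrix (Fin G) (Fin G) ℂ}
  {S : Set (Matrix (Fin G ⊕ Fin G) (Fin G ⊕ Fin G) ℂ)}

namespace TD

variable (h : TD Z S)
include h

/-- Submodules which are stable under the involutions. -/
theorem stab_of {W : Submodule ℂ (Fin G ⊕ Fin G → ℂ)} (hW : ∀ D ∈ S, ∀ u ∈ W, D *ᵥ u ∈ W) :
    Stab (LT S) W := by
  let C : Submodule ℂ (Matrix (Fin G ⊕ Fin G) (Fin G ⊕ Fin G) ℂ) :=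
    { carrier := {X | ∀ u ∈ W, X *ᵥ u ∈ W}
      add_mem' := fun {X Y} hX hY u hu => by
        rw [add_mulVec]
        exact Submodule.add_mem _ (hX u hu) (hY u hu)
      zero_mem' := fun u _ => by
        rw [zero_mulVec]
        exact Submodule.zero_mem _
      smul_mem' := fun c X hX u hu => by
        rw [smul_mulVec]
        exact Submodule.smul_mem _ _ (hX u hu) }
  have hC : LT S ≤ C := LT_le (fun D hD => hW D hD) (fun A hA A' hA' u hu => by
    rw [sub_mulVec, ← mulVec_mulVec, ← mulVec_mulVec]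
    exact Submodule.sub_mem _ (hA _ (hA' u hu)) (hA' _ (hA u hu)))
  exact fun X hX => hC hX

variable {U : Submodule ℂ (Fin G ⊕ Fin G → ℂ)} (hU' : IrS (LT S) U)
include hU'

theorem res_top (W : Submodule ℂ U) (hs : Stab (LT S) (W.map U.subtype)) : W = ⊥ ∨ W = ⊤ := by
  rcases hU'.2.2 _ (Submodule.map_subtype_le _ _) hs with h2 | h2
  · left
    rw [eq_bot_iff]
    intro u hu
    have h3 : (u : Fin G ⊕ Fin G → ℂ) ∈ W.map U.subtype := ⟨u, hu, rfl⟩
    rw [h2, Submodule.mem_bot] at h3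
    rw [Submodule.mem_bot]
    exact Subtype.ext h3
  · right
    rw [eq_top_iff]
    intro u _
    have h3 : (u : Fin G ⊕ Fin G → ℂ) ∈ W.map U.subtype := by
      rw [h2]
      exact u.2
    obtain ⟨u', hu', huu⟩ := h3
    have h4 : u' = u := Subtype.ext huu
    rw [← h4]
    exact hu'

theorem res_sq {D : Matrix (Fin G ⊕ Fin G) (Fin G ⊕ Fin G) ℂ} (hD : D ∈ S)
    (hst : ∀ u ∈ U, D *ᵥ u ∈ U) : resM D U hst * resM D U hst = 1 := by
  refine LinearMap.ext fun u => Subtype.ext ?_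
  rw [Module.End.mul_apply, resM_coe, resM_coe, mulVec_mulVec, h.sq D hD, one_mulVec]
  rfl

/-- The restrictions of the involutions act irreducibly. -/
theorem res_irr (W : Submodule ℂ U) (hW : ∀ X ∈ resL (LT S) U, X * X = (1 / 4 : ℂ) • 1 →
    ∀ u ∈ W, X u ∈ W) : W = ⊥ ∨ W = ⊤ := by
  have hst : ∀ D ∈ S, ∀ u ∈ U, D *ᵥ u ∈ U := fun D hD u hu => hU'.2.1 D (LT_gen hD) u hu
  refine h.res_top hU' W (h.stab_of ?_)
  rintro D hD _ ⟨u, hu, rfl⟩
  have h1 := hW ((1 / 2 : ℂ) • resM D U (hst D hD))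
    ⟨(1 / 2 : ℂ) • D, Submodule.smul_mem _ _ (LT_gen hD), fun u => by
      rw [LinearMap.smul_apply, Submodule.coe_smul, resM_coe, smul_mulVec]⟩ (by
      rw [smul_mul_smul_comm, h.res_sq hU' hD]
      norm_num) u hu
  rw [LinearMap.smul_apply] at h1
  have h2 := W.smul_mem (2 : ℂ) h1
  rw [smul_smul] at h2
  norm_num at h2
  exact ⟨_, h2, rfl⟩

/-- The restrictions of all elements act irreducibly. -/
theorem res_irr' (W : Submodule ℂ U) (hW : ∀ X ∈ resL (LT S) U, ∀ u ∈ W, X u ∈ W) :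
    W = ⊥ ∨ W = ⊤ := h.res_irr hU' W fun X hX _ => hW X hX

/-- Graded elements of rank one from elements of rank one, in the symplectic case. -/
theorem graded {D : Matrix (Fin G ⊕ Fin G) (Fin G ⊕ Fin G) ℂ} (hD : D ∈ S)
    {ωU : U →ₗ[ℂ] U →ₗ[ℂ] ℂ} (halt : ∀ v, ωU v v = 0) (hnd : ∀ u, (∀ v, ωU u v = 0) → u = 0)
    (hsp : ∀ y ∈ resL (LT S) U, ∀ x z, ωU (y x) z + ωU x (y z) = 0)
    {e : End ℂ U} (he : e ∈ resL (LT S) U) (he1 : rk e = 1) :
    ∃ D ∈ LT S, D * D = 1 ∧ ∃ N ∈ LT S, D * N = N ∧ N * D = -N ∧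
      finrank ℂ (U.map (mulVecLin N)) = 1 := by
  have hst : ∀ D ∈ S, ∀ u ∈ U, D *ᵥ u ∈ U := fun D hD u hu => hU'.2.1 D (LT_gen hD) u hu
  have hbr : ∀ X ∈ LT S, ∀ Y ∈ LT S, X * Y - Y * X ∈ LT S := fun X hX Y hY => LT_br hX hY
  have hDm : D ∈ LT S := LT_gen hD
  have hD2 := h.sq D hD
  obtain ⟨X, hX, heX⟩ := he
  have hDr := h.res_sq hU' hD (hst D hD)
  rcases up_or_dn halt hnd hDr (hsp _ ⟨D, hDm, fun u => rfl⟩) (hsp e ⟨X, hX, heX⟩) he1 with
    h5 | h5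
  · refine ⟨D, hDm, hD2, _, gup_mem hbr hDm hD2 hX, gup_l hD2 X, gup_r hD2 X, ?_⟩
    rw [finrank_map_res (Y := (1 / 4 : ℂ) • ((1 + resM D U (hst D hD)) * e *
      (1 - resM D U (hst D hD)))) (fun u => ?_), rk_one_of h5 he1]
    rw [smul_mulVec, ← mulVec_mulVec, ← mulVec_mulVec]
    simp only [LinearMap.smul_apply, Module.End.mul_apply, LinearMap.add_apply,
      LinearMap.sub_apply, Module.End.one_apply, Submodule.coe_smul, Submodule.coe_add,
      Submodule.coe_sub, resM_coe, heX, add_mulVec, sub_mulVec, one_mulVec]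
  · have hDm' : -D ∈ LT S := Submodule.neg_mem _ hDm
    have hD2' : -D * -D = 1 := by rw [neg_mul_neg, hD2]
    refine ⟨-D, hDm', hD2', _, gup_mem hbr hDm' hD2' hX, gup_l hD2' X, gup_r hD2' X, ?_⟩
    rw [finrank_map_res (Y := (1 / 4 : ℂ) • ((1 - resM D U (hst D hD)) * e *
      (1 + resM D U (hst D hD)))) (fun u => ?_), rk_one_of h5 he1]
    rw [smul_mulVec, ← mulVec_mulVec, ← mulVec_mulVec, sub_neg_eq_add, ← sub_eq_add_neg]
    simp only [LinearMap.smul_apply, Module.End.mul_apply, LinearMap.add_apply,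
      LinearMap.sub_apply, Module.End.one_apply, Submodule.coe_smul, Submodule.coe_add,
      Submodule.coe_sub, resM_coe, heX, add_mulVec, sub_mulVec, one_mulVec]

/-- Symplectic submodules of dimension not divisible by four: elements of rank one (the argument of
`Pool.Agent.Y454.S4.Odd` by helper454). -/
theorem sympl_odd {ωU : U →ₗ[ℂ] U →ₗ[ℂ] ℂ} (halt : ∀ v, ωU v v = 0)
    (hndl : ∀ u, (∀ v, ωU u v = 0) → u = 0)
    (hsp : ∀ y ∈ resL (LT S) U, ∀ x z, ωU (y x) z + ωU x (y z) = 0)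
    (h4 : ¬ 4 ∣ finrank ℂ U) : ∃ e ∈ resL (LT S) U, rk e = 1 := by
  obtain ⟨D₀, hD₀, -⟩ := h.ex (RingEquiv.refl ℂ)
  have hst : ∀ D ∈ S, ∀ u ∈ U, D *ᵥ u ∈ U := fun D hD u hu => hU'.2.1 D (LT_gen hD) u hu
  have hbrM : ∀ X ∈ LT S, ∀ Y ∈ LT S, X * Y - Y * X ∈ LT S := fun X hX Y hY => LT_br hX hY
  have hbr := resL_br hbrM U
  have hirr := h.res_irr hU'
  have hanti : ∀ u v, ωU u v = -ωU v u := anti_of_alt halt
  have hndr : ∀ w, (∀ v, ωU v w = 0) → w = 0 := fun w hw =>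
    hndl w fun v => by rw [hanti, hw, neg_zero]
  have hset := Pool.Agent.Y126.JP.setup hbr hsp hirr hndl hndr
  have hsc := Pool.Agent.Y126.JP.scal hirr
  have hmem : ∀ D (hD : D ∈ S), resM D U (hst D hD) ∈ resL (LT S) U := fun D hD =>
    ⟨D, LT_gen hD, fun u => rfl⟩
  obtain ⟨D, hDdef⟩ : ∃ D, D = resM D₀ U (hst D₀ hD₀) := ⟨_, rfl⟩
  have hD : D ∈ resL (LT S) U := by rw [hDdef]; exact hmem D₀ hD₀
  have hD2 : D * D = 1 := by rw [hDdef]; exact h.res_sq hU' hD₀ _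
  have hI := gn_idl hset hD
  have hgn : resL (LT S) U ≤ gn (resL (LT S) U) D := by
    let L : Submodule ℂ (Matrix (Fin G ⊕ Fin G) (Fin G ⊕ Fin G) ℂ) :=
      { carrier := {X | ∃ y ∈ gn (resL (LT S) U) D, ∀ w : U,
          ((y w : U) : Fin G ⊕ Fin G → ℂ) = X *ᵥ (w : Fin G ⊕ Fin G → ℂ)}
        zero_mem' := ⟨0, Submodule.zero_mem _, fun w => by rw [zero_mulVec]; rfl⟩
        add_mem' := by
          rintro a b ⟨y, hy, ha⟩ ⟨z, hz, hb⟩
          refine ⟨y + z, Submodule.add_mem _ hy hz, fun w => ?_⟩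
          rw [add_mulVec, ← ha, ← hb]
          rfl
        smul_mem' := by
          rintro c a ⟨y, hy, ha⟩
          refine ⟨c • y, Submodule.smul_mem _ c hy, fun w => ?_⟩
          rw [smul_mulVec, ← ha]
          rfl }
    have hL : LT S ≤ L := by
      refine LT_le (fun E hE => ?_) ?_
      · have hS2 := h.res_sq hU' hE (hst E hE)
        rcases Pool.Agent.Y91.JP.invol_dich hset hsc hI (D := resM E U (hst E hE))
          (hmem E hE) hS2 with h1 | h1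
        · exact ⟨_, h1, fun w => rfl⟩
        · exact absurd (Pool.Agent.Y265.P.four_dvd hset hsc hD hD2 h1 hS2) h4
      · rintro A ⟨y, hy, ha⟩ C ⟨z, hz, hc⟩
        refine ⟨y * z - z * y, hI.br _ (hI.le hy) _ hz, fun w => ?_⟩
        rw [sub_mulVec, ← mulVec_mulVec, ← mulVec_mulVec, ← hc, ← ha, ← ha, ← hc]
        rfl
    rintro y ⟨X, hX, hy⟩
    obtain ⟨z, hz, hzX⟩ := hL hX
    have h1 : y = z := LinearMap.ext fun w => Subtype.ext (by rw [hy, hzX])
    rw [h1]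
    exact hz
  exact Pool.Agent.Y265.P.rank_one_four hset hsc
    (Pool.Agent.Y126.JP.altF_adj halt hndr) (Pool.Agent.Y126.JP.adj_trace hndr) hD hD2 hgn h4

/-- Symplectic submodules of dimension four or not divisible by four. -/
theorem sympl {ωU : U →ₗ[ℂ] U →ₗ[ℂ] ℂ} (halt : ∀ v, ωU v v = 0)
    (hnd : ∀ u, (∀ v, ωU u v = 0) → u = 0)
    (hsp : ∀ y ∈ resL (LT S) U, ∀ x z, ωU (y x) z + ωU x (y z) = 0)
    (hd : ¬ 4 ∣ finrank ℂ U ∨ finrank ℂ U = 4) :
    ∃ D ∈ LT S, D * D = 1 ∧ ∃ N ∈ LT S, D * N = N ∧ N * D = -N ∧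
      finrank ℂ (U.map (mulVecLin N)) = 1 := by
  obtain ⟨D₀, hD₀, -⟩ := h.ex (RingEquiv.refl ℂ)
  have hbrM : ∀ X ∈ LT S, ∀ Y ∈ LT S, X * Y - Y * X ∈ LT S := fun X hX Y hY => LT_br hX hY
  have he : ∃ e ∈ resL (LT S) U, rk e = 1 := by
    rcases hd with hd | hd
    · exact h.sympl_odd hU' halt hnd hsp hd
    · exact exists_rank_one_small halt hnd (resL_br hbrM U) hsp (h.res_irr hU')
        (by omega) (by omega)
  obtain ⟨e, he, he1⟩ := he
  exact h.graded hU' hD₀ halt hnd hsp he he1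

omit hU' in
/-- Coprime multiplicities. -/
theorem coprime (hZ : PM Z) (hU : IrS (LZ Z) U) (hp : 0 < pd Z U) (hq : 0 < qd Z U)
    (hc : Nat.Coprime (pd Z U) (qd Z U)) :
    ∃ D ∈ LT S, D * D = 1 ∧ ∃ N ∈ LT S, D * N = N ∧ N * D = -N ∧
      finrank ℂ (U.map (mulVecLin N)) = 1 := by
  have hU' : IrS (LT S) U := (h.irS hZ).2 hU
  obtain ⟨D, hD, hσ⟩ := h.ex (RingEquiv.refl ℂ)
  have hst : ∀ D ∈ S, ∀ u ∈ U, D *ᵥ u ∈ U := fun D hD u hu => hU'.2.1 D (LT_gen hD) u hu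
  have hbrM : ∀ X ∈ LT S, ∀ Y ∈ LT S, X * Y - Y * X ∈ LT S := fun X hX Y hY => LT_br hX hY
  have hDm : D ∈ LT S := LT_gen hD
  have hD2 := h.sq D hD
  obtain ⟨d1, d2⟩ := h.dims hZ hD hσ hU.2.1
  have hcj : cjS (RingEquiv.refl ℂ).symm U = U := by
    ext v
    rfl
  rw [hcj] at d1 d2
  obtain ⟨Dr, hDr⟩ : ∃ Dr, Dr = resM D U (hst D hD) := ⟨_, rfl⟩
  have hDrm : Dr ∈ resL (LT S) U := by rw [hDr]; exact ⟨D, hDm, fun u => rfl⟩
  have hDr2 : Dr * Dr = 1 := by rw [hDr]; exact h.res_sq hU' hD _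
  have hDra : ∀ u : U, ((Dr u : U) : Fin G ⊕ Fin G → ℂ) = D *ᵥ (u : Fin G ⊕ Fin G → ℂ) :=
    fun u => by rw [hDr]; rfl
  have key : ∀ ε : ℂ, ε * ε = 1 → (LinearMap.range (1 + ε • Dr)).map U.subtype =
      es (ph (Fin G ⊕ Fin G) D) U ε := by
    intro ε hε
    ext v
    constructor
    · rintro ⟨_, ⟨u, rfl⟩, rfl⟩
      refine mem_es.2 ⟨((1 + ε • Dr) u).2, ?_⟩
      change D *ᵥ (((1 + ε • Dr) u : U) : Fin G ⊕ Fin G → ℂ) = ε • (((1 + ε • Dr) u : U) : _)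
      rw [← hDra, LinearMap.add_apply, Module.End.one_apply, LinearMap.smul_apply, map_add,
        map_smul, ← Module.End.mul_apply, hDr2, Module.End.one_apply, ← Submodule.coe_smul,
        smul_add, smul_smul, hε, one_smul, add_comm]
    · intro hv
      obtain ⟨h1, h2⟩ := mem_es.1 hv
      have h2' : D *ᵥ v = ε • v := h2
      refine ⟨⟨v, h1⟩, ⟨(1 / 2 : ℂ) • ⟨v, h1⟩, ?_⟩, rfl⟩
      apply Subtype.ext
      rw [LinearMap.add_apply, Module.End.one_apply, LinearMap.smul_apply, map_smul,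
        Submodule.coe_add, Submodule.coe_smul, Submodule.coe_smul, Submodule.coe_smul, hDra]
      change (1 / 2 : ℂ) • v + ε • (1 / 2 : ℂ) • (D *ᵥ v) = v
      rw [h2', smul_comm ε, smul_smul ε ε, hε]
      module
  have k1 : finrank ℂ (LinearMap.range (1 + Dr)) = pd Z U := by
    have e1 : (1 : End ℂ U) + (1 : ℂ) • Dr = 1 + Dr := by module
    rw [← d1, ← key 1 (by norm_num), e1, Submodule.finrank_map_subtype_eq]
  have k2 : finrank ℂ (LinearMap.range (1 - Dr)) = qd Z U := by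
    have e1 : (1 : End ℂ U) + (-1 : ℂ) • Dr = 1 - Dr := by module
    rw [← d2, ← key (-1) (by norm_num), e1, Submodule.finrank_map_subtype_eq]
  obtain ⟨N, ⟨X, hX, hNX⟩, h1, h2, h3⟩ := Cop.rk_one (resL_br hbrM U) (h.res_irr' hU') hDrm hDr2 k1
    k2 hp hq hc
  refine ⟨D, hDm, hD2, _, gup_mem hbrM hDm hD2 hX, gup_l hD2 X, gup_r hD2 X, ?_⟩
  rw [finrank_map_res (Y := N) (fun u => ?_), h3]
  have h4 : N = (1 / 4 : ℂ) • ((1 + Dr) * N * (1 - Dr)) := by
    have h5 : (1 + Dr) * N * (1 - Dr) = (4 : ℂ) • N := by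
      rw [add_mul, one_mul, h1, mul_sub (N + N), mul_one, add_mul, h2]
      module
    rw [h5, smul_smul]
    norm_num
  nth_rewrite 1 [h4]
  rw [smul_mulVec, ← mulVec_mulVec, ← mulVec_mulVec]
  simp only [LinearMap.smul_apply, Module.End.mul_apply, LinearMap.add_apply,
    LinearMap.sub_apply, Module.End.one_apply, Submodule.coe_smul, Submodule.coe_add,
    Submodule.coe_sub, hDra, hNX, add_mulVec, sub_mulVec, one_mulVec]

end TD

end

end Pool.Agent.Y224.TS
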