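import Mathlib
import Pool.Agent.Y224.TS.T13
import Pool.Agent.Y90.S.Loc
import Pool.Agent.Y758.S4.RM
import Pool.Agent.Y31.S4.Iq

/-!
# Elements of rank one in the second Lie algebra if the simple factors are admissible
-/

set_option linter.unusedSectionVars false

namespace Pool.Agent.Y224.TS

open Matrix Module Pool.Agent.W437.HC Pool.Agent.W437.HD Pool.Agent.W548.Odd Pool.Agent.W522.U
open Pool.Agent.H204R3.SP Pool.Agent.H204R3.GP Pool.Agent.Y90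
open Pool.Agent.W437.HP (cK cK_mul cK_one)
open Pool.Agent.Y90.S (RMA IQ AdmC AdmF KW EG)

noncomputable section

variable {G : ℕ} {Z : Matrix (Fin G) (Fin G) ℂ}
  {S : Set (Matrix (Fin G ⊕ Fin G) (Fin G ⊕ Fin G) ℂ)}

section fac

variable {a : ℕ} {Z' : Matrix (Fin a) (Fin a) ℂ}
  {E : Matrix (Fin G ⊕ Fin G) (Fin a ⊕ Fin a) ℚ} {F : Matrix (Fin a ⊕ Fin a) (Fin G ⊕ Fin G) ℚ}
  {U : Submodule ℂ (Fin G ⊕ Fin G → ℂ)}

/-- Self-duality and simple factors. -/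
theorem sdu_fac (hf : Fac Z Z' E F) (hU : Stab (LZ Z) U) (hi : ∀ u ∈ U, ml F u = 0 → u = 0)
    (hs : SDu Z U) : SDu Z' (U.map (ml F)) := by
  obtain ⟨b, ⟨u, hu, v, hv, huv⟩, hb⟩ := hs
  obtain ⟨g, hg⟩ := LinearMap.exists_extend
    (U.subtype ∘ₗ ((Pool.Agent.Y90.S.eqvF hi).symm : U.map (ml F) →ₗ[ℂ] U))
  have hgF : ∀ u ∈ U, g (ml F u) = u := by
    intro u hu
    have h1 := congrArg (fun f => f (Pool.Agent.Y90.S.eqvF hi ⟨u, hu⟩)) hg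
    have h2 : (U.subtype ∘ₗ ((Pool.Agent.Y90.S.eqvF hi).symm : U.map (ml F) →ₗ[ℂ] U))
        (Pool.Agent.Y90.S.eqvF hi ⟨u, hu⟩) = u := by
      rw [LinearMap.comp_apply, LinearEquiv.coe_coe, LinearEquiv.symm_apply_apply]
      rfl
    exact h1.trans h2
  refine ⟨b.compl₁₂ g g, ⟨ml F u, ⟨u, hu, rfl⟩, ml F v, ⟨v, hv, rfl⟩, ?_⟩, ?_⟩
  · rw [LinearMap.compl₁₂_apply, hgF u hu, hgF v hv]
    exact huv
  · rintro X hX _ ⟨u, hu, rfl⟩ _ ⟨v, hv, rfl⟩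
    obtain ⟨Y, hY, rfl⟩ := hf.lift hX
    rw [LinearMap.compl₁₂_apply, LinearMap.compl₁₂_apply, ← hf.act hY, ← hf.act hY, hgF u hu,
      hgF v hv, hgF _ (hU Y hY u hu), hgF _ (hU Y hY v hv)]
    exact hb Y hY u hu v hv

/-- The multiplicities and simple factors. -/
theorem pd_fac (hZ : PM Z) (hZ' : PM Z') (hf : Fac Z Z' E F) (hU : Stab (LZ Z) U)
    (hU' : Stab (LZ Z') (U.map (ml F))) (hi : ∀ u ∈ U, ml F u = 0 → u = 0) :
    pd Z U = pd Z' (U.map (ml F)) ∧ qd Z U = qd Z' (U.map (ml F)) := by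
  have h1 := pd_add_qd hZ hU
  have h2 := pd_add_qd hZ' hU'
  have h3 := finrank_ml (F := F) hi
  have h4 := tr_fac hf hi hU (RingEquiv.refl ℂ)
  have hcj : ∀ {n : ℕ} (W : Submodule ℂ (Fin n ⊕ Fin n → ℂ)), cjS (RingEquiv.refl ℂ) W = W := by
    intro n W
    ext v
    rfl
  rw [hcj, hcj] at h4
  have h5 : (pd Z' (U.map (ml F)) : ℤ) - qd Z' (U.map (ml F)) = (pd Z U : ℤ) - qd Z U := h4
  omega

end fac

namespace TD

variable (h : TD Z S) (hZ : PM Z)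
include h hZ

/-- Simple factors of dimension at most three. -/
theorem rk_small {U : Submodule ℂ (Fin G ⊕ Fin G → ℂ)} (hU : IrS (LZ Z) U)
    (hn : 2 ≤ finrank ℂ U)
    (hns₀ : ∀ (σ : ℂ ≃+* ℂ) (c : ℂ), ∃ u ∈ U, DS Z σ *ᵥ u ≠ c • u) {a : ℕ}
    {Z' : Matrix (Fin a) (Fin a) ℂ} {E : Matrix (Fin G ⊕ Fin G) (Fin a ⊕ Fin a) ℚ}
    {F : Matrix (Fin a ⊕ Fin a) (Fin G ⊕ Fin G) ℚ} (hfac : Fac Z Z' E F) (hPM : PM Z')
    (hsim : IsSimpleAV Z') (hu : ∃ u ∈ U, ml F u ≠ 0) (ha3 : a ≤ 3) :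
    ∃ D ∈ LT S, D * D = 1 ∧ ∃ N ∈ LT S, D * N = N ∧ N * D = -N ∧
      finrank ℂ (U.map (mulVecLin N)) = 1 := by
  obtain ⟨D, hD, -⟩ := h.ex (RingEquiv.refl ℂ)
  have hns := h.nonscalar hZ hD hU.2.1 hns₀
  have hU' : IrS (LT S) U := (h.irS hZ).2 hU
  have hbr : ∀ X ∈ LT S, ∀ Y ∈ LT S, X * Y - Y * X ∈ LT S := fun X hX Y hY => LT_br hX hY
  have hDm : D ∈ LT S := LT_gen hD
  have hD2 := h.sq D hD
  by_cases h3 : finrank ℂ U ≤ 3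
  · obtain ⟨N, hN, h1, h2, hu⟩ := exists_gup hbr hDm hD2 hU' hns
    refine ⟨D, hDm, hD2, N, hN, h1, h2, ?_⟩
    have h4 := two_rank_le' (fun u hu => hU'.2.1 N hN u hu) h1 h2
    have h5 : finrank ℂ (U.map (mulVecLin N)) ≠ 0 := by
      obtain ⟨u, hu, hu'⟩ := hu
      intro h0
      have h1 := Submodule.finrank_eq_zero.1 h0
      have h2 : N *ᵥ u ∈ U.map (mulVecLin N) := ⟨u, hu, rfl⟩
      rw [h1, Submodule.mem_bot] at h2
      exact hu' h2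
    omega
  · have hirr' := hfac.irr hU hu
    have hinj := hfac.inj hU hu
    have hfr := finrank_ml (F := F) hinj
    have hdvd := finrank_dvd hPM hsim hirr'
    rw [hfr] at hdvd
    have hle : finrank ℂ U ≤ 2 * a := by
      rw [← hfr, ← finrank_V]
      exact Submodule.finrank_le _
    have hn2 : finrank ℂ U = 2 * a := by
      obtain ⟨k, hk⟩ := hdvd
      have hk1 : k < 2 := by
        by_contra hk2
        push Not at hk2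
        have : finrank ℂ U * 2 ≤ finrank ℂ U * k := Nat.mul_le_mul_left _ hk2
        omega
      have hk0 : k ≠ 0 := by
        rintro rfl
        omega
      have hk2 : k = 1 := by omega
      rw [hk2] at hk
      omega
    have htop : U.map (ml F) = ⊤ := Submodule.eq_top_of_finrank_eq (by rw [hfr, hn2, finrank_V])
    let b : (Fin G ⊕ Fin G → ℂ) →ₗ[ℂ] (Fin G ⊕ Fin G → ℂ) →ₗ[ℂ] ℂ := (om a).compl₁₂ (ml F) (ml F)
    have hb : ∀ u v, b u v = om a (ml F u) (ml F v) := fun _ _ => rfl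
    have hbZ : ∀ X ∈ LZ Z, ∀ u v, b (X *ᵥ u) v + b u (X *ᵥ v) = 0 := by
      intro X hX u v
      rw [hb, hb, hfac.act hX, hfac.act hX]
      exact hPM.om_sp (hfac.comp hX).1 _ _
    have hbT : ∀ X ∈ LT S, ∀ u v, b (X *ᵥ u) v + b u (X *ᵥ v) = 0 :=
      (h.bil b (fun X hX => hZ.om_sp hX)).2 hbZ
    let ωU : U →ₗ[ℂ] U →ₗ[ℂ] ℂ := b.compl₁₂ U.subtype U.subtype
    have hωU : ∀ u v : U, ωU u v = b u v := fun _ _ => rfl
    have halt : ∀ v, ωU v v = 0 := fun v => by rw [hωU, hb, om_self]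
    have hnd : ∀ u, (∀ v, ωU u v = 0) → u = 0 := by
      intro u hu
      apply Subtype.ext
      refine hinj u u.2 (om_nd _ fun w => ?_)
      have hw : w ∈ U.map (ml F) := by rw [htop]; trivial
      obtain ⟨v, hv, rfl⟩ := hw
      exact hu ⟨v, hv⟩
    have hsp : ∀ y ∈ resL (LT S) U, ∀ x z, ωU (y x) z + ωU x (y z) = 0 := by
      rintro y ⟨X, hX, hyX⟩ x z
      rw [hωU, hωU, hyX, hyX]
      exact hbT X hX _ _
    exact h.sympl hU' halt hnd hsp (by omega)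

/-- Real multiplication. -/
theorem rk_rm {U : Submodule ℂ (Fin G ⊕ Fin G → ℂ)} (hU : IrS (LZ Z) U) {a : ℕ}
    {Z' : Matrix (Fin a) (Fin a) ℂ} {E : Matrix (Fin G ⊕ Fin G) (Fin a ⊕ Fin a) ℚ}
    {F : Matrix (Fin a ⊕ Fin a) (Fin G ⊕ Fin G) ℚ} (hfac : Fac Z Z' E F) (hPM : PM Z')
    (hsim : IsSimpleAV Z') (hu : ∃ u ∈ U, ml F u ≠ 0) (ha : 0 < a)
    {M : Matrix (Fin a ⊕ Fin a) (Fin a ⊕ Fin a) ℚ}
    {A : Submodule ℚ (Matrix (Fin a ⊕ Fin a) (Fin a ⊕ Fin a) ℚ)} (r : RMA Z' M A) {k : ℕ}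
    (hk : Odd k ∨ k = 2) (hA : 2 * a = 2 * k * finrank ℚ A) :
    ∃ D ∈ LT S, D * D = 1 ∧ ∃ N ∈ LT S, D * N = N ∧ N * D = -N ∧
      finrank ℂ (U.map (mulVecLin N)) = 1 := by
  have hU' : IrS (LT S) U := (h.irS hZ).2 hU
  have hirr' := hfac.irr hU hu
  have hinj := hfac.inj hU hu
  have hfr := finrank_ml (F := F) hinj
  have hA0 : 0 < finrank ℚ A := by
    rw [Nat.pos_iff_ne_zero]
    intro h0
    rw [h0, mul_zero] at hA
    omega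
  have hdim : finrank ℂ U = 2 * k := by
    have h1 := Pool.Agent.Y758.S4.jrmdim a Z' hPM hsim M A r _ hirr'
    rw [hA, hfr] at h1
    exact Nat.eq_of_mul_eq_mul_right hA0 h1
  obtain ⟨T, hT, hi, hnd⟩ := Pool.Agent.Y758.S4.jrm a Z' hPM M A r _ hirr'
  have hinv := Pool.Agent.Y90.S.inv_LZ r.inv
  have hM : (qm M)ᵀ = -qm M := by
    have h1 := congrArg qm r.skew
    ext i j
    have h2 := congrFun (congrFun h1 i) j
    simp only [Matrix.map_apply, transpose_apply, Matrix.neg_apply, Rat.cast_neg] at h2 ⊢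
    exact h2
  let b : (Fin G ⊕ Fin G → ℂ) →ₗ[ℂ] (Fin G ⊕ Fin G → ℂ) →ₗ[ℂ] ℂ :=
    (wwL (qm M)).compl₁₂ (T ∘ₗ ml F) (T ∘ₗ ml F)
  have hb : ∀ u v, b u v = (T (ml F u)) ⬝ᵥ (qm M *ᵥ T (ml F v)) := fun _ _ => rfl
  have hbZ : ∀ X ∈ LZ Z, ∀ u v, b (X *ᵥ u) v + b u (X *ᵥ v) = 0 := by
    intro X hX u v
    rw [hb, hb, hfac.act hX, hfac.act hX, hT _ (hfac.comp hX).1, hT _ (hfac.comp hX).1]
    exact Pool.Agent.Y90.S.form_inv (hinv _ (hfac.comp hX).1) _ _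
  have hbT : ∀ X ∈ LT S, ∀ u v, b (X *ᵥ u) v + b u (X *ᵥ v) = 0 :=
    (h.bil b (fun X hX => hZ.om_sp hX)).2 hbZ
  let ωU : U →ₗ[ℂ] U →ₗ[ℂ] ℂ := b.compl₁₂ U.subtype U.subtype
  have hωU : ∀ u v : U, ωU u v = b u v := fun _ _ => rfl
  have halt : ∀ v, ωU v v = 0 := fun v => by
    rw [hωU, hb]
    have h1 : ∀ x : Fin a ⊕ Fin a → ℂ, x ⬝ᵥ (qm M *ᵥ x) = -(x ⬝ᵥ (qm M *ᵥ x)) := by
      intro x
      nth_rewrite 1 [dotProduct_mulVec]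
      rw [← mulVec_transpose, hM, neg_mulVec, neg_dotProduct, dotProduct_comm]
    have h2 := h1 (T (ml F v))
    have h3 : (2 : ℂ) * (T (ml F v) ⬝ᵥ (qm M *ᵥ T (ml F v))) = 0 := by linear_combination h2
    exact (mul_eq_zero.1 h3).resolve_left two_ne_zero
  have hnd' : ∀ u, (∀ v, ωU u v = 0) → u = 0 := by
    intro u hu
    apply Subtype.ext
    refine hinj u u.2 (hi _ ⟨u, u.2, rfl⟩ (hnd _ ⟨_, ⟨u, u.2, rfl⟩, rfl⟩ ?_))
    rintro _ ⟨_, ⟨v, hv, rfl⟩, rfl⟩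
    exact hu ⟨v, hv⟩
  have hsp : ∀ y ∈ resL (LT S) U, ∀ x z, ωU (y x) z + ωU x (y z) = 0 := by
    rintro y ⟨X, hX, hyX⟩ x z
    rw [hωU, hωU, hyX, hyX]
    exact hbT X hX _ _
  refine h.sympl hU' halt hnd' hsp ?_
  rcases hk with ⟨j, rfl⟩ | rfl <;> omega

/-- Imaginary quadratic multiplication. -/
theorem rk_iq {U : Submodule ℂ (Fin G ⊕ Fin G → ℂ)} (hU : IrS (LZ Z) U)
    (hns₀ : ∀ (σ : ℂ ≃+* ℂ) (c : ℂ), ∃ u ∈ U, DS Z σ *ᵥ u ≠ c • u) {a : ℕ}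
    {Z' : Matrix (Fin a) (Fin a) ℂ} {E : Matrix (Fin G ⊕ Fin G) (Fin a ⊕ Fin a) ℚ}
    {F : Matrix (Fin a ⊕ Fin a) (Fin G ⊕ Fin G) ℚ} (hfac : Fac Z Z' E F) (hPM : PM Z')
    (hu : ∃ u ∈ U, ml F u ≠ 0) (ha : 4 ≤ a)
    {φ : Matrix (Fin a ⊕ Fin a) (Fin a ⊕ Fin a) ℚ} {d : ℚ} (hq : IQ Z' φ d) {p q : ℕ}
    (hpq : (pd Z' (EG φ (dE d)) = p ∧ qd Z' (EG φ (dE d)) = q) ∨
      (pd Z' (EG φ (dE d)) = q ∧ qd Z' (EG φ (dE d)) = p))
    (hc : Nat.Coprime p q ∨ (p = 2 ∧ q = 2)) :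
    ∃ D ∈ LT S, D * D = 1 ∧ ∃ N ∈ LT S, D * N = N ∧ N * D = -N ∧
      finrank ℂ (U.map (mulVecLin N)) = 1 := by
  have hirr' := hfac.irr hU hu
  have hinj := hfac.inj hU hu
  have hfr := finrank_ml (F := F) hinj
  obtain ⟨k₁, i₁, s₁, hall⟩ := Pool.Agent.Y31.S4.jiq a Z' hPM (by omega) φ d hq (dE d)
    (dE_sq hq.pos)
  obtain ⟨k₂, i₂, s₂, -⟩ := Pool.Agent.Y31.S4.jiq a Z' hPM (by omega) φ d hq (-dE d)
    (by rw [neg_mul_neg, dE_sq hq.pos])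
  obtain ⟨e₁, e₂⟩ := Pool.Agent.Y90.S.pd_EG k₁
  have hsig : ∀ {W : Submodule ℂ (Fin a ⊕ Fin a → ℂ)}, IrS (LZ Z') W →
      (pd Z' W = p ∧ qd Z' W = q) ∨ (pd Z' W = q ∧ qd Z' W = p) := by
    intro W hW
    rcases hall W hW with rfl | rfl
    · exact hpq
    · rw [e₁, e₂]
      rcases hpq with ⟨h1, h2⟩ | ⟨h1, h2⟩
      · exact Or.inr ⟨h2, h1⟩
      · exact Or.inl ⟨h2, h1⟩
  have hkw : ∀ {W : Submodule ℂ (Fin a ⊕ Fin a → ℂ)}, IrS (LZ Z') W →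
      ∃ α, KW Z' W φ α d ∧ ¬SDu Z' W := by
    intro W hW
    rcases hall W hW with rfl | rfl
    · exact ⟨_, k₁, s₁⟩
    · exact ⟨_, k₂, s₂⟩
  have hpq' : p + q = a := by
    obtain ⟨α, k, -⟩ := hkw hirr'
    have h1 := pd_add_qd hPM hirr'.2.1
    rw [k.dim] at h1
    rcases hsig hirr' with ⟨h2, h3⟩ | ⟨h2, h3⟩ <;> omega
  obtain ⟨f1, f2⟩ := pd_fac hZ hPM hfac hU.2.1 hirr'.2.1 hinj
  rcases hc with hc | ⟨rfl, rfl⟩
  · have hp0 : 0 < p := by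
      rw [Nat.pos_iff_ne_zero]
      rintro rfl
      rw [Nat.coprime_zero_left] at hc
      omega
    have hq0 : 0 < q := by
      rw [Nat.pos_iff_ne_zero]
      rintro rfl
      rw [Nat.coprime_zero_right] at hc
      omega
    refine h.coprime hZ hU ?_ ?_ ?_
    · rw [f1]
      rcases hsig hirr' with ⟨h2, h3⟩ | ⟨h2, h3⟩ <;> omega
    · rw [f2]
      rcases hsig hirr' with ⟨h2, h3⟩ | ⟨h2, h3⟩ <;> omega
    · rw [f1, f2]
      rcases hsig hirr' with ⟨h2, h3⟩ | ⟨h2, h3⟩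
      · rw [h2, h3]
        exact hc
      · rw [h2, h3]
        exact hc.symm
  · obtain ⟨α, k, hns⟩ := hkw hirr'
    obtain ⟨D, hD, hσ⟩ := h.ex (RingEquiv.refl ℂ)
    obtain ⟨d1, -⟩ := h.dims hZ hD hσ hU.2.1
    have hcj : cjS (RingEquiv.refl ℂ).symm U = U := by
      ext v
      rfl
    rw [hcj] at d1
    have h2 : pd Z U = 2 := by
      rw [f1]
      rcases hsig hirr' with ⟨h2, h3⟩ | ⟨h2, h3⟩ <;> omega
    have h4 : finrank ℂ U = 4 := by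
      rw [← hfr, k.dim]
      omega
    have h5 : es (ph (Fin G ⊕ Fin G) D) U 1 = U ⊓ meig D 1 := by
      ext v
      rw [mem_es]
      rfl
    obtain ⟨N, hN, n1, n2, n3⟩ := h.twotwo hZ hU h4 hns₀
      (fun hsd => hns (sdu_fac hfac hU.2.1 hinj hsd)) hD (by rw [← h5, d1, h2])
    exact ⟨D, LT_gen hD, h.sq D hD, N, hN, n1, n2, n3⟩

/-- **Elements of rank one** if the simple factors are admissible. -/
theorem rkS {m w : ℕ} (hs : AdmF m w Z) {U : Submodule ℂ (Fin G ⊕ Fin G → ℂ)}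
    (hU : IrS (LZ Z) U) (hn : 2 ≤ finrank ℂ U)
    (hns₀ : ∀ (σ : ℂ ≃+* ℂ) (c : ℂ), ∃ u ∈ U, DS Z σ *ᵥ u ≠ c • u) :
    ∃ D ∈ LT S, D * D = 1 ∧ ∃ N ∈ LT S, D * N = N ∧ N * D = -N ∧
      finrank ℂ (U.map (mulVecLin N)) = 1 := by
  obtain ⟨a, Z', E, F, hfac, hPM, hsim, ha, hu⟩ := exists_fac hZ hU.1
  have hA := hs a Z' E F hfac hPM hsim ha
  by_cases ha3 : a ≤ 3
  · exact h.rk_small hZ hU hn hns₀ hfac hPM hsim hu ha3
  · rcases hA.2 with hcm | h3 | ⟨k, M, A, hk, r, hA'⟩ | ⟨p, q, φ, d, hq, hpq, -, -, hc⟩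
    · exfalso
      have h1 := Pool.Agent.Y90.S.cm_lines hPM hsim ha hcm (hfac.irr hU hu)
      rw [finrank_ml (F := F) (hfac.inj hU hu)] at h1
      omega
    · exact absurd h3 ha3
    · exact h.rk_rm hZ hU hfac hPM hsim hu ha r hk hA'
    · exact h.rk_iq hZ hU hns₀ hfac hPM hu (by omega) hq hpq hc

end TD

end

end Pool.Agent.Y224.TS
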