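import Mathlib
import Pool.Agent.Y224.TS.T14
import Pool.Agent.Y224.TS.V1
import Pool.Agent.Y4.P.Top
import Pool.Agent.Y977.P.Tr

/-!
# Elements of rank one in the second Lie algebra: general types of simple factors
-/

set_option linter.unusedSectionVars false

namespace Pool.Agent.Y224.TS

open Matrix Module Pool.Agent.W437.HC Pool.Agent.W437.HD Pool.Agent.W548.Odd Pool.Agent.W522.U
open Pool.Agent.H204R3.SP Pool.Agent.H204R3.GP Pool.Agent.Y90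
open Pool.Agent.W437.HP (cK cK_mul cK_one)
open Pool.Agent.Y4.P (MaxM EigM RealOddM TwoTwoM)
open PQ (CMM CopM4)

noncomputable section

/-- The conjugates of the complex structure are not scalars. -/
def NSc {g : ℕ} (Z : Matrix (Fin g) (Fin g) ℂ) (U : Submodule ℂ (Fin g ⊕ Fin g → ℂ)) : Prop :=
  ∀ (σ : ℂ ≃+* ℂ) (c : ℂ), ∃ u ∈ U, DS Z σ *ᵥ u ≠ c • u

/-- An invariant alternating form which is nondegenerate on the submodule. -/
def SyF {g : ℕ} (Z : Matrix (Fin g) (Fin g) ℂ) (U : Submodule ℂ (Fin g ⊕ Fin g → ℂ)) : Prop :=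
  ∃ b : (Fin g ⊕ Fin g → ℂ) →ₗ[ℂ] (Fin g ⊕ Fin g → ℂ) →ₗ[ℂ] ℂ,
    (∀ X ∈ LZ Z, ∀ u v, b (X *ᵥ u) v + b u (X *ᵥ v) = 0) ∧ (∀ u ∈ U, b u u = 0) ∧
      ∀ u ∈ U, (∀ v ∈ U, b u v = 0) → u = 0

/-- Conditions which imply that there are elements of rank one. -/
def RkC {g : ℕ} (Z : Matrix (Fin g) (Fin g) ℂ) (U : Submodule ℂ (Fin g ⊕ Fin g → ℂ)) : Prop :=
  (finrank ℂ U ≤ 3 ∧ NSc Z U) ∨ ((¬ 4 ∣ finrank ℂ U ∨ finrank ℂ U = 4) ∧ SyF Z U) ∨
  (∃ σ : ℂ ≃+* ℂ, 0 < pd Z (cjS σ U) ∧ 0 < qd Z (cjS σ U) ∧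
    Nat.Coprime (pd Z (cjS σ U)) (qd Z (cjS σ U))) ∨
  (finrank ℂ U = 4 ∧ NSc Z U ∧ ¬SDu Z U ∧ ∀ σ : ℂ ≃+* ℂ, pd Z (cjS σ U) = 2)

section fac

variable {G a : ℕ} {Z : Matrix (Fin G) (Fin G) ℂ} {Z' : Matrix (Fin a) (Fin a) ℂ}
  {E : Matrix (Fin G ⊕ Fin G) (Fin a ⊕ Fin a) ℚ} {F : Matrix (Fin a ⊕ Fin a) (Fin G ⊕ Fin G) ℚ}
  {U : Submodule ℂ (Fin G ⊕ Fin G → ℂ)}

theorem rkC_fac (hf : Fac Z Z' E F) (hZ : PM Z) (hZ' : PM Z') (hU : IrS (LZ Z) U)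
    (hi : ∀ u ∈ U, ml F u = 0 → u = 0) (hc : RkC Z' (U.map (ml F))) : RkC Z U := by
  have hfr := finrank_ml (F := F) hi
  obtain ⟨-, -, t3, -⟩ := Pool.Agent.Y977.P.jtransfer G a Z Z' E F hf hZ hZ' U hU hi
  rcases hc with ⟨h1, h2⟩ | ⟨h1, b, b1, b2, b3⟩ | ⟨σ, h1, h2, h3⟩ | ⟨h1, h2, h3, h4⟩
  · left
    exact ⟨by rw [← hfr]; exact h1, t3 h2⟩
  · right; left
    refine ⟨by rw [← hfr]; exact h1, b.compl₁₂ (ml F) (ml F), fun X hX u v => ?_, fun u hu => ?_,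
      fun u hu h0 => ?_⟩
    · rw [LinearMap.compl₁₂_apply, LinearMap.compl₁₂_apply, hf.act hX, hf.act hX]
      exact b1 _ (hf.comp hX).1 _ _
    · rw [LinearMap.compl₁₂_apply]
      exact b2 _ ⟨u, hu, rfl⟩
    · refine hi u hu (b3 _ ⟨u, hu, rfl⟩ ?_)
      rintro _ ⟨v, hv, rfl⟩
      exact h0 v hv
  · right; right; left
    obtain ⟨p1, p2⟩ := PQ.pd_fac_cj hf hi hU.2.1 σ
    rw [p1] at h1 h3
    rw [p2] at h2 h3
    exact ⟨σ, h1, h2, h3⟩
  · right; right; right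
    refine ⟨by rw [← hfr]; exact h1, t3 h2, fun h0 => h3 (sdu_fac hf hU.2.1 hi h0), fun σ => ?_⟩
    rw [← (PQ.pd_fac_cj hf hi hU.2.1 σ).1]
    exact h4 σ

end fac

section simple

variable {g : ℕ} {Z : Matrix (Fin g) (Fin g) ℂ} {U : Submodule ℂ (Fin g ⊕ Fin g → ℂ)}

/-- Simple factors of dimension one or of prime dimension. -/
theorem rkC_prime (h : PM Z) (hs : IsSimpleAV Z) (hg : 0 < g) (hc : HasCM Z ∨ g = 1 ∨ g.Prime)
    (hU : IrS (LZ Z) U) (hn : 2 ≤ finrank ℂ U) : RkC Z U := by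
  have hns : NSc Z U :=
    ((Pool.Agent.Y4.P.classZ_of Pool.Agent.Y4.P.jclass' h hs hg hc U hU).1 hn).2
  by_cases h3 : finrank ℂ U ≤ 3
  · exact Or.inl ⟨h3, hns⟩
  rcases hc with hc | hc | hc
  · have h1 := Pool.Agent.Y145.P.jcm g Z h hs hg hc U hU
    omega
  · have hle : finrank ℂ U ≤ 2 * g := by
      rw [← finrank_V]
      exact Submodule.finrank_le _
    omega
  · have hdvd := finrank_dvd h hs hU
    obtain ⟨k₁, k₂, hk₁, hk₂, hk⟩ := (Nat.dvd_mul).1 hdvd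
    have h1 : k₁ = 1 ∨ k₁ = 2 := (Nat.dvd_prime Nat.prime_two).1 hk₁
    have h2 : k₂ = 1 ∨ k₂ = g := (Nat.dvd_prime hc).1 hk₂
    rcases h2 with rfl | rfl
    · exfalso
      rcases h1 with rfl | rfl <;> omega
    rcases h1 with rfl | rfl
    · -- the unitary case
      right; right; left
      obtain ⟨p0, q0⟩ := PQ.ns_of_nonscalar h hU hns (RingEquiv.refl ℂ)
      refine ⟨RingEquiv.refl ℂ, Nat.pos_of_ne_zero p0, Nat.pos_of_ne_zero q0, ?_⟩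
      rw [PQ.cjS_refl] at p0 q0 ⊢
      have hpq := pd_add_qd h hU.2.1
      rw [← hk, one_mul] at hpq
      have hc' := hc.coprime_iff_not_dvd.2 (fun hd => absurd (Nat.le_of_dvd
        (Nat.pos_of_ne_zero p0) hd) (by omega) : ¬ k₂ ∣ pd Z U)
      have h5 : Nat.Coprime (pd Z U + qd Z U) (pd Z U) := by rw [hpq]; exact hc'
      rw [add_comm, Nat.coprime_add_self_left] at h5
      exact h5.symm
    · -- the symplectic case
      right; left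
      have htop := Pool.Agent.Y4.P.eq_top_of U (by omega)
      subst htop
      refine ⟨?_, om k₂, fun X hX u v => h.om_sp hX u v, fun u _ => om_self u, fun u _ h0 =>
        om_nd u fun v => h0 v trivial⟩
      rw [← hk]
      by_cases h2 : k₂ = 2
      · right
        omega
      · left
        obtain ⟨j, hj⟩ := hc.odd_of_ne_two h2
        omega

/-- Real multiplication. -/
theorem rkC_real (h : PM Z) (hs : IsSimpleAV Z) (hg : 0 < g) (hc : RealOddM Z)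
    (hU : IrS (LZ Z) U) : RkC Z U := by
  obtain ⟨φ, hφ, hre, k, hk, hgk⟩ := hc
  obtain ⟨s1, s2, -⟩ := Pool.Agent.Y261.P.jspec g Z h hs hg φ hφ
  obtain ⟨z, hz, T, hT, hi, hm⟩ := s2 U hU
  have hfr : finrank ℂ (EigM φ z) = finrank ℂ U := by rw [← hm, finrank_map_of_inj hi]
  have hW := (s1 z hz).1
  have hdeg : 0 < (minpoly ℚ φ).natDegree := by
    rcases Nat.eq_zero_or_pos (minpoly ℚ φ).natDegree with h0 | h0
    · rw [h0, mul_zero] at hgk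
      omega
    · exact h0
  have h2k : finrank ℂ (EigM φ z) = 2 * k := by
    have h1 := (s1 z hz).2
    have h3 : 2 * g = 2 * k * (minpoly ℚ φ).natDegree := by
      rw [mul_assoc]
      exact congrArg (2 * ·) hgk
    rw [h3] at h1
    exact Nat.eq_of_mul_eq_mul_right hdeg h1
  obtain ⟨u₀, hu₀, v₀, hv₀, huv⟩ := Pool.Agent.Y4.P.om_real h (hre z hz) hW
  have hrad : ∀ u ∈ EigM φ z, (∀ v ∈ EigM φ z, om g u v = 0) → u = 0 := by
    let R : Submodule ℂ (Fin g ⊕ Fin g → ℂ) :=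
      { carrier := {u | u ∈ EigM φ z ∧ ∀ v ∈ EigM φ z, om g u v = 0}
        add_mem' := fun {x y} hx hy => ⟨Submodule.add_mem _ hx.1 hy.1, fun v hv => by
          rw [map_add, LinearMap.add_apply, hx.2 v hv, hy.2 v hv, add_zero]⟩
        zero_mem' := ⟨Submodule.zero_mem _, fun v _ => by rw [map_zero, LinearMap.zero_apply]⟩
        smul_mem' := fun c x hx => ⟨Submodule.smul_mem _ _ hx.1, fun v hv => by
          rw [map_smul, LinearMap.smul_apply, hx.2 v hv, smul_zero]⟩ }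
    have hRs : Stab (LZ Z) R := by
      intro X hX u hu
      refine ⟨hW.2.1 X hX u hu.1, fun v hv => ?_⟩
      have h1 := h.om_sp hX u v
      rw [hu.2 _ (hW.2.1 X hX v hv), add_zero] at h1
      exact h1
    rcases hW.2.2 R (fun u hu => hu.1) hRs with h1 | h1
    · intro u hu h0
      have h2 : u ∈ R := ⟨hu, h0⟩
      rw [h1] at h2
      exact (Submodule.mem_bot ℂ).1 h2
    · exfalso
      have h2 : u₀ ∈ R := by
        rw [h1]
        exact hu₀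
      exact huv (h2.2 v₀ hv₀)
  right; left
  refine ⟨?_, (om g).compl₁₂ T T, fun X hX u v => ?_, fun u _ => ?_, fun u hu h0 => ?_⟩
  · rw [← hfr, h2k]
    rcases hk with ⟨j, rfl⟩ | rfl
    · left
      omega
    · right
      rfl
  · rw [LinearMap.compl₁₂_apply, LinearMap.compl₁₂_apply, hT X hX, hT X hX]
    exact h.om_sp hX _ _
  · rw [LinearMap.compl₁₂_apply]
    exact om_self _
  · refine hi u hu (hrad _ ?_ fun v hv => ?_)
    · rw [← hm]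
      exact ⟨u, hu, rfl⟩
    · rw [← hm] at hv
      obtain ⟨w, hw, rfl⟩ := hv
      exact h0 w hw

/-- Coprime multiplicities at some place. -/
theorem rkC_cop (h : PM Z) (hs : IsSimpleAV Z) (hg : 0 < g) (hc : CopM4 Z)
    (hU : IrS (LZ Z) U) (hn : 2 ≤ finrank ℂ U) : RkC Z U := by
  obtain ⟨φ, hφ, hcm, w, hw, hco⟩ := hc
  obtain ⟨s1, s2, -⟩ := Pool.Agent.Y261.P.jspec g Z h hs hg φ hφ
  obtain ⟨z, hz, T, hT, hi, hm⟩ := s2 U hU
  obtain ⟨σ, hσ⟩ := PQ.exists_aut_root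
    (Pool.Agent.Y261.P.minpoly_irr h hs hg hφ.1) hz hw
  have hpd : pd Z (cjS σ U) = pd Z (EigM φ w) := by
    rw [← PQ.pd_cj_map hT hi hU.2.1, hm, Pool.Agent.Y4.P.cjS_eigM, hσ]
  have hqd : qd Z (cjS σ U) = qd Z (EigM φ w) := by
    rw [← PQ.qd_cj_map h hT hi hU.2.1, hm, Pool.Agent.Y4.P.cjS_eigM, hσ]
  have hsum := pd_add_qd h (PQ.stab_cj hU.2.1 σ)
  rw [finrank_cjS] at hsum
  right; right; left
  rw [← hpd, ← hqd] at hco
  refine ⟨σ, Nat.pos_of_ne_zero fun h0 => ?_, Nat.pos_of_ne_zero fun h0 => ?_, hco⟩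
  · rw [h0, Nat.coprime_zero_left] at hco
    omega
  · rw [h0, Nat.coprime_zero_right] at hco
    omega

/-- Multiplicities two. -/
theorem rkC_two (h : PM Z) (hs : IsSimpleAV Z) (hg : 0 < g) (hc : TwoTwoM Z)
    (hU : IrS (LZ Z) U) : RkC Z U := by
  obtain ⟨φ, hφ, hgen, hcm, hco⟩ := hc
  obtain ⟨s1, s2, -⟩ := Pool.Agent.Y261.P.jspec g Z h hs hg φ ⟨hφ, fun ψ hψ _ => hgen ψ hψ⟩
  obtain ⟨z, hz, T, hT, hi, hm⟩ := s2 U hU
  have hW := (s1 z hz).1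
  have hfr : finrank ℂ (EigM φ z) = finrank ℂ U := by rw [← hm, finrank_map_of_inj hi]
  right; right; right
  refine ⟨?_, Pool.Agent.Y4.P.nonscalar_of_map hT ?_, fun hsd => ?_, fun σ => ?_⟩
  · rw [← hfr, ← pd_add_qd h hW.2.1, (hco z hz).2.1, (hco z hz).2.2]
  · rw [hm]
    refine Pool.Agent.Y4.P.nonscalar_mult h hW fun σ => ?_
    rw [Pool.Agent.Y4.P.cjS_eigM]
    have h1 := hco _ (Pool.Agent.Y4.P.root_aut hz σ)
    omega
  · refine Pool.Agent.Y4.P.not_sdu h hgen (hco z hz).1 hW ?_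
    obtain ⟨b, ⟨u, hu, v, hv, huv⟩, hb⟩ := hsd
    -- an inverse of the isomorphism
    let e : U ≃ₗ[ℂ] (U.map T) := LinearEquiv.ofBijective
      (T.restrict (p := U) (q := U.map T) fun x hx => ⟨x, hx, rfl⟩) (by
        constructor
        · rw [injective_iff_map_eq_zero]
          intro x hx
          exact Subtype.ext (hi x x.2 (congrArg Subtype.val hx))
        · rintro ⟨_, x, hx, rfl⟩
          exact ⟨⟨x, hx⟩, rfl⟩)
    have he : ∀ x (hx : x ∈ U), e ⟨x, hx⟩ = ⟨T x, ⟨x, hx, rfl⟩⟩ := fun x hx => rfl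
    obtain ⟨r, hr⟩ := LinearMap.exists_extend (U.subtype ∘ₗ (e.symm : U.map T →ₗ[ℂ] U))
    have hrT : ∀ x ∈ U, r (T x) = x := by
      intro x hx
      have h1 := congrArg (fun f => f (e ⟨x, hx⟩)) hr
      have h2 : (U.subtype ∘ₗ (e.symm : U.map T →ₗ[ℂ] U)) (e ⟨x, hx⟩) = x := by
        rw [LinearMap.comp_apply, LinearEquiv.coe_coe, LinearEquiv.symm_apply_apply]
        rfl
      exact h1.trans h2
    rw [← hm]
    refine ⟨b.compl₁₂ r r, ⟨T u, ⟨u, hu, rfl⟩, T v, ⟨v, hv, rfl⟩, ?_⟩, ?_⟩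
    · rw [LinearMap.compl₁₂_apply, hrT u hu, hrT v hv]
      exact huv
    · rintro X hX _ ⟨x, hx, rfl⟩ _ ⟨y, hy, rfl⟩
      rw [LinearMap.compl₁₂_apply, LinearMap.compl₁₂_apply, ← hT X hX, ← hT X hX, hrT x hx,
        hrT y hy, hrT _ (hU.2.1 X hX x hx), hrT _ (hU.2.1 X hX y hy)]
      exact hb X hX x hx y hy
  · rw [← PQ.pd_cj_map hT hi hU.2.1, hm, Pool.Agent.Y4.P.cjS_eigM]
    exact (hco _ (Pool.Agent.Y4.P.root_aut hz σ)).2.1

/-- The simple factors are of one of the types of the theorem. -/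
def TypeT {g : ℕ} (Z : Matrix (Fin g) (Fin g) ℂ) : Prop :=
  HasCM Z ∨ g = 1 ∨ g.Prime ∨ RealOddM Z ∨ CopM4 Z ∨ TwoTwoM Z

theorem rkC_of (h : PM Z) (hs : IsSimpleAV Z) (hg : 0 < g) (hc : TypeT Z)
    (hU : IrS (LZ Z) U) (hn : 2 ≤ finrank ℂ U) : RkC Z U := by
  rcases hc with h1 | h1 | h1 | h1 | h1 | h1
  · exact rkC_prime h hs hg (Or.inl h1) hU hn
  · exact rkC_prime h hs hg (Or.inr (Or.inl h1)) hU hn
  · exact rkC_prime h hs hg (Or.inr (Or.inr h1)) hU hn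
  · exact rkC_real h hs hg h1 hU
  · exact rkC_cop h hs hg h1 hU hn
  · exact rkC_two h hs hg h1 hU

end simple

variable {G : ℕ} {Z : Matrix (Fin G) (Fin G) ℂ}
  {S : Set (Matrix (Fin G ⊕ Fin G) (Fin G ⊕ Fin G) ℂ)}

namespace TD

variable (h : TD Z S) (hZ : PM Z) {U : Submodule ℂ (Fin G ⊕ Fin G → ℂ)}
include h hZ

/-- Coprime multiplicities at some place. -/
theorem coprime_at (hU : IrS (LZ Z) U) (σ : ℂ ≃+* ℂ) (hp : 0 < pd Z (cjS σ U))
    (hq : 0 < qd Z (cjS σ U)) (hc : Nat.Coprime (pd Z (cjS σ U)) (qd Z (cjS σ U))) :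
    ∃ D ∈ LT S, D * D = 1 ∧ ∃ N ∈ LT S, D * N = N ∧ N * D = -N ∧
      finrank ℂ (U.map (mulVecLin N)) = 1 := by
  have hU' : IrS (LT S) U := (h.irS hZ).2 hU
  obtain ⟨D, hD, hσ⟩ := h.ex σ.symm
  have hst : ∀ D ∈ S, ∀ u ∈ U, D *ᵥ u ∈ U := fun D hD u hu => hU'.2.1 D (LT_gen hD) u hu
  have hbrM : ∀ X ∈ LT S, ∀ Y ∈ LT S, X * Y - Y * X ∈ LT S := fun X hX Y hY => LT_br hX hY
  have hDm : D ∈ LT S := LT_gen hD
  have hD2 := h.sq D hD
  obtain ⟨d1, d2⟩ := h.dims hZ hD hσ hU.2.1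
  rw [RingEquiv.symm_symm] at d1 d2
  obtain ⟨Dr, hDr⟩ : ∃ Dr, Dr = resM D U (hst D hD) := ⟨_, rfl⟩
  have hDrm : Dr ∈ resL (LT S) U := by rw [hDr]; exact ⟨D, hDm, fun u => rfl⟩
  have hDr2 : Dr * Dr = 1 := by rw [hDr]; exact h.res_sq hU' hD _
  have hDra : ∀ u : U, ((Dr u : U) : Fin G ⊕ Fin G → ℂ) = D *ᵥ (u : Fin G ⊕ Fin G → ℂ) :=
    fun u => by rw [hDr]; rfl
  have key : ∀ ε : ℂ, ε * ε = 1 → (LinearMap.range (1 + ε • Dr)).map U.subtype =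
      es (ph (Fin G ⊕ Fin G) D) U ε := by
    intro ε hε
    ext v
    constructor
    · rintro ⟨_, ⟨u, rfl⟩, rfl⟩
      refine mem_es.2 ⟨((1 + ε • Dr) u).2, ?_⟩
      change D *ᵥ (((1 + ε • Dr) u : U) : Fin G ⊕ Fin G → ℂ) = ε • (((1 + ε • Dr) u : U) : _)
      rw [← hDra, LinearMap.add_apply, Module.End.one_apply, LinearMap.smul_apply, map_add,
        map_smul, ← Module.End.mul_apply, hDr2, Module.End.one_apply, ← Submodule.coe_smul,
        smul_add, smul_smul, hε, one_smul, add_comm]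
    · intro hv
      obtain ⟨h1, h2⟩ := mem_es.1 hv
      have h2' : D *ᵥ v = ε • v := h2
      refine ⟨⟨v, h1⟩, ⟨(1 / 2 : ℂ) • ⟨v, h1⟩, ?_⟩, rfl⟩
      apply Subtype.ext
      rw [LinearMap.add_apply, Module.End.one_apply, LinearMap.smul_apply, map_smul,
        Submodule.coe_add, Submodule.coe_smul, Submodule.coe_smul, Submodule.coe_smul, hDra]
      change (1 / 2 : ℂ) • v + ε • (1 / 2 : ℂ) • (D *ᵥ v) = v
      rw [h2', smul_comm ε, smul_smul ε ε, hε]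
      module
  have k1 : finrank ℂ (LinearMap.range (1 + Dr)) = pd Z (cjS σ U) := by
    have e1 : (1 : End ℂ U) + (1 : ℂ) • Dr = 1 + Dr := by module
    rw [← d1, ← key 1 (by norm_num), e1, Submodule.finrank_map_subtype_eq]
  have k2 : finrank ℂ (LinearMap.range (1 - Dr)) = qd Z (cjS σ U) := by
    have e1 : (1 : End ℂ U) + (-1 : ℂ) • Dr = 1 - Dr := by module
    rw [← d2, ← key (-1) (by norm_num), e1, Submodule.finrank_map_subtype_eq]
  obtain ⟨N, ⟨X, hX, hNX⟩, h1, h2, h3⟩ := Cop.rk_one (resL_br hbrM U) (h.res_irr' hU') hDrm hDr2 k1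
    k2 hp hq hc
  refine ⟨D, hDm, hD2, _, gup_mem hbrM hDm hD2 hX, gup_l hD2 X, gup_r hD2 X, ?_⟩
  rw [finrank_map_res (Y := N) (fun u => ?_), h3]
  have h4 : N = (1 / 4 : ℂ) • ((1 + Dr) * N * (1 - Dr)) := by
    have h5 : (1 + Dr) * N * (1 - Dr) = (4 : ℂ) • N := by
      rw [add_mul, one_mul, h1, mul_sub (N + N), mul_one, add_mul, h2]
      module
    rw [h5, smul_smul]
    norm_num
  nth_rewrite 1 [h4]
  rw [smul_mulVec, ← mulVec_mulVec, ← mulVec_mulVec]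
  simp only [LinearMap.smul_apply, Module.End.mul_apply, LinearMap.add_apply,
    LinearMap.sub_apply, Module.End.one_apply, Submodule.coe_smul, Submodule.coe_add,
    Submodule.coe_sub, hDra, hNX, add_mulVec, sub_mulVec, one_mulVec]

/-- **Elements of rank one.** -/
theorem rk_of (hU : IrS (LZ Z) U) (hn : 2 ≤ finrank ℂ U) (hc : RkC Z U) :
    ∃ D ∈ LT S, D * D = 1 ∧ ∃ N ∈ LT S, D * N = N ∧ N * D = -N ∧
      finrank ℂ (U.map (mulVecLin N)) = 1 := by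
  have hU' : IrS (LT S) U := (h.irS hZ).2 hU
  rcases hc with ⟨h3, hns₀⟩ | ⟨hd, b, b1, b2, b3⟩ | ⟨σ, h1, h2, h3⟩ | ⟨h1, hns₀, h3, h4⟩
  · obtain ⟨D, hD, -⟩ := h.ex (RingEquiv.refl ℂ)
    have hns := h.nonscalar hZ hD hU.2.1 hns₀
    have hbr : ∀ X ∈ LT S, ∀ Y ∈ LT S, X * Y - Y * X ∈ LT S := fun X hX Y hY => LT_br hX hY
    have hDm : D ∈ LT S := LT_gen hD
    have hD2 := h.sq D hD
    obtain ⟨N, hN, h1, h2, hu⟩ := exists_gup hbr hDm hD2 hU' hns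
    refine ⟨D, hDm, hD2, N, hN, h1, h2, ?_⟩
    have h4 := two_rank_le' (fun u hu => hU'.2.1 N hN u hu) h1 h2
    have h5 : finrank ℂ (U.map (mulVecLin N)) ≠ 0 := by
      obtain ⟨u, hu, hu'⟩ := hu
      intro h0
      have h1 := Submodule.finrank_eq_zero.1 h0
      have h2 : N *ᵥ u ∈ U.map (mulVecLin N) := ⟨u, hu, rfl⟩
      rw [h1, Submodule.mem_bot] at h2
      exact hu' h2
    omega
  · have hbT : ∀ X ∈ LT S, ∀ u v, b (X *ᵥ u) v + b u (X *ᵥ v) = 0 :=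
      (h.bil b (fun X hX => hZ.om_sp hX)).2 b1
    let ωU : U →ₗ[ℂ] U →ₗ[ℂ] ℂ := b.compl₁₂ U.subtype U.subtype
    have hωU : ∀ u v : U, ωU u v = b u v := fun _ _ => rfl
    have halt : ∀ v, ωU v v = 0 := fun v => by rw [hωU, b2 v v.2]
    have hnd : ∀ u, (∀ v, ωU u v = 0) → u = 0 := by
      intro u hu
      apply Subtype.ext
      exact b3 u u.2 fun v hv => hu ⟨v, hv⟩
    have hsp : ∀ y ∈ resL (LT S) U, ∀ x z, ωU (y x) z + ωU x (y z) = 0 := by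
      rintro y ⟨X, hX, hyX⟩ x z
      rw [hωU, hωU, hyX, hyX]
      exact hbT X hX _ _
    exact h.sympl hU' halt hnd hsp hd
  · exact h.coprime_at hZ hU σ h1 h2 h3
  · obtain ⟨D, hD, hσ⟩ := h.ex (RingEquiv.refl ℂ)
    obtain ⟨d1, -⟩ := h.dims hZ hD hσ hU.2.1
    rw [h4] at d1
    have h5 : es (ph (Fin G ⊕ Fin G) D) U 1 = U ⊓ meig D 1 := by
      ext v
      rw [mem_es]
      rfl
    obtain ⟨N, hN, n1, n2, n3⟩ := h.twotwo hZ hU h1 hns₀ h3 hD (by rw [← h5, d1])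
    exact ⟨D, LT_gen hD, h.sq D hD, N, hN, n1, n2, n3⟩

end TD

end

end Pool.Agent.Y224.TS
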