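import Mathlib
import Pool.Agent.Y224.TS.T10
import Pool.Agent.Y224.TS.U1
import Pool.Agent.Y224.TS.U2
import Pool.Agent.Y224.TS.U3
import Pool.Agent.Y79.S4.Two
import Pool.Agent.Y4.T.Forms

/-!
# Forms killed by the second Lie algebra belong to the ring of divisors and Weil classes
-/

set_option linter.unusedSectionVars false

namespace Pool.Agent.Y224.TS

open Matrix Module Pool.Agent.W437.HC Pool.Agent.W437.HD Pool.Agent.W548.Odd Pool.Agent.W522.U
open Pool.Agent.H204R3.SP Pool.Agent.H204R3.GP Pool.Agent.Y90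
open Pool.Agent.W437.HP (cK cK_mul cK_one)
open Pool.Agent.Y4.P (MaxM EigM RealOddM TwoTwoM PD)
open PQ (CMM CopM4 NS MF SepF ClassT locT sepP_of classT_of class_copT)

noncomputable section

/-- All simple factors are of one of the types of the theorem, and they are not related by
twists. -/
def GoodF5 {G : ℕ} (Z : Matrix (Fin G) (Fin G) ℂ) : Prop :=
  (∀ (a : ℕ) (Z' : Matrix (Fin a) (Fin a) ℂ) (E : Matrix (Fin G ⊕ Fin G) (Fin a ⊕ Fin a) ℚ)
    (F : Matrix (Fin a ⊕ Fin a) (Fin G ⊕ Fin G) ℚ), Fac Z Z' E F → PM Z' → IsSimpleAV Z' →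
    0 < a → TypeT Z') ∧ SepF Z

variable {G : ℕ} {Z : Matrix (Fin G) (Fin G) ℂ}
  {S : Set (Matrix (Fin G ⊕ Fin G) (Fin G ⊕ Fin G) ℂ)}

/-- The classification of the simple factors. -/
theorem classT5 {a : ℕ} {Z' : Matrix (Fin a) (Fin a) ℂ} (h' : PM Z') (hs : IsSimpleAV Z')
    (ha : 0 < a) (hc : TypeT Z') : ClassT Z' := by
  rcases hc with h1 | h1 | h1 | h1 | h1 | h1
  · exact classT_of h' (Pool.Agent.Y4.P.classZ_of Pool.Agent.Y4.P.jclass' h' hs ha (Or.inl h1))
  · exact classT_of h' (Pool.Agent.Y4.P.classZ_of Pool.Agent.Y4.P.jclass' h' hs ha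
      (Or.inr (Or.inl h1)))
  · exact classT_of h' (Pool.Agent.Y4.P.classZ_of Pool.Agent.Y4.P.jclass' h' hs ha
      (Or.inr (Or.inr h1)))
  · exact classT_of h' (Pool.Agent.Y4.P.class_real Pool.Agent.Y261.P.jspec
      Pool.Agent.Y4.P.jsympG2 h' hs ha h1)
  · exact class_copT h' hs ha h1
  · exact classT_of h' (Pool.Agent.Y4.P.class_two Pool.Agent.Y261.P.jspec
      Pool.Agent.Y79.S4.jTwoTwo h' hs ha h1)

/-- The classification of the irreducible submodules. -/
theorem loc5 (hZ : PM Z) (hg : GoodF5 Z) {U : Submodule ℂ (Fin G ⊕ Fin G → ℂ)}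
    (hU : IrS (LZ Z) U) :
    (2 ≤ finrank ℂ U → RkC Z U ∧ (NS Z U ∨ MF Z U)) ∧
      ((SDu Z U ∧ 2 ≤ finrank ℂ U) ∨ PD (LZ Z) U) := by
  obtain ⟨h1, h2⟩ := locT Pool.Agent.Y977.P.jtransfer Pool.Agent.Y4.P.jtransfer2 hZ
    (fun a Z' E F hf h' hs ha => classT5 h' hs ha (hg.1 a Z' E F hf h' hs ha)) hU
  refine ⟨fun hn => ⟨?_, h1 hn⟩, h2⟩
  obtain ⟨a, Z', E, F, hf, h', hs, ha, h0⟩ := exists_fac hZ hU.1
  have hi := hf.inj hU h0
  have hU' := hf.irr hU h0
  refine rkC_fac hf hZ h' hU hi (rkC_of h' hs ha (hg.1 a Z' E F hf h' hs ha) hU' ?_)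
  rw [finrank_ml hi]
  exact hn

namespace TD

variable (h : TD Z S) (hZ : PM Z)
include h hZ

/-- Invariant forms. -/
theorem inv_memP (hg : GoodF5 Z) {n : ℕ}
    (φ : MultilinearMap ℂ (fun _ : Fin n × Fin 2 => Fin G ⊕ Fin G → ℂ) ℂ)
    (hφ : ∀ (g : Gam (GG (LT S))) v, φ (fun k => RG (GG (LT S)) g (v k)) = φ v) :
    φ ∈ Pool.Agent.Y4.P.NZ Z (Fin n × Fin 2) := by
  have hSI : ∀ {U}, W522.U.SI (RG (GG (LT S))) U ↔ IrS (LZ Z) U := fun {U} => h.si hZ
  have hp := gz_proj h.genI h.cr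
  obtain ⟨s, W, hW, hWW, hall⟩ := exists_reps hp
  obtain ⟨st, hst, hDu, hDu'⟩ := exists_st (χ := 1) hp (om G) om_nd (h.om' hZ) W hW hWW hall
  refine Pool.Agent.Y4.T.forms_mem' (fun Δ hΔ => fi_top Δ hΔ) (om G) om_nd (h.om' hZ) ?_ ?_ ?_ hp
    W hW hWW hall st hst hDu hDu' (fun κ _ => Pool.Agent.Y4.P.NZ Z κ) (Pool.Agent.Y4.P.clo_NZ Z)
    ?_ ?_ φ ?_
  · intro U hU hn
    exact h.unip_of hZ (h.rk_of hZ (hSI.1 hU) hn ((loc5 hZ hg (hSI.1 hU)).1 hn).1)
  · intro U hU hn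
    exact h.line hZ (hSI.1 hU) hn
  · intro U U' hU hU' hn _ ψ hT
    have h1 := ((loc5 hZ hg (hSI.1 hU)).1 hn).2
    refine h.twist_sep hZ (hSI.1 hU) (hSI.1 hU') ?_ ψ hT
    intro hfr
    have h2 := ((loc5 hZ hg (hSI.1 hU')).1 (by rw [hfr]; exact hn)).2
    exact sepP_of hZ hg.2 (hSI.1 hU) (hSI.1 hU') hn h1 h2 hfr
  · intro b hb
    refine Pool.Agent.Y4.P.pair_mem hZ b fun g u v => ?_
    rw [MonoidHom.one_apply, one_mul]
    refine (rz_bil hZ stab_top stab_top b).2 (fun X hX u _ v _ => ?_) g u trivial v trivial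
    refine (h.bil b (fun X hX => hZ.om_sp hX)).1 (fun X hX u v => ?_) X hX u v
    exact (gz_bil h.genI stab_top stab_top b).1 (fun g u _ v _ => by
      rw [hb, MonoidHom.one_apply, one_mul]) X hX u trivial v trivial
  · intro a ha hag ι _ _ f q hq' ψ hψ
    have hI : ∀ i, IrS (LZ Z) (W i) := fun i => hSI.1 (hW i)
    have hDuZ : ∀ i, Du (RZ Z) 1 (W i) (W (st i)) := fun i =>
      (h.du hZ (hI i).2.1 (hI _).2.1).1 (hDu i)
    refine det_tr Pool.Agent.Y4.P.jweil' Pool.Agent.Y317.P.Fld.x Pool.Agent.Y317.P.Idem.x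
      Pool.Agent.Y977.P.jtrace hZ W hI a (fun i h0 => ?_) (fun τ => ?_) ι f q
      (fun x y X hX v => ?_) ψ hψ
    · rcases (loc5 hZ hg (hI i)).2 with ⟨h1, -⟩ | h1
      · exfalso
        have h2 := hDu' i i ((h.du hZ (hI i).2.1 (hI i).2.1).2
          ((rz_du hZ (hI i).2.1 (hI i).2.1).2 h1))
        have h3 := ha i
        rw [← h2] at h3
        omega
      · exact h1
    · exact_mod_cast sum_of_tr hZ W hI st hst hDuZ a ha τ (h.tr_of_det hZ W hI a hag τ)
    · have h1 := (gz_equiv h.genI stab_top ((W x.1).subtype.comp (q x y))).1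
        (fun g u _ => hq' x y g u)
      exact (h.eqv ((W x.1).subtype.comp (q x y))).1 (fun X hX w => h1 X hX w trivial) X hX v
  · refine ⟨⊤, inferInstance, fun g _ v => ?_⟩
    rw [MonoidHom.one_apply, one_pow, one_mul]
    exact hφ g v

/-- The alternations of the forms killed by the involutions belong to the ring. -/
theorem ringP (hg : GoodF5 Z) {κ : Type} [Fintype κ] [DecidableEq κ]
    (φ : MultilinearMap ℂ (fun _ : κ => Fin G ⊕ Fin G → ℂ) ℂ)
    (hφ : ∀ D ∈ S, Kills (ph (Fin G ⊕ Fin G) D) φ) :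
    altQ φ ∈ Pool.Agent.Y4.P.RC (perOne Z) κ := by
  classical
  have hinv : ∀ (g : Gam (GG (LT S))) v, φ (fun k => RG (GG (LT S)) g (v k)) = φ v := by
    intro g v
    refine inv_gam φ (fun D hD _ => ?_) g v
    obtain ⟨X, hX, rfl⟩ := exists_GG hD
    exact kills_LT hφ hX
  rcases Nat.even_or_odd (Fintype.card κ) with he | ho
  · obtain ⟨n, hn⟩ := he
    have e : κ ≃ Fin n × Fin 2 := Fintype.equivOfCardEq (by
      rw [Fintype.card_prod, Fintype.card_fin, Fintype.card_fin, hn]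
      ring)
    have h1 := h.inv_memP hZ hg (φ.domDomCongr e) (fun g v => by
      rw [MultilinearMap.domDomCongr_apply, MultilinearMap.domDomCongr_apply]
      exact hinv g _)
    have h2 : φ ∈ Pool.Agent.Y4.P.NZ Z κ :=
      (Pool.Agent.Y4.P.clo_NZ Z).reindex e.symm h1 φ fun v => by
        rw [MultilinearMap.domDomCongr_apply]
        congr 1
        funext k
        simp
    exact h2 _ _
  · have h0 : φ = 0 := by
      refine MultilinearMap.ext fun v => ?_
      obtain ⟨D, hDS, -⟩ := h.ex (RingEquiv.refl ℂ)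
      have hDD : ph (Fin G ⊕ Fin G) D * ph (Fin G ⊕ Fin G) D = 1 := by
        rw [← map_mul, h.sq D hDS, map_one]
      have hDm : ph (Fin G ⊕ Fin G) D ∈ GG (LT S) := mem_GG.2 (LT_gen hDS)
      have h1 := hinv (gt hDD hDm (-1)) v
      have h2 : (fun k => RG (GG (LT S)) (gt hDD hDm (-1)) (v k)) = fun k => (-1 : ℂ) • v k := by
        funext k
        change torE (ph _ D) (-1) (v k) = _
        rw [torE_apply]
        simp only [Units.val_neg, Units.val_one, inv_neg, inv_one]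
        module
      rw [h2, MultilinearMap.map_smul_univ, Finset.prod_const, Finset.card_univ,
        Odd.neg_one_pow ho, neg_one_smul] at h1
      have h3 : φ v = 0 := by linear_combination (-1 / 2 : ℂ) * h1
      rw [h3]
      rfl
    have h1 : φ ∈ Pool.Agent.Y4.P.NZ Z κ := by
      rw [h0]
      exact Submodule.zero_mem _
    exact h1 _ _

end TD

end

end Pool.Agent.Y224.TS
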