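import Mathlib
import Pool.Agent.Y4.P.Stm

/-!
# The types of the simple factors for the theorem on Tate classes

The notation is that of `Pool.Agent.Y90.Stm`: a complex abelian variety `X` (up to isogeny) is given
by its period map `per : H → T` with `H = H_1(X, ℚ)` and the tangent space `T`; an abelian
subvariety is a rational subspace `U` of `H` the real span of which in `T` is a complex subspace
(the tangent space of the subvariety). The ring generated by divisors and Weil classes is defined in
`Pool.Agent.Y4.P.Stm` (by helper4), and the definitions below are those of his theorem on Hodge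
classes.
-/

namespace Pool.Agent.Y224.TS.StP

open Pool.Agent.H204R3.CM Pool.Agent.Y90.St

variable {H T : Type} [AddCommGroup H] [Module ℚ H] [AddCommGroup T] [Module ℂ T]

/-- The rational linear map `a` is an endomorphism of the abelian subvariety `U`. -/
def IsEndo (per : H →+ T) (U : Submodule ℚ H) (a : U →ₗ[ℚ] U) : Prop :=
  ∃ Ψ : T →ₗ[ℂ] T, ∀ u : U, Ψ (per u) = per (a u)

/-- `a` is an endomorphism of the abelian subvariety `U`, and each endomorphism of `U` which
commutes with `a` is a polynomial in `a`: for a simple `U`, the field `ℚ(a)` is a maximal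
commutative subfield of the endomorphism algebra of `U`. -/
def IsMaxEndo (per : H →+ T) (U : Submodule ℚ H) (a : U →ₗ[ℚ] U) : Prop :=
  IsEndo per U a ∧ ∀ b : U →ₗ[ℚ] U, IsEndo per U b → b ∘ₗ a = a ∘ₗ b →
    b ∈ Algebra.adjoin ℚ ({a} : Set (Module.End ℚ U))

/-- All automorphisms of `ℂ` commute with the complex conjugation on the eigenvalues of `a`: for a
simple `U`, the field `ℚ(a)` is totally real or a CM field. -/
def IsCMEndo {U : Submodule ℚ H} (a : U →ₗ[ℚ] U) : Prop :=
  ∀ z ∈ (minpoly ℚ a).aroots ℂ, ∀ σ : ℂ ≃+* ℂ, starRingEnd ℂ (σ z) = σ (starRingEnd ℂ z)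

/-- The multiplicity of `z` on the tangent space of `U`: the dimension of the intersection of the
tangent space of `U` with the eigenspace of `Ψ` for `z`. -/
noncomputable def mult (per : H →+ T) (U : Submodule ℚ H) (Ψ : T →ₗ[ℂ] T) (z : ℂ) : ℕ :=
  Module.finrank ℂ ↥(Submodule.span ℂ (per '' U) ⊓ Module.End.eigenspace Ψ z)

/-- The endomorphism algebra of the (simple) abelian subvariety `U` contains a maximal commutative
subfield `ℚ(a)` which is totally real, and the dimension of `U` is the product of the degree of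
`ℚ(a)` with `k`, where `k` is odd or `k = 2`. -/
def IsRealOddSub (per : H →+ T) (U : Submodule ℚ H) : Prop :=
  ∃ a : U →ₗ[ℚ] U, IsMaxEndo per U a ∧ (∀ z ∈ (minpoly ℚ a).aroots ℂ, z.im = 0) ∧
    ∃ k : ℕ, (Odd k ∨ k = 2) ∧ Module.finrank ℚ U = 2 * (k * (minpoly ℚ a).natDegree)

/-- The endomorphism algebra of the (simple) abelian subvariety `U` contains a maximal commutative
subfield `ℚ(a)` which is a CM field or totally real, and for some eigenvalue `z` of `a` the
multiplicities of `z` and of its complex conjugate on the tangent space of `U` are coprime. -/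
def IsCoprimeSub (per : H →+ T) (U : Submodule ℚ H) : Prop :=
  ∃ (a : U →ₗ[ℚ] U) (Ψ : T →ₗ[ℂ] T), (∀ u : U, Ψ (per u) = per (a u)) ∧ IsMaxEndo per U a ∧
    IsCMEndo a ∧ ∃ z ∈ (minpoly ℚ a).aroots ℂ,
      Nat.Coprime (mult per U Ψ z) (mult per U Ψ (starRingEnd ℂ z))

/-- All endomorphisms of the (simple) abelian subvariety `U` are polynomials in an endomorphism `a`,
the field `ℚ(a)` is a CM field (not totally real), and each eigenvalue of `a` has the multiplicity
two on the tangent space of `U`. If `ℚ(a)` is imaginary quadratic then `U` is an abelian fourfold of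
Weil type. -/
def IsTwoTwoSub (per : H →+ T) (U : Submodule ℚ H) : Prop :=
  ∃ (a : U →ₗ[ℚ] U) (Ψ : T →ₗ[ℂ] T), (∀ u : U, Ψ (per u) = per (a u)) ∧
    (∀ b : U →ₗ[ℚ] U, IsEndo per U b → b ∈ Algebra.adjoin ℚ ({a} : Set (Module.End ℚ U))) ∧
    IsCMEndo a ∧ ∀ z ∈ (minpoly ℚ a).aroots ℂ, z.im ≠ 0 ∧ mult per U Ψ z = 2

/-- Each simple abelian subvariety `U` of `X` has one of the following properties: it has complex
multiplication (`IsCMSub`); its dimension (half of the rank of `U`) is one or a prime number, with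
any endomorphisms; it has a totally real maximal commutative subfield of endomorphisms and the
relative dimension is odd or two (`IsRealOddSub`, types I and II); a maximal commutative subfield of
its endomorphisms is a CM field or totally real, and its multiplicities on the tangent space are
coprime at some place (`IsCoprimeSub`); its endomorphism algebra is a CM field all embeddings of
which have the multiplicity two (`IsTwoTwoSub`). -/
def GoodFactors (per : H →+ T) : Prop :=
  ∀ U : Submodule ℚ H, IsSimpleSub per U → IsCMSub per U ∨ Module.finrank ℚ U = 2 ∨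
    (∃ p : ℕ, p.Prime ∧ Module.finrank ℚ U = 2 * p) ∨ IsRealOddSub per U ∨
    IsCoprimeSub per U ∨ IsTwoTwoSub per U

/-- The simple abelian subvarieties of `X` are not related by twists. Let `U₁`, `U₂` be simple
abelian subvarieties with maximal commutative subfields `ℚ(a₁)`, `ℚ(a₂)` (CM fields or totally real)
of the same relative dimension `n ≥ 2`, and let `z₁`, `z₂` be eigenvalues. If for each automorphism
`σ` of `ℂ` the multiplicities of `σ z₁` and `σ z₂` agree or are both in `{0, n}`, then they agree for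
all `σ`, or `n = 2` and their sum is two for all `σ`. This always holds if no multiplicity is zero
(for relative dimensions at least two), since then the hypothesis says that the multiplicities agree
for all `σ`. -/
def IsSeparated (per : H →+ T) : Prop :=
  ∀ (U₁ U₂ : Submodule ℚ H) (a₁ : U₁ →ₗ[ℚ] U₁) (a₂ : U₂ →ₗ[ℚ] U₂) (Ψ₁ Ψ₂ : T →ₗ[ℂ] T),
    IsSimpleSub per U₁ → IsSimpleSub per U₂ → (∀ u : U₁, Ψ₁ (per u) = per (a₁ u)) →
    (∀ u : U₂, Ψ₂ (per u) = per (a₂ u)) → IsMaxEndo per U₁ a₁ → IsMaxEndo per U₂ a₂ →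
    IsCMEndo a₁ → IsCMEndo a₂ →
    ∀ z₁ ∈ (minpoly ℚ a₁).aroots ℂ, ∀ z₂ ∈ (minpoly ℚ a₂).aroots ℂ, ∀ n : ℕ, 2 ≤ n →
      mult per U₁ Ψ₁ z₁ + mult per U₁ Ψ₁ (starRingEnd ℂ z₁) = n →
      mult per U₂ Ψ₂ z₂ + mult per U₂ Ψ₂ (starRingEnd ℂ z₂) = n →
      (∀ σ : ℂ ≃+* ℂ, mult per U₁ Ψ₁ (σ z₁) = mult per U₂ Ψ₂ (σ z₂) ∨
        ((mult per U₁ Ψ₁ (σ z₁) = 0 ∨ mult per U₁ Ψ₁ (σ z₁) = n) ∧
          (mult per U₂ Ψ₂ (σ z₂) = 0 ∨ mult per U₂ Ψ₂ (σ z₂) = n))) →
      (∀ σ : ℂ ≃+* ℂ, mult per U₁ Ψ₁ (σ z₁) = mult per U₂ Ψ₂ (σ z₂)) ∨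
        (n = 2 ∧ ∀ σ : ℂ ≃+* ℂ, mult per U₁ Ψ₁ (σ z₁) + mult per U₂ Ψ₂ (σ z₂) = 2)

end Pool.Agent.Y224.TS.StP
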