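import Mathlib
import Pool.Agent.Y224.TS.V1
import Pool.Agent.Y224.TS.StmP
import Pool.Agent.Y4.P.Goo
import Pool.Agent.Y4.P.Tan

/-!
# The simple factors of the period matrix of an abelian variety

Lemmas of project P (file `Goo4` of `Pool.Agent.Y4.P`, by helper4).
-/

set_option autoImplicit false
set_option linter.unusedSectionVars false

namespace Pool.Agent.Y224.TS.PQ

open Matrix Module Pool.Agent.Y90 Pool.Agent.W437.HC Pool.Agent.W437.HD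
open Pool.Agent.W548.Odd hiding cv
open Pool.Agent.H204R3.CM (IsHodge)
open Pool.Agent.W437.HP (cK cK_mul cK_one)
open Pool.Agent.Y4.P (MaxM EigM RealOddM TwoTwoM WeilRing jtang3)
open Pool.Agent.Y4.P.G3 (Sd exists_sd)
open Pool.Agent.Y4.P.G3.Sd (Φ)
open StP (IsEndo IsMaxEndo IsCMEndo mult IsRealOddSub IsCoprimeSub IsTwoTwoSub IsSeparated)

noncomputable section

variable {H T : Type} [AddCommGroup H] [Module ℚ H] [AddCommGroup T] [Module ℂ T] {per : H →+ T}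

section sd

variable {a : ℕ} {Z' : Matrix (Fin a) (Fin a) ℂ} {U : Submodule ℚ H}
  {e : (Fin a ⊕ Fin a → ℚ) ≃ₗ[ℚ] U} {Ψ₁ : (Fin a → ℂ) →ₗ[ℂ] T} {Ψ₂ : T →ₗ[ℂ] (Fin a → ℂ)}

variable (s : Sd per Z' U e Ψ₁ Ψ₂) (h' : PM Z')
include s h'

/-- The multiplicities on the tangent space and of the eigenspaces. -/
theorem mult_eq {b : Module.End ℚ U} {Ψ : T →ₗ[ℂ] T} (hΨ : ∀ u : U, Ψ (per u) = per (b u))
    (z : ℂ) : mult per U Ψ z = pd Z' (EigM ((Φ e).symm b) z) ∧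
      mult per U Ψ (starRingEnd ℂ z) = qd Z' (EigM ((Φ e).symm b) z) := by
  obtain ⟨Ψ', h1, h4⟩ := s.tang h' hΨ
  have h5 : ∀ w : ℂ, mult per U Ψ w = pd Z' (EigM ((Φ e).symm b) w) := by
    intro w
    unfold mult
    rw [← h4]
    exact Y261.P.finrank_eigen h' h1 w
  refine ⟨h5 z, ?_⟩
  rw [h5]
  have h6 : EigM ((Φ e).symm b) (starRingEnd ℂ z) = cjS cc (EigM ((Φ e).symm b) z) :=
    (Y261.P.cjS_eqm z).symm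
  rw [h6]
  exact pd_cc _

/-- Coprime multiplicities. -/
theorem cop4 (hr : IsCoprimeSub per U) : CopM4 Z' := by
  obtain ⟨b, Ψ, hΨ, hb, hσ, z, hz, hc⟩ := hr
  refine ⟨(Φ e).symm b, s.maxM h' hb, ?_, z, ?_, ?_⟩
  · intro w hw
    rw [minpoly.algEquiv_eq (Φ e).symm b] at hw
    exact hσ w hw
  · rw [minpoly.algEquiv_eq (Φ e).symm b]
    exact hz
  · have h1 := mult_eq s h' hΨ z
    rw [← h1.1, ← h1.2]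
    exact hc

/-- Endomorphisms of the factor give endomorphisms of the abelian subvariety. -/
theorem maxEndo {φ : Matrix (Fin a ⊕ Fin a) (Fin a ⊕ Fin a) ℚ} (hφ : MaxM Z' φ) :
    IsMaxEndo per U (Φ e φ) := by
  refine ⟨s.endo h' hφ.1, fun b hb hc => ?_⟩
  obtain ⟨Ψ, hΨ⟩ := hb
  have h1 : (Φ e).symm b * φ = φ * (Φ e).symm b := by
    apply (Φ e).injective
    rw [map_mul, map_mul, AlgEquiv.apply_symm_apply]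
    exact hc
  have h5 := hφ.2 _ (s.comm h' hΨ) h1
  have h6 : Φ e ((Φ e).symm b) ∈ (Algebra.adjoin ℚ
      ({φ} : Set (Matrix (Fin a ⊕ Fin a) (Fin a ⊕ Fin a) ℚ))).map
      (Φ e : Matrix (Fin a ⊕ Fin a) (Fin a ⊕ Fin a) ℚ →ₐ[ℚ] Module.End ℚ U) := ⟨_, h5, rfl⟩
  rw [AlgHom.map_adjoin, AlgEquiv.apply_symm_apply, Set.image_singleton] at h6
  exact h6

end sd

theorem sepM {a₁ a₂ : ℕ} {Z₁ : Matrix (Fin a₁) (Fin a₁) ℂ} {Z₂ : Matrix (Fin a₂) (Fin a₂) ℂ}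
    {U₁ U₂ : Submodule ℚ H} {e₁ : (Fin a₁ ⊕ Fin a₁ → ℚ) ≃ₗ[ℚ] U₁}
    {e₂ : (Fin a₂ ⊕ Fin a₂ → ℚ) ≃ₗ[ℚ] U₂} {Ψ₁ : (Fin a₁ → ℂ) →ₗ[ℂ] T}
    {Ψ₂ : T →ₗ[ℂ] (Fin a₁ → ℂ)} {Ψ₃ : (Fin a₂ → ℂ) →ₗ[ℂ] T} {Ψ₄ : T →ₗ[ℂ] (Fin a₂ → ℂ)}
    (s₁ : Sd per Z₁ U₁ e₁ Ψ₁ Ψ₂) (s₂ : Sd per Z₂ U₂ e₂ Ψ₃ Ψ₄) (h₁ : PM Z₁) (h₂ : PM Z₂)
    (ht : IsSeparated per) {φ₁ : Matrix (Fin a₁ ⊕ Fin a₁) (Fin a₁ ⊕ Fin a₁) ℚ}
    {φ₂ : Matrix (Fin a₂ ⊕ Fin a₂) (Fin a₂ ⊕ Fin a₂) ℚ} (m₁ : MaxM Z₁ φ₁) (m₂ : MaxM Z₂ φ₂)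
    (c₁ : CMM φ₁) (c₂ : CMM φ₂) : SepM Z₁ Z₂ φ₁ φ₂ := by
  obtain ⟨Θ₁, t₁⟩ := s₁.endo h₁ m₁.1
  obtain ⟨Θ₂, t₂⟩ := s₂.endo h₂ m₂.1
  have r₁ : minpoly ℚ (Φ e₁ φ₁) = minpoly ℚ φ₁ := minpoly.algEquiv_eq (Φ e₁) φ₁
  have r₂ : minpoly ℚ (Φ e₂ φ₂) = minpoly ℚ φ₂ := minpoly.algEquiv_eq (Φ e₂) φ₂
  have key₁ : ∀ z : ℂ, mult per U₁ Θ₁ z = pd Z₁ (EigM φ₁ z) ∧
      mult per U₁ Θ₁ (starRingEnd ℂ z) = qd Z₁ (EigM φ₁ z) := by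
    intro z
    have h3 := mult_eq s₁ h₁ t₁ z
    rw [AlgEquiv.symm_apply_apply] at h3
    exact h3
  have key₂ : ∀ z : ℂ, mult per U₂ Θ₂ z = pd Z₂ (EigM φ₂ z) ∧
      mult per U₂ Θ₂ (starRingEnd ℂ z) = qd Z₂ (EigM φ₂ z) := by
    intro z
    have h3 := mult_eq s₂ h₂ t₂ z
    rw [AlgEquiv.symm_apply_apply] at h3
    exact h3
  intro z₁ hz₁ z₂ hz₂ n hn hn₁ hn₂ hyp
  have h3 := ht U₁ U₂ (Φ e₁ φ₁) (Φ e₂ φ₂) Θ₁ Θ₂ s₁.sim s₂.sim t₁ t₂ (maxEndo s₁ h₁ m₁)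
    (maxEndo s₂ h₂ m₂) (fun z hz => c₁ z (by rw [← r₁]; exact hz))
    (fun z hz => c₂ z (by rw [← r₂]; exact hz)) z₁ (by rw [r₁]; exact hz₁) z₂
    (by rw [r₂]; exact hz₂) n hn (by rw [(key₁ z₁).1, (key₁ z₁).2]; exact hn₁)
    (by rw [(key₂ z₂).1, (key₂ z₂).2]; exact hn₂)
    (fun τ => by rw [(key₁ _).1, (key₂ _).1]; exact hyp τ)
  simp only [(key₁ _).1, (key₂ _).1] at h3
  exact h3

end

end Pool.Agent.Y224.TS.PQ
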