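import Mathlib
import Pool.Agent.Y224.TS.T10
import Pool.Agent.Y224.TS.T14
import Pool.Agent.Y90.S.Asm
import Pool.Agent.Y454.S4.Odd
import Pool.Agent.Y79.S4.Two
import Pool.Agent.Y162.S4.Cop
import Pool.Agent.Y317.S4.Disc
import Pool.Agent.Y407.S4.Core

/-!
# Forms killed by the second Lie algebra belong to the system, if the simple factors are admissible
-/

set_option linter.unusedSectionVars false

namespace Pool.Agent.Y224.TS

open Matrix Module Pool.Agent.W437.HC Pool.Agent.W437.HD Pool.Agent.W548.Odd Pool.Agent.W522.U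
open Pool.Agent.H204R3.SP Pool.Agent.H204R3.GP Pool.Agent.Y90
open Pool.Agent.W437.HP (cK cK_mul cK_one)

noncomputable section

variable {G : ℕ} {Z : Matrix (Fin G) (Fin G) ℂ} {m w : ℕ}
  {S : Set (Matrix (Fin G ⊕ Fin G) (Fin G ⊕ Fin G) ℂ)}

/-- The classification of the irreducible submodules. -/
theorem locS (hZ : PM Z) (hw : 2 ≤ w) (hs : Pool.Agent.Y90.S.AdmF m w Z)
    {U : Submodule ℂ (Fin G ⊕ Fin G → ℂ)} (hU : IrS (LZ Z) U) :
    (2 ≤ finrank ℂ U → ∀ (σ : ℂ ≃+* ℂ) (c : ℂ), ∃ u ∈ U, DS Z σ *ᵥ u ≠ c • u) ∧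
      (SDu Z U ∨ (Pool.Agent.Y90.S.BlD w Z U ∨ LnD m Z U)) := by
  obtain ⟨h1, h2⟩ := Pool.Agent.Y90.S.loc3 Pool.Agent.Y758.S4.jrm Pool.Agent.Y758.S4.jrmdim
    Pool.Agent.Y454.S4.jOdd Pool.Agent.Y79.S4.jTwo Pool.Agent.Y162.S4.cop
    Pool.Agent.Y79.S4.jTwoTwo Pool.Agent.Y31.S4.jiq hZ hw hs hU
  refine ⟨fun hn => (h1 hn).2, ?_⟩
  rcases h2 with ⟨h3, -⟩ | h3
  · exact Or.inl h3
  · exact Or.inr h3

namespace TD

variable (h : TD Z S) (hZ : PM Z)
include h hZ

/-- Invariant forms. -/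
theorem inv_memS (hm : 1 ≤ m) (hw : 2 ≤ w) (hs : Pool.Agent.Y90.S.AdmF m w Z) {n : ℕ}
    (φ : MultilinearMap ℂ (fun _ : Fin n × Fin 2 => Fin G ⊕ Fin G → ℂ) ℂ)
    (hφ : ∀ (g : Gam (GG (LT S))) v, φ (fun k => RG (GG (LT S)) g (v k)) = φ v) :
    φ ∈ Pool.Agent.Y90.S.NG m w (perOne Z) (Fin n × Fin 2) := by
  have hSI : ∀ {U}, W522.U.SI (RG (GG (LT S))) U ↔ IrS (LZ Z) U := fun {U} => h.si hZ
  have hp := gz_proj h.genI h.cr
  obtain ⟨s, W, hW, hWW, hall⟩ := exists_reps hp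
  obtain ⟨st, hst, hDu, hDu'⟩ := exists_st (χ := 1) hp (om G) om_nd (h.om' hZ) W hW hWW hall
  refine forms_mem3 (χ := 1) (fun Δ hΔ => fi_top Δ hΔ) (om G) om_nd (h.om' hZ) ?_ ?_ ?_ hp
    W hW hWW hall st hst hDu hDu' (Pool.Agent.Y90.S.NG m w (perOne Z)) (Pool.Agent.Y90.S.clo_NG hZ.isAV) ?_ ?_ φ ?_
  · intro U hU hn
    exact h.unip_of hZ (h.rkS hZ hs (hSI.1 hU) hn ((locS hZ hw hs (hSI.1 hU)).1 hn))
  · intro U hU hn
    exact h.line hZ (hSI.1 hU) hn
  · intro U U' hU hU' hn _ ψ hT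
    exact h.twist hZ (hSI.1 hU) ((locS hZ hw hs (hSI.1 hU)).1 hn) ψ hT
  · intro b hb
    refine Pool.Agent.Y90.S.bil_memS hZ b fun g u v => ?_
    rw [MonoidHom.one_apply, one_mul]
    refine (rz_bil hZ stab_top stab_top b).2 (fun X hX u _ v _ => ?_) g u trivial v trivial
    refine (h.bil b (fun X hX => hZ.om_sp hX)).1 (fun X hX u v => ?_) X hX u v
    exact (gz_bil h.genI stab_top stab_top b).1 (fun g u _ v _ => by
      rw [hb, MonoidHom.one_apply, one_mul]) X hX u trivial v trivial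
  · intro a ha hag ι _ _ f Q hQ ψ hψ
    have hI : ∀ i, IrS (LZ Z) (W i) := fun i => hSI.1 (hW i)
    have hDuZ : ∀ i, Du (RZ Z) 1 (W i) (W (st i)) := fun i =>
      (h.du hZ (hI i).2.1 (hI _).2.1).1 (hDu i)
    refine Pool.Agent.Y90.S.reduceS Pool.Agent.Y317.S4.Disc.x Pool.Agent.Y407.S4.core hZ hm (fun q : (Σ i, Fin (a i).toNat) => W q.1) (fun q => hI q.1) (fun q => ?_)
      (fun σ => sum_of_tr hZ W hI st hst hDuZ a ha σ.symm
        (h.tr_of_det hZ W hI a hag σ.symm)) ι f Q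
      (fun q y => h.eqv_key hZ _ _ (hQ q y)) ψ hψ
    rcases (locS hZ hw hs (hI q.1)).2 with h1 | h1
    · exfalso
      have h2 := hDu' q.1 q.1 ((h.du hZ (hI q.1).2.1 (hI q.1).2.1).2
        ((rz_du hZ (hI q.1).2.1 (hI q.1).2.1).2 h1))
      have h3 := ha q.1
      rw [← h2] at h3
      have h4 : a q.1 = 0 := by omega
      have h5 := q.2.2
      have h6 : (a q.1).toNat = 0 := by rw [h4]; rfl
      exact absurd (lt_of_lt_of_eq h5 h6) (Nat.not_lt_zero _)
    · exact h1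
  · refine ⟨⊤, inferInstance, fun g _ v => ?_⟩
    rw [MonoidHom.one_apply, one_pow, one_mul]
    exact hφ g v

/-- The alternations of the forms killed by the involutions belong to the system. -/
theorem ringS (hm : 1 ≤ m) (hw : 2 ≤ w) (hs : Pool.Agent.Y90.S.AdmF m w Z) {κ : Type} [Fintype κ] [DecidableEq κ]
    (φ : MultilinearMap ℂ (fun _ : κ => Fin G ⊕ Fin G → ℂ) ℂ)
    (hφ : ∀ D ∈ S, Kills (ph (Fin G ⊕ Fin G) D) φ) : altQ φ ∈ Pool.Agent.Y90.S.RG' m w (perOne Z) κ := by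
  classical
  have hinv : ∀ (g : Gam (GG (LT S))) v, φ (fun k => RG (GG (LT S)) g (v k)) = φ v := by
    intro g v
    refine inv_gam φ (fun D hD _ => ?_) g v
    obtain ⟨X, hX, rfl⟩ := exists_GG hD
    exact kills_LT hφ hX
  rcases Nat.even_or_odd (Fintype.card κ) with he | ho
  · obtain ⟨n, hn⟩ := he
    have e : κ ≃ Fin n × Fin 2 := Fintype.equivOfCardEq (by
      rw [Fintype.card_prod, Fintype.card_fin, Fintype.card_fin, hn]
      ring)
    have h1 := h.inv_memS hZ hm hw hs (φ.domDomCongr e) (fun g v => by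
      rw [MultilinearMap.domDomCongr_apply, MultilinearMap.domDomCongr_apply]
      exact hinv g _)
    have h2 : φ ∈ Pool.Agent.Y90.S.NG m w (perOne Z) κ := (Pool.Agent.Y90.S.clo_NG hZ.isAV).reindex e.symm h1 φ fun v => by
      rw [MultilinearMap.domDomCongr_apply]
      congr 1
      funext k
      simp
    exact h2 _ _
  · have h0 : φ = 0 := by
      refine MultilinearMap.ext fun v => ?_
      obtain ⟨D, hDS, -⟩ := h.ex (RingEquiv.refl ℂ)
      have hDD : ph (Fin G ⊕ Fin G) D * ph (Fin G ⊕ Fin G) D = 1 := by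
        rw [← map_mul, h.sq D hDS, map_one]
      have hDm : ph (Fin G ⊕ Fin G) D ∈ GG (LT S) := mem_GG.2 (LT_gen hDS)
      have h1 := hinv (gt hDD hDm (-1)) v
      have h2 : (fun k => RG (GG (LT S)) (gt hDD hDm (-1)) (v k)) = fun k => (-1 : ℂ) • v k := by
        funext k
        change torE (ph _ D) (-1) (v k) = _
        rw [torE_apply]
        simp only [Units.val_neg, Units.val_one, inv_neg, inv_one]
        module
      rw [h2, MultilinearMap.map_smul_univ, Finset.prod_const, Finset.card_univ,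
        Odd.neg_one_pow ho, neg_one_smul] at h1
      have h3 : φ v = 0 := by linear_combination (-1 / 2 : ℂ) * h1
      rw [h3]
      rfl
    have h1 : φ ∈ Pool.Agent.Y90.S.NG m w (perOne Z) κ := by
      rw [h0]
      exact Submodule.zero_mem _
    exact h1 _ _

end TD

end

end Pool.Agent.Y224.TS
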