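import Mathlib
import Pool.Agent.Y224.TS.D9
import Pool.Agent.Y224.TS.T15
import Pool.Agent.Y90.S.Ab
import Pool.Agent.Y606.S4.TransR
import Pool.Agent.Y941.S4.TransQ

/-!
# Tate classes on admissible abelian varieties
-/

set_option linter.unusedSectionVars false

namespace Pool.Agent.Y224.TS

open Matrix Module Pool.Agent.W437.HC Pool.Agent.W437.HD Pool.Agent.W548.Odd Pool.Agent.Y90
open Pool.Agent.H204R3.SP Pool.Agent.H204R3.GP TensorProduct
open St (IsHodgeTate IsTateModule)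
open Pool.Agent.W437.HP (cK cK_mul cK_one)

noncomputable section

variable {H : Type} [AddCommGroup H] [Module ℚ H] {K : Type} [Field K] [CharZero K] [Algebra K ℂ]
  {T : Type} [AddCommGroup T] [Module ℂ T] {per : H →+ T} {Γ : Type} [Group Γ]
  {ρ : Representation K Γ (K ⊗[ℚ] H)} {χ : Γ →* K} {E : H → H → ℚ}

/-- **Tate classes** on admissible abelian varieties. -/
theorem tate_admissible [Algebra.IsAlgebraic K ℂ] {m w : ℕ} (hm : 1 ≤ m) (hw : 2 ≤ w)
    (hX : Pool.Agent.Y90.St.IsAV per) (hs : Pool.Agent.Y90.S.Admissible m w per)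
    (hE : Pool.Agent.Y90.St.IsPolarization per E) (hρ : IsTateModule per E ρ χ) {κ : Type}
    [Finite κ] {n : ℕ} (hκ : Nat.card κ = 2 * n) (φ : (K ⊗[ℚ] H) [⋀^κ]→ₗ[K] K)
    (hφ : ∃ Δ : Subgroup Γ, Δ.FiniteIndex ∧ ∀ g ∈ Δ, ∀ v : κ → K ⊗[ℚ] H,
      φ (fun k => ρ g (v k)) = χ g ^ n * φ v) :
    ∃ (N : ℕ) (c : Fin N → K) (f : Fin N → (H [⋀^κ]→ₗ[ℚ] ℚ)),
      (∀ j, Pool.Agent.Y90.S.Generated m w per κ (f j)) ∧
        ∀ v : κ → H, φ (fun k => (1 : K) ⊗ₜ[ℚ] v k) = ∑ j, c j * ((f j v : ℚ) : K) := by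
  classical
  obtain ⟨a, Z, hZ, b, hC, hb⟩ := exists_ppav' hX hE
  have hsf : Pool.Agent.Y90.S.AdmF m w Z :=
    Pool.Agent.Y90.S.admF_of Pool.Agent.Y606.S4.jTransR Pool.Agent.Y941.S4.jTransQ b.equivFun hC hs
  have hTD : TD Z (SH per ρ χ b) := td_of b hb hC hρ
  obtain ⟨Ψ₂, h₂⟩ := hC.hom hZ.cht (R := 1) (by rw [cK_one, Matrix.one_mul, Matrix.mul_one])
  have e₂ : ∀ v, Ψ₂ (per v) = perOne Z (b.equivFun v) := fun v => by
    have h3 := h₂ (b.equivFun v)
    have h4 : (per.comp b.equivFun.symm.toLinearMap.toAddMonoidHom) (b.equivFun v) = per v := by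
      change per (b.equivFun.symm (b.equivFun v)) = per v
      rw [LinearEquiv.symm_apply_apply]
    rwa [h4, one_mulVec] at h3
  obtain ⟨e, N, c, r, hr, h⟩ := tate_descent b
    (fun κ r => Pool.Agent.Y90.S.Generated m w (perOne Z) κ r)
    (fun n φ hφ => by
      have h1 := hTD.ringS hZ hm hw hsf φ hφ
      unfold Pool.Agent.Y90.S.RG' at h1
      refine Submodule.span_mono ?_ h1
      rintro g ⟨r, hr, rfl⟩
      exact ⟨r, hr, rfl⟩) hκ φ hφ
  refine ⟨N, c, fun j => ((r j).compLinearMap b.equivFun.toLinearMap).domDomCongr e.symm,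
    fun j => ?_, fun v => ?_⟩
  · exact Pool.Agent.Y90.S.Generated.reindex e.symm _
      (Pool.Agent.Y90.S.Generated.pull hX _ (hr j) b.equivFun.toLinearMap ⟨Ψ₂, e₂⟩)
  · rw [h v]
    rfl

end

end Pool.Agent.Y224.TS
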